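import Pool.Agent.StripNear.Basic
import Mathlib.Analysis.Real.Sqrt

/-! # Bounds of the row distance -/

namespace Pool.Agent.Strip051.LB

open Pool.Agent.StripNear

theorem hs3 : Real.sqrt (3 : ℝ) = 2 * h0 := by
  unfold h0
  ring

theorem h0_lo : 8660254037 / 10000000000 < h0 := by
  unfold h0
  have : (2 * (8660254037 / 10000000000) : ℝ) < Real.sqrt 3 := Real.lt_sqrt_of_sq_lt (by norm_num)
  linarith

theorem h0_hi : h0 < 8660254038 / 10000000000 := by
  unfold h0
  have : Real.sqrt 3 < (2 * (8660254038 / 10000000000) : ℝ) := by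
    rw [Real.sqrt_lt' (by norm_num)]
    norm_num
  linarith

end Pool.Agent.Strip051.LB
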