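import Pool.Agent.Strip051.LB.A0m1m_pm.C1
import Pool.Agent.Strip051.LB.A0m1m_pm.C2
import Pool.Agent.Strip051.LB.A0m1m_pm.C3
import Pool.Agent.Strip051.LB.A0m1m_pm.C4
import Pool.Agent.Strip051.LB.A0m1m_pm.C5
import Pool.Agent.Strip051.LB.A0m1m_pm.C6

/-! # LINE boxes A0m1m_pm: assembly -/

namespace Pool.Agent.Strip051.LB.A0m1m_pm

open Pool.Agent.Strip051.Box Pool.Agent.Strip051.Box2 Pool.Agent.Strip051.LB

open Pool.Agent.Strip051.LB.Fn Pool.Agent.Strip051.LB.Fn.F2

theorem all (x1 x2 : ℝ) (h : Mem S b0 x1 x2) : Q x1 x2 := by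
  rcases mem_split1 h with h | h
  · rcases mem_split2 h with h | h
    · exact chk_all c0 x1 x2 h
    · rcases mem_split2 h with h | h
      · rcases mem_split1 h with h | h
        · exact chk_all c1 x1 x2 h
        · rcases mem_split2 h with h | h
          · exact chk_all c2 x1 x2 h
          · rcases mem_split1 h with h | h
            · exact chk_all c3 x1 x2 h
            · rcases mem_split2 h with h | h
              · rcases mem_split1 h with h | h
                · exact chk_all c4 x1 x2 h
                · rcases mem_split2 h with h | h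
                  · exact chk_all c5 x1 x2 h
                  · rcases mem_split1 h with h | h
                    · exact chk_all c6 x1 x2 h
                    · rcases mem_split1 h with h | h
                      · exact chk_all c7 x1 x2 h
                      · exact chk_all c8 x1 x2 h
              · rcases mem_split1 h with h | h
                · rcases mem_split2 h with h | h
                  · exact chk_all c9 x1 x2 h
                  · rcases mem_split1 h with h | h
                    · exact chk_all c10 x1 x2 h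
                    · rcases mem_split2 h with h | h
                      · exact chk_all c11 x1 x2 h
                      · exact chk_all c12 x1 x2 h
                · rcases mem_split2 h with h | h
                  · rcases mem_split1 h with h | h
                    · rcases mem_split1 h with h | h
                      · exact chk_all c13 x1 x2 h
                      · exact chk_all c14 x1 x2 h
                    · exact chk_all c15 x1 x2 h
                  · exact chk_all c16 x1 x2 h
      · rcases mem_split1 h with h | h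
        · rcases mem_split2 h with h | h
          · exact chk_all c17 x1 x2 h
          · rcases mem_split1 h with h | h
            · exact chk_all c18 x1 x2 h
            · rcases mem_split2 h with h | h
              · rcases mem_split1 h with h | h
                · exact chk_all c19 x1 x2 h
                · rcases mem_split2 h with h | h
                  · exact chk_all c20 x1 x2 h
                  · exact chk_all c21 x1 x2 h
              · rcases mem_split1 h with h | h
                · exact chk_all c22 x1 x2 h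
                · exact chk_all c23 x1 x2 h
        · rcases mem_split2 h with h | h
          · rcases mem_split1 h with h | h
            · rcases mem_split2 h with h | h
              · rcases mem_split1 h with h | h
                · exact chk_all c24 x1 x2 h
                · rcases mem_split2 h with h | h
                  · exact chk_all c25 x1 x2 h
                  · rcases mem_split1 h with h | h
                    · exact chk_all c26 x1 x2 h
                    · rcases mem_split2 h with h | h
                      · exact chk_all c27 x1 x2 h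
                      · exact chk_all c28 x1 x2 h
              · rcases mem_split1 h with h | h
                · rcases mem_split2 h with h | h
                  · exact chk_all c29 x1 x2 h
                  · rcases mem_split1 h with h | h
                    · exact chk_all c30 x1 x2 h
                    · rcases mem_split2 h with h | h
                      · exact chk_all c31 x1 x2 h
                      · exact chk_all c32 x1 x2 h
                · rcases mem_split2 h with h | h
                  · rcases mem_split1 h with h | h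
                    · rcases mem_split2 h with h | h
                      · exact chk_all c33 x1 x2 h
                      · exact chk_all c34 x1 x2 h
                    · exact chk_all c35 x1 x2 h
                  · exact chk_all c36 x1 x2 h
            · rcases mem_split2 h with h | h
              · rcases mem_split1 h with h | h
                · rcases mem_split2 h with h | h
                  · rcases mem_split1 h with h | h
                    · rcases mem_split2 h with h | h
                      · exact chk_all c37 x1 x2 h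
                      · exact chk_all c38 x1 x2 h
                    · exact chk_all c39 x1 x2 h
                  · exact chk_all c40 x1 x2 h
                · exact chk_all c41 x1 x2 h
              · exact chk_all c42 x1 x2 h
          · rcases mem_split1 h with h | h
            · rcases mem_split2 h with h | h
              · rcases mem_split1 h with h | h
                · rcases mem_split1 h with h | h
                  · rcases mem_split2 h with h | h
                    · rcases mem_split1 h with h | h
                      · exact chk_all c43 x1 x2 h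
                      · exact chk_all c44 x1 x2 h
                    · exact chk_all c45 x1 x2 h
                  · exact chk_all c46 x1 x2 h
                · exact chk_all c47 x1 x2 h
              · exact chk_all c48 x1 x2 h
            · exact chk_all c49 x1 x2 h
  · rcases mem_split2 h with h | h
    · rcases mem_split1 h with h | h
      · exact chk_all c50 x1 x2 h
      · rcases mem_split2 h with h | h
        · rcases mem_split2 h with h | h
          · exact chk_all c51 x1 x2 h
          · rcases mem_split1 h with h | h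
            · exact chk_all c52 x1 x2 h
            · exact chk_all c53 x1 x2 h
        · exact chk_all c54 x1 x2 h
    · rcases mem_split1 h with h | h
      · rcases mem_split2 h with h | h
        · rcases mem_split2 h with h | h
          · rcases mem_split1 h with h | h
            · rcases mem_split2 h with h | h
              · exact chk_all c55 x1 x2 h
              · rcases mem_split1 h with h | h
                · rcases mem_split2 h with h | h
                  · exact chk_all c56 x1 x2 h
                  · rcases mem_split1 h with h | h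
                    · exact chk_all c57 x1 x2 h
                    · rcases mem_split2 h with h | h
                      · exact chk_all c58 x1 x2 h
                      · exact chk_all c59 x1 x2 h
                · exact chk_all c60 x1 x2 h
            · exact chk_all c61 x1 x2 h
          · rcases mem_split1 h with h | h
            · rcases mem_split2 h with h | h
              · rcases mem_split1 h with h | h
                · rcases mem_split2 h with h | h
                  · rcases mem_split1 h with h | h
                    · rcases mem_split1 h with h | h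
                      · exact chk_all c62 x1 x2 h
                      · exact chk_all c63 x1 x2 h
                    · exact chk_all c64 x1 x2 h
                  · exact chk_all c65 x1 x2 h
                · exact chk_all c66 x1 x2 h
              · exact chk_all c67 x1 x2 h
            · exact chk_all c68 x1 x2 h
        · exact chk_all c69 x1 x2 h
      · exact chk_all c70 x1 x2 h

theorem e3 (t t2 : ℝ) : v3 t t2 = c1f_v t := by
  first | rfl | (simp only [v3, v0]; done) | (simp only [v3, v0]; push_cast; (try simp only [hs3]); (try ring))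

theorem e5 (t t2 : ℝ) : v5 t t2 = t + t2 := by
  first | rfl | (simp only [v5, v0, v4]; done) | (simp only [v5, v0, v4]; push_cast; (try simp only [hs3]); (try ring))

theorem e7 (t t2 : ℝ) : v7 t t2 = -(f1m_v t2) := by
  first | rfl | (simp only [v7, v6, v4]; done) | (simp only [v7, v6, v4]; push_cast; (try simp only [hs3]); (try ring))

theorem e8 (t t2 : ℝ) : v8 t t2 = (c1f_v t + -(f1m_v t2)) := by
  first | rfl | (simp only [v8, e3, v6, v4]; done) | (simp only [v8, e3, v6, v4]; push_cast; (try simp only [hs3]); (try ring))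

theorem e9 (t t2 : ℝ) : v9 t t2 = exf_v (c1f_v t) (-(f1m_v t2)) t t2 := by
  first | rfl | (simp only [v9, e3, e7, v0, v4]; done) | (simp only [v9, e3, e7, v0, v4]; push_cast; (try simp only [hs3]); (try ring))

theorem e10 (t t2 : ℝ) : v10 t t2 = t + t2 - 2 * Pool.Agent.StripNear.h0 := by
  first | rfl | (simp only [v10, e5, v1]; done) | (simp only [v10, e5, v1]; push_cast; (try simp only [hs3]); (try ring))

theorem e11 (t t2 : ℝ) : v11 t t2 = q3f_v (c1f_v t + -(f1m_v t2)) (t + t2) := by
  first | rfl | (simp only [v11, e8, e5]; done) | (simp only [v11, e8, e5]; push_cast; (try simp only [hs3]); (try ring))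

theorem e13 (t t2 : ℝ) : v13 t t2 = 1 - q3f_v (c1f_v t + -(f1m_v t2)) (t + t2) := by
  first | rfl | (simp only [v13, v12, e11]; done) | (simp only [v13, v12, e11]; push_cast; (try simp only [hs3]); (try ring))

theorem e15 (t t2 : ℝ) : v15 t t2 = q3f_v (c1f_v t + -(f1m_v t2)) (t + t2) - 3 := by
  first | rfl | (simp only [v15, e11, v14]; done) | (simp only [v15, e11, v14]; push_cast; (try simp only [hs3]); (try ring))

theorem e18 (t t2 : ℝ) : v18 t t2 = -(exf_v (c1f_v t) (-(f1m_v t2)) t t2 + 1 / 2) := by
  first | rfl | (simp only [v18, v17, e9, v16]; done) | (simp only [v18, v17, e9, v16]; push_cast; (try simp only [hs3]); (try ring))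

theorem e19 (t t2 : ℝ) : v19 t t2 = a1q0_v t := by
  first | rfl | (simp only [v19, v0]; done) | (simp only [v19, v0]; push_cast; (try simp only [hs3]); (try ring))

theorem e21 (t t2 : ℝ) : v21 t t2 = -(v1q0_v t2) := by
  first | rfl | (simp only [v21, v20, v4]; done) | (simp only [v21, v20, v4]; push_cast; (try simp only [hs3]); (try ring))

theorem e22 (t t2 : ℝ) : v22 t t2 = rq1_v (c1f_v t + -(f1m_v t2)) (t + t2) := by
  first | rfl | (simp only [v22, e8, e5]; done) | (simp only [v22, e8, e5]; push_cast; (try simp only [hs3]); (try ring))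

theorem e23 (t t2 : ℝ) : v23 t t2 = sl001_v (exf_v (c1f_v t) (-(f1m_v t2)) t t2) t t2 (t + t2) (a1q0_v t) (-(v1q0_v t2)) (rq1_v (c1f_v t + -(f1m_v t2)) (t + t2)) := by
  first | rfl | (simp only [v23, e9, v0, v4, e5, e19, e21, e22]; done) | (simp only [v23, e9, v0, v4, e5, e19, e21, e22]; push_cast; (try simp only [hs3]); (try ring))

theorem e26 (t t2 : ℝ) : v26 t t2 = -((t + t2) - 1 / 2 * Pool.Agent.StripNear.h0) := by
  first | rfl | (simp only [v26, v24, v1, e5]; done) | (simp only [v26, v24, v1, e5]; push_cast; (try simp only [hs3]); (try ring))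

theorem e27 (t t2 : ℝ) : v27 t t2 = -((t + t2) - 1 * Pool.Agent.StripNear.h0) := by
  first | rfl | (simp only [v27, v2, v1, e5]; done) | (simp only [v27, v2, v1, e5]; push_cast; (try simp only [hs3]); (try ring))

theorem e28 (t t2 : ℝ) : v28 t t2 = -(1 * Pool.Agent.StripNear.h0 - (t + t2)) := by
  first | rfl | (simp only [v28, e5, v2, v1]; done) | (simp only [v28, e5, v2, v1]; push_cast; (try simp only [hs3]); (try ring))

theorem e29 (t t2 : ℝ) : v29 t t2 = -(t2 - 1 / 2 * Pool.Agent.StripNear.h0) := by
  first | rfl | (simp only [v29, v24, v1, v4]; done) | (simp only [v29, v24, v1, v4]; push_cast; (try simp only [hs3]); (try ring))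

theorem e30 (t t2 : ℝ) : v30 t t2 = -(1 / 2 * Pool.Agent.StripNear.h0 - t2) := by
  first | rfl | (simp only [v30, v4, v24, v1]; done) | (simp only [v30, v4, v24, v1]; push_cast; (try simp only [hs3]); (try ring))

theorem e32 (t t2 : ℝ) : v32 t t2 = -(v1q1_v t2) := by
  first | rfl | (simp only [v32, v31, v4]; done) | (simp only [v32, v31, v4]; push_cast; (try simp only [hs3]); (try ring))

theorem e33 (t t2 : ℝ) : v33 t t2 = sl011_v (exf_v (c1f_v t) (-(f1m_v t2)) t t2) t t2 (t + t2) (a1q0_v t) (-(v1q1_v t2)) (rq1_v (c1f_v t + -(f1m_v t2)) (t + t2)) := by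
  first | rfl | (simp only [v33, e9, v0, v4, e5, e19, e32, e22]; done) | (simp only [v33, e9, v0, v4, e5, e19, e32, e22]; push_cast; (try simp only [hs3]); (try ring))

theorem e34 (t t2 : ℝ) : v34 t t2 = rq2_v (c1f_v t + -(f1m_v t2)) (t + t2) := by
  first | rfl | (simp only [v34, e8, e5]; done) | (simp only [v34, e8, e5]; push_cast; (try simp only [hs3]); (try ring))

theorem e35 (t t2 : ℝ) : v35 t t2 = sl012_v (exf_v (c1f_v t) (-(f1m_v t2)) t t2) t t2 (t + t2) (a1q0_v t) (-(v1q1_v t2)) (rq2_v (c1f_v t + -(f1m_v t2)) (t + t2)) := by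
  first | rfl | (simp only [v35, e9, v0, v4, e5, e19, e32, e34]; done) | (simp only [v35, e9, v0, v4, e5, e19, e32, e34]; push_cast; (try simp only [hs3]); (try ring))

theorem e37 (t t2 : ℝ) : v37 t t2 = -((t + t2) - 3 / 2 * Pool.Agent.StripNear.h0) := by
  first | rfl | (simp only [v37, v36, v1, e5]; done) | (simp only [v37, v36, v1, e5]; push_cast; (try simp only [hs3]); (try ring))

theorem e38 (t t2 : ℝ) : v38 t t2 = -(3 / 2 * Pool.Agent.StripNear.h0 - (t + t2)) := by
  first | rfl | (simp only [v38, e5, v36, v1]; done) | (simp only [v38, e5, v36, v1]; push_cast; (try simp only [hs3]); (try ring))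

theorem e40 (t t2 : ℝ) : v40 t t2 = -(1 * Pool.Agent.StripNear.h0 - t2) := by
  first | rfl | (simp only [v40, v4, v2, v1]; done) | (simp only [v40, v4, v2, v1]; push_cast; (try simp only [hs3]); (try ring))

theorem e41 (t t2 : ℝ) : v41 t t2 = -(t - 1 / 2 * Pool.Agent.StripNear.h0) := by
  first | rfl | (simp only [v41, v24, v1, v0]; done) | (simp only [v41, v24, v1, v0]; push_cast; (try simp only [hs3]); (try ring))

theorem e42 (t t2 : ℝ) : v42 t t2 = -(1 / 2 * Pool.Agent.StripNear.h0 - t) := by
  first | rfl | (simp only [v42, v0, v24, v1]; done) | (simp only [v42, v0, v24, v1]; push_cast; (try simp only [hs3]); (try ring))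

theorem e43 (t t2 : ℝ) : v43 t t2 = a1q1_v t := by
  first | rfl | (simp only [v43, v0]; done) | (simp only [v43, v0]; push_cast; (try simp only [hs3]); (try ring))

theorem e44 (t t2 : ℝ) : v44 t t2 = sl101_v (exf_v (c1f_v t) (-(f1m_v t2)) t t2) t t2 (t + t2) (a1q1_v t) (-(v1q0_v t2)) (rq1_v (c1f_v t + -(f1m_v t2)) (t + t2)) := by
  first | rfl | (simp only [v44, e9, v0, v4, e5, e43, e21, e22]; done) | (simp only [v44, e9, v0, v4, e5, e43, e21, e22]; push_cast; (try simp only [hs3]); (try ring))

theorem e47 (t t2 : ℝ) : v47 t t2 = 1/10 - (1 * Pool.Agent.StripNear.h0 - t) := by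
  first | rfl | (simp only [v47, v46, v45, v2, v1, v0]; done) | (simp only [v47, v46, v45, v2, v1, v0]; push_cast; (try simp only [hs3]); (try ring))

theorem e49 (t t2 : ℝ) : v49 t t2 = 1/10 - (t2 - 0 * Pool.Agent.StripNear.h0) := by
  first | rfl | (simp only [v49, v46, v4]; done) | (simp only [v49, v46, v4]; push_cast; (try simp only [hs3]); (try ring))

theorem e50 (t t2 : ℝ) : v50 t t2 = 1/10 - (1 * Pool.Agent.StripNear.h0 - (t + t2)) := by
  first | rfl | (simp only [v50, v46, e27]; done) | (simp only [v50, v46, e27]; push_cast; (try simp only [hs3]); (try ring))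

theorem e51 (t t2 : ℝ) : v51 t t2 = sl102_v (exf_v (c1f_v t) (-(f1m_v t2)) t t2) t t2 (t + t2) (a1q1_v t) (-(v1q0_v t2)) (rq2_v (c1f_v t + -(f1m_v t2)) (t + t2)) := by
  first | rfl | (simp only [v51, e9, v0, v4, e5, e43, e21, e34]; done) | (simp only [v51, e9, v0, v4, e5, e43, e21, e34]; push_cast; (try simp only [hs3]); (try ring))

theorem e52 (t t2 : ℝ) : v52 t t2 = 1/10 - ((t + t2) - 1 * Pool.Agent.StripNear.h0) := by
  first | rfl | (simp only [v52, v46, e28]; done) | (simp only [v52, v46, e28]; push_cast; (try simp only [hs3]); (try ring))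

theorem e53 (t t2 : ℝ) : v53 t t2 = sl112_v (exf_v (c1f_v t) (-(f1m_v t2)) t t2) t t2 (t + t2) (a1q1_v t) (-(v1q1_v t2)) (rq2_v (c1f_v t + -(f1m_v t2)) (t + t2)) := by
  first | rfl | (simp only [v53, e9, v0, v4, e5, e43, e32, e34]; done) | (simp only [v53, e9, v0, v4, e5, e43, e32, e34]; push_cast; (try simp only [hs3]); (try ring))

theorem e54 (t t2 : ℝ) : v54 t t2 = rq3_v (c1f_v t + -(f1m_v t2)) (t + t2) := by
  first | rfl | (simp only [v54, e8, e5]; done) | (simp only [v54, e8, e5]; push_cast; (try simp only [hs3]); (try ring))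

theorem e55 (t t2 : ℝ) : v55 t t2 = sl113_v (exf_v (c1f_v t) (-(f1m_v t2)) t t2) t t2 (t + t2) (a1q1_v t) (-(v1q1_v t2)) (rq3_v (c1f_v t + -(f1m_v t2)) (t + t2)) := by
  first | rfl | (simp only [v55, e9, v0, v4, e5, e43, e32, e54]; done) | (simp only [v55, e9, v0, v4, e5, e43, e32, e54]; push_cast; (try simp only [hs3]); (try ring))

theorem e56 (t t2 : ℝ) : v56 t t2 = -(1 * Pool.Agent.StripNear.h0 - t) := by
  first | rfl | (simp only [v56, v0, v2, v1]; done) | (simp only [v56, v0, v2, v1]; push_cast; (try simp only [hs3]); (try ring))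

theorem mem0 {t t2 : ℝ} (h1 : 0 ≤ t) (h2 : t ≤ Pool.Agent.StripNear.h0) (h3 : 0 ≤ t2) (h4 : t2 ≤ Pool.Agent.StripNear.h0) : Mem S b0 t t2 := by
  have g1 := h0_lo
  have g2 := h0_hi
  unfold Mem b0
  refine ⟨abs_le.mpr ⟨?_, ?_⟩, abs_le.mpr ⟨?_, ?_⟩⟩ <;> norm_num [S] <;> linarith

theorem fin001 {t t2 : ℝ} (h1 : 0 * Pool.Agent.StripNear.h0 ≤ t) (h1' : t ≤ 1 / 2 * Pool.Agent.StripNear.h0) (h2 : 0 * Pool.Agent.StripNear.h0 ≤ t2) (h2' : t2 ≤ 1 / 2 * Pool.Agent.StripNear.h0) (h3 : 1 / 2 * Pool.Agent.StripNear.h0 ≤ t + t2) (h3' : t + t2 ≤ 1 * Pool.Agent.StripNear.h0) (h6 : t + t2 ≤ 2 * Pool.Agent.StripNear.h0) (ho : 0 ≤ exf_v (c1f_v t) (-(f1m_v t2)) t t2 + 1 / 2) (hq1 : 1 ≤ q3f_v (c1f_v t + -(f1m_v t2)) (t + t2)) (hq3 : q3f_v (c1f_v t + -(f1m_v t2)) (t + t2) ≤ 3) :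
    0 < sl001_v (exf_v (c1f_v t) (-(f1m_v t2)) t t2) t t2 (t + t2) (a1q0_v t) (-(v1q0_v t2)) (rq1_v (c1f_v t + -(f1m_v t2)) (t + t2)) := by
  have hp := Pool.Agent.StripNear.h0_pos
  have hm : Mem S b0 t t2 := mem0 (by linarith) (by linarith) (by linarith) (by linarith)
  have h : Q t t2 := all t t2 hm
  unfold Q P13 at h
  rcases h with (h | h | h | h) | h
  · exfalso; rw [e10] at h; linarith
  · exfalso; rw [e13] at h; linarith
  · exfalso; rw [e15] at h; linarith
  · exfalso; rw [e18] at h; linarith
  replace h := h.1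
  unfold P5 at h
  rcases h with h | h
  · exfalso; rw [e42] at h; linarith
  replace h := h.1
  unfold P1 at h
  rcases h with h | h
  · exfalso; rw [e30] at h; linarith
  unfold P0 at h
  rcases h with h | h | h
  · exfalso; rw [e26] at h; linarith
  · exfalso; rw [e28] at h; linarith
  · rw [e23] at h; exact h

theorem fin011 {t t2 : ℝ} (h1 : 0 * Pool.Agent.StripNear.h0 ≤ t) (h1' : t ≤ 1 / 2 * Pool.Agent.StripNear.h0) (h2 : 1 / 2 * Pool.Agent.StripNear.h0 ≤ t2) (h2' : t2 ≤ 1 * Pool.Agent.StripNear.h0) (h3 : 1 / 2 * Pool.Agent.StripNear.h0 ≤ t + t2) (h3' : t + t2 ≤ 1 * Pool.Agent.StripNear.h0) (h6 : t + t2 ≤ 2 * Pool.Agent.StripNear.h0) (ho : 0 ≤ exf_v (c1f_v t) (-(f1m_v t2)) t t2 + 1 / 2) (hq1 : 1 ≤ q3f_v (c1f_v t + -(f1m_v t2)) (t + t2)) (hq3 : q3f_v (c1f_v t + -(f1m_v t2)) (t + t2) ≤ 3) :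
    0 < sl011_v (exf_v (c1f_v t) (-(f1m_v t2)) t t2) t t2 (t + t2) (a1q0_v t) (-(v1q1_v t2)) (rq1_v (c1f_v t + -(f1m_v t2)) (t + t2)) := by
  have hp := Pool.Agent.StripNear.h0_pos
  have hm : Mem S b0 t t2 := mem0 (by linarith) (by linarith) (by linarith) (by linarith)
  have h : Q t t2 := all t t2 hm
  unfold Q P13 at h
  rcases h with (h | h | h | h) | h
  · exfalso; rw [e10] at h; linarith
  · exfalso; rw [e13] at h; linarith
  · exfalso; rw [e15] at h; linarith
  · exfalso; rw [e18] at h; linarith
  replace h := h.1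
  unfold P5 at h
  rcases h with h | h
  · exfalso; rw [e42] at h; linarith
  replace h := h.2
  unfold P4 at h
  rcases h with (h | h) | h
  · exfalso; rw [e29] at h; linarith
  · exfalso; rw [e40] at h; linarith
  replace h := h.1
  unfold P2 at h
  rcases h with h | h | h
  · exfalso; rw [e26] at h; linarith
  · exfalso; rw [e28] at h; linarith
  · rw [e33] at h; exact h

theorem fin012 {t t2 : ℝ} (h1 : 0 * Pool.Agent.StripNear.h0 ≤ t) (h1' : t ≤ 1 / 2 * Pool.Agent.StripNear.h0) (h2 : 1 / 2 * Pool.Agent.StripNear.h0 ≤ t2) (h2' : t2 ≤ 1 * Pool.Agent.StripNear.h0) (h3 : 1 * Pool.Agent.StripNear.h0 ≤ t + t2) (h3' : t + t2 ≤ 3 / 2 * Pool.Agent.StripNear.h0) (h6 : t + t2 ≤ 2 * Pool.Agent.StripNear.h0) (ho : 0 ≤ exf_v (c1f_v t) (-(f1m_v t2)) t t2 + 1 / 2) (hq1 : 1 ≤ q3f_v (c1f_v t + -(f1m_v t2)) (t + t2)) (hq3 : q3f_v (c1f_v t + -(f1m_v t2)) (t + t2) ≤ 3) :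
    0 < sl012_v (exf_v (c1f_v t) (-(f1m_v t2)) t t2) t t2 (t + t2) (a1q0_v t) (-(v1q1_v t2)) (rq2_v (c1f_v t + -(f1m_v t2)) (t + t2)) := by
  have hp := Pool.Agent.StripNear.h0_pos
  have hm : Mem S b0 t t2 := mem0 (by linarith) (by linarith) (by linarith) (by linarith)
  have h : Q t t2 := all t t2 hm
  unfold Q P13 at h
  rcases h with (h | h | h | h) | h
  · exfalso; rw [e10] at h; linarith
  · exfalso; rw [e13] at h; linarith
  · exfalso; rw [e15] at h; linarith
  · exfalso; rw [e18] at h; linarith
  replace h := h.1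
  unfold P5 at h
  rcases h with h | h
  · exfalso; rw [e42] at h; linarith
  replace h := h.2
  unfold P4 at h
  rcases h with (h | h) | h
  · exfalso; rw [e29] at h; linarith
  · exfalso; rw [e40] at h; linarith
  replace h := h.2
  unfold P3 at h
  rcases h with h | h | h
  · exfalso; rw [e27] at h; linarith
  · exfalso; rw [e38] at h; linarith
  · rw [e35] at h; exact h

theorem fin101 {t t2 : ℝ} (h1 : 1 / 2 * Pool.Agent.StripNear.h0 ≤ t) (h1' : t ≤ 1 * Pool.Agent.StripNear.h0) (h2 : 0 * Pool.Agent.StripNear.h0 ≤ t2) (h2' : t2 ≤ 1 / 2 * Pool.Agent.StripNear.h0) (h3 : 1 / 2 * Pool.Agent.StripNear.h0 ≤ t + t2) (h3' : t + t2 ≤ 1 * Pool.Agent.StripNear.h0) (h6 : t + t2 ≤ 2 * Pool.Agent.StripNear.h0) (ho : 0 ≤ exf_v (c1f_v t) (-(f1m_v t2)) t t2 + 1 / 2) (hq1 : 1 ≤ q3f_v (c1f_v t + -(f1m_v t2)) (t + t2)) (hq3 : q3f_v (c1f_v t + -(f1m_v t2)) (t + t2) ≤ 3) :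
    (0 < 1/10 - (1 * Pool.Agent.StripNear.h0 - t) ∧ 0 < 1/10 - (t2 - 0 * Pool.Agent.StripNear.h0) ∧ 0 < 1/10 - (1 * Pool.Agent.StripNear.h0 - (t + t2))) ∨ 0 < sl101_v (exf_v (c1f_v t) (-(f1m_v t2)) t t2) t t2 (t + t2) (a1q1_v t) (-(v1q0_v t2)) (rq1_v (c1f_v t + -(f1m_v t2)) (t + t2)) := by
  have hp := Pool.Agent.StripNear.h0_pos
  have hm : Mem S b0 t t2 := mem0 (by linarith) (by linarith) (by linarith) (by linarith)
  have h : Q t t2 := all t t2 hm
  unfold Q P13 at h
  rcases h with (h | h | h | h) | h
  · exfalso; rw [e10] at h; linarith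
  · exfalso; rw [e13] at h; linarith
  · exfalso; rw [e15] at h; linarith
  · exfalso; rw [e18] at h; linarith
  replace h := h.2
  unfold P12 at h
  rcases h with (h | h) | h
  · exfalso; rw [e41] at h; linarith
  · exfalso; rw [e56] at h; linarith
  replace h := h.1
  unfold P8 at h
  rcases h with h | h
  · exfalso; rw [e30] at h; linarith
  replace h := h.1
  unfold P6 at h
  rcases h with h | h | h | h
  · exfalso; rw [e26] at h; linarith
  · exfalso; rw [e28] at h; linarith
  · left; simp only [e47, e49, e50] at h; exact h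
  · right; rw [e44] at h; exact h

theorem fin102 {t t2 : ℝ} (h1 : 1 / 2 * Pool.Agent.StripNear.h0 ≤ t) (h1' : t ≤ 1 * Pool.Agent.StripNear.h0) (h2 : 0 * Pool.Agent.StripNear.h0 ≤ t2) (h2' : t2 ≤ 1 / 2 * Pool.Agent.StripNear.h0) (h3 : 1 * Pool.Agent.StripNear.h0 ≤ t + t2) (h3' : t + t2 ≤ 3 / 2 * Pool.Agent.StripNear.h0) (h6 : t + t2 ≤ 2 * Pool.Agent.StripNear.h0) (ho : 0 ≤ exf_v (c1f_v t) (-(f1m_v t2)) t t2 + 1 / 2) (hq1 : 1 ≤ q3f_v (c1f_v t + -(f1m_v t2)) (t + t2)) (hq3 : q3f_v (c1f_v t + -(f1m_v t2)) (t + t2) ≤ 3) :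
    (0 < 1/10 - (1 * Pool.Agent.StripNear.h0 - t) ∧ 0 < 1/10 - (t2 - 0 * Pool.Agent.StripNear.h0) ∧ 0 < 1/10 - ((t + t2) - 1 * Pool.Agent.StripNear.h0)) ∨ 0 < sl102_v (exf_v (c1f_v t) (-(f1m_v t2)) t t2) t t2 (t + t2) (a1q1_v t) (-(v1q0_v t2)) (rq2_v (c1f_v t + -(f1m_v t2)) (t + t2)) := by
  have hp := Pool.Agent.StripNear.h0_pos
  have hm : Mem S b0 t t2 := mem0 (by linarith) (by linarith) (by linarith) (by linarith)
  have h : Q t t2 := all t t2 hm
  unfold Q P13 at h
  rcases h with (h | h | h | h) | h
  · exfalso; rw [e10] at h; linarith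
  · exfalso; rw [e13] at h; linarith
  · exfalso; rw [e15] at h; linarith
  · exfalso; rw [e18] at h; linarith
  replace h := h.2
  unfold P12 at h
  rcases h with (h | h) | h
  · exfalso; rw [e41] at h; linarith
  · exfalso; rw [e56] at h; linarith
  replace h := h.1
  unfold P8 at h
  rcases h with h | h
  · exfalso; rw [e30] at h; linarith
  replace h := h.2
  unfold P7 at h
  rcases h with h | h | h | h
  · exfalso; rw [e27] at h; linarith
  · exfalso; rw [e38] at h; linarith
  · left; simp only [e47, e49, e52] at h; exact h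
  · right; rw [e51] at h; exact h

theorem fin112 {t t2 : ℝ} (h1 : 1 / 2 * Pool.Agent.StripNear.h0 ≤ t) (h1' : t ≤ 1 * Pool.Agent.StripNear.h0) (h2 : 1 / 2 * Pool.Agent.StripNear.h0 ≤ t2) (h2' : t2 ≤ 1 * Pool.Agent.StripNear.h0) (h3 : 1 * Pool.Agent.StripNear.h0 ≤ t + t2) (h3' : t + t2 ≤ 3 / 2 * Pool.Agent.StripNear.h0) (h6 : t + t2 ≤ 2 * Pool.Agent.StripNear.h0) (ho : 0 ≤ exf_v (c1f_v t) (-(f1m_v t2)) t t2 + 1 / 2) (hq1 : 1 ≤ q3f_v (c1f_v t + -(f1m_v t2)) (t + t2)) (hq3 : q3f_v (c1f_v t + -(f1m_v t2)) (t + t2) ≤ 3) :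
    0 < sl112_v (exf_v (c1f_v t) (-(f1m_v t2)) t t2) t t2 (t + t2) (a1q1_v t) (-(v1q1_v t2)) (rq2_v (c1f_v t + -(f1m_v t2)) (t + t2)) := by
  have hp := Pool.Agent.StripNear.h0_pos
  have hm : Mem S b0 t t2 := mem0 (by linarith) (by linarith) (by linarith) (by linarith)
  have h : Q t t2 := all t t2 hm
  unfold Q P13 at h
  rcases h with (h | h | h | h) | h
  · exfalso; rw [e10] at h; linarith
  · exfalso; rw [e13] at h; linarith
  · exfalso; rw [e15] at h; linarith
  · exfalso; rw [e18] at h; linarith
  replace h := h.2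
  unfold P12 at h
  rcases h with (h | h) | h
  · exfalso; rw [e41] at h; linarith
  · exfalso; rw [e56] at h; linarith
  replace h := h.2
  unfold P11 at h
  rcases h with (h | h) | h
  · exfalso; rw [e29] at h; linarith
  · exfalso; rw [e40] at h; linarith
  replace h := h.1
  unfold P9 at h
  rcases h with h | h | h
  · exfalso; rw [e27] at h; linarith
  · exfalso; rw [e38] at h; linarith
  · rw [e53] at h; exact h

theorem fin113 {t t2 : ℝ} (h1 : 1 / 2 * Pool.Agent.StripNear.h0 ≤ t) (h1' : t ≤ 1 * Pool.Agent.StripNear.h0) (h2 : 1 / 2 * Pool.Agent.StripNear.h0 ≤ t2) (h2' : t2 ≤ 1 * Pool.Agent.StripNear.h0) (h3 : 3 / 2 * Pool.Agent.StripNear.h0 ≤ t + t2) (h3' : t + t2 ≤ 2 * Pool.Agent.StripNear.h0) (h6 : t + t2 ≤ 2 * Pool.Agent.StripNear.h0) (ho : 0 ≤ exf_v (c1f_v t) (-(f1m_v t2)) t t2 + 1 / 2) (hq1 : 1 ≤ q3f_v (c1f_v t + -(f1m_v t2)) (t + t2)) (hq3 : q3f_v (c1f_v t + -(f1m_v t2)) (t + t2) ≤ 3) :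
    0 < sl113_v (exf_v (c1f_v t) (-(f1m_v t2)) t t2) t t2 (t + t2) (a1q1_v t) (-(v1q1_v t2)) (rq3_v (c1f_v t + -(f1m_v t2)) (t + t2)) := by
  have hp := Pool.Agent.StripNear.h0_pos
  have hm : Mem S b0 t t2 := mem0 (by linarith) (by linarith) (by linarith) (by linarith)
  have h : Q t t2 := all t t2 hm
  unfold Q P13 at h
  rcases h with (h | h | h | h) | h
  · exfalso; rw [e10] at h; linarith
  · exfalso; rw [e13] at h; linarith
  · exfalso; rw [e15] at h; linarith
  · exfalso; rw [e18] at h; linarith
  replace h := h.2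
  unfold P12 at h
  rcases h with (h | h) | h
  · exfalso; rw [e41] at h; linarith
  · exfalso; rw [e56] at h; linarith
  replace h := h.2
  unfold P11 at h
  rcases h with (h | h) | h
  · exfalso; rw [e29] at h; linarith
  · exfalso; rw [e40] at h; linarith
  replace h := h.2
  unfold P10 at h
  rcases h with h | h
  · exfalso; rw [e37] at h; linarith
  · rw [e55] at h; exact h

end Pool.Agent.Strip051.LB.A0m1m_pm
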