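import Pool.Agent.Strip051.Box.C2
import Pool.Agent.Strip051.Box.S30
import Pool.Agent.Strip051.LB.Fn.F2
import Pool.Agent.Strip051.LB.Base

/-! # LINE boxes, subfamily A0p0m_mm -/

namespace Pool.Agent.Strip051.LB.A0p0m_mm

open Pool.Agent.Strip051.Box Pool.Agent.Strip051.Box2

open Pool.Agent.Strip051.LB.Fn Pool.Agent.Strip051.LB.Fn.F2

/-- coordinates of a point of the box -/
def In (b : Bx) (E : Pt) (x1 x2 : ℝ) : Prop :=
  (S : ℝ) * x1 = ((b.p1 : ℝ) - b.n1) + b.q1 * E.e1 ∧ (S : ℝ) * x2 = ((b.p2 : ℝ) - b.n2) + b.q2 * E.e2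

variable {b : Bx} {E : Pt} {x1 x2 : ℝ}

def t0 (b : Bx) : TM := X1 b
noncomputable def v0 (x1 _x2 : ℝ) : ℝ := x1
theorem h0 (h : In b E x1 x2) : Enc S E (t0 b) (v0 x1 x2) := enc_X1 h.1

def t1 (_b : Bx) : TM := tconst 1859775393 0 1
noncomputable def v1 (_x1 _x2 : ℝ) : ℝ := Real.sqrt ((3 : ℕ) : ℝ)
theorem h1 (_h : In b E x1 x2) : Enc S E (t1 b) (v1 x1 x2) := enc_sqrtn E (by decide) (by decide)

def t2 (b : Bx) : TM := tscale 1 2 (t1 b)
noncomputable def v2 (x1 x2 : ℝ) : ℝ := ((1 : ℕ) : ℝ) / ((2 : ℕ) : ℝ) * v1 x1 x2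
theorem h2 (h : In b E x1 x2) : Enc S E (t2 b) (v2 x1 x2) := enc_scale 1 (by norm_num) (h1 h)

def t3 (b : Bx) : TM := c1f_t (t0 b)
noncomputable def v3 (x1 x2 : ℝ) : ℝ := c1f_v (v0 x1 x2)
theorem h3 (h : In b E x1 x2) : Enc S E (t3 b) (v3 x1 x2) := c1f_enc (h0 h)

def t4 (b : Bx) : TM := tneg (t3 b)
noncomputable def v4 (x1 x2 : ℝ) : ℝ := -(v3 x1 x2)
theorem h4 (h : In b E x1 x2) : Enc S E (t4 b) (v4 x1 x2) := enc_neg (h3 h)

def t5 (b : Bx) : TM := X2 b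
noncomputable def v5 (_x1 x2 : ℝ) : ℝ := x2
theorem h5 (h : In b E x1 x2) : Enc S E (t5 b) (v5 x1 x2) := enc_X2 h.2

def t6 (b : Bx) : TM := tadd (t0 b) (t5 b)
noncomputable def v6 (x1 x2 : ℝ) : ℝ := v0 x1 x2 + v5 x1 x2
theorem h6 (h : In b E x1 x2) : Enc S E (t6 b) (v6 x1 x2) := enc_add (h0 h) (h5 h)

def t7 (b : Bx) : TM := c1f_t (t5 b)
noncomputable def v7 (x1 x2 : ℝ) : ℝ := c1f_v (v5 x1 x2)
theorem h7 (h : In b E x1 x2) : Enc S E (t7 b) (v7 x1 x2) := c1f_enc (h5 h)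

def t8 (b : Bx) : TM := tneg (t7 b)
noncomputable def v8 (x1 x2 : ℝ) : ℝ := -(v7 x1 x2)
theorem h8 (h : In b E x1 x2) : Enc S E (t8 b) (v8 x1 x2) := enc_neg (h7 h)

def t9 (b : Bx) : TM := tsub (t4 b) (t7 b)
noncomputable def v9 (x1 x2 : ℝ) : ℝ := v4 x1 x2 - v7 x1 x2
theorem h9 (h : In b E x1 x2) : Enc S E (t9 b) (v9 x1 x2) := enc_sub (h4 h) (h7 h)

def t10 (b : Bx) : TM := exf_t (t4 b) (t8 b) (t0 b) (t5 b)
noncomputable def v10 (x1 x2 : ℝ) : ℝ := exf_v (v4 x1 x2) (v8 x1 x2) (v0 x1 x2) (v5 x1 x2)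
theorem h10 (h : In b E x1 x2) : Enc S E (t10 b) (v10 x1 x2) := exf_enc (h4 h) (h8 h) (h0 h) (h5 h)

def t11 (b : Bx) : TM := tsub (t6 b) (t1 b)
noncomputable def v11 (x1 x2 : ℝ) : ℝ := v6 x1 x2 - v1 x1 x2
theorem h11 (h : In b E x1 x2) : Enc S E (t11 b) (v11 x1 x2) := enc_sub (h6 h) (h1 h)

def t12 (b : Bx) : TM := q3f_t (t9 b) (t6 b)
noncomputable def v12 (x1 x2 : ℝ) : ℝ := q3f_v (v9 x1 x2) (v6 x1 x2)
theorem h12 (h : In b E x1 x2) : Enc S E (t12 b) (v12 x1 x2) := q3f_enc (h9 h) (h6 h)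

def t13 (_b : Bx) : TM := tconst (Nat.mul 1 S) 0 0
noncomputable def v13 (_x1 _x2 : ℝ) : ℝ := ((1 : ℕ) : ℝ)
theorem h13 (_h : In b E x1 x2) : Enc S E (t13 b) (v13 x1 x2) := enc_nc E 1

def t14 (b : Bx) : TM := tsub (t13 b) (t12 b)
noncomputable def v14 (x1 x2 : ℝ) : ℝ := v13 x1 x2 - v12 x1 x2
theorem h14 (h : In b E x1 x2) : Enc S E (t14 b) (v14 x1 x2) := enc_sub (h13 h) (h12 h)

def t15 (_b : Bx) : TM := tconst (Nat.mul 3 S) 0 0
noncomputable def v15 (_x1 _x2 : ℝ) : ℝ := ((3 : ℕ) : ℝ)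
theorem h15 (_h : In b E x1 x2) : Enc S E (t15 b) (v15 x1 x2) := enc_nc E 3

def t16 (b : Bx) : TM := tsub (t12 b) (t15 b)
noncomputable def v16 (x1 x2 : ℝ) : ℝ := v12 x1 x2 - v15 x1 x2
theorem h16 (h : In b E x1 x2) : Enc S E (t16 b) (v16 x1 x2) := enc_sub (h12 h) (h15 h)

def t17 (_b : Bx) : TM := tconst (Nat.div (Nat.mul 1 S) 2) 0 1
noncomputable def v17 (_x1 _x2 : ℝ) : ℝ := ((1 : ℕ) : ℝ) / ((2 : ℕ) : ℝ)
theorem h17 (_h : In b E x1 x2) : Enc S E (t17 b) (v17 x1 x2) := enc_rat E 1 (by norm_num)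

def t18 (b : Bx) : TM := tadd (t10 b) (t17 b)
noncomputable def v18 (x1 x2 : ℝ) : ℝ := v10 x1 x2 + v17 x1 x2
theorem h18 (h : In b E x1 x2) : Enc S E (t18 b) (v18 x1 x2) := enc_add (h10 h) (h17 h)

def t19 (b : Bx) : TM := tneg (t18 b)
noncomputable def v19 (x1 x2 : ℝ) : ℝ := -(v18 x1 x2)
theorem h19 (h : In b E x1 x2) : Enc S E (t19 b) (v19 x1 x2) := enc_neg (h18 h)

def t20 (b : Bx) : TM := a1q0_t (t5 b)
noncomputable def v20 (x1 x2 : ℝ) : ℝ := a1q0_v (v5 x1 x2)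
theorem h20 (h : In b E x1 x2) : Enc S E (t20 b) (v20 x1 x2) := a1q0_enc (h5 h)

def t21 (b : Bx) : TM := tneg (t20 b)
noncomputable def v21 (x1 x2 : ℝ) : ℝ := -(v20 x1 x2)
theorem h21 (h : In b E x1 x2) : Enc S E (t21 b) (v21 x1 x2) := enc_neg (h20 h)

def t22 (b : Bx) : TM := rq2_t (t9 b) (t6 b)
noncomputable def v22 (x1 x2 : ℝ) : ℝ := rq2_v (v9 x1 x2) (v6 x1 x2)
theorem h22 (h : In b E x1 x2) : Enc S E (t22 b) (v22 x1 x2) := rq2_enc (h9 h) (h6 h)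

def t23 (b : Bx) : TM := sl202_t (t10 b) (t0 b) (t5 b) (t6 b) (t4 b) (t21 b) (t22 b)
noncomputable def v23 (x1 x2 : ℝ) : ℝ := sl202_v (v10 x1 x2) (v0 x1 x2) (v5 x1 x2) (v6 x1 x2) (v4 x1 x2) (v21 x1 x2) (v22 x1 x2)
theorem h23 (h : In b E x1 x2) : Enc S E (t23 b) (v23 x1 x2) := sl202_enc (h10 h) (h0 h) (h5 h) (h6 h) (h4 h) (h21 h) (h22 h)

def t25 (b : Bx) : TM := tsub (t2 b) (t6 b)
noncomputable def v25 (x1 x2 : ℝ) : ℝ := v2 x1 x2 - v6 x1 x2
theorem h25 (h : In b E x1 x2) : Enc S E (t25 b) (v25 x1 x2) := enc_sub (h2 h) (h6 h)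

def t26 (b : Bx) : TM := tscale 3 4 (t1 b)
noncomputable def v26 (x1 x2 : ℝ) : ℝ := ((3 : ℕ) : ℝ) / ((4 : ℕ) : ℝ) * v1 x1 x2
theorem h26 (h : In b E x1 x2) : Enc S E (t26 b) (v26 x1 x2) := enc_scale 3 (by norm_num) (h1 h)

def t27 (b : Bx) : TM := tsub (t26 b) (t6 b)
noncomputable def v27 (x1 x2 : ℝ) : ℝ := v26 x1 x2 - v6 x1 x2
theorem h27 (h : In b E x1 x2) : Enc S E (t27 b) (v27 x1 x2) := enc_sub (h26 h) (h6 h)

def t28 (b : Bx) : TM := tsub (t6 b) (t26 b)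
noncomputable def v28 (x1 x2 : ℝ) : ℝ := v6 x1 x2 - v26 x1 x2
theorem h28 (h : In b E x1 x2) : Enc S E (t28 b) (v28 x1 x2) := enc_sub (h6 h) (h26 h)

def t29 (b : Bx) : TM := tscale 1 2 (t7 b)
noncomputable def v29 (x1 x2 : ℝ) : ℝ := ((1 : ℕ) : ℝ) / ((2 : ℕ) : ℝ) * v7 x1 x2
theorem h29 (h : In b E x1 x2) : Enc S E (t29 b) (v29 x1 x2) := enc_scale 1 (by norm_num) (h7 h)

def t30 (b : Bx) : TM := tmul S (t2 b) (t5 b)
noncomputable def v30 (x1 x2 : ℝ) : ℝ := v2 x1 x2 * v5 x1 x2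
theorem h30 (h : In b E x1 x2) : Enc S E (t30 b) (v30 x1 x2) := enc_mul hS (h2 h) (h5 h)

def t31 (b : Bx) : TM := tsub (t29 b) (t30 b)
noncomputable def v31 (x1 x2 : ℝ) : ℝ := v29 x1 x2 - v30 x1 x2
theorem h31 (h : In b E x1 x2) : Enc S E (t31 b) (v31 x1 x2) := enc_sub (h29 h) (h30 h)

def t32 (b : Bx) : TM := tsub (t31 b) (t3 b)
noncomputable def v32 (x1 x2 : ℝ) : ℝ := v31 x1 x2 - v3 x1 x2
theorem h32 (h : In b E x1 x2) : Enc S E (t32 b) (v32 x1 x2) := enc_sub (h31 h) (h3 h)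

def t33 (_b : Bx) : TM := tconst (Nat.div (Nat.mul 1 S) 16) 0 1
noncomputable def v33 (_x1 _x2 : ℝ) : ℝ := ((1 : ℕ) : ℝ) / ((16 : ℕ) : ℝ)
theorem h33 (_h : In b E x1 x2) : Enc S E (t33 b) (v33 x1 x2) := enc_rat E 1 (by norm_num)

def t34 (b : Bx) : TM := tsub (t33 b) (t32 b)
noncomputable def v34 (x1 x2 : ℝ) : ℝ := v33 x1 x2 - v32 x1 x2
theorem h34 (h : In b E x1 x2) : Enc S E (t34 b) (v34 x1 x2) := enc_sub (h33 h) (h32 h)

def t35 (b : Bx) : TM := tadd (t33 b) (t32 b)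
noncomputable def v35 (x1 x2 : ℝ) : ℝ := v33 x1 x2 + v32 x1 x2
theorem h35 (h : In b E x1 x2) : Enc S E (t35 b) (v35 x1 x2) := enc_add (h33 h) (h32 h)

def t36 (b : Bx) : TM := rq3_t (t9 b) (t6 b)
noncomputable def v36 (x1 x2 : ℝ) : ℝ := rq3_v (v9 x1 x2) (v6 x1 x2)
theorem h36 (h : In b E x1 x2) : Enc S E (t36 b) (v36 x1 x2) := rq3_enc (h9 h) (h6 h)

def t37 (b : Bx) : TM := sl203_t (t10 b) (t0 b) (t5 b) (t6 b) (t4 b) (t21 b) (t36 b)
noncomputable def v37 (x1 x2 : ℝ) : ℝ := sl203_v (v10 x1 x2) (v0 x1 x2) (v5 x1 x2) (v6 x1 x2) (v4 x1 x2) (v21 x1 x2) (v36 x1 x2)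
theorem h37 (h : In b E x1 x2) : Enc S E (t37 b) (v37 x1 x2) := sl203_enc (h10 h) (h0 h) (h5 h) (h6 h) (h4 h) (h21 h) (h36 h)

def t38 (b : Bx) : TM := tscale 1 4 (t1 b)
noncomputable def v38 (x1 x2 : ℝ) : ℝ := ((1 : ℕ) : ℝ) / ((4 : ℕ) : ℝ) * v1 x1 x2
theorem h38 (h : In b E x1 x2) : Enc S E (t38 b) (v38 x1 x2) := enc_scale 1 (by norm_num) (h1 h)

def t39 (b : Bx) : TM := tsub (t38 b) (t5 b)
noncomputable def v39 (x1 x2 : ℝ) : ℝ := v38 x1 x2 - v5 x1 x2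
theorem h39 (h : In b E x1 x2) : Enc S E (t39 b) (v39 x1 x2) := enc_sub (h38 h) (h5 h)

def t40 (b : Bx) : TM := tsub (t5 b) (t38 b)
noncomputable def v40 (x1 x2 : ℝ) : ℝ := v5 x1 x2 - v38 x1 x2
theorem h40 (h : In b E x1 x2) : Enc S E (t40 b) (v40 x1 x2) := enc_sub (h5 h) (h38 h)

def t41 (b : Bx) : TM := a1q1_t (t5 b)
noncomputable def v41 (x1 x2 : ℝ) : ℝ := a1q1_v (v5 x1 x2)
theorem h41 (h : In b E x1 x2) : Enc S E (t41 b) (v41 x1 x2) := a1q1_enc (h5 h)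

def t42 (b : Bx) : TM := tneg (t41 b)
noncomputable def v42 (x1 x2 : ℝ) : ℝ := -(v41 x1 x2)
theorem h42 (h : In b E x1 x2) : Enc S E (t42 b) (v42 x1 x2) := enc_neg (h41 h)

def t43 (b : Bx) : TM := sl213_t (t10 b) (t0 b) (t5 b) (t6 b) (t4 b) (t42 b) (t36 b)
noncomputable def v43 (x1 x2 : ℝ) : ℝ := sl213_v (v10 x1 x2) (v0 x1 x2) (v5 x1 x2) (v6 x1 x2) (v4 x1 x2) (v42 x1 x2) (v36 x1 x2)
theorem h43 (h : In b E x1 x2) : Enc S E (t43 b) (v43 x1 x2) := sl213_enc (h10 h) (h0 h) (h5 h) (h6 h) (h4 h) (h42 h) (h36 h)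

def t45 (b : Bx) : TM := tsub (t5 b) (t2 b)
noncomputable def v45 (x1 x2 : ℝ) : ℝ := v5 x1 x2 - v2 x1 x2
theorem h45 (h : In b E x1 x2) : Enc S E (t45 b) (v45 x1 x2) := enc_sub (h5 h) (h2 h)

def t47 (b : Bx) : TM := tsub (t2 b) (t0 b)
noncomputable def v47 (x1 x2 : ℝ) : ℝ := v2 x1 x2 - v0 x1 x2
theorem h47 (h : In b E x1 x2) : Enc S E (t47 b) (v47 x1 x2) := enc_sub (h2 h) (h0 h)

def t49 (b : Bx) : TM := tsub (t0 b) (t26 b)
noncomputable def v49 (x1 x2 : ℝ) : ℝ := v0 x1 x2 - v26 x1 x2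
theorem h49 (h : In b E x1 x2) : Enc S E (t49 b) (v49 x1 x2) := enc_sub (h0 h) (h26 h)

def g0 (b : Bx) : Bool := or (pos (t25 b)) (or (pos (t28 b)) (or (and (pos (t34 b)) (pos (t35 b))) (pos (t23 b))))

def l0 (b : Bx) : Nat := cond (g0 b) 0 (pickb 1 (t23 b) b)

def P0 (x1 x2 : ℝ) : Prop := 0 < v25 x1 x2 ∨ 0 < v28 x1 x2 ∨ (0 < v34 x1 x2 ∧ 0 < v35 x1 x2) ∨ 0 < v23 x1 x2

theorem l0_sound (h : In b E x1 x2) (e : l0 b = 0) : P0 x1 x2 := by
  have e1 : g0 b = true := by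
    rcases e2 : g0 b with _ | _
    · unfold l0 at e; rw [e2, cond_false] at e; exact absurd e (pickb_ne _ _ _)
    · rfl
  exact ((Bool.or_eq_true_iff.mp e1).imp (fun a => pos_sound hS (h25 h) a) (fun a => ((Bool.or_eq_true_iff.mp a).imp (fun a => pos_sound hS (h28 h) a) (fun a => ((Bool.or_eq_true_iff.mp a).imp (fun a => ⟨pos_sound hS (h34 h) (Bool.and_eq_true_iff.mp a).1, pos_sound hS (h35 h) (Bool.and_eq_true_iff.mp a).2⟩) (fun a => pos_sound hS (h23 h) a))))))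

def g1 (b : Bx) : Bool := or (pos (t27 b)) (or (and (pos (t34 b)) (pos (t35 b))) (pos (t37 b)))

def l1 (b : Bx) : Nat := cond (g1 b) 0 (pickb 1 (t37 b) b)

def P1 (x1 x2 : ℝ) : Prop := 0 < v27 x1 x2 ∨ (0 < v34 x1 x2 ∧ 0 < v35 x1 x2) ∨ 0 < v37 x1 x2

theorem l1_sound (h : In b E x1 x2) (e : l1 b = 0) : P1 x1 x2 := by
  have e1 : g1 b = true := by
    rcases e2 : g1 b with _ | _
    · unfold l1 at e; rw [e2, cond_false] at e; exact absurd e (pickb_ne _ _ _)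
    · rfl
  exact ((Bool.or_eq_true_iff.mp e1).imp (fun a => pos_sound hS (h27 h) a) (fun a => ((Bool.or_eq_true_iff.mp a).imp (fun a => ⟨pos_sound hS (h34 h) (Bool.and_eq_true_iff.mp a).1, pos_sound hS (h35 h) (Bool.and_eq_true_iff.mp a).2⟩) (fun a => pos_sound hS (h37 h) a))))

def g2 (b : Bx) : Bool := pos (t40 b)

def l2 (b : Bx) : Nat := cond (g2 b) 0 (cond (Nat.beq (l0 b) 0) (l1 b) (l0 b))

def P2 (x1 x2 : ℝ) : Prop := (0 < v40 x1 x2) ∨ (P0 x1 x2 ∧ P1 x1 x2)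

theorem l2_sound (h : In b E x1 x2) (e : l2 b = 0) : P2 x1 x2 := by
  unfold l2 at e
  rcases e1 : g2 b with _ | _
  · rw [e1, cond_false] at e
    have z0 : l0 b = 0 := by
      rcases e2 : Nat.beq (l0 b) 0 with _ | _
      · rw [e2, cond_false] at e; exact e
      · exact Nat.eq_of_beq_eq_true e2
    have w0 : Nat.beq (l0 b) 0 = true := by rw [z0]; rfl
    rw [w0, cond_true] at e
    have z1 : l1 b = 0 := e
    exact Or.inr ⟨l0_sound h z0, l1_sound h z1⟩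
  · exact Or.inl (pos_sound hS (h40 h) e1)

def g3 (b : Bx) : Bool := or (pos (t27 b)) (or (and (pos (t34 b)) (pos (t35 b))) (pos (t43 b)))

def l3 (b : Bx) : Nat := cond (g3 b) 0 (pickb 1 (t43 b) b)

def P3 (x1 x2 : ℝ) : Prop := 0 < v27 x1 x2 ∨ (0 < v34 x1 x2 ∧ 0 < v35 x1 x2) ∨ 0 < v43 x1 x2

theorem l3_sound (h : In b E x1 x2) (e : l3 b = 0) : P3 x1 x2 := by
  have e1 : g3 b = true := by
    rcases e2 : g3 b with _ | _
    · unfold l3 at e; rw [e2, cond_false] at e; exact absurd e (pickb_ne _ _ _)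
    · rfl
  exact ((Bool.or_eq_true_iff.mp e1).imp (fun a => pos_sound hS (h27 h) a) (fun a => ((Bool.or_eq_true_iff.mp a).imp (fun a => ⟨pos_sound hS (h34 h) (Bool.and_eq_true_iff.mp a).1, pos_sound hS (h35 h) (Bool.and_eq_true_iff.mp a).2⟩) (fun a => pos_sound hS (h43 h) a))))

def g4 (b : Bx) : Bool := or (pos (t39 b)) (pos (t45 b))

def l4 (b : Bx) : Nat := cond (g4 b) 0 (l3 b)

def P4 (x1 x2 : ℝ) : Prop := (0 < v39 x1 x2 ∨ 0 < v45 x1 x2) ∨ (P3 x1 x2)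

theorem l4_sound (h : In b E x1 x2) (e : l4 b = 0) : P4 x1 x2 := by
  unfold l4 at e
  rcases e1 : g4 b with _ | _
  · rw [e1, cond_false] at e
    have z3 : l3 b = 0 := e
    exact Or.inr (l3_sound h z3)
  · exact Or.inl (((Bool.or_eq_true_iff.mp e1).imp (fun a => pos_sound hS (h39 h) a) (fun a => pos_sound hS (h45 h) a)))

def g5 (b : Bx) : Bool := or (pos (t47 b)) (pos (t49 b))

def l5 (b : Bx) : Nat := cond (g5 b) 0 (cond (Nat.beq (l2 b) 0) (l4 b) (l2 b))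

def P5 (x1 x2 : ℝ) : Prop := (0 < v47 x1 x2 ∨ 0 < v49 x1 x2) ∨ (P2 x1 x2 ∧ P4 x1 x2)

theorem l5_sound (h : In b E x1 x2) (e : l5 b = 0) : P5 x1 x2 := by
  unfold l5 at e
  rcases e1 : g5 b with _ | _
  · rw [e1, cond_false] at e
    have z2 : l2 b = 0 := by
      rcases e2 : Nat.beq (l2 b) 0 with _ | _
      · rw [e2, cond_false] at e; exact e
      · exact Nat.eq_of_beq_eq_true e2
    have w2 : Nat.beq (l2 b) 0 = true := by rw [z2]; rfl
    rw [w2, cond_true] at e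
    have z4 : l4 b = 0 := e
    exact Or.inr ⟨l2_sound h z2, l4_sound h z4⟩
  · exact Or.inl (((Bool.or_eq_true_iff.mp e1).imp (fun a => pos_sound hS (h47 h) a) (fun a => pos_sound hS (h49 h) a)))

def g6 (b : Bx) : Bool := or (pos (t11 b)) (or (pos (t14 b)) (or (pos (t16 b)) (pos (t19 b))))

def l6 (b : Bx) : Nat := cond (g6 b) 0 (l5 b)

def P6 (x1 x2 : ℝ) : Prop := (0 < v11 x1 x2 ∨ 0 < v14 x1 x2 ∨ 0 < v16 x1 x2 ∨ 0 < v19 x1 x2) ∨ (P5 x1 x2)

theorem l6_sound (h : In b E x1 x2) (e : l6 b = 0) : P6 x1 x2 := by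
  unfold l6 at e
  rcases e1 : g6 b with _ | _
  · rw [e1, cond_false] at e
    have z5 : l5 b = 0 := e
    exact Or.inr (l5_sound h z5)
  · exact Or.inl (((Bool.or_eq_true_iff.mp e1).imp (fun a => pos_sound hS (h11 h) a) (fun a => ((Bool.or_eq_true_iff.mp a).imp (fun a => pos_sound hS (h14 h) a) (fun a => ((Bool.or_eq_true_iff.mp a).imp (fun a => pos_sound hS (h16 h) a) (fun a => pos_sound hS (h19 h) a)))))))

def f (b : Bx) : Nat := l6 b

/-- the statement -/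
def Q (x1 x2 : ℝ) : Prop := P6 x1 x2

theorem f_sound (b : Bx) (hb : f b = 0) (x1 x2 : ℝ) (hm : Mem S b x1 x2) : Q x1 x2 := by
  obtain ⟨E, h⟩ := pt_of_mem hm
  have h : In b E x1 x2 := h
  unfold f at hb
  have e := hb
  have z6 : l6 b = 0 := e
  exact (l6_sound h z6)

/-- the box -/
def b0 : Bx := ⟨1001814760, 0, 71927065, 464943848, 0, 464943850⟩

theorem chk_all {n : ℕ} {b : Bx} (h : chk f n b = true) (x1 x2 : ℝ) (hm : Mem S b x1 x2) : Q x1 x2 :=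
  chk_sound (fun b hb x1 x2 hm => f_sound b hb x1 x2 hm) n b h x1 x2 hm


open Pool.Agent.Strip051.LB

set_option maxRecDepth 100000

theorem c0 : chk f 60 (L2 (L2 b0)) = true := by decide +kernel

theorem c1 : chk f 60 (L2 (R2 (L2 b0))) = true := by decide +kernel

theorem c2 : chk f 60 (R2 (R2 (L2 b0))) = true := by decide +kernel

theorem c3 : chk f 60 (R2 b0) = true := by decide +kernel

theorem all (x1 x2 : ℝ) (h : Mem S b0 x1 x2) : Q x1 x2 := by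
  rcases mem_split2 h with h | h
  · rcases mem_split2 h with h | h
    · exact chk_all c0 x1 x2 h
    · rcases mem_split2 h with h | h
      · exact chk_all c1 x1 x2 h
      · exact chk_all c2 x1 x2 h
  · exact chk_all c3 x1 x2 h

theorem e4 (t t2 : ℝ) : v4 t t2 = -(c1f_v t) := by
  first | rfl | (simp only [v4, v3, v0]; done) | (simp only [v4, v3, v0]; push_cast; (try simp only [hs3]); (try ring))

theorem e6 (t t2 : ℝ) : v6 t t2 = t + t2 := by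
  first | rfl | (simp only [v6, v0, v5]; done) | (simp only [v6, v0, v5]; push_cast; (try simp only [hs3]); (try ring))

theorem e8 (t t2 : ℝ) : v8 t t2 = -(c1f_v t2) := by
  first | rfl | (simp only [v8, v7, v5]; done) | (simp only [v8, v7, v5]; push_cast; (try simp only [hs3]); (try ring))

theorem e9 (t t2 : ℝ) : v9 t t2 = (-(c1f_v t) + -(c1f_v t2)) := by
  first | rfl | (simp only [v9, e4, v7, v5]; done) | (simp only [v9, e4, v7, v5]; push_cast; (try simp only [hs3]); (try ring))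

theorem e10 (t t2 : ℝ) : v10 t t2 = exf_v (-(c1f_v t)) (-(c1f_v t2)) t t2 := by
  first | rfl | (simp only [v10, e4, e8, v0, v5]; done) | (simp only [v10, e4, e8, v0, v5]; push_cast; (try simp only [hs3]); (try ring))

theorem e11 (t t2 : ℝ) : v11 t t2 = t + t2 - 2 * Pool.Agent.StripNear.h0 := by
  first | rfl | (simp only [v11, e6, v1]; done) | (simp only [v11, e6, v1]; push_cast; (try simp only [hs3]); (try ring))

theorem e12 (t t2 : ℝ) : v12 t t2 = q3f_v (-(c1f_v t) + -(c1f_v t2)) (t + t2) := by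
  first | rfl | (simp only [v12, e9, e6]; done) | (simp only [v12, e9, e6]; push_cast; (try simp only [hs3]); (try ring))

theorem e14 (t t2 : ℝ) : v14 t t2 = 1 - q3f_v (-(c1f_v t) + -(c1f_v t2)) (t + t2) := by
  first | rfl | (simp only [v14, v13, e12]; done) | (simp only [v14, v13, e12]; push_cast; (try simp only [hs3]); (try ring))

theorem e16 (t t2 : ℝ) : v16 t t2 = q3f_v (-(c1f_v t) + -(c1f_v t2)) (t + t2) - 3 := by
  first | rfl | (simp only [v16, e12, v15]; done) | (simp only [v16, e12, v15]; push_cast; (try simp only [hs3]); (try ring))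

theorem e19 (t t2 : ℝ) : v19 t t2 = -(exf_v (-(c1f_v t)) (-(c1f_v t2)) t t2 + 1 / 2) := by
  first | rfl | (simp only [v19, v18, e10, v17]; done) | (simp only [v19, v18, e10, v17]; push_cast; (try simp only [hs3]); (try ring))

theorem e21 (t t2 : ℝ) : v21 t t2 = -(a1q0_v t2) := by
  first | rfl | (simp only [v21, v20, v5]; done) | (simp only [v21, v20, v5]; push_cast; (try simp only [hs3]); (try ring))

theorem e22 (t t2 : ℝ) : v22 t t2 = rq2_v (-(c1f_v t) + -(c1f_v t2)) (t + t2) := by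
  first | rfl | (simp only [v22, e9, e6]; done) | (simp only [v22, e9, e6]; push_cast; (try simp only [hs3]); (try ring))

theorem e23 (t t2 : ℝ) : v23 t t2 = sl202_v (exf_v (-(c1f_v t)) (-(c1f_v t2)) t t2) t t2 (t + t2) (-(c1f_v t)) (-(a1q0_v t2)) (rq2_v (-(c1f_v t) + -(c1f_v t2)) (t + t2)) := by
  first | rfl | (simp only [v23, e10, v0, v5, e6, e4, e21, e22]; done) | (simp only [v23, e10, v0, v5, e6, e4, e21, e22]; push_cast; (try simp only [hs3]); (try ring))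

theorem e25 (t t2 : ℝ) : v25 t t2 = -((t + t2) - 1 * Pool.Agent.StripNear.h0) := by
  first | rfl | (simp only [v25, v2, v1, e6]; done) | (simp only [v25, v2, v1, e6]; push_cast; (try simp only [hs3]); (try ring))

theorem e27 (t t2 : ℝ) : v27 t t2 = -((t + t2) - 3 / 2 * Pool.Agent.StripNear.h0) := by
  first | rfl | (simp only [v27, v26, v1, e6]; done) | (simp only [v27, v26, v1, e6]; push_cast; (try simp only [hs3]); (try ring))

theorem e28 (t t2 : ℝ) : v28 t t2 = -(3 / 2 * Pool.Agent.StripNear.h0 - (t + t2)) := by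
  first | rfl | (simp only [v28, e6, v26, v1]; done) | (simp only [v28, e6, v26, v1]; push_cast; (try simp only [hs3]); (try ring))

theorem e34 (t t2 : ℝ) : v34 t t2 = 1 / 16 - ((-(-(c1f_v t2)) / 2 - Pool.Agent.StripNear.h0 * t2) + -(c1f_v t)) := by
  first | rfl | (simp only [v34, v33, v32, v31, v29, v7, v5, v30, v2, v1, v3, v0]; done) | (simp only [v34, v33, v32, v31, v29, v7, v5, v30, v2, v1, v3, v0]; push_cast; (try simp only [hs3]); (try ring))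

theorem e35 (t t2 : ℝ) : v35 t t2 = 1 / 16 + ((-(-(c1f_v t2)) / 2 - Pool.Agent.StripNear.h0 * t2) + -(c1f_v t)) := by
  first | rfl | (simp only [v35, v33, v32, v31, v29, v7, v5, v30, v2, v1, v3, v0]; done) | (simp only [v35, v33, v32, v31, v29, v7, v5, v30, v2, v1, v3, v0]; push_cast; (try simp only [hs3]); (try ring))

theorem e36 (t t2 : ℝ) : v36 t t2 = rq3_v (-(c1f_v t) + -(c1f_v t2)) (t + t2) := by
  first | rfl | (simp only [v36, e9, e6]; done) | (simp only [v36, e9, e6]; push_cast; (try simp only [hs3]); (try ring))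

theorem e37 (t t2 : ℝ) : v37 t t2 = sl203_v (exf_v (-(c1f_v t)) (-(c1f_v t2)) t t2) t t2 (t + t2) (-(c1f_v t)) (-(a1q0_v t2)) (rq3_v (-(c1f_v t) + -(c1f_v t2)) (t + t2)) := by
  first | rfl | (simp only [v37, e10, v0, v5, e6, e4, e21, e36]; done) | (simp only [v37, e10, v0, v5, e6, e4, e21, e36]; push_cast; (try simp only [hs3]); (try ring))

theorem e39 (t t2 : ℝ) : v39 t t2 = -(t2 - 1 / 2 * Pool.Agent.StripNear.h0) := by
  first | rfl | (simp only [v39, v38, v1, v5]; done) | (simp only [v39, v38, v1, v5]; push_cast; (try simp only [hs3]); (try ring))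

theorem e40 (t t2 : ℝ) : v40 t t2 = -(1 / 2 * Pool.Agent.StripNear.h0 - t2) := by
  first | rfl | (simp only [v40, v5, v38, v1]; done) | (simp only [v40, v5, v38, v1]; push_cast; (try simp only [hs3]); (try ring))

theorem e42 (t t2 : ℝ) : v42 t t2 = -(a1q1_v t2) := by
  first | rfl | (simp only [v42, v41, v5]; done) | (simp only [v42, v41, v5]; push_cast; (try simp only [hs3]); (try ring))

theorem e43 (t t2 : ℝ) : v43 t t2 = sl213_v (exf_v (-(c1f_v t)) (-(c1f_v t2)) t t2) t t2 (t + t2) (-(c1f_v t)) (-(a1q1_v t2)) (rq3_v (-(c1f_v t) + -(c1f_v t2)) (t + t2)) := by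
  first | rfl | (simp only [v43, e10, v0, v5, e6, e4, e42, e36]; done) | (simp only [v43, e10, v0, v5, e6, e4, e42, e36]; push_cast; (try simp only [hs3]); (try ring))

theorem e45 (t t2 : ℝ) : v45 t t2 = -(1 * Pool.Agent.StripNear.h0 - t2) := by
  first | rfl | (simp only [v45, v5, v2, v1]; done) | (simp only [v45, v5, v2, v1]; push_cast; (try simp only [hs3]); (try ring))

theorem e47 (t t2 : ℝ) : v47 t t2 = -(t - 1 * Pool.Agent.StripNear.h0) := by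
  first | rfl | (simp only [v47, v2, v1, v0]; done) | (simp only [v47, v2, v1, v0]; push_cast; (try simp only [hs3]); (try ring))

theorem e49 (t t2 : ℝ) : v49 t t2 = -(3 / 2 * Pool.Agent.StripNear.h0 - t) := by
  first | rfl | (simp only [v49, v0, v26, v1]; done) | (simp only [v49, v0, v26, v1]; push_cast; (try simp only [hs3]); (try ring))

theorem mem0 {t t2 : ℝ} (h1 : Pool.Agent.StripNear.h0 ≤ t) (h2 : t ≤ 1) (h3 : 0 ≤ t2) (h4 : t2 ≤ Pool.Agent.StripNear.h0) : Mem S b0 t t2 := by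
  have g1 := h0_lo
  have g2 := h0_hi
  unfold Mem b0
  refine ⟨abs_le.mpr ⟨?_, ?_⟩, abs_le.mpr ⟨?_, ?_⟩⟩ <;> norm_num [S] <;> linarith

theorem fin202 {t t2 : ℝ} (h1 : 1 * Pool.Agent.StripNear.h0 ≤ t) (h1' : t ≤ 3 / 2 * Pool.Agent.StripNear.h0) (h2 : 0 * Pool.Agent.StripNear.h0 ≤ t2) (h2' : t2 ≤ 1 / 2 * Pool.Agent.StripNear.h0) (h3 : 1 * Pool.Agent.StripNear.h0 ≤ t + t2) (h3' : t + t2 ≤ 3 / 2 * Pool.Agent.StripNear.h0) (h4 : t ≤ 1) (h6 : t + t2 ≤ 2 * Pool.Agent.StripNear.h0) (ho : 0 ≤ exf_v (-(c1f_v t)) (-(c1f_v t2)) t t2 + 1 / 2) (hq1 : 1 ≤ q3f_v (-(c1f_v t) + -(c1f_v t2)) (t + t2)) (hq3 : q3f_v (-(c1f_v t) + -(c1f_v t2)) (t + t2) ≤ 3) :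
    (0 < 1 / 16 - ((-(-(c1f_v t2)) / 2 - Pool.Agent.StripNear.h0 * t2) + -(c1f_v t)) ∧ 0 < 1 / 16 + ((-(-(c1f_v t2)) / 2 - Pool.Agent.StripNear.h0 * t2) + -(c1f_v t))) ∨ 0 < sl202_v (exf_v (-(c1f_v t)) (-(c1f_v t2)) t t2) t t2 (t + t2) (-(c1f_v t)) (-(a1q0_v t2)) (rq2_v (-(c1f_v t) + -(c1f_v t2)) (t + t2)) := by
  have hp := Pool.Agent.StripNear.h0_pos
  have hm : Mem S b0 t t2 := mem0 (by linarith) (by linarith) (by linarith) (by linarith)
  have h : Q t t2 := all t t2 hm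
  unfold Q P6 at h
  rcases h with (h | h | h | h) | h
  · exfalso; rw [e11] at h; linarith
  · exfalso; rw [e14] at h; linarith
  · exfalso; rw [e16] at h; linarith
  · exfalso; rw [e19] at h; linarith
  unfold P5 at h
  rcases h with (h | h) | h
  · exfalso; rw [e47] at h; linarith
  · exfalso; rw [e49] at h; linarith
  replace h := h.1
  unfold P2 at h
  rcases h with h | h
  · exfalso; rw [e40] at h; linarith
  replace h := h.1
  unfold P0 at h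
  rcases h with h | h | h | h
  · exfalso; rw [e25] at h; linarith
  · exfalso; rw [e28] at h; linarith
  · left; simp only [e34, e35] at h; exact h
  · right; rw [e23] at h; exact h

theorem fin203 {t t2 : ℝ} (h1 : 1 * Pool.Agent.StripNear.h0 ≤ t) (h1' : t ≤ 3 / 2 * Pool.Agent.StripNear.h0) (h2 : 0 * Pool.Agent.StripNear.h0 ≤ t2) (h2' : t2 ≤ 1 / 2 * Pool.Agent.StripNear.h0) (h3 : 3 / 2 * Pool.Agent.StripNear.h0 ≤ t + t2) (h3' : t + t2 ≤ 2 * Pool.Agent.StripNear.h0) (h4 : t ≤ 1) (h6 : t + t2 ≤ 2 * Pool.Agent.StripNear.h0) (ho : 0 ≤ exf_v (-(c1f_v t)) (-(c1f_v t2)) t t2 + 1 / 2) (hq1 : 1 ≤ q3f_v (-(c1f_v t) + -(c1f_v t2)) (t + t2)) (hq3 : q3f_v (-(c1f_v t) + -(c1f_v t2)) (t + t2) ≤ 3) :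
    (0 < 1 / 16 - ((-(-(c1f_v t2)) / 2 - Pool.Agent.StripNear.h0 * t2) + -(c1f_v t)) ∧ 0 < 1 / 16 + ((-(-(c1f_v t2)) / 2 - Pool.Agent.StripNear.h0 * t2) + -(c1f_v t))) ∨ 0 < sl203_v (exf_v (-(c1f_v t)) (-(c1f_v t2)) t t2) t t2 (t + t2) (-(c1f_v t)) (-(a1q0_v t2)) (rq3_v (-(c1f_v t) + -(c1f_v t2)) (t + t2)) := by
  have hp := Pool.Agent.StripNear.h0_pos
  have hm : Mem S b0 t t2 := mem0 (by linarith) (by linarith) (by linarith) (by linarith)
  have h : Q t t2 := all t t2 hm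
  unfold Q P6 at h
  rcases h with (h | h | h | h) | h
  · exfalso; rw [e11] at h; linarith
  · exfalso; rw [e14] at h; linarith
  · exfalso; rw [e16] at h; linarith
  · exfalso; rw [e19] at h; linarith
  unfold P5 at h
  rcases h with (h | h) | h
  · exfalso; rw [e47] at h; linarith
  · exfalso; rw [e49] at h; linarith
  replace h := h.1
  unfold P2 at h
  rcases h with h | h
  · exfalso; rw [e40] at h; linarith
  replace h := h.2
  unfold P1 at h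
  rcases h with h | h | h
  · exfalso; rw [e27] at h; linarith
  · left; simp only [e34, e35] at h; exact h
  · right; rw [e37] at h; exact h

theorem fin213 {t t2 : ℝ} (h1 : 1 * Pool.Agent.StripNear.h0 ≤ t) (h1' : t ≤ 3 / 2 * Pool.Agent.StripNear.h0) (h2 : 1 / 2 * Pool.Agent.StripNear.h0 ≤ t2) (h2' : t2 ≤ 1 * Pool.Agent.StripNear.h0) (h3 : 3 / 2 * Pool.Agent.StripNear.h0 ≤ t + t2) (h3' : t + t2 ≤ 2 * Pool.Agent.StripNear.h0) (h4 : t ≤ 1) (h6 : t + t2 ≤ 2 * Pool.Agent.StripNear.h0) (ho : 0 ≤ exf_v (-(c1f_v t)) (-(c1f_v t2)) t t2 + 1 / 2) (hq1 : 1 ≤ q3f_v (-(c1f_v t) + -(c1f_v t2)) (t + t2)) (hq3 : q3f_v (-(c1f_v t) + -(c1f_v t2)) (t + t2) ≤ 3) :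
    (0 < 1 / 16 - ((-(-(c1f_v t2)) / 2 - Pool.Agent.StripNear.h0 * t2) + -(c1f_v t)) ∧ 0 < 1 / 16 + ((-(-(c1f_v t2)) / 2 - Pool.Agent.StripNear.h0 * t2) + -(c1f_v t))) ∨ 0 < sl213_v (exf_v (-(c1f_v t)) (-(c1f_v t2)) t t2) t t2 (t + t2) (-(c1f_v t)) (-(a1q1_v t2)) (rq3_v (-(c1f_v t) + -(c1f_v t2)) (t + t2)) := by
  have hp := Pool.Agent.StripNear.h0_pos
  have hm : Mem S b0 t t2 := mem0 (by linarith) (by linarith) (by linarith) (by linarith)
  have h : Q t t2 := all t t2 hm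
  unfold Q P6 at h
  rcases h with (h | h | h | h) | h
  · exfalso; rw [e11] at h; linarith
  · exfalso; rw [e14] at h; linarith
  · exfalso; rw [e16] at h; linarith
  · exfalso; rw [e19] at h; linarith
  unfold P5 at h
  rcases h with (h | h) | h
  · exfalso; rw [e47] at h; linarith
  · exfalso; rw [e49] at h; linarith
  replace h := h.2
  unfold P4 at h
  rcases h with (h | h) | h
  · exfalso; rw [e39] at h; linarith
  · exfalso; rw [e45] at h; linarith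
  unfold P3 at h
  rcases h with h | h | h
  · exfalso; rw [e27] at h; linarith
  · left; simp only [e34, e35] at h; exact h
  · right; rw [e43] at h; exact h

end Pool.Agent.Strip051.LB.A0p0m_mm
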