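import Pool.Agent.Strip051.LB.B0m0p_pm.C1
import Pool.Agent.Strip051.LB.B0m0p_pm.C2

/-! # LINE boxes B0m0p_pm: assembly -/

namespace Pool.Agent.Strip051.LB.B0m0p_pm

open Pool.Agent.Strip051.Box Pool.Agent.Strip051.Box2 Pool.Agent.Strip051.LB

open Pool.Agent.Strip051.LB.Fn Pool.Agent.Strip051.LB.Fn.F2

theorem all (x1 x2 : ℝ) (h : Mem S b0 x1 x2) : Q x1 x2 := by
  rcases mem_split1 h with h | h
  · rcases mem_split1 h with h | h
    · rcases mem_split2 h with h | h
      · exact chk_all c0 x1 x2 h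
      · rcases mem_split1 h with h | h
        · exact chk_all c1 x1 x2 h
        · exact chk_all c2 x1 x2 h
    · exact chk_all c3 x1 x2 h
  · rcases mem_split1 h with h | h
    · rcases mem_split2 h with h | h
      · exact chk_all c4 x1 x2 h
      · exact chk_all c5 x1 x2 h
    · exact chk_all c6 x1 x2 h

theorem e3 (t T : ℝ) : v3 t T = c1f_v t := by
  first | rfl | (simp only [v3, v0]; done) | (simp only [v3, v0]; push_cast; (try simp only [hs3]); (try ring))

theorem e5 (t T : ℝ) : v5 t T = T - t := by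
  first | rfl | (simp only [v5, v4, v0]; done) | (simp only [v5, v4, v0]; push_cast; (try simp only [hs3]); (try ring))

theorem e7 (t T : ℝ) : v7 t T = -(c1f_v T) := by
  first | rfl | (simp only [v7, v6, v4]; done) | (simp only [v7, v6, v4]; push_cast; (try simp only [hs3]); (try ring))

theorem e8 (t T : ℝ) : v8 t T = (-(c1f_v T) - c1f_v t) := by
  first | rfl | (simp only [v8, e7, e3]; done) | (simp only [v8, e7, e3]; push_cast; (try simp only [hs3]); (try ring))

theorem e9 (t T : ℝ) : v9 t T = exf_v (c1f_v t) (-(c1f_v T)) t T := by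
  first | rfl | (simp only [v9, e3, e7, v0, v4]; done) | (simp only [v9, e3, e7, v0, v4]; push_cast; (try simp only [hs3]); (try ring))

theorem e10 (t T : ℝ) : v10 t T = -(T - t) := by
  first | rfl | (simp only [v10, v0, v4]; done) | (simp only [v10, v0, v4]; push_cast; (try simp only [hs3]); (try ring))

theorem e11 (t T : ℝ) : v11 t T = q3f_v (-(c1f_v T) - c1f_v t) (T - t) := by
  first | rfl | (simp only [v11, e8, e5]; done) | (simp only [v11, e8, e5]; push_cast; (try simp only [hs3]); (try ring))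

theorem e13 (t T : ℝ) : v13 t T = 1 - q3f_v (-(c1f_v T) - c1f_v t) (T - t) := by
  first | rfl | (simp only [v13, v12, e11]; done) | (simp only [v13, v12, e11]; push_cast; (try simp only [hs3]); (try ring))

theorem e15 (t T : ℝ) : v15 t T = q3f_v (-(c1f_v T) - c1f_v t) (T - t) - 3 := by
  first | rfl | (simp only [v15, e11, v14]; done) | (simp only [v15, e11, v14]; push_cast; (try simp only [hs3]); (try ring))

theorem e18 (t T : ℝ) : v18 t T = -(exf_v (c1f_v t) (-(c1f_v T)) t T + 1 / 2) := by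
  first | rfl | (simp only [v18, v17, e9, v16]; done) | (simp only [v18, v17, e9, v16]; push_cast; (try simp only [hs3]); (try ring))

theorem e19 (t T : ℝ) : v19 t T = a1q0_v t := by
  first | rfl | (simp only [v19, v0]; done) | (simp only [v19, v0]; push_cast; (try simp only [hs3]); (try ring))

theorem e20 (t T : ℝ) : v20 t T = rq1_v (-(c1f_v T) - c1f_v t) (T - t) := by
  first | rfl | (simp only [v20, e8, e5]; done) | (simp only [v20, e8, e5]; push_cast; (try simp only [hs3]); (try ring))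

theorem e21 (t T : ℝ) : v21 t T = sl012_v (exf_v (c1f_v t) (-(c1f_v T)) t T) t (T - t) T (a1q0_v t) (rq1_v (-(c1f_v T) - c1f_v t) (T - t)) (-(c1f_v T)) := by
  first | rfl | (simp only [v21, e9, v0, e5, v4, e19, e20, e7]; done) | (simp only [v21, e9, v0, e5, v4, e19, e20, e7]; push_cast; (try simp only [hs3]); (try ring))

theorem e23 (t T : ℝ) : v23 t T = -(1 / 2 * Pool.Agent.StripNear.h0 - (T - t)) := by
  first | rfl | (simp only [v23, e5, v22, v1]; done) | (simp only [v23, e5, v22, v1]; push_cast; (try simp only [hs3]); (try ring))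

theorem e24 (t T : ℝ) : v24 t T = -((T - t) - 1 / 2 * Pool.Agent.StripNear.h0) := by
  first | rfl | (simp only [v24, v22, v1, e5]; done) | (simp only [v24, v22, v1, e5]; push_cast; (try simp only [hs3]); (try ring))

theorem e25 (t T : ℝ) : v25 t T = -((T - t) - 1 * Pool.Agent.StripNear.h0) := by
  first | rfl | (simp only [v25, v2, v1, e5]; done) | (simp only [v25, v2, v1, e5]; push_cast; (try simp only [hs3]); (try ring))

theorem e26 (t T : ℝ) : v26 t T = -(1 * Pool.Agent.StripNear.h0 - (T - t)) := by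
  first | rfl | (simp only [v26, e5, v2, v1]; done) | (simp only [v26, e5, v2, v1]; push_cast; (try simp only [hs3]); (try ring))

theorem e32 (t T : ℝ) : v32 t T = 1 / 16 - ((c1f_v t / 2 - Pool.Agent.StripNear.h0 * t) - -(c1f_v T)) := by
  first | rfl | (simp only [v32, v31, v30, v29, v27, e3, v28, v2, v1, v0, v6, v4]; done) | (simp only [v32, v31, v30, v29, v27, e3, v28, v2, v1, v0, v6, v4]; push_cast; (try simp only [hs3]); (try ring))

theorem e33 (t T : ℝ) : v33 t T = 1 / 16 + ((c1f_v t / 2 - Pool.Agent.StripNear.h0 * t) - -(c1f_v T)) := by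
  first | rfl | (simp only [v33, v31, v30, v29, v27, e3, v28, v2, v1, v0, v6, v4]; done) | (simp only [v33, v31, v30, v29, v27, e3, v28, v2, v1, v0, v6, v4]; push_cast; (try simp only [hs3]); (try ring))

theorem e36 (t T : ℝ) : v36 t T = 1/10 - (t - 0 * Pool.Agent.StripNear.h0) := by
  first | rfl | (simp only [v36, v35, v0]; done) | (simp only [v36, v35, v0]; push_cast; (try simp only [hs3]); (try ring))

theorem e37 (t T : ℝ) : v37 t T = 1/10 - (1 * Pool.Agent.StripNear.h0 - (T - t)) := by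
  first | rfl | (simp only [v37, v35, e25]; done) | (simp only [v37, v35, e25]; push_cast; (try simp only [hs3]); (try ring))

theorem e39 (t T : ℝ) : v39 t T = 1/10 - (T - 1 * Pool.Agent.StripNear.h0) := by
  first | rfl | (simp only [v39, v35, v38, v4, v2, v1]; done) | (simp only [v39, v35, v38, v4, v2, v1]; push_cast; (try simp only [hs3]); (try ring))

theorem e40 (t T : ℝ) : v40 t T = rq2_v (-(c1f_v T) - c1f_v t) (T - t) := by
  first | rfl | (simp only [v40, e8, e5]; done) | (simp only [v40, e8, e5]; push_cast; (try simp only [hs3]); (try ring))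

theorem e41 (t T : ℝ) : v41 t T = sl022_v (exf_v (c1f_v t) (-(c1f_v T)) t T) t (T - t) T (a1q0_v t) (rq2_v (-(c1f_v T) - c1f_v t) (T - t)) (-(c1f_v T)) := by
  first | rfl | (simp only [v41, e9, v0, e5, v4, e19, e40, e7]; done) | (simp only [v41, e9, v0, e5, v4, e19, e40, e7]; push_cast; (try simp only [hs3]); (try ring))

theorem e44 (t T : ℝ) : v44 t T = -(3 / 2 * Pool.Agent.StripNear.h0 - (T - t)) := by
  first | rfl | (simp only [v44, e5, v42, v1]; done) | (simp only [v44, e5, v42, v1]; push_cast; (try simp only [hs3]); (try ring))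

theorem e45 (t T : ℝ) : v45 t T = 1/10 - ((T - t) - 1 * Pool.Agent.StripNear.h0) := by
  first | rfl | (simp only [v45, v35, e26]; done) | (simp only [v45, v35, e26]; push_cast; (try simp only [hs3]); (try ring))

theorem e46 (t T : ℝ) : v46 t T = -(T - 1 * Pool.Agent.StripNear.h0) := by
  first | rfl | (simp only [v46, v2, v1, v4]; done) | (simp only [v46, v2, v1, v4]; push_cast; (try simp only [hs3]); (try ring))

theorem e48 (t T : ℝ) : v48 t T = -(3 / 2 * Pool.Agent.StripNear.h0 - T) := by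
  first | rfl | (simp only [v48, v4, v42, v1]; done) | (simp only [v48, v4, v42, v1]; push_cast; (try simp only [hs3]); (try ring))

theorem e49 (t T : ℝ) : v49 t T = -(t - 1 / 2 * Pool.Agent.StripNear.h0) := by
  first | rfl | (simp only [v49, v22, v1, v0]; done) | (simp only [v49, v22, v1, v0]; push_cast; (try simp only [hs3]); (try ring))

theorem e50 (t T : ℝ) : v50 t T = -(1 / 2 * Pool.Agent.StripNear.h0 - t) := by
  first | rfl | (simp only [v50, v0, v22, v1]; done) | (simp only [v50, v0, v22, v1]; push_cast; (try simp only [hs3]); (try ring))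

theorem e51 (t T : ℝ) : v51 t T = a1q1_v t := by
  first | rfl | (simp only [v51, v0]; done) | (simp only [v51, v0]; push_cast; (try simp only [hs3]); (try ring))

theorem e52 (t T : ℝ) : v52 t T = rq0_v (-(c1f_v T) - c1f_v t) (T - t) := by
  first | rfl | (simp only [v52, e8, e5]; done) | (simp only [v52, e8, e5]; push_cast; (try simp only [hs3]); (try ring))

theorem e53 (t T : ℝ) : v53 t T = sl102_v (exf_v (c1f_v t) (-(c1f_v T)) t T) t (T - t) T (a1q1_v t) (rq0_v (-(c1f_v T) - c1f_v t) (T - t)) (-(c1f_v T)) := by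
  first | rfl | (simp only [v53, e9, v0, e5, v4, e51, e52, e7]; done) | (simp only [v53, e9, v0, e5, v4, e51, e52, e7]; push_cast; (try simp only [hs3]); (try ring))

theorem e54 (t T : ℝ) : v54 t T = sl112_v (exf_v (c1f_v t) (-(c1f_v T)) t T) t (T - t) T (a1q1_v t) (rq1_v (-(c1f_v T) - c1f_v t) (T - t)) (-(c1f_v T)) := by
  first | rfl | (simp only [v54, e9, v0, e5, v4, e51, e20, e7]; done) | (simp only [v54, e9, v0, e5, v4, e51, e20, e7]; push_cast; (try simp only [hs3]); (try ring))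

theorem e56 (t T : ℝ) : v56 t T = -(1 * Pool.Agent.StripNear.h0 - t) := by
  first | rfl | (simp only [v56, v0, v2, v1]; done) | (simp only [v56, v0, v2, v1]; push_cast; (try simp only [hs3]); (try ring))

theorem mem0 {t T : ℝ} (h1 : 0 ≤ t) (h2 : t ≤ Pool.Agent.StripNear.h0) (h3 : Pool.Agent.StripNear.h0 ≤ T) (h4 : T ≤ 1) : Mem S b0 t T := by
  have g1 := h0_lo
  have g2 := h0_hi
  unfold Mem b0
  refine ⟨abs_le.mpr ⟨?_, ?_⟩, abs_le.mpr ⟨?_, ?_⟩⟩ <;> norm_num [S] <;> linarith

theorem fin012 {t T : ℝ} (h1 : 0 * Pool.Agent.StripNear.h0 ≤ t) (h1' : t ≤ 1 / 2 * Pool.Agent.StripNear.h0) (h2 : 1 * Pool.Agent.StripNear.h0 ≤ T) (h2' : T ≤ 3 / 2 * Pool.Agent.StripNear.h0) (h3 : 1 / 2 * Pool.Agent.StripNear.h0 ≤ T - t) (h3' : T - t ≤ 1 * Pool.Agent.StripNear.h0) (h5 : T ≤ 1) (h6 : t ≤ T) (ho : 0 ≤ exf_v (c1f_v t) (-(c1f_v T)) t T + 1 / 2) (hq1 : 1 ≤ q3f_v (-(c1f_v T) - c1f_v t) (T - t)) (hq3 : q3f_v (-(c1f_v T) - c1f_v t) (T - t) ≤ 3) :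
    (0 < 1/10 - (t - 0 * Pool.Agent.StripNear.h0) ∧ 0 < 1/10 - (1 * Pool.Agent.StripNear.h0 - (T - t)) ∧ 0 < 1/10 - (T - 1 * Pool.Agent.StripNear.h0)) ∨ (0 < 1 / 16 - ((c1f_v t / 2 - Pool.Agent.StripNear.h0 * t) - -(c1f_v T)) ∧ 0 < 1 / 16 + ((c1f_v t / 2 - Pool.Agent.StripNear.h0 * t) - -(c1f_v T))) ∨ 0 < sl012_v (exf_v (c1f_v t) (-(c1f_v T)) t T) t (T - t) T (a1q0_v t) (rq1_v (-(c1f_v T) - c1f_v t) (T - t)) (-(c1f_v T)) := by
  have hp := Pool.Agent.StripNear.h0_pos
  have hm : Mem S b0 t T := mem0 (by linarith) (by linarith) (by linarith) (by linarith)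
  have h : Q t T := all t T hm
  unfold Q P8 at h
  rcases h with (h | h | h | h) | h
  · exfalso; rw [e10] at h; linarith
  · exfalso; rw [e13] at h; linarith
  · exfalso; rw [e15] at h; linarith
  · exfalso; rw [e18] at h; linarith
  replace h := h.1
  unfold P3 at h
  rcases h with h | h
  · exfalso; rw [e50] at h; linarith
  unfold P2 at h
  rcases h with (h | h) | h
  · exfalso; rw [e46] at h; linarith
  · exfalso; rw [e48] at h; linarith
  replace h := h.1
  unfold P0 at h
  rcases h with h | h | h | h | h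
  · exfalso; rw [e24] at h; linarith
  · exfalso; rw [e26] at h; linarith
  · left; simp only [e36, e37, e39] at h; exact h
  · right; left; simp only [e32, e33] at h; exact h
  · right; right; rw [e21] at h; exact h

theorem fin022 {t T : ℝ} (h1 : 0 * Pool.Agent.StripNear.h0 ≤ t) (h1' : t ≤ 1 / 2 * Pool.Agent.StripNear.h0) (h2 : 1 * Pool.Agent.StripNear.h0 ≤ T) (h2' : T ≤ 3 / 2 * Pool.Agent.StripNear.h0) (h3 : 1 * Pool.Agent.StripNear.h0 ≤ T - t) (h3' : T - t ≤ 3 / 2 * Pool.Agent.StripNear.h0) (h5 : T ≤ 1) (h6 : t ≤ T) (ho : 0 ≤ exf_v (c1f_v t) (-(c1f_v T)) t T + 1 / 2) (hq1 : 1 ≤ q3f_v (-(c1f_v T) - c1f_v t) (T - t)) (hq3 : q3f_v (-(c1f_v T) - c1f_v t) (T - t) ≤ 3) :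
    (0 < 1/10 - (t - 0 * Pool.Agent.StripNear.h0) ∧ 0 < 1/10 - ((T - t) - 1 * Pool.Agent.StripNear.h0) ∧ 0 < 1/10 - (T - 1 * Pool.Agent.StripNear.h0)) ∨ 0 < sl022_v (exf_v (c1f_v t) (-(c1f_v T)) t T) t (T - t) T (a1q0_v t) (rq2_v (-(c1f_v T) - c1f_v t) (T - t)) (-(c1f_v T)) := by
  have hp := Pool.Agent.StripNear.h0_pos
  have hm : Mem S b0 t T := mem0 (by linarith) (by linarith) (by linarith) (by linarith)
  have h : Q t T := all t T hm
  unfold Q P8 at h
  rcases h with (h | h | h | h) | h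
  · exfalso; rw [e10] at h; linarith
  · exfalso; rw [e13] at h; linarith
  · exfalso; rw [e15] at h; linarith
  · exfalso; rw [e18] at h; linarith
  replace h := h.1
  unfold P3 at h
  rcases h with h | h
  · exfalso; rw [e50] at h; linarith
  unfold P2 at h
  rcases h with (h | h) | h
  · exfalso; rw [e46] at h; linarith
  · exfalso; rw [e48] at h; linarith
  replace h := h.2
  unfold P1 at h
  rcases h with h | h | h | h
  · exfalso; rw [e25] at h; linarith
  · exfalso; rw [e44] at h; linarith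
  · left; simp only [e36, e45, e39] at h; exact h
  · right; rw [e41] at h; exact h

theorem fin102 {t T : ℝ} (h1 : 1 / 2 * Pool.Agent.StripNear.h0 ≤ t) (h1' : t ≤ 1 * Pool.Agent.StripNear.h0) (h2 : 1 * Pool.Agent.StripNear.h0 ≤ T) (h2' : T ≤ 3 / 2 * Pool.Agent.StripNear.h0) (h3 : 0 * Pool.Agent.StripNear.h0 ≤ T - t) (h3' : T - t ≤ 1 / 2 * Pool.Agent.StripNear.h0) (h5 : T ≤ 1) (h6 : t ≤ T) (ho : 0 ≤ exf_v (c1f_v t) (-(c1f_v T)) t T + 1 / 2) (hq1 : 1 ≤ q3f_v (-(c1f_v T) - c1f_v t) (T - t)) (hq3 : q3f_v (-(c1f_v T) - c1f_v t) (T - t) ≤ 3) :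
    (0 < 1 / 16 - ((c1f_v t / 2 - Pool.Agent.StripNear.h0 * t) - -(c1f_v T)) ∧ 0 < 1 / 16 + ((c1f_v t / 2 - Pool.Agent.StripNear.h0 * t) - -(c1f_v T))) ∨ 0 < sl102_v (exf_v (c1f_v t) (-(c1f_v T)) t T) t (T - t) T (a1q1_v t) (rq0_v (-(c1f_v T) - c1f_v t) (T - t)) (-(c1f_v T)) := by
  have hp := Pool.Agent.StripNear.h0_pos
  have hm : Mem S b0 t T := mem0 (by linarith) (by linarith) (by linarith) (by linarith)
  have h : Q t T := all t T hm
  unfold Q P8 at h
  rcases h with (h | h | h | h) | h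
  · exfalso; rw [e10] at h; linarith
  · exfalso; rw [e13] at h; linarith
  · exfalso; rw [e15] at h; linarith
  · exfalso; rw [e18] at h; linarith
  replace h := h.2
  unfold P7 at h
  rcases h with (h | h) | h
  · exfalso; rw [e49] at h; linarith
  · exfalso; rw [e56] at h; linarith
  unfold P6 at h
  rcases h with (h | h) | h
  · exfalso; rw [e46] at h; linarith
  · exfalso; rw [e48] at h; linarith
  replace h := h.1
  unfold P4 at h
  rcases h with h | h | h
  · exfalso; rw [e23] at h; linarith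
  · left; simp only [e32, e33] at h; exact h
  · right; rw [e53] at h; exact h

theorem fin112 {t T : ℝ} (h1 : 1 / 2 * Pool.Agent.StripNear.h0 ≤ t) (h1' : t ≤ 1 * Pool.Agent.StripNear.h0) (h2 : 1 * Pool.Agent.StripNear.h0 ≤ T) (h2' : T ≤ 3 / 2 * Pool.Agent.StripNear.h0) (h3 : 1 / 2 * Pool.Agent.StripNear.h0 ≤ T - t) (h3' : T - t ≤ 1 * Pool.Agent.StripNear.h0) (h5 : T ≤ 1) (h6 : t ≤ T) (ho : 0 ≤ exf_v (c1f_v t) (-(c1f_v T)) t T + 1 / 2) (hq1 : 1 ≤ q3f_v (-(c1f_v T) - c1f_v t) (T - t)) (hq3 : q3f_v (-(c1f_v T) - c1f_v t) (T - t) ≤ 3) :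
    (0 < 1 / 16 - ((c1f_v t / 2 - Pool.Agent.StripNear.h0 * t) - -(c1f_v T)) ∧ 0 < 1 / 16 + ((c1f_v t / 2 - Pool.Agent.StripNear.h0 * t) - -(c1f_v T))) ∨ 0 < sl112_v (exf_v (c1f_v t) (-(c1f_v T)) t T) t (T - t) T (a1q1_v t) (rq1_v (-(c1f_v T) - c1f_v t) (T - t)) (-(c1f_v T)) := by
  have hp := Pool.Agent.StripNear.h0_pos
  have hm : Mem S b0 t T := mem0 (by linarith) (by linarith) (by linarith) (by linarith)
  have h : Q t T := all t T hm
  unfold Q P8 at h
  rcases h with (h | h | h | h) | h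
  · exfalso; rw [e10] at h; linarith
  · exfalso; rw [e13] at h; linarith
  · exfalso; rw [e15] at h; linarith
  · exfalso; rw [e18] at h; linarith
  replace h := h.2
  unfold P7 at h
  rcases h with (h | h) | h
  · exfalso; rw [e49] at h; linarith
  · exfalso; rw [e56] at h; linarith
  unfold P6 at h
  rcases h with (h | h) | h
  · exfalso; rw [e46] at h; linarith
  · exfalso; rw [e48] at h; linarith
  replace h := h.2
  unfold P5 at h
  rcases h with h | h | h | h
  · exfalso; rw [e24] at h; linarith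
  · exfalso; rw [e26] at h; linarith
  · left; simp only [e32, e33] at h; exact h
  · right; rw [e54] at h; exact h

end Pool.Agent.Strip051.LB.B0m0p_pm
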