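import Pool.Agent.Strip051.Box.C2
import Pool.Agent.Strip051.Box.S30
import Pool.Agent.Strip051.LB.Fn.F2
import Pool.Agent.Strip051.LB.Base

/-! # LINE boxes, subfamily B0m1m_pm -/

namespace Pool.Agent.Strip051.LB.B0m1m_pm

open Pool.Agent.Strip051.Box Pool.Agent.Strip051.Box2

open Pool.Agent.Strip051.LB.Fn Pool.Agent.Strip051.LB.Fn.F2

/-- coordinates of a point of the box -/
def In (b : Bx) (E : Pt) (x1 x2 : ℝ) : Prop :=
  (S : ℝ) * x1 = ((b.p1 : ℝ) - b.n1) + b.q1 * E.e1 ∧ (S : ℝ) * x2 = ((b.p2 : ℝ) - b.n2) + b.q2 * E.e2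

variable {b : Bx} {E : Pt} {x1 x2 : ℝ}

def t0 (b : Bx) : TM := X1 b
noncomputable def v0 (x1 _x2 : ℝ) : ℝ := x1
theorem h0 (h : In b E x1 x2) : Enc S E (t0 b) (v0 x1 x2) := enc_X1 h.1

def t1 (_b : Bx) : TM := tconst 1859775393 0 1
noncomputable def v1 (_x1 _x2 : ℝ) : ℝ := Real.sqrt ((3 : ℕ) : ℝ)
theorem h1 (_h : In b E x1 x2) : Enc S E (t1 b) (v1 x1 x2) := enc_sqrtn E (by decide) (by decide)

def t2 (b : Bx) : TM := tscale 1 2 (t1 b)
noncomputable def v2 (x1 x2 : ℝ) : ℝ := ((1 : ℕ) : ℝ) / ((2 : ℕ) : ℝ) * v1 x1 x2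
theorem h2 (h : In b E x1 x2) : Enc S E (t2 b) (v2 x1 x2) := enc_scale 1 (by norm_num) (h1 h)

def t3 (b : Bx) : TM := c1f_t (t0 b)
noncomputable def v3 (x1 x2 : ℝ) : ℝ := c1f_v (v0 x1 x2)
theorem h3 (h : In b E x1 x2) : Enc S E (t3 b) (v3 x1 x2) := c1f_enc (h0 h)

def t4 (b : Bx) : TM := X2 b
noncomputable def v4 (_x1 x2 : ℝ) : ℝ := x2
theorem h4 (h : In b E x1 x2) : Enc S E (t4 b) (v4 x1 x2) := enc_X2 h.2

def t5 (b : Bx) : TM := tsub (t4 b) (t0 b)
noncomputable def v5 (x1 x2 : ℝ) : ℝ := v4 x1 x2 - v0 x1 x2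
theorem h5 (h : In b E x1 x2) : Enc S E (t5 b) (v5 x1 x2) := enc_sub (h4 h) (h0 h)

def t6 (b : Bx) : TM := f1m_t (t4 b)
noncomputable def v6 (x1 x2 : ℝ) : ℝ := f1m_v (v4 x1 x2)
theorem h6 (h : In b E x1 x2) : Enc S E (t6 b) (v6 x1 x2) := f1m_enc (h4 h)

def t7 (b : Bx) : TM := tneg (t6 b)
noncomputable def v7 (x1 x2 : ℝ) : ℝ := -(v6 x1 x2)
theorem h7 (h : In b E x1 x2) : Enc S E (t7 b) (v7 x1 x2) := enc_neg (h6 h)

def t8 (b : Bx) : TM := tsub (t7 b) (t3 b)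
noncomputable def v8 (x1 x2 : ℝ) : ℝ := v7 x1 x2 - v3 x1 x2
theorem h8 (h : In b E x1 x2) : Enc S E (t8 b) (v8 x1 x2) := enc_sub (h7 h) (h3 h)

def t9 (b : Bx) : TM := exf_t (t3 b) (t7 b) (t0 b) (t4 b)
noncomputable def v9 (x1 x2 : ℝ) : ℝ := exf_v (v3 x1 x2) (v7 x1 x2) (v0 x1 x2) (v4 x1 x2)
theorem h9 (h : In b E x1 x2) : Enc S E (t9 b) (v9 x1 x2) := exf_enc (h3 h) (h7 h) (h0 h) (h4 h)

def t10 (b : Bx) : TM := tsub (t0 b) (t4 b)
noncomputable def v10 (x1 x2 : ℝ) : ℝ := v0 x1 x2 - v4 x1 x2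
theorem h10 (h : In b E x1 x2) : Enc S E (t10 b) (v10 x1 x2) := enc_sub (h0 h) (h4 h)

def t11 (b : Bx) : TM := q3f_t (t8 b) (t5 b)
noncomputable def v11 (x1 x2 : ℝ) : ℝ := q3f_v (v8 x1 x2) (v5 x1 x2)
theorem h11 (h : In b E x1 x2) : Enc S E (t11 b) (v11 x1 x2) := q3f_enc (h8 h) (h5 h)

def t12 (_b : Bx) : TM := tconst (Nat.mul 1 S) 0 0
noncomputable def v12 (_x1 _x2 : ℝ) : ℝ := ((1 : ℕ) : ℝ)
theorem h12 (_h : In b E x1 x2) : Enc S E (t12 b) (v12 x1 x2) := enc_nc E 1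

def t13 (b : Bx) : TM := tsub (t12 b) (t11 b)
noncomputable def v13 (x1 x2 : ℝ) : ℝ := v12 x1 x2 - v11 x1 x2
theorem h13 (h : In b E x1 x2) : Enc S E (t13 b) (v13 x1 x2) := enc_sub (h12 h) (h11 h)

def t14 (_b : Bx) : TM := tconst (Nat.mul 3 S) 0 0
noncomputable def v14 (_x1 _x2 : ℝ) : ℝ := ((3 : ℕ) : ℝ)
theorem h14 (_h : In b E x1 x2) : Enc S E (t14 b) (v14 x1 x2) := enc_nc E 3

def t15 (b : Bx) : TM := tsub (t11 b) (t14 b)
noncomputable def v15 (x1 x2 : ℝ) : ℝ := v11 x1 x2 - v14 x1 x2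
theorem h15 (h : In b E x1 x2) : Enc S E (t15 b) (v15 x1 x2) := enc_sub (h11 h) (h14 h)

def t16 (_b : Bx) : TM := tconst (Nat.div (Nat.mul 1 S) 2) 0 1
noncomputable def v16 (_x1 _x2 : ℝ) : ℝ := ((1 : ℕ) : ℝ) / ((2 : ℕ) : ℝ)
theorem h16 (_h : In b E x1 x2) : Enc S E (t16 b) (v16 x1 x2) := enc_rat E 1 (by norm_num)

def t17 (b : Bx) : TM := tadd (t9 b) (t16 b)
noncomputable def v17 (x1 x2 : ℝ) : ℝ := v9 x1 x2 + v16 x1 x2
theorem h17 (h : In b E x1 x2) : Enc S E (t17 b) (v17 x1 x2) := enc_add (h9 h) (h16 h)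

def t18 (b : Bx) : TM := tneg (t17 b)
noncomputable def v18 (x1 x2 : ℝ) : ℝ := -(v17 x1 x2)
theorem h18 (h : In b E x1 x2) : Enc S E (t18 b) (v18 x1 x2) := enc_neg (h17 h)

def t19 (b : Bx) : TM := a1q0_t (t0 b)
noncomputable def v19 (x1 x2 : ℝ) : ℝ := a1q0_v (v0 x1 x2)
theorem h19 (h : In b E x1 x2) : Enc S E (t19 b) (v19 x1 x2) := a1q0_enc (h0 h)

def t22 (b : Bx) : TM := v1q1_t (t4 b)
noncomputable def v22 (x1 x2 : ℝ) : ℝ := v1q1_v (v4 x1 x2)
theorem h22 (h : In b E x1 x2) : Enc S E (t22 b) (v22 x1 x2) := v1q1_enc (h4 h)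

def t23 (b : Bx) : TM := tneg (t22 b)
noncomputable def v23 (x1 x2 : ℝ) : ℝ := -(v22 x1 x2)
theorem h23 (h : In b E x1 x2) : Enc S E (t23 b) (v23 x1 x2) := enc_neg (h22 h)

def t24 (b : Bx) : TM := rq0_t (t8 b) (t5 b)
noncomputable def v24 (x1 x2 : ℝ) : ℝ := rq0_v (v8 x1 x2) (v5 x1 x2)
theorem h24 (h : In b E x1 x2) : Enc S E (t24 b) (v24 x1 x2) := rq0_enc (h8 h) (h5 h)

def t25 (b : Bx) : TM := sl001_t (t9 b) (t0 b) (t5 b) (t4 b) (t19 b) (t24 b) (t23 b)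
noncomputable def v25 (x1 x2 : ℝ) : ℝ := sl001_v (v9 x1 x2) (v0 x1 x2) (v5 x1 x2) (v4 x1 x2) (v19 x1 x2) (v24 x1 x2) (v23 x1 x2)
theorem h25 (h : In b E x1 x2) : Enc S E (t25 b) (v25 x1 x2) := sl001_enc (h9 h) (h0 h) (h5 h) (h4 h) (h19 h) (h24 h) (h23 h)

def t26 (b : Bx) : TM := tscale 1 4 (t1 b)
noncomputable def v26 (x1 x2 : ℝ) : ℝ := ((1 : ℕ) : ℝ) / ((4 : ℕ) : ℝ) * v1 x1 x2
theorem h26 (h : In b E x1 x2) : Enc S E (t26 b) (v26 x1 x2) := enc_scale 1 (by norm_num) (h1 h)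

def t27 (b : Bx) : TM := tsub (t26 b) (t5 b)
noncomputable def v27 (x1 x2 : ℝ) : ℝ := v26 x1 x2 - v5 x1 x2
theorem h27 (h : In b E x1 x2) : Enc S E (t27 b) (v27 x1 x2) := enc_sub (h26 h) (h5 h)

def t28 (b : Bx) : TM := tsub (t5 b) (t26 b)
noncomputable def v28 (x1 x2 : ℝ) : ℝ := v5 x1 x2 - v26 x1 x2
theorem h28 (h : In b E x1 x2) : Enc S E (t28 b) (v28 x1 x2) := enc_sub (h5 h) (h26 h)

def t29 (b : Bx) : TM := rq1_t (t8 b) (t5 b)
noncomputable def v29 (x1 x2 : ℝ) : ℝ := rq1_v (v8 x1 x2) (v5 x1 x2)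
theorem h29 (h : In b E x1 x2) : Enc S E (t29 b) (v29 x1 x2) := rq1_enc (h8 h) (h5 h)

def t30 (b : Bx) : TM := sl011_t (t9 b) (t0 b) (t5 b) (t4 b) (t19 b) (t29 b) (t23 b)
noncomputable def v30 (x1 x2 : ℝ) : ℝ := sl011_v (v9 x1 x2) (v0 x1 x2) (v5 x1 x2) (v4 x1 x2) (v19 x1 x2) (v29 x1 x2) (v23 x1 x2)
theorem h30 (h : In b E x1 x2) : Enc S E (t30 b) (v30 x1 x2) := sl011_enc (h9 h) (h0 h) (h5 h) (h4 h) (h19 h) (h29 h) (h23 h)

def t32 (b : Bx) : TM := tsub (t5 b) (t2 b)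
noncomputable def v32 (x1 x2 : ℝ) : ℝ := v5 x1 x2 - v2 x1 x2
theorem h32 (h : In b E x1 x2) : Enc S E (t32 b) (v32 x1 x2) := enc_sub (h5 h) (h2 h)

def t34 (b : Bx) : TM := tsub (t26 b) (t4 b)
noncomputable def v34 (x1 x2 : ℝ) : ℝ := v26 x1 x2 - v4 x1 x2
theorem h34 (h : In b E x1 x2) : Enc S E (t34 b) (v34 x1 x2) := enc_sub (h26 h) (h4 h)

def t36 (b : Bx) : TM := tsub (t4 b) (t2 b)
noncomputable def v36 (x1 x2 : ℝ) : ℝ := v4 x1 x2 - v2 x1 x2
theorem h36 (h : In b E x1 x2) : Enc S E (t36 b) (v36 x1 x2) := enc_sub (h4 h) (h2 h)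

def t37 (b : Bx) : TM := tsub (t26 b) (t0 b)
noncomputable def v37 (x1 x2 : ℝ) : ℝ := v26 x1 x2 - v0 x1 x2
theorem h37 (h : In b E x1 x2) : Enc S E (t37 b) (v37 x1 x2) := enc_sub (h26 h) (h0 h)

def t38 (b : Bx) : TM := tsub (t0 b) (t26 b)
noncomputable def v38 (x1 x2 : ℝ) : ℝ := v0 x1 x2 - v26 x1 x2
theorem h38 (h : In b E x1 x2) : Enc S E (t38 b) (v38 x1 x2) := enc_sub (h0 h) (h26 h)

def t39 (b : Bx) : TM := a1q1_t (t0 b)
noncomputable def v39 (x1 x2 : ℝ) : ℝ := a1q1_v (v0 x1 x2)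
theorem h39 (h : In b E x1 x2) : Enc S E (t39 b) (v39 x1 x2) := a1q1_enc (h0 h)

def t40 (b : Bx) : TM := sl101_t (t9 b) (t0 b) (t5 b) (t4 b) (t39 b) (t24 b) (t23 b)
noncomputable def v40 (x1 x2 : ℝ) : ℝ := sl101_v (v9 x1 x2) (v0 x1 x2) (v5 x1 x2) (v4 x1 x2) (v39 x1 x2) (v24 x1 x2) (v23 x1 x2)
theorem h40 (h : In b E x1 x2) : Enc S E (t40 b) (v40 x1 x2) := sl101_enc (h9 h) (h0 h) (h5 h) (h4 h) (h39 h) (h24 h) (h23 h)

def t42 (b : Bx) : TM := tsub (t0 b) (t2 b)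
noncomputable def v42 (x1 x2 : ℝ) : ℝ := v0 x1 x2 - v2 x1 x2
theorem h42 (h : In b E x1 x2) : Enc S E (t42 b) (v42 x1 x2) := enc_sub (h0 h) (h2 h)

def g0 (b : Bx) : Bool := or (pos (t28 b)) (pos (t25 b))

def l0 (b : Bx) : Nat := cond (g0 b) 0 (pickb 1 (t25 b) b)

def P0 (x1 x2 : ℝ) : Prop := 0 < v28 x1 x2 ∨ 0 < v25 x1 x2

theorem l0_sound (h : In b E x1 x2) (e : l0 b = 0) : P0 x1 x2 := by
  have e1 : g0 b = true := by
    rcases e2 : g0 b with _ | _
    · unfold l0 at e; rw [e2, cond_false] at e; exact absurd e (pickb_ne _ _ _)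
    · rfl
  exact ((Bool.or_eq_true_iff.mp e1).imp (fun a => pos_sound hS (h28 h) a) (fun a => pos_sound hS (h25 h) a))

def g1 (b : Bx) : Bool := or (pos (t27 b)) (or (pos (t32 b)) (pos (t30 b)))

def l1 (b : Bx) : Nat := cond (g1 b) 0 (pickb 1 (t30 b) b)

def P1 (x1 x2 : ℝ) : Prop := 0 < v27 x1 x2 ∨ 0 < v32 x1 x2 ∨ 0 < v30 x1 x2

theorem l1_sound (h : In b E x1 x2) (e : l1 b = 0) : P1 x1 x2 := by
  have e1 : g1 b = true := by
    rcases e2 : g1 b with _ | _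
    · unfold l1 at e; rw [e2, cond_false] at e; exact absurd e (pickb_ne _ _ _)
    · rfl
  exact ((Bool.or_eq_true_iff.mp e1).imp (fun a => pos_sound hS (h27 h) a) (fun a => ((Bool.or_eq_true_iff.mp a).imp (fun a => pos_sound hS (h32 h) a) (fun a => pos_sound hS (h30 h) a))))

def g2 (b : Bx) : Bool := or (pos (t34 b)) (pos (t36 b))

def l2 (b : Bx) : Nat := cond (g2 b) 0 (cond (Nat.beq (l0 b) 0) (l1 b) (l0 b))

def P2 (x1 x2 : ℝ) : Prop := (0 < v34 x1 x2 ∨ 0 < v36 x1 x2) ∨ (P0 x1 x2 ∧ P1 x1 x2)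

theorem l2_sound (h : In b E x1 x2) (e : l2 b = 0) : P2 x1 x2 := by
  unfold l2 at e
  rcases e1 : g2 b with _ | _
  · rw [e1, cond_false] at e
    have z0 : l0 b = 0 := by
      rcases e2 : Nat.beq (l0 b) 0 with _ | _
      · rw [e2, cond_false] at e; exact e
      · exact Nat.eq_of_beq_eq_true e2
    have w0 : Nat.beq (l0 b) 0 = true := by rw [z0]; rfl
    rw [w0, cond_true] at e
    have z1 : l1 b = 0 := e
    exact Or.inr ⟨l0_sound h z0, l1_sound h z1⟩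
  · exact Or.inl (((Bool.or_eq_true_iff.mp e1).imp (fun a => pos_sound hS (h34 h) a) (fun a => pos_sound hS (h36 h) a)))

def g3 (b : Bx) : Bool := pos (t38 b)

def l3 (b : Bx) : Nat := cond (g3 b) 0 (l2 b)

def P3 (x1 x2 : ℝ) : Prop := (0 < v38 x1 x2) ∨ (P2 x1 x2)

theorem l3_sound (h : In b E x1 x2) (e : l3 b = 0) : P3 x1 x2 := by
  unfold l3 at e
  rcases e1 : g3 b with _ | _
  · rw [e1, cond_false] at e
    have z2 : l2 b = 0 := e
    exact Or.inr (l2_sound h z2)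
  · exact Or.inl (pos_sound hS (h38 h) e1)

def g4 (b : Bx) : Bool := or (pos (t28 b)) (pos (t40 b))

def l4 (b : Bx) : Nat := cond (g4 b) 0 (pickb 1 (t40 b) b)

def P4 (x1 x2 : ℝ) : Prop := 0 < v28 x1 x2 ∨ 0 < v40 x1 x2

theorem l4_sound (h : In b E x1 x2) (e : l4 b = 0) : P4 x1 x2 := by
  have e1 : g4 b = true := by
    rcases e2 : g4 b with _ | _
    · unfold l4 at e; rw [e2, cond_false] at e; exact absurd e (pickb_ne _ _ _)
    · rfl
  exact ((Bool.or_eq_true_iff.mp e1).imp (fun a => pos_sound hS (h28 h) a) (fun a => pos_sound hS (h40 h) a))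

def g5 (b : Bx) : Bool := or (pos (t34 b)) (pos (t36 b))

def l5 (b : Bx) : Nat := cond (g5 b) 0 (l4 b)

def P5 (x1 x2 : ℝ) : Prop := (0 < v34 x1 x2 ∨ 0 < v36 x1 x2) ∨ (P4 x1 x2)

theorem l5_sound (h : In b E x1 x2) (e : l5 b = 0) : P5 x1 x2 := by
  unfold l5 at e
  rcases e1 : g5 b with _ | _
  · rw [e1, cond_false] at e
    have z4 : l4 b = 0 := e
    exact Or.inr (l4_sound h z4)
  · exact Or.inl (((Bool.or_eq_true_iff.mp e1).imp (fun a => pos_sound hS (h34 h) a) (fun a => pos_sound hS (h36 h) a)))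

def g6 (b : Bx) : Bool := or (pos (t37 b)) (pos (t42 b))

def l6 (b : Bx) : Nat := cond (g6 b) 0 (l5 b)

def P6 (x1 x2 : ℝ) : Prop := (0 < v37 x1 x2 ∨ 0 < v42 x1 x2) ∨ (P5 x1 x2)

theorem l6_sound (h : In b E x1 x2) (e : l6 b = 0) : P6 x1 x2 := by
  unfold l6 at e
  rcases e1 : g6 b with _ | _
  · rw [e1, cond_false] at e
    have z5 : l5 b = 0 := e
    exact Or.inr (l5_sound h z5)
  · exact Or.inl (((Bool.or_eq_true_iff.mp e1).imp (fun a => pos_sound hS (h37 h) a) (fun a => pos_sound hS (h42 h) a)))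

def g7 (b : Bx) : Bool := or (pos (t10 b)) (or (pos (t13 b)) (or (pos (t15 b)) (pos (t18 b))))

def l7 (b : Bx) : Nat := cond (g7 b) 0 (cond (Nat.beq (l3 b) 0) (l6 b) (l3 b))

def P7 (x1 x2 : ℝ) : Prop := (0 < v10 x1 x2 ∨ 0 < v13 x1 x2 ∨ 0 < v15 x1 x2 ∨ 0 < v18 x1 x2) ∨ (P3 x1 x2 ∧ P6 x1 x2)

theorem l7_sound (h : In b E x1 x2) (e : l7 b = 0) : P7 x1 x2 := by
  unfold l7 at e
  rcases e1 : g7 b with _ | _
  · rw [e1, cond_false] at e
    have z3 : l3 b = 0 := by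
      rcases e2 : Nat.beq (l3 b) 0 with _ | _
      · rw [e2, cond_false] at e; exact e
      · exact Nat.eq_of_beq_eq_true e2
    have w3 : Nat.beq (l3 b) 0 = true := by rw [z3]; rfl
    rw [w3, cond_true] at e
    have z6 : l6 b = 0 := e
    exact Or.inr ⟨l3_sound h z3, l6_sound h z6⟩
  · exact Or.inl (((Bool.or_eq_true_iff.mp e1).imp (fun a => pos_sound hS (h10 h) a) (fun a => ((Bool.or_eq_true_iff.mp a).imp (fun a => pos_sound hS (h13 h) a) (fun a => ((Bool.or_eq_true_iff.mp a).imp (fun a => pos_sound hS (h15 h) a) (fun a => pos_sound hS (h18 h) a)))))))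

def f (b : Bx) : Nat := l7 b

/-- the statement -/
def Q (x1 x2 : ℝ) : Prop := P7 x1 x2

theorem f_sound (b : Bx) (hb : f b = 0) (x1 x2 : ℝ) (hm : Mem S b x1 x2) : Q x1 x2 := by
  obtain ⟨E, h⟩ := pt_of_mem hm
  have h : In b E x1 x2 := h
  unfold f at hb
  have e := hb
  have z7 : l7 b = 0 := e
  exact (l7_sound h z7)

/-- the box -/
def b0 : Bx := ⟨464943848, 0, 464943850, 464943848, 0, 464943850⟩

theorem chk_all {n : ℕ} {b : Bx} (h : chk f n b = true) (x1 x2 : ℝ) (hm : Mem S b x1 x2) : Q x1 x2 :=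
  chk_sound (fun b hb x1 x2 hm => f_sound b hb x1 x2 hm) n b h x1 x2 hm


open Pool.Agent.Strip051.LB

set_option maxRecDepth 100000

theorem c0 : chk f 60 (b0) = true := by decide +kernel

theorem all (x1 x2 : ℝ) (h : Mem S b0 x1 x2) : Q x1 x2 := by
  exact chk_all c0 x1 x2 h

theorem e3 (t T : ℝ) : v3 t T = c1f_v t := by
  first | rfl | (simp only [v3, v0]; done) | (simp only [v3, v0]; push_cast; (try simp only [hs3]); (try ring))

theorem e5 (t T : ℝ) : v5 t T = T - t := by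
  first | rfl | (simp only [v5, v4, v0]; done) | (simp only [v5, v4, v0]; push_cast; (try simp only [hs3]); (try ring))

theorem e7 (t T : ℝ) : v7 t T = -(f1m_v T) := by
  first | rfl | (simp only [v7, v6, v4]; done) | (simp only [v7, v6, v4]; push_cast; (try simp only [hs3]); (try ring))

theorem e8 (t T : ℝ) : v8 t T = (-(f1m_v T) - c1f_v t) := by
  first | rfl | (simp only [v8, e7, e3]; done) | (simp only [v8, e7, e3]; push_cast; (try simp only [hs3]); (try ring))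

theorem e9 (t T : ℝ) : v9 t T = exf_v (c1f_v t) (-(f1m_v T)) t T := by
  first | rfl | (simp only [v9, e3, e7, v0, v4]; done) | (simp only [v9, e3, e7, v0, v4]; push_cast; (try simp only [hs3]); (try ring))

theorem e10 (t T : ℝ) : v10 t T = -(T - t) := by
  first | rfl | (simp only [v10, v0, v4]; done) | (simp only [v10, v0, v4]; push_cast; (try simp only [hs3]); (try ring))

theorem e11 (t T : ℝ) : v11 t T = q3f_v (-(f1m_v T) - c1f_v t) (T - t) := by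
  first | rfl | (simp only [v11, e8, e5]; done) | (simp only [v11, e8, e5]; push_cast; (try simp only [hs3]); (try ring))

theorem e13 (t T : ℝ) : v13 t T = 1 - q3f_v (-(f1m_v T) - c1f_v t) (T - t) := by
  first | rfl | (simp only [v13, v12, e11]; done) | (simp only [v13, v12, e11]; push_cast; (try simp only [hs3]); (try ring))

theorem e15 (t T : ℝ) : v15 t T = q3f_v (-(f1m_v T) - c1f_v t) (T - t) - 3 := by
  first | rfl | (simp only [v15, e11, v14]; done) | (simp only [v15, e11, v14]; push_cast; (try simp only [hs3]); (try ring))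

theorem e18 (t T : ℝ) : v18 t T = -(exf_v (c1f_v t) (-(f1m_v T)) t T + 1 / 2) := by
  first | rfl | (simp only [v18, v17, e9, v16]; done) | (simp only [v18, v17, e9, v16]; push_cast; (try simp only [hs3]); (try ring))

theorem e19 (t T : ℝ) : v19 t T = a1q0_v t := by
  first | rfl | (simp only [v19, v0]; done) | (simp only [v19, v0]; push_cast; (try simp only [hs3]); (try ring))

theorem e23 (t T : ℝ) : v23 t T = -(v1q1_v T) := by
  first | rfl | (simp only [v23, v22, v4]; done) | (simp only [v23, v22, v4]; push_cast; (try simp only [hs3]); (try ring))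

theorem e24 (t T : ℝ) : v24 t T = rq0_v (-(f1m_v T) - c1f_v t) (T - t) := by
  first | rfl | (simp only [v24, e8, e5]; done) | (simp only [v24, e8, e5]; push_cast; (try simp only [hs3]); (try ring))

theorem e25 (t T : ℝ) : v25 t T = sl001_v (exf_v (c1f_v t) (-(f1m_v T)) t T) t (T - t) T (a1q0_v t) (rq0_v (-(f1m_v T) - c1f_v t) (T - t)) (-(v1q1_v T)) := by
  first | rfl | (simp only [v25, e9, v0, e5, v4, e19, e24, e23]; done) | (simp only [v25, e9, v0, e5, v4, e19, e24, e23]; push_cast; (try simp only [hs3]); (try ring))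

theorem e27 (t T : ℝ) : v27 t T = -((T - t) - 1 / 2 * Pool.Agent.StripNear.h0) := by
  first | rfl | (simp only [v27, v26, v1, e5]; done) | (simp only [v27, v26, v1, e5]; push_cast; (try simp only [hs3]); (try ring))

theorem e28 (t T : ℝ) : v28 t T = -(1 / 2 * Pool.Agent.StripNear.h0 - (T - t)) := by
  first | rfl | (simp only [v28, e5, v26, v1]; done) | (simp only [v28, e5, v26, v1]; push_cast; (try simp only [hs3]); (try ring))

theorem e29 (t T : ℝ) : v29 t T = rq1_v (-(f1m_v T) - c1f_v t) (T - t) := by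
  first | rfl | (simp only [v29, e8, e5]; done) | (simp only [v29, e8, e5]; push_cast; (try simp only [hs3]); (try ring))

theorem e30 (t T : ℝ) : v30 t T = sl011_v (exf_v (c1f_v t) (-(f1m_v T)) t T) t (T - t) T (a1q0_v t) (rq1_v (-(f1m_v T) - c1f_v t) (T - t)) (-(v1q1_v T)) := by
  first | rfl | (simp only [v30, e9, v0, e5, v4, e19, e29, e23]; done) | (simp only [v30, e9, v0, e5, v4, e19, e29, e23]; push_cast; (try simp only [hs3]); (try ring))

theorem e32 (t T : ℝ) : v32 t T = -(1 * Pool.Agent.StripNear.h0 - (T - t)) := by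
  first | rfl | (simp only [v32, e5, v2, v1]; done) | (simp only [v32, e5, v2, v1]; push_cast; (try simp only [hs3]); (try ring))

theorem e34 (t T : ℝ) : v34 t T = -(T - 1 / 2 * Pool.Agent.StripNear.h0) := by
  first | rfl | (simp only [v34, v26, v1, v4]; done) | (simp only [v34, v26, v1, v4]; push_cast; (try simp only [hs3]); (try ring))

theorem e36 (t T : ℝ) : v36 t T = -(1 * Pool.Agent.StripNear.h0 - T) := by
  first | rfl | (simp only [v36, v4, v2, v1]; done) | (simp only [v36, v4, v2, v1]; push_cast; (try simp only [hs3]); (try ring))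

theorem e37 (t T : ℝ) : v37 t T = -(t - 1 / 2 * Pool.Agent.StripNear.h0) := by
  first | rfl | (simp only [v37, v26, v1, v0]; done) | (simp only [v37, v26, v1, v0]; push_cast; (try simp only [hs3]); (try ring))

theorem e38 (t T : ℝ) : v38 t T = -(1 / 2 * Pool.Agent.StripNear.h0 - t) := by
  first | rfl | (simp only [v38, v0, v26, v1]; done) | (simp only [v38, v0, v26, v1]; push_cast; (try simp only [hs3]); (try ring))

theorem e39 (t T : ℝ) : v39 t T = a1q1_v t := by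
  first | rfl | (simp only [v39, v0]; done) | (simp only [v39, v0]; push_cast; (try simp only [hs3]); (try ring))

theorem e40 (t T : ℝ) : v40 t T = sl101_v (exf_v (c1f_v t) (-(f1m_v T)) t T) t (T - t) T (a1q1_v t) (rq0_v (-(f1m_v T) - c1f_v t) (T - t)) (-(v1q1_v T)) := by
  first | rfl | (simp only [v40, e9, v0, e5, v4, e39, e24, e23]; done) | (simp only [v40, e9, v0, e5, v4, e39, e24, e23]; push_cast; (try simp only [hs3]); (try ring))

theorem e42 (t T : ℝ) : v42 t T = -(1 * Pool.Agent.StripNear.h0 - t) := by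
  first | rfl | (simp only [v42, v0, v2, v1]; done) | (simp only [v42, v0, v2, v1]; push_cast; (try simp only [hs3]); (try ring))

theorem mem0 {t T : ℝ} (h1 : 0 ≤ t) (h2 : t ≤ Pool.Agent.StripNear.h0) (h3 : 0 ≤ T) (h4 : T ≤ Pool.Agent.StripNear.h0) : Mem S b0 t T := by
  have g1 := h0_lo
  have g2 := h0_hi
  unfold Mem b0
  refine ⟨abs_le.mpr ⟨?_, ?_⟩, abs_le.mpr ⟨?_, ?_⟩⟩ <;> norm_num [S] <;> linarith

theorem fin001 {t T : ℝ} (h1 : 0 * Pool.Agent.StripNear.h0 ≤ t) (h1' : t ≤ 1 / 2 * Pool.Agent.StripNear.h0) (h2 : 1 / 2 * Pool.Agent.StripNear.h0 ≤ T) (h2' : T ≤ 1 * Pool.Agent.StripNear.h0) (h3 : 0 * Pool.Agent.StripNear.h0 ≤ T - t) (h3' : T - t ≤ 1 / 2 * Pool.Agent.StripNear.h0) (h6 : t ≤ T) (ho : 0 ≤ exf_v (c1f_v t) (-(f1m_v T)) t T + 1 / 2) (hq1 : 1 ≤ q3f_v (-(f1m_v T) - c1f_v t) (T - t)) (hq3 : q3f_v (-(f1m_v T) - c1f_v t) (T - t) ≤ 3) :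
    0 < sl001_v (exf_v (c1f_v t) (-(f1m_v T)) t T) t (T - t) T (a1q0_v t) (rq0_v (-(f1m_v T) - c1f_v t) (T - t)) (-(v1q1_v T)) := by
  have hp := Pool.Agent.StripNear.h0_pos
  have hm : Mem S b0 t T := mem0 (by linarith) (by linarith) (by linarith) (by linarith)
  have h : Q t T := all t T hm
  unfold Q P7 at h
  rcases h with (h | h | h | h) | h
  · exfalso; rw [e10] at h; linarith
  · exfalso; rw [e13] at h; linarith
  · exfalso; rw [e15] at h; linarith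
  · exfalso; rw [e18] at h; linarith
  replace h := h.1
  unfold P3 at h
  rcases h with h | h
  · exfalso; rw [e38] at h; linarith
  unfold P2 at h
  rcases h with (h | h) | h
  · exfalso; rw [e34] at h; linarith
  · exfalso; rw [e36] at h; linarith
  replace h := h.1
  unfold P0 at h
  rcases h with h | h
  · exfalso; rw [e28] at h; linarith
  · rw [e25] at h; exact h

theorem fin011 {t T : ℝ} (h1 : 0 * Pool.Agent.StripNear.h0 ≤ t) (h1' : t ≤ 1 / 2 * Pool.Agent.StripNear.h0) (h2 : 1 / 2 * Pool.Agent.StripNear.h0 ≤ T) (h2' : T ≤ 1 * Pool.Agent.StripNear.h0) (h3 : 1 / 2 * Pool.Agent.StripNear.h0 ≤ T - t) (h3' : T - t ≤ 1 * Pool.Agent.StripNear.h0) (h6 : t ≤ T) (ho : 0 ≤ exf_v (c1f_v t) (-(f1m_v T)) t T + 1 / 2) (hq1 : 1 ≤ q3f_v (-(f1m_v T) - c1f_v t) (T - t)) (hq3 : q3f_v (-(f1m_v T) - c1f_v t) (T - t) ≤ 3) :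
    0 < sl011_v (exf_v (c1f_v t) (-(f1m_v T)) t T) t (T - t) T (a1q0_v t) (rq1_v (-(f1m_v T) - c1f_v t) (T - t)) (-(v1q1_v T)) := by
  have hp := Pool.Agent.StripNear.h0_pos
  have hm : Mem S b0 t T := mem0 (by linarith) (by linarith) (by linarith) (by linarith)
  have h : Q t T := all t T hm
  unfold Q P7 at h
  rcases h with (h | h | h | h) | h
  · exfalso; rw [e10] at h; linarith
  · exfalso; rw [e13] at h; linarith
  · exfalso; rw [e15] at h; linarith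
  · exfalso; rw [e18] at h; linarith
  replace h := h.1
  unfold P3 at h
  rcases h with h | h
  · exfalso; rw [e38] at h; linarith
  unfold P2 at h
  rcases h with (h | h) | h
  · exfalso; rw [e34] at h; linarith
  · exfalso; rw [e36] at h; linarith
  replace h := h.2
  unfold P1 at h
  rcases h with h | h | h
  · exfalso; rw [e27] at h; linarith
  · exfalso; rw [e32] at h; linarith
  · rw [e30] at h; exact h

theorem fin101 {t T : ℝ} (h1 : 1 / 2 * Pool.Agent.StripNear.h0 ≤ t) (h1' : t ≤ 1 * Pool.Agent.StripNear.h0) (h2 : 1 / 2 * Pool.Agent.StripNear.h0 ≤ T) (h2' : T ≤ 1 * Pool.Agent.StripNear.h0) (h3 : 0 * Pool.Agent.StripNear.h0 ≤ T - t) (h3' : T - t ≤ 1 / 2 * Pool.Agent.StripNear.h0) (h6 : t ≤ T) (ho : 0 ≤ exf_v (c1f_v t) (-(f1m_v T)) t T + 1 / 2) (hq1 : 1 ≤ q3f_v (-(f1m_v T) - c1f_v t) (T - t)) (hq3 : q3f_v (-(f1m_v T) - c1f_v t) (T - t) ≤ 3) :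
    0 < sl101_v (exf_v (c1f_v t) (-(f1m_v T)) t T) t (T - t) T (a1q1_v t) (rq0_v (-(f1m_v T) - c1f_v t) (T - t)) (-(v1q1_v T)) := by
  have hp := Pool.Agent.StripNear.h0_pos
  have hm : Mem S b0 t T := mem0 (by linarith) (by linarith) (by linarith) (by linarith)
  have h : Q t T := all t T hm
  unfold Q P7 at h
  rcases h with (h | h | h | h) | h
  · exfalso; rw [e10] at h; linarith
  · exfalso; rw [e13] at h; linarith
  · exfalso; rw [e15] at h; linarith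
  · exfalso; rw [e18] at h; linarith
  replace h := h.2
  unfold P6 at h
  rcases h with (h | h) | h
  · exfalso; rw [e37] at h; linarith
  · exfalso; rw [e42] at h; linarith
  unfold P5 at h
  rcases h with (h | h) | h
  · exfalso; rw [e34] at h; linarith
  · exfalso; rw [e36] at h; linarith
  unfold P4 at h
  rcases h with h | h
  · exfalso; rw [e28] at h; linarith
  · rw [e40] at h; exact h

end Pool.Agent.Strip051.LB.B0m1m_pm
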