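import Pool.Agent.Strip051.LB.B0m1p_pm.C1
import Pool.Agent.Strip051.LB.B0m1p_pm.C2
import Pool.Agent.Strip051.LB.B0m1p_pm.C3
import Pool.Agent.Strip051.LB.B0m1p_pm.C4
import Pool.Agent.Strip051.LB.B0m1p_pm.C5
import Pool.Agent.Strip051.LB.B0m1p_pm.C6

/-! # LINE boxes B0m1p_pm: assembly -/

namespace Pool.Agent.Strip051.LB.B0m1p_pm

open Pool.Agent.Strip051.Box Pool.Agent.Strip051.Box2 Pool.Agent.Strip051.LB

open Pool.Agent.Strip051.LB.Fn Pool.Agent.Strip051.LB.Fn.F2

theorem all (x1 x2 : ℝ) (h : Mem S b0 x1 x2) : Q x1 x2 := by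
  rcases mem_split1 h with h | h
  · rcases mem_split2 h with h | h
    · exact chk_all c0 x1 x2 h
    · exact chk_all c1 x1 x2 h
  · rcases mem_split2 h with h | h
    · rcases mem_split1 h with h | h
      · exact chk_all c2 x1 x2 h
      · rcases mem_split1 h with h | h
        · rcases mem_split2 h with h | h
          · rcases mem_split2 h with h | h
            · exact chk_all c3 x1 x2 h
            · rcases mem_split1 h with h | h
              · rcases mem_split2 h with h | h
                · rcases mem_split2 h with h | h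
                  · rcases mem_split1 h with h | h
                    · exact chk_all c4 x1 x2 h
                    · rcases mem_split2 h with h | h
                      · exact chk_all c5 x1 x2 h
                      · rcases mem_split1 h with h | h
                        · exact chk_all c6 x1 x2 h
                        · rcases mem_split1 h with h | h
                          · exact chk_all c7 x1 x2 h
                          · rcases mem_split2 h with h | h
                            · exact chk_all c8 x1 x2 h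
                            · rcases mem_split1 h with h | h
                              · rcases mem_split2 h with h | h
                                · exact chk_all c9 x1 x2 h
                                · rcases mem_split1 h with h | h
                                  · exact chk_all c10 x1 x2 h
                                  · exact chk_all c11 x1 x2 h
                              · rcases mem_split1 h with h | h
                                · exact chk_all c12 x1 x2 h
                                · exact chk_all c13 x1 x2 h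
                  · exact chk_all c14 x1 x2 h
                · exact chk_all c15 x1 x2 h
              · rcases mem_split2 h with h | h
                · rcases mem_split1 h with h | h
                  · rcases mem_split2 h with h | h
                    · rcases mem_split1 h with h | h
                      · rcases mem_split2 h with h | h
                        · exact chk_all c16 x1 x2 h
                        · rcases mem_split1 h with h | h
                          · rcases mem_split2 h with h | h
                            · exact chk_all c17 x1 x2 h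
                            · rcases mem_split1 h with h | h
                              · rcases mem_split1 h with h | h
                                · rcases mem_split2 h with h | h
                                  · exact chk_all c18 x1 x2 h
                                  · rcases mem_split2 h with h | h
                                    · exact chk_all c19 x1 x2 h
                                    · rcases mem_split1 h with h | h
                                      · rcases mem_split1 h with h | h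
                                        · exact chk_all c20 x1 x2 h
                                        · exact chk_all c21 x1 x2 h
                                      · rcases mem_split1 h with h | h
                                        · exact chk_all c22 x1 x2 h
                                        · exact chk_all c23 x1 x2 h
                                · rcases mem_split2 h with h | h
                                  · exact chk_all c24 x1 x2 h
                                  · rcases mem_split2 h with h | h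
                                    · exact chk_all c25 x1 x2 h
                                    · rcases mem_split1 h with h | h
                                      · rcases mem_split1 h with h | h
                                        · rcases mem_split2 h with h | h
                                          · rcases mem_split1 h with h | h
                                            · exact chk_all c26 x1 x2 h
                                            · exact chk_all c27 x1 x2 h
                                          · exact chk_all c28 x1 x2 h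
                                        · exact chk_all c29 x1 x2 h
                                      · rcases mem_split1 h with h | h
                                        · exact chk_all c30 x1 x2 h
                                        · exact chk_all c31 x1 x2 h
                              · rcases mem_split1 h with h | h
                                · exact chk_all c32 x1 x2 h
                                · exact chk_all c33 x1 x2 h
                          · exact chk_all c34 x1 x2 h
                      · exact chk_all c35 x1 x2 h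
                    · exact chk_all c36 x1 x2 h
                  · exact chk_all c37 x1 x2 h
                · exact chk_all c38 x1 x2 h
          · exact chk_all c39 x1 x2 h
        · exact chk_all c40 x1 x2 h
    · exact chk_all c41 x1 x2 h

theorem e3 (t T : ℝ) : v3 t T = c1f_v t := by
  first | rfl | (simp only [v3, v0]; done) | (simp only [v3, v0]; push_cast; (try simp only [hs3]); (try ring))

theorem e5 (t T : ℝ) : v5 t T = T - t := by
  first | rfl | (simp only [v5, v4, v0]; done) | (simp only [v5, v4, v0]; push_cast; (try simp only [hs3]); (try ring))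

theorem e7 (t T : ℝ) : v7 t T = -(f1p_v T) := by
  first | rfl | (simp only [v7, v6, v4]; done) | (simp only [v7, v6, v4]; push_cast; (try simp only [hs3]); (try ring))

theorem e8 (t T : ℝ) : v8 t T = (-(f1p_v T) - c1f_v t) := by
  first | rfl | (simp only [v8, e7, e3]; done) | (simp only [v8, e7, e3]; push_cast; (try simp only [hs3]); (try ring))

theorem e9 (t T : ℝ) : v9 t T = exf_v (c1f_v t) (-(f1p_v T)) t T := by
  first | rfl | (simp only [v9, e3, e7, v0, v4]; done) | (simp only [v9, e3, e7, v0, v4]; push_cast; (try simp only [hs3]); (try ring))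

theorem e10 (t T : ℝ) : v10 t T = -(T - t) := by
  first | rfl | (simp only [v10, v0, v4]; done) | (simp only [v10, v0, v4]; push_cast; (try simp only [hs3]); (try ring))

theorem e11 (t T : ℝ) : v11 t T = q3f_v (-(f1p_v T) - c1f_v t) (T - t) := by
  first | rfl | (simp only [v11, e8, e5]; done) | (simp only [v11, e8, e5]; push_cast; (try simp only [hs3]); (try ring))

theorem e13 (t T : ℝ) : v13 t T = 1 - q3f_v (-(f1p_v T) - c1f_v t) (T - t) := by
  first | rfl | (simp only [v13, v12, e11]; done) | (simp only [v13, v12, e11]; push_cast; (try simp only [hs3]); (try ring))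

theorem e15 (t T : ℝ) : v15 t T = q3f_v (-(f1p_v T) - c1f_v t) (T - t) - 3 := by
  first | rfl | (simp only [v15, e11, v14]; done) | (simp only [v15, e11, v14]; push_cast; (try simp only [hs3]); (try ring))

theorem e18 (t T : ℝ) : v18 t T = -(exf_v (c1f_v t) (-(f1p_v T)) t T + 1 / 2) := by
  first | rfl | (simp only [v18, v17, e9, v16]; done) | (simp only [v18, v17, e9, v16]; push_cast; (try simp only [hs3]); (try ring))

theorem e19 (t T : ℝ) : v19 t T = a1q0_v t := by
  first | rfl | (simp only [v19, v0]; done) | (simp only [v19, v0]; push_cast; (try simp only [hs3]); (try ring))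

theorem e21 (t T : ℝ) : v21 t T = -(v1q2_v T) := by
  first | rfl | (simp only [v21, v20, v4]; done) | (simp only [v21, v20, v4]; push_cast; (try simp only [hs3]); (try ring))

theorem e22 (t T : ℝ) : v22 t T = rq1_v (-(f1p_v T) - c1f_v t) (T - t) := by
  first | rfl | (simp only [v22, e8, e5]; done) | (simp only [v22, e8, e5]; push_cast; (try simp only [hs3]); (try ring))

theorem e23 (t T : ℝ) : v23 t T = sl012_v (exf_v (c1f_v t) (-(f1p_v T)) t T) t (T - t) T (a1q0_v t) (rq1_v (-(f1p_v T) - c1f_v t) (T - t)) (-(v1q2_v T)) := by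
  first | rfl | (simp only [v23, e9, v0, e5, v4, e19, e22, e21]; done) | (simp only [v23, e9, v0, e5, v4, e19, e22, e21]; push_cast; (try simp only [hs3]); (try ring))

theorem e25 (t T : ℝ) : v25 t T = -(1 / 2 * Pool.Agent.StripNear.h0 - (T - t)) := by
  first | rfl | (simp only [v25, e5, v24, v1]; done) | (simp only [v25, e5, v24, v1]; push_cast; (try simp only [hs3]); (try ring))

theorem e26 (t T : ℝ) : v26 t T = -((T - t) - 1 / 2 * Pool.Agent.StripNear.h0) := by
  first | rfl | (simp only [v26, v24, v1, e5]; done) | (simp only [v26, v24, v1, e5]; push_cast; (try simp only [hs3]); (try ring))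

theorem e27 (t T : ℝ) : v27 t T = -((T - t) - 1 * Pool.Agent.StripNear.h0) := by
  first | rfl | (simp only [v27, v2, v1, e5]; done) | (simp only [v27, v2, v1, e5]; push_cast; (try simp only [hs3]); (try ring))

theorem e28 (t T : ℝ) : v28 t T = -(1 * Pool.Agent.StripNear.h0 - (T - t)) := by
  first | rfl | (simp only [v28, e5, v2, v1]; done) | (simp only [v28, e5, v2, v1]; push_cast; (try simp only [hs3]); (try ring))

theorem e31 (t T : ℝ) : v31 t T = 1/10 - (t - 0 * Pool.Agent.StripNear.h0) := by
  first | rfl | (simp only [v31, v30, v0]; done) | (simp only [v31, v30, v0]; push_cast; (try simp only [hs3]); (try ring))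

theorem e32 (t T : ℝ) : v32 t T = 1/10 - (1 * Pool.Agent.StripNear.h0 - (T - t)) := by
  first | rfl | (simp only [v32, v30, e27]; done) | (simp only [v32, v30, e27]; push_cast; (try simp only [hs3]); (try ring))

theorem e34 (t T : ℝ) : v34 t T = 1/10 - (T - 1 * Pool.Agent.StripNear.h0) := by
  first | rfl | (simp only [v34, v30, v33, v4, v2, v1]; done) | (simp only [v34, v30, v33, v4, v2, v1]; push_cast; (try simp only [hs3]); (try ring))

theorem e35 (t T : ℝ) : v35 t T = rq2_v (-(f1p_v T) - c1f_v t) (T - t) := by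
  first | rfl | (simp only [v35, e8, e5]; done) | (simp only [v35, e8, e5]; push_cast; (try simp only [hs3]); (try ring))

theorem e36 (t T : ℝ) : v36 t T = sl022_v (exf_v (c1f_v t) (-(f1p_v T)) t T) t (T - t) T (a1q0_v t) (rq2_v (-(f1p_v T) - c1f_v t) (T - t)) (-(v1q2_v T)) := by
  first | rfl | (simp only [v36, e9, v0, e5, v4, e19, e35, e21]; done) | (simp only [v36, e9, v0, e5, v4, e19, e35, e21]; push_cast; (try simp only [hs3]); (try ring))

theorem e38 (t T : ℝ) : v38 t T = -((T - t) - 3 / 2 * Pool.Agent.StripNear.h0) := by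
  first | rfl | (simp only [v38, v37, v1, e5]; done) | (simp only [v38, v37, v1, e5]; push_cast; (try simp only [hs3]); (try ring))

theorem e39 (t T : ℝ) : v39 t T = -(3 / 2 * Pool.Agent.StripNear.h0 - (T - t)) := by
  first | rfl | (simp only [v39, e5, v37, v1]; done) | (simp only [v39, e5, v37, v1]; push_cast; (try simp only [hs3]); (try ring))

theorem e40 (t T : ℝ) : v40 t T = 1/10 - ((T - t) - 1 * Pool.Agent.StripNear.h0) := by
  first | rfl | (simp only [v40, v30, e28]; done) | (simp only [v40, v30, e28]; push_cast; (try simp only [hs3]); (try ring))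

theorem e41 (t T : ℝ) : v41 t T = -(T - 1 * Pool.Agent.StripNear.h0) := by
  first | rfl | (simp only [v41, v2, v1, v4]; done) | (simp only [v41, v2, v1, v4]; push_cast; (try simp only [hs3]); (try ring))

theorem e42 (t T : ℝ) : v42 t T = -(T - 3 / 2 * Pool.Agent.StripNear.h0) := by
  first | rfl | (simp only [v42, v37, v1, v4]; done) | (simp only [v42, v37, v1, v4]; push_cast; (try simp only [hs3]); (try ring))

theorem e43 (t T : ℝ) : v43 t T = -(3 / 2 * Pool.Agent.StripNear.h0 - T) := by
  first | rfl | (simp only [v43, v4, v37, v1]; done) | (simp only [v43, v4, v37, v1]; push_cast; (try simp only [hs3]); (try ring))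

theorem e45 (t T : ℝ) : v45 t T = -(v1q3_v T) := by
  first | rfl | (simp only [v45, v44, v4]; done) | (simp only [v45, v44, v4]; push_cast; (try simp only [hs3]); (try ring))

theorem e46 (t T : ℝ) : v46 t T = sl023_v (exf_v (c1f_v t) (-(f1p_v T)) t T) t (T - t) T (a1q0_v t) (rq2_v (-(f1p_v T) - c1f_v t) (T - t)) (-(v1q3_v T)) := by
  first | rfl | (simp only [v46, e9, v0, e5, v4, e19, e35, e45]; done) | (simp only [v46, e9, v0, e5, v4, e19, e35, e45]; push_cast; (try simp only [hs3]); (try ring))

theorem e47 (t T : ℝ) : v47 t T = rq3_v (-(f1p_v T) - c1f_v t) (T - t) := by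
  first | rfl | (simp only [v47, e8, e5]; done) | (simp only [v47, e8, e5]; push_cast; (try simp only [hs3]); (try ring))

theorem e48 (t T : ℝ) : v48 t T = sl033_v (exf_v (c1f_v t) (-(f1p_v T)) t T) t (T - t) T (a1q0_v t) (rq3_v (-(f1p_v T) - c1f_v t) (T - t)) (-(v1q3_v T)) := by
  first | rfl | (simp only [v48, e9, v0, e5, v4, e19, e47, e45]; done) | (simp only [v48, e9, v0, e5, v4, e19, e47, e45]; push_cast; (try simp only [hs3]); (try ring))

theorem e49 (t T : ℝ) : v49 t T = -(t - 1 / 2 * Pool.Agent.StripNear.h0) := by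
  first | rfl | (simp only [v49, v24, v1, v0]; done) | (simp only [v49, v24, v1, v0]; push_cast; (try simp only [hs3]); (try ring))

theorem e50 (t T : ℝ) : v50 t T = -(1 / 2 * Pool.Agent.StripNear.h0 - t) := by
  first | rfl | (simp only [v50, v0, v24, v1]; done) | (simp only [v50, v0, v24, v1]; push_cast; (try simp only [hs3]); (try ring))

theorem e51 (t T : ℝ) : v51 t T = a1q1_v t := by
  first | rfl | (simp only [v51, v0]; done) | (simp only [v51, v0]; push_cast; (try simp only [hs3]); (try ring))

theorem e52 (t T : ℝ) : v52 t T = rq0_v (-(f1p_v T) - c1f_v t) (T - t) := by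
  first | rfl | (simp only [v52, e8, e5]; done) | (simp only [v52, e8, e5]; push_cast; (try simp only [hs3]); (try ring))

theorem e53 (t T : ℝ) : v53 t T = sl102_v (exf_v (c1f_v t) (-(f1p_v T)) t T) t (T - t) T (a1q1_v t) (rq0_v (-(f1p_v T) - c1f_v t) (T - t)) (-(v1q2_v T)) := by
  first | rfl | (simp only [v53, e9, v0, e5, v4, e51, e52, e21]; done) | (simp only [v53, e9, v0, e5, v4, e51, e52, e21]; push_cast; (try simp only [hs3]); (try ring))

theorem e55 (t T : ℝ) : v55 t T = 1/10 - (1 * Pool.Agent.StripNear.h0 - t) := by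
  first | rfl | (simp only [v55, v30, v54, v2, v1, v0]; done) | (simp only [v55, v30, v54, v2, v1, v0]; push_cast; (try simp only [hs3]); (try ring))

theorem e56 (t T : ℝ) : v56 t T = 1/10 - ((T - t) - 0 * Pool.Agent.StripNear.h0) := by
  first | rfl | (simp only [v56, v30, e5]; done) | (simp only [v56, v30, e5]; push_cast; (try simp only [hs3]); (try ring))

theorem e57 (t T : ℝ) : v57 t T = sl112_v (exf_v (c1f_v t) (-(f1p_v T)) t T) t (T - t) T (a1q1_v t) (rq1_v (-(f1p_v T) - c1f_v t) (T - t)) (-(v1q2_v T)) := by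
  first | rfl | (simp only [v57, e9, v0, e5, v4, e51, e22, e21]; done) | (simp only [v57, e9, v0, e5, v4, e51, e22, e21]; push_cast; (try simp only [hs3]); (try ring))

theorem e58 (t T : ℝ) : v58 t T = sl113_v (exf_v (c1f_v t) (-(f1p_v T)) t T) t (T - t) T (a1q1_v t) (rq1_v (-(f1p_v T) - c1f_v t) (T - t)) (-(v1q3_v T)) := by
  first | rfl | (simp only [v58, e9, v0, e5, v4, e51, e22, e45]; done) | (simp only [v58, e9, v0, e5, v4, e51, e22, e45]; push_cast; (try simp only [hs3]); (try ring))

theorem e60 (t T : ℝ) : v60 t T = 1/10 - (2 * Pool.Agent.StripNear.h0 - T) := by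
  first | rfl | (simp only [v60, v30, v59, v1, v4]; done) | (simp only [v60, v30, v59, v1, v4]; push_cast; (try simp only [hs3]); (try ring))

theorem e61 (t T : ℝ) : v61 t T = sl123_v (exf_v (c1f_v t) (-(f1p_v T)) t T) t (T - t) T (a1q1_v t) (rq2_v (-(f1p_v T) - c1f_v t) (T - t)) (-(v1q3_v T)) := by
  first | rfl | (simp only [v61, e9, v0, e5, v4, e51, e35, e45]; done) | (simp only [v61, e9, v0, e5, v4, e51, e35, e45]; push_cast; (try simp only [hs3]); (try ring))

theorem e62 (t T : ℝ) : v62 t T = sl133_v (exf_v (c1f_v t) (-(f1p_v T)) t T) t (T - t) T (a1q1_v t) (rq3_v (-(f1p_v T) - c1f_v t) (T - t)) (-(v1q3_v T)) := by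
  first | rfl | (simp only [v62, e9, v0, e5, v4, e51, e47, e45]; done) | (simp only [v62, e9, v0, e5, v4, e51, e47, e45]; push_cast; (try simp only [hs3]); (try ring))

theorem e63 (t T : ℝ) : v63 t T = -(1 * Pool.Agent.StripNear.h0 - t) := by
  first | rfl | (simp only [v63, v0, v2, v1]; done) | (simp only [v63, v0, v2, v1]; push_cast; (try simp only [hs3]); (try ring))

theorem mem0 {t T : ℝ} (h1 : 0 ≤ t) (h2 : t ≤ Pool.Agent.StripNear.h0) (h3 : Pool.Agent.StripNear.h0 ≤ T) (h4 : T ≤ 2 * Pool.Agent.StripNear.h0) : Mem S b0 t T := by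
  have g1 := h0_lo
  have g2 := h0_hi
  unfold Mem b0
  refine ⟨abs_le.mpr ⟨?_, ?_⟩, abs_le.mpr ⟨?_, ?_⟩⟩ <;> norm_num [S] <;> linarith

theorem fin012 {t T : ℝ} (h1 : 0 * Pool.Agent.StripNear.h0 ≤ t) (h1' : t ≤ 1 / 2 * Pool.Agent.StripNear.h0) (h2 : 1 * Pool.Agent.StripNear.h0 ≤ T) (h2' : T ≤ 3 / 2 * Pool.Agent.StripNear.h0) (h3 : 1 / 2 * Pool.Agent.StripNear.h0 ≤ T - t) (h3' : T - t ≤ 1 * Pool.Agent.StripNear.h0) (h6 : t ≤ T) (ho : 0 ≤ exf_v (c1f_v t) (-(f1p_v T)) t T + 1 / 2) (hq1 : 1 ≤ q3f_v (-(f1p_v T) - c1f_v t) (T - t)) (hq3 : q3f_v (-(f1p_v T) - c1f_v t) (T - t) ≤ 3) :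
    (0 < 1/10 - (t - 0 * Pool.Agent.StripNear.h0) ∧ 0 < 1/10 - (1 * Pool.Agent.StripNear.h0 - (T - t)) ∧ 0 < 1/10 - (T - 1 * Pool.Agent.StripNear.h0)) ∨ 0 < sl012_v (exf_v (c1f_v t) (-(f1p_v T)) t T) t (T - t) T (a1q0_v t) (rq1_v (-(f1p_v T) - c1f_v t) (T - t)) (-(v1q2_v T)) := by
  have hp := Pool.Agent.StripNear.h0_pos
  have hm : Mem S b0 t T := mem0 (by linarith) (by linarith) (by linarith) (by linarith)
  have h : Q t T := all t T hm
  unfold Q P15 at h
  rcases h with (h | h | h | h) | h
  · exfalso; rw [e10] at h; linarith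
  · exfalso; rw [e13] at h; linarith
  · exfalso; rw [e15] at h; linarith
  · exfalso; rw [e18] at h; linarith
  replace h := h.1
  unfold P6 at h
  rcases h with h | h
  · exfalso; rw [e50] at h; linarith
  replace h := h.1
  unfold P2 at h
  rcases h with (h | h) | h
  · exfalso; rw [e41] at h; linarith
  · exfalso; rw [e43] at h; linarith
  replace h := h.1
  unfold P0 at h
  rcases h with h | h | h | h
  · exfalso; rw [e26] at h; linarith
  · exfalso; rw [e28] at h; linarith
  · left; simp only [e31, e32, e34] at h; exact h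
  · right; rw [e23] at h; exact h

theorem fin022 {t T : ℝ} (h1 : 0 * Pool.Agent.StripNear.h0 ≤ t) (h1' : t ≤ 1 / 2 * Pool.Agent.StripNear.h0) (h2 : 1 * Pool.Agent.StripNear.h0 ≤ T) (h2' : T ≤ 3 / 2 * Pool.Agent.StripNear.h0) (h3 : 1 * Pool.Agent.StripNear.h0 ≤ T - t) (h3' : T - t ≤ 3 / 2 * Pool.Agent.StripNear.h0) (h6 : t ≤ T) (ho : 0 ≤ exf_v (c1f_v t) (-(f1p_v T)) t T + 1 / 2) (hq1 : 1 ≤ q3f_v (-(f1p_v T) - c1f_v t) (T - t)) (hq3 : q3f_v (-(f1p_v T) - c1f_v t) (T - t) ≤ 3) :
    (0 < 1/10 - (t - 0 * Pool.Agent.StripNear.h0) ∧ 0 < 1/10 - ((T - t) - 1 * Pool.Agent.StripNear.h0) ∧ 0 < 1/10 - (T - 1 * Pool.Agent.StripNear.h0)) ∨ 0 < sl022_v (exf_v (c1f_v t) (-(f1p_v T)) t T) t (T - t) T (a1q0_v t) (rq2_v (-(f1p_v T) - c1f_v t) (T - t)) (-(v1q2_v T)) := by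
  have hp := Pool.Agent.StripNear.h0_pos
  have hm : Mem S b0 t T := mem0 (by linarith) (by linarith) (by linarith) (by linarith)
  have h : Q t T := all t T hm
  unfold Q P15 at h
  rcases h with (h | h | h | h) | h
  · exfalso; rw [e10] at h; linarith
  · exfalso; rw [e13] at h; linarith
  · exfalso; rw [e15] at h; linarith
  · exfalso; rw [e18] at h; linarith
  replace h := h.1
  unfold P6 at h
  rcases h with h | h
  · exfalso; rw [e50] at h; linarith
  replace h := h.1
  unfold P2 at h
  rcases h with (h | h) | h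
  · exfalso; rw [e41] at h; linarith
  · exfalso; rw [e43] at h; linarith
  replace h := h.2
  unfold P1 at h
  rcases h with h | h | h | h
  · exfalso; rw [e27] at h; linarith
  · exfalso; rw [e39] at h; linarith
  · left; simp only [e31, e40, e34] at h; exact h
  · right; rw [e36] at h; exact h

theorem fin023 {t T : ℝ} (h1 : 0 * Pool.Agent.StripNear.h0 ≤ t) (h1' : t ≤ 1 / 2 * Pool.Agent.StripNear.h0) (h2 : 3 / 2 * Pool.Agent.StripNear.h0 ≤ T) (h2' : T ≤ 2 * Pool.Agent.StripNear.h0) (h3 : 1 * Pool.Agent.StripNear.h0 ≤ T - t) (h3' : T - t ≤ 3 / 2 * Pool.Agent.StripNear.h0) (h6 : t ≤ T) (ho : 0 ≤ exf_v (c1f_v t) (-(f1p_v T)) t T + 1 / 2) (hq1 : 1 ≤ q3f_v (-(f1p_v T) - c1f_v t) (T - t)) (hq3 : q3f_v (-(f1p_v T) - c1f_v t) (T - t) ≤ 3) :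
    0 < sl023_v (exf_v (c1f_v t) (-(f1p_v T)) t T) t (T - t) T (a1q0_v t) (rq2_v (-(f1p_v T) - c1f_v t) (T - t)) (-(v1q3_v T)) := by
  have hp := Pool.Agent.StripNear.h0_pos
  have hm : Mem S b0 t T := mem0 (by linarith) (by linarith) (by linarith) (by linarith)
  have h : Q t T := all t T hm
  unfold Q P15 at h
  rcases h with (h | h | h | h) | h
  · exfalso; rw [e10] at h; linarith
  · exfalso; rw [e13] at h; linarith
  · exfalso; rw [e15] at h; linarith
  · exfalso; rw [e18] at h; linarith
  replace h := h.1
  unfold P6 at h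
  rcases h with h | h
  · exfalso; rw [e50] at h; linarith
  replace h := h.2
  unfold P5 at h
  rcases h with h | h
  · exfalso; rw [e42] at h; linarith
  replace h := h.1
  unfold P3 at h
  rcases h with h | h | h
  · exfalso; rw [e27] at h; linarith
  · exfalso; rw [e39] at h; linarith
  · rw [e46] at h; exact h

theorem fin033 {t T : ℝ} (h1 : 0 * Pool.Agent.StripNear.h0 ≤ t) (h1' : t ≤ 1 / 2 * Pool.Agent.StripNear.h0) (h2 : 3 / 2 * Pool.Agent.StripNear.h0 ≤ T) (h2' : T ≤ 2 * Pool.Agent.StripNear.h0) (h3 : 3 / 2 * Pool.Agent.StripNear.h0 ≤ T - t) (h3' : T - t ≤ 2 * Pool.Agent.StripNear.h0) (h6 : t ≤ T) (ho : 0 ≤ exf_v (c1f_v t) (-(f1p_v T)) t T + 1 / 2) (hq1 : 1 ≤ q3f_v (-(f1p_v T) - c1f_v t) (T - t)) (hq3 : q3f_v (-(f1p_v T) - c1f_v t) (T - t) ≤ 3) :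
    0 < sl033_v (exf_v (c1f_v t) (-(f1p_v T)) t T) t (T - t) T (a1q0_v t) (rq3_v (-(f1p_v T) - c1f_v t) (T - t)) (-(v1q3_v T)) := by
  have hp := Pool.Agent.StripNear.h0_pos
  have hm : Mem S b0 t T := mem0 (by linarith) (by linarith) (by linarith) (by linarith)
  have h : Q t T := all t T hm
  unfold Q P15 at h
  rcases h with (h | h | h | h) | h
  · exfalso; rw [e10] at h; linarith
  · exfalso; rw [e13] at h; linarith
  · exfalso; rw [e15] at h; linarith
  · exfalso; rw [e18] at h; linarith
  replace h := h.1
  unfold P6 at h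
  rcases h with h | h
  · exfalso; rw [e50] at h; linarith
  replace h := h.2
  unfold P5 at h
  rcases h with h | h
  · exfalso; rw [e42] at h; linarith
  replace h := h.2
  unfold P4 at h
  rcases h with h | h
  · exfalso; rw [e38] at h; linarith
  · rw [e48] at h; exact h

theorem fin102 {t T : ℝ} (h1 : 1 / 2 * Pool.Agent.StripNear.h0 ≤ t) (h1' : t ≤ 1 * Pool.Agent.StripNear.h0) (h2 : 1 * Pool.Agent.StripNear.h0 ≤ T) (h2' : T ≤ 3 / 2 * Pool.Agent.StripNear.h0) (h3 : 0 * Pool.Agent.StripNear.h0 ≤ T - t) (h3' : T - t ≤ 1 / 2 * Pool.Agent.StripNear.h0) (h6 : t ≤ T) (ho : 0 ≤ exf_v (c1f_v t) (-(f1p_v T)) t T + 1 / 2) (hq1 : 1 ≤ q3f_v (-(f1p_v T) - c1f_v t) (T - t)) (hq3 : q3f_v (-(f1p_v T) - c1f_v t) (T - t) ≤ 3) :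
    (0 < 1/10 - (1 * Pool.Agent.StripNear.h0 - t) ∧ 0 < 1/10 - ((T - t) - 0 * Pool.Agent.StripNear.h0) ∧ 0 < 1/10 - (T - 1 * Pool.Agent.StripNear.h0)) ∨ 0 < sl102_v (exf_v (c1f_v t) (-(f1p_v T)) t T) t (T - t) T (a1q1_v t) (rq0_v (-(f1p_v T) - c1f_v t) (T - t)) (-(v1q2_v T)) := by
  have hp := Pool.Agent.StripNear.h0_pos
  have hm : Mem S b0 t T := mem0 (by linarith) (by linarith) (by linarith) (by linarith)
  have h : Q t T := all t T hm
  unfold Q P15 at h
  rcases h with (h | h | h | h) | h
  · exfalso; rw [e10] at h; linarith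
  · exfalso; rw [e13] at h; linarith
  · exfalso; rw [e15] at h; linarith
  · exfalso; rw [e18] at h; linarith
  replace h := h.2
  unfold P14 at h
  rcases h with (h | h) | h
  · exfalso; rw [e49] at h; linarith
  · exfalso; rw [e63] at h; linarith
  replace h := h.1
  unfold P9 at h
  rcases h with (h | h) | h
  · exfalso; rw [e41] at h; linarith
  · exfalso; rw [e43] at h; linarith
  replace h := h.1
  unfold P7 at h
  rcases h with h | h | h
  · exfalso; rw [e25] at h; linarith
  · left; simp only [e55, e56, e34] at h; exact h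
  · right; rw [e53] at h; exact h

theorem fin112 {t T : ℝ} (h1 : 1 / 2 * Pool.Agent.StripNear.h0 ≤ t) (h1' : t ≤ 1 * Pool.Agent.StripNear.h0) (h2 : 1 * Pool.Agent.StripNear.h0 ≤ T) (h2' : T ≤ 3 / 2 * Pool.Agent.StripNear.h0) (h3 : 1 / 2 * Pool.Agent.StripNear.h0 ≤ T - t) (h3' : T - t ≤ 1 * Pool.Agent.StripNear.h0) (h6 : t ≤ T) (ho : 0 ≤ exf_v (c1f_v t) (-(f1p_v T)) t T + 1 / 2) (hq1 : 1 ≤ q3f_v (-(f1p_v T) - c1f_v t) (T - t)) (hq3 : q3f_v (-(f1p_v T) - c1f_v t) (T - t) ≤ 3) :
    0 < sl112_v (exf_v (c1f_v t) (-(f1p_v T)) t T) t (T - t) T (a1q1_v t) (rq1_v (-(f1p_v T) - c1f_v t) (T - t)) (-(v1q2_v T)) := by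
  have hp := Pool.Agent.StripNear.h0_pos
  have hm : Mem S b0 t T := mem0 (by linarith) (by linarith) (by linarith) (by linarith)
  have h : Q t T := all t T hm
  unfold Q P15 at h
  rcases h with (h | h | h | h) | h
  · exfalso; rw [e10] at h; linarith
  · exfalso; rw [e13] at h; linarith
  · exfalso; rw [e15] at h; linarith
  · exfalso; rw [e18] at h; linarith
  replace h := h.2
  unfold P14 at h
  rcases h with (h | h) | h
  · exfalso; rw [e49] at h; linarith
  · exfalso; rw [e63] at h; linarith
  replace h := h.1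
  unfold P9 at h
  rcases h with (h | h) | h
  · exfalso; rw [e41] at h; linarith
  · exfalso; rw [e43] at h; linarith
  replace h := h.2
  unfold P8 at h
  rcases h with h | h | h
  · exfalso; rw [e26] at h; linarith
  · exfalso; rw [e28] at h; linarith
  · rw [e57] at h; exact h

theorem fin113 {t T : ℝ} (h1 : 1 / 2 * Pool.Agent.StripNear.h0 ≤ t) (h1' : t ≤ 1 * Pool.Agent.StripNear.h0) (h2 : 3 / 2 * Pool.Agent.StripNear.h0 ≤ T) (h2' : T ≤ 2 * Pool.Agent.StripNear.h0) (h3 : 1 / 2 * Pool.Agent.StripNear.h0 ≤ T - t) (h3' : T - t ≤ 1 * Pool.Agent.StripNear.h0) (h6 : t ≤ T) (ho : 0 ≤ exf_v (c1f_v t) (-(f1p_v T)) t T + 1 / 2) (hq1 : 1 ≤ q3f_v (-(f1p_v T) - c1f_v t) (T - t)) (hq3 : q3f_v (-(f1p_v T) - c1f_v t) (T - t) ≤ 3) :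
    (0 < 1/10 - (1 * Pool.Agent.StripNear.h0 - t) ∧ 0 < 1/10 - (1 * Pool.Agent.StripNear.h0 - (T - t)) ∧ 0 < 1/10 - (2 * Pool.Agent.StripNear.h0 - T)) ∨ 0 < sl113_v (exf_v (c1f_v t) (-(f1p_v T)) t T) t (T - t) T (a1q1_v t) (rq1_v (-(f1p_v T) - c1f_v t) (T - t)) (-(v1q3_v T)) := by
  have hp := Pool.Agent.StripNear.h0_pos
  have hm : Mem S b0 t T := mem0 (by linarith) (by linarith) (by linarith) (by linarith)
  have h : Q t T := all t T hm
  unfold Q P15 at h
  rcases h with (h | h | h | h) | h
  · exfalso; rw [e10] at h; linarith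
  · exfalso; rw [e13] at h; linarith
  · exfalso; rw [e15] at h; linarith
  · exfalso; rw [e18] at h; linarith
  replace h := h.2
  unfold P14 at h
  rcases h with (h | h) | h
  · exfalso; rw [e49] at h; linarith
  · exfalso; rw [e63] at h; linarith
  replace h := h.2
  unfold P13 at h
  rcases h with h | h
  · exfalso; rw [e42] at h; linarith
  replace h := h.1
  unfold P10 at h
  rcases h with h | h | h | h
  · exfalso; rw [e26] at h; linarith
  · exfalso; rw [e28] at h; linarith
  · left; simp only [e55, e32, e60] at h; exact h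
  · right; rw [e58] at h; exact h

theorem fin123 {t T : ℝ} (h1 : 1 / 2 * Pool.Agent.StripNear.h0 ≤ t) (h1' : t ≤ 1 * Pool.Agent.StripNear.h0) (h2 : 3 / 2 * Pool.Agent.StripNear.h0 ≤ T) (h2' : T ≤ 2 * Pool.Agent.StripNear.h0) (h3 : 1 * Pool.Agent.StripNear.h0 ≤ T - t) (h3' : T - t ≤ 3 / 2 * Pool.Agent.StripNear.h0) (h6 : t ≤ T) (ho : 0 ≤ exf_v (c1f_v t) (-(f1p_v T)) t T + 1 / 2) (hq1 : 1 ≤ q3f_v (-(f1p_v T) - c1f_v t) (T - t)) (hq3 : q3f_v (-(f1p_v T) - c1f_v t) (T - t) ≤ 3) :
    (0 < 1/10 - (1 * Pool.Agent.StripNear.h0 - t) ∧ 0 < 1/10 - ((T - t) - 1 * Pool.Agent.StripNear.h0) ∧ 0 < 1/10 - (2 * Pool.Agent.StripNear.h0 - T)) ∨ 0 < sl123_v (exf_v (c1f_v t) (-(f1p_v T)) t T) t (T - t) T (a1q1_v t) (rq2_v (-(f1p_v T) - c1f_v t) (T - t)) (-(v1q3_v T)) := by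
  have hp := Pool.Agent.StripNear.h0_pos
  have hm : Mem S b0 t T := mem0 (by linarith) (by linarith) (by linarith) (by linarith)
  have h : Q t T := all t T hm
  unfold Q P15 at h
  rcases h with (h | h | h | h) | h
  · exfalso; rw [e10] at h; linarith
  · exfalso; rw [e13] at h; linarith
  · exfalso; rw [e15] at h; linarith
  · exfalso; rw [e18] at h; linarith
  replace h := h.2
  unfold P14 at h
  rcases h with (h | h) | h
  · exfalso; rw [e49] at h; linarith
  · exfalso; rw [e63] at h; linarith
  replace h := h.2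
  unfold P13 at h
  rcases h with h | h
  · exfalso; rw [e42] at h; linarith
  replace h := h.2.1
  unfold P11 at h
  rcases h with h | h | h | h
  · exfalso; rw [e27] at h; linarith
  · exfalso; rw [e39] at h; linarith
  · left; simp only [e55, e40, e60] at h; exact h
  · right; rw [e61] at h; exact h

theorem fin133 {t T : ℝ} (h1 : 1 / 2 * Pool.Agent.StripNear.h0 ≤ t) (h1' : t ≤ 1 * Pool.Agent.StripNear.h0) (h2 : 3 / 2 * Pool.Agent.StripNear.h0 ≤ T) (h2' : T ≤ 2 * Pool.Agent.StripNear.h0) (h3 : 3 / 2 * Pool.Agent.StripNear.h0 ≤ T - t) (h3' : T - t ≤ 2 * Pool.Agent.StripNear.h0) (h6 : t ≤ T) (ho : 0 ≤ exf_v (c1f_v t) (-(f1p_v T)) t T + 1 / 2) (hq1 : 1 ≤ q3f_v (-(f1p_v T) - c1f_v t) (T - t)) (hq3 : q3f_v (-(f1p_v T) - c1f_v t) (T - t) ≤ 3) :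
    0 < sl133_v (exf_v (c1f_v t) (-(f1p_v T)) t T) t (T - t) T (a1q1_v t) (rq3_v (-(f1p_v T) - c1f_v t) (T - t)) (-(v1q3_v T)) := by
  have hp := Pool.Agent.StripNear.h0_pos
  have hm : Mem S b0 t T := mem0 (by linarith) (by linarith) (by linarith) (by linarith)
  have h : Q t T := all t T hm
  unfold Q P15 at h
  rcases h with (h | h | h | h) | h
  · exfalso; rw [e10] at h; linarith
  · exfalso; rw [e13] at h; linarith
  · exfalso; rw [e15] at h; linarith
  · exfalso; rw [e18] at h; linarith
  replace h := h.2
  unfold P14 at h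
  rcases h with (h | h) | h
  · exfalso; rw [e49] at h; linarith
  · exfalso; rw [e63] at h; linarith
  replace h := h.2
  unfold P13 at h
  rcases h with h | h
  · exfalso; rw [e42] at h; linarith
  replace h := h.2.2
  unfold P12 at h
  rcases h with h | h
  · exfalso; rw [e38] at h; linarith
  · rw [e62] at h; exact h

end Pool.Agent.Strip051.LB.B0m1p_pm
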