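import Pool.Agent.Strip051.LB.B0m2p_pp.C1
import Pool.Agent.Strip051.LB.B0m2p_pp.C2
import Pool.Agent.Strip051.LB.B0m2p_pp.C3
import Pool.Agent.Strip051.LB.B0m2p_pp.C4
import Pool.Agent.Strip051.LB.B0m2p_pp.C5
import Pool.Agent.Strip051.LB.B0m2p_pp.C6
import Pool.Agent.Strip051.LB.B0m2p_pp.C7
import Pool.Agent.Strip051.LB.B0m2p_pp.C8
import Pool.Agent.Strip051.LB.B0m2p_pp.C9

/-! # LINE boxes B0m2p_pp: assembly -/

namespace Pool.Agent.Strip051.LB.B0m2p_pp

open Pool.Agent.Strip051.Box Pool.Agent.Strip051.Box2 Pool.Agent.Strip051.LB

open Pool.Agent.Strip051.LB.Fn Pool.Agent.Strip051.LB.Fn.F2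

theorem all (x1 x2 : ℝ) (h : Mem S b0 x1 x2) : Q x1 x2 := by
  rcases mem_split1 h with h | h
  · rcases mem_split2 h with h | h
    · rcases mem_split1 h with h | h
      · rcases mem_split2 h with h | h
        · rcases mem_split1 h with h | h
          · rcases mem_split2 h with h | h
            · exact chk_all c0 x1 x2 h
            · rcases mem_split1 h with h | h
              · rcases mem_split2 h with h | h
                · rcases mem_split1 h with h | h
                  · rcases mem_split2 h with h | h
                    · exact chk_all c1 x1 x2 h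
                    · rcases mem_split2 h with h | h
                      · rcases mem_split1 h with h | h
                        · exact chk_all c2 x1 x2 h
                        · exact chk_all c3 x1 x2 h
                      · exact chk_all c4 x1 x2 h
                  · exact chk_all c5 x1 x2 h
                · rcases mem_split2 h with h | h
                  · rcases mem_split1 h with h | h
                    · exact chk_all c6 x1 x2 h
                    · rcases mem_split2 h with h | h
                      · exact chk_all c7 x1 x2 h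
                      · exact chk_all c8 x1 x2 h
                  · exact chk_all c9 x1 x2 h
              · rcases mem_split2 h with h | h
                · exact chk_all c10 x1 x2 h
                · rcases mem_split1 h with h | h
                  · rcases mem_split2 h with h | h
                    · exact chk_all c11 x1 x2 h
                    · rcases mem_split2 h with h | h
                      · exact chk_all c12 x1 x2 h
                      · exact chk_all c13 x1 x2 h
                  · exact chk_all c14 x1 x2 h
          · exact chk_all c15 x1 x2 h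
        · rcases mem_split1 h with h | h
          · rcases mem_split2 h with h | h
            · rcases mem_split2 h with h | h
              · rcases mem_split1 h with h | h
                · exact chk_all c16 x1 x2 h
                · rcases mem_split2 h with h | h
                  · rcases mem_split1 h with h | h
                    · exact chk_all c17 x1 x2 h
                    · rcases mem_split2 h with h | h
                      · exact chk_all c18 x1 x2 h
                      · exact chk_all c19 x1 x2 h
                  · exact chk_all c20 x1 x2 h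
              · exact chk_all c21 x1 x2 h
            · exact chk_all c22 x1 x2 h
          · rcases mem_split2 h with h | h
            · rcases mem_split1 h with h | h
              · rcases mem_split2 h with h | h
                · rcases mem_split1 h with h | h
                  · rcases mem_split2 h with h | h
                    · exact chk_all c23 x1 x2 h
                    · rcases mem_split2 h with h | h
                      · exact chk_all c24 x1 x2 h
                      · exact chk_all c25 x1 x2 h
                  · exact chk_all c26 x1 x2 h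
                · rcases mem_split2 h with h | h
                  · rcases mem_split1 h with h | h
                    · exact chk_all c27 x1 x2 h
                    · rcases mem_split2 h with h | h
                      · exact chk_all c28 x1 x2 h
                      · exact chk_all c29 x1 x2 h
                  · exact chk_all c30 x1 x2 h
              · rcases mem_split2 h with h | h
                · exact chk_all c31 x1 x2 h
                · rcases mem_split1 h with h | h
                  · rcases mem_split2 h with h | h
                    · exact chk_all c32 x1 x2 h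
                    · rcases mem_split2 h with h | h
                      · exact chk_all c33 x1 x2 h
                      · exact chk_all c34 x1 x2 h
                  · exact chk_all c35 x1 x2 h
            · rcases mem_split1 h with h | h
              · exact chk_all c36 x1 x2 h
              · rcases mem_split1 h with h | h
                · exact chk_all c37 x1 x2 h
                · rcases mem_split2 h with h | h
                  · rcases mem_split2 h with h | h
                    · rcases mem_split2 h with h | h
                      · exact chk_all c38 x1 x2 h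
                      · exact chk_all c39 x1 x2 h
                    · exact chk_all c40 x1 x2 h
                  · exact chk_all c41 x1 x2 h
      · rcases mem_split2 h with h | h
        · exact chk_all c42 x1 x2 h
        · rcases mem_split1 h with h | h
          · rcases mem_split2 h with h | h
            · exact chk_all c43 x1 x2 h
            · rcases mem_split1 h with h | h
              · rcases mem_split2 h with h | h
                · rcases mem_split1 h with h | h
                  · rcases mem_split2 h with h | h
                    · exact chk_all c44 x1 x2 h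
                    · rcases mem_split1 h with h | h
                      · exact chk_all c45 x1 x2 h
                      · exact chk_all c46 x1 x2 h
                  · exact chk_all c47 x1 x2 h
                · rcases mem_split2 h with h | h
                  · rcases mem_split1 h with h | h
                    · exact chk_all c48 x1 x2 h
                    · rcases mem_split2 h with h | h
                      · exact chk_all c49 x1 x2 h
                      · exact chk_all c50 x1 x2 h
                  · exact chk_all c51 x1 x2 h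
              · rcases mem_split2 h with h | h
                · exact chk_all c52 x1 x2 h
                · rcases mem_split1 h with h | h
                  · rcases mem_split2 h with h | h
                    · exact chk_all c53 x1 x2 h
                    · rcases mem_split2 h with h | h
                      · exact chk_all c54 x1 x2 h
                      · exact chk_all c55 x1 x2 h
                  · exact chk_all c56 x1 x2 h
          · exact chk_all c57 x1 x2 h
    · rcases mem_split1 h with h | h
      · exact chk_all c58 x1 x2 h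
      · rcases mem_split2 h with h | h
        · rcases mem_split1 h with h | h
          · exact chk_all c59 x1 x2 h
          · rcases mem_split2 h with h | h
            · rcases mem_split1 h with h | h
              · rcases mem_split2 h with h | h
                · rcases mem_split1 h with h | h
                  · rcases mem_split2 h with h | h
                    · exact chk_all c60 x1 x2 h
                    · rcases mem_split2 h with h | h
                      · exact chk_all c61 x1 x2 h
                      · exact chk_all c62 x1 x2 h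
                  · exact chk_all c63 x1 x2 h
                · rcases mem_split1 h with h | h
                  · exact chk_all c64 x1 x2 h
                  · rcases mem_split2 h with h | h
                    · rcases mem_split1 h with h | h
                      · exact chk_all c65 x1 x2 h
                      · exact chk_all c66 x1 x2 h
                    · exact chk_all c67 x1 x2 h
              · rcases mem_split2 h with h | h
                · exact chk_all c68 x1 x2 h
                · rcases mem_split1 h with h | h
                  · rcases mem_split2 h with h | h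
                    · exact chk_all c69 x1 x2 h
                    · rcases mem_split1 h with h | h
                      · rcases mem_split2 h with h | h
                        · rcases mem_split2 h with h | h
                          · exact chk_all c70 x1 x2 h
                          · exact chk_all c71 x1 x2 h
                        · exact chk_all c72 x1 x2 h
                      · rcases mem_split2 h with h | h
                        · exact chk_all c73 x1 x2 h
                        · rcases mem_split2 h with h | h
                          · exact chk_all c74 x1 x2 h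
                          · exact chk_all c75 x1 x2 h
                  · exact chk_all c76 x1 x2 h
            · rcases mem_split1 h with h | h
              · exact chk_all c77 x1 x2 h
              · rcases mem_split2 h with h | h
                · rcases mem_split1 h with h | h
                  · exact chk_all c78 x1 x2 h
                  · rcases mem_split2 h with h | h
                    · rcases mem_split1 h with h | h
                      · exact chk_all c79 x1 x2 h
                      · exact chk_all c80 x1 x2 h
                    · exact chk_all c81 x1 x2 h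
                · exact chk_all c82 x1 x2 h
        · exact chk_all c83 x1 x2 h
  · rcases mem_split2 h with h | h
    · exact chk_all c84 x1 x2 h
    · rcases mem_split1 h with h | h
      · rcases mem_split2 h with h | h
        · rcases mem_split1 h with h | h
          · rcases mem_split2 h with h | h
            · exact chk_all c85 x1 x2 h
            · rcases mem_split1 h with h | h
              · rcases mem_split2 h with h | h
                · rcases mem_split1 h with h | h
                  · rcases mem_split2 h with h | h
                    · exact chk_all c86 x1 x2 h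
                    · rcases mem_split1 h with h | h
                      · exact chk_all c87 x1 x2 h
                      · exact chk_all c88 x1 x2 h
                  · exact chk_all c89 x1 x2 h
                · exact chk_all c90 x1 x2 h
              · exact chk_all c91 x1 x2 h
          · exact chk_all c92 x1 x2 h
        · exact chk_all c93 x1 x2 h
      · exact chk_all c94 x1 x2 h

theorem e3 (t T : ℝ) : v3 t T = c1f_v t := by
  first | rfl | (simp only [v3, v0]; done) | (simp only [v3, v0]; push_cast; (try simp only [hs3]); (try ring))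

theorem e5 (t T : ℝ) : v5 t T = T - t := by
  first | rfl | (simp only [v5, v4, v0]; done) | (simp only [v5, v4, v0]; push_cast; (try simp only [hs3]); (try ring))

theorem e6 (t T : ℝ) : v6 t T = f2p_v T := by
  first | rfl | (simp only [v6, v4]; done) | (simp only [v6, v4]; push_cast; (try simp only [hs3]); (try ring))

theorem e7 (t T : ℝ) : v7 t T = (f2p_v T - c1f_v t) := by
  first | rfl | (simp only [v7, e6, e3]; done) | (simp only [v7, e6, e3]; push_cast; (try simp only [hs3]); (try ring))

theorem e8 (t T : ℝ) : v8 t T = exf_v (c1f_v t) (f2p_v T) t T := by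
  first | rfl | (simp only [v8, e3, e6, v0, v4]; done) | (simp only [v8, e3, e6, v0, v4]; push_cast; (try simp only [hs3]); (try ring))

theorem e9 (t T : ℝ) : v9 t T = -(T - t) := by
  first | rfl | (simp only [v9, v0, v4]; done) | (simp only [v9, v0, v4]; push_cast; (try simp only [hs3]); (try ring))

theorem e10 (t T : ℝ) : v10 t T = q3f_v (f2p_v T - c1f_v t) (T - t) := by
  first | rfl | (simp only [v10, e7, e5]; done) | (simp only [v10, e7, e5]; push_cast; (try simp only [hs3]); (try ring))

theorem e12 (t T : ℝ) : v12 t T = 1 - q3f_v (f2p_v T - c1f_v t) (T - t) := by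
  first | rfl | (simp only [v12, v11, e10]; done) | (simp only [v12, v11, e10]; push_cast; (try simp only [hs3]); (try ring))

theorem e14 (t T : ℝ) : v14 t T = q3f_v (f2p_v T - c1f_v t) (T - t) - 3 := by
  first | rfl | (simp only [v14, e10, v13]; done) | (simp only [v14, e10, v13]; push_cast; (try simp only [hs3]); (try ring))

theorem e17 (t T : ℝ) : v17 t T = -(exf_v (c1f_v t) (f2p_v T) t T + 1 / 2) := by
  first | rfl | (simp only [v17, v16, e8, v15]; done) | (simp only [v17, v16, e8, v15]; push_cast; (try simp only [hs3]); (try ring))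

theorem e18 (t T : ℝ) : v18 t T = a1q0_v t := by
  first | rfl | (simp only [v18, v0]; done) | (simp only [v18, v0]; push_cast; (try simp only [hs3]); (try ring))

theorem e19 (t T : ℝ) : v19 t T = v2q2_v T := by
  first | rfl | (simp only [v19, v4]; done) | (simp only [v19, v4]; push_cast; (try simp only [hs3]); (try ring))

theorem e20 (t T : ℝ) : v20 t T = rq1_v (f2p_v T - c1f_v t) (T - t) := by
  first | rfl | (simp only [v20, e7, e5]; done) | (simp only [v20, e7, e5]; push_cast; (try simp only [hs3]); (try ring))

theorem e21 (t T : ℝ) : v21 t T = sl012_v (exf_v (c1f_v t) (f2p_v T) t T) t (T - t) T (a1q0_v t) (rq1_v (f2p_v T - c1f_v t) (T - t)) (v2q2_v T) := by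
  first | rfl | (simp only [v21, e8, v0, e5, v4, e18, e20, e19]; done) | (simp only [v21, e8, v0, e5, v4, e18, e20, e19]; push_cast; (try simp only [hs3]); (try ring))

theorem e23 (t T : ℝ) : v23 t T = -(1 / 2 * Pool.Agent.StripNear.h0 - (T - t)) := by
  first | rfl | (simp only [v23, e5, v22, v1]; done) | (simp only [v23, e5, v22, v1]; push_cast; (try simp only [hs3]); (try ring))

theorem e24 (t T : ℝ) : v24 t T = -((T - t) - 1 / 2 * Pool.Agent.StripNear.h0) := by
  first | rfl | (simp only [v24, v22, v1, e5]; done) | (simp only [v24, v22, v1, e5]; push_cast; (try simp only [hs3]); (try ring))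

theorem e25 (t T : ℝ) : v25 t T = -((T - t) - 1 * Pool.Agent.StripNear.h0) := by
  first | rfl | (simp only [v25, v2, v1, e5]; done) | (simp only [v25, v2, v1, e5]; push_cast; (try simp only [hs3]); (try ring))

theorem e26 (t T : ℝ) : v26 t T = -(1 * Pool.Agent.StripNear.h0 - (T - t)) := by
  first | rfl | (simp only [v26, e5, v2, v1]; done) | (simp only [v26, e5, v2, v1]; push_cast; (try simp only [hs3]); (try ring))

theorem e27 (t T : ℝ) : v27 t T = rq2_v (f2p_v T - c1f_v t) (T - t) := by
  first | rfl | (simp only [v27, e7, e5]; done) | (simp only [v27, e7, e5]; push_cast; (try simp only [hs3]); (try ring))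

theorem e28 (t T : ℝ) : v28 t T = sl022_v (exf_v (c1f_v t) (f2p_v T) t T) t (T - t) T (a1q0_v t) (rq2_v (f2p_v T - c1f_v t) (T - t)) (v2q2_v T) := by
  first | rfl | (simp only [v28, e8, v0, e5, v4, e18, e27, e19]; done) | (simp only [v28, e8, v0, e5, v4, e18, e27, e19]; push_cast; (try simp only [hs3]); (try ring))

theorem e30 (t T : ℝ) : v30 t T = -((T - t) - 3 / 2 * Pool.Agent.StripNear.h0) := by
  first | rfl | (simp only [v30, v29, v1, e5]; done) | (simp only [v30, v29, v1, e5]; push_cast; (try simp only [hs3]); (try ring))

theorem e31 (t T : ℝ) : v31 t T = -(3 / 2 * Pool.Agent.StripNear.h0 - (T - t)) := by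
  first | rfl | (simp only [v31, e5, v29, v1]; done) | (simp only [v31, e5, v29, v1]; push_cast; (try simp only [hs3]); (try ring))

theorem e33 (t T : ℝ) : v33 t T = -(T - 1 * Pool.Agent.StripNear.h0) := by
  first | rfl | (simp only [v33, v2, v1, v4]; done) | (simp only [v33, v2, v1, v4]; push_cast; (try simp only [hs3]); (try ring))

theorem e34 (t T : ℝ) : v34 t T = -(T - 3 / 2 * Pool.Agent.StripNear.h0) := by
  first | rfl | (simp only [v34, v29, v1, v4]; done) | (simp only [v34, v29, v1, v4]; push_cast; (try simp only [hs3]); (try ring))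

theorem e35 (t T : ℝ) : v35 t T = -(3 / 2 * Pool.Agent.StripNear.h0 - T) := by
  first | rfl | (simp only [v35, v4, v29, v1]; done) | (simp only [v35, v4, v29, v1]; push_cast; (try simp only [hs3]); (try ring))

theorem e36 (t T : ℝ) : v36 t T = v2q3_v T := by
  first | rfl | (simp only [v36, v4]; done) | (simp only [v36, v4]; push_cast; (try simp only [hs3]); (try ring))

theorem e37 (t T : ℝ) : v37 t T = sl023_v (exf_v (c1f_v t) (f2p_v T) t T) t (T - t) T (a1q0_v t) (rq2_v (f2p_v T - c1f_v t) (T - t)) (v2q3_v T) := by
  first | rfl | (simp only [v37, e8, v0, e5, v4, e18, e27, e36]; done) | (simp only [v37, e8, v0, e5, v4, e18, e27, e36]; push_cast; (try simp only [hs3]); (try ring))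

theorem e38 (t T : ℝ) : v38 t T = rq3_v (f2p_v T - c1f_v t) (T - t) := by
  first | rfl | (simp only [v38, e7, e5]; done) | (simp only [v38, e7, e5]; push_cast; (try simp only [hs3]); (try ring))

theorem e39 (t T : ℝ) : v39 t T = sl033_v (exf_v (c1f_v t) (f2p_v T) t T) t (T - t) T (a1q0_v t) (rq3_v (f2p_v T - c1f_v t) (T - t)) (v2q3_v T) := by
  first | rfl | (simp only [v39, e8, v0, e5, v4, e18, e38, e36]; done) | (simp only [v39, e8, v0, e5, v4, e18, e38, e36]; push_cast; (try simp only [hs3]); (try ring))

theorem e40 (t T : ℝ) : v40 t T = -(t - 1 / 2 * Pool.Agent.StripNear.h0) := by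
  first | rfl | (simp only [v40, v22, v1, v0]; done) | (simp only [v40, v22, v1, v0]; push_cast; (try simp only [hs3]); (try ring))

theorem e41 (t T : ℝ) : v41 t T = -(1 / 2 * Pool.Agent.StripNear.h0 - t) := by
  first | rfl | (simp only [v41, v0, v22, v1]; done) | (simp only [v41, v0, v22, v1]; push_cast; (try simp only [hs3]); (try ring))

theorem e42 (t T : ℝ) : v42 t T = a1q1_v t := by
  first | rfl | (simp only [v42, v0]; done) | (simp only [v42, v0]; push_cast; (try simp only [hs3]); (try ring))

theorem e43 (t T : ℝ) : v43 t T = rq0_v (f2p_v T - c1f_v t) (T - t) := by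
  first | rfl | (simp only [v43, e7, e5]; done) | (simp only [v43, e7, e5]; push_cast; (try simp only [hs3]); (try ring))

theorem e44 (t T : ℝ) : v44 t T = sl102_v (exf_v (c1f_v t) (f2p_v T) t T) t (T - t) T (a1q1_v t) (rq0_v (f2p_v T - c1f_v t) (T - t)) (v2q2_v T) := by
  first | rfl | (simp only [v44, e8, v0, e5, v4, e42, e43, e19]; done) | (simp only [v44, e8, v0, e5, v4, e42, e43, e19]; push_cast; (try simp only [hs3]); (try ring))

theorem e45 (t T : ℝ) : v45 t T = sl112_v (exf_v (c1f_v t) (f2p_v T) t T) t (T - t) T (a1q1_v t) (rq1_v (f2p_v T - c1f_v t) (T - t)) (v2q2_v T) := by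
  first | rfl | (simp only [v45, e8, v0, e5, v4, e42, e20, e19]; done) | (simp only [v45, e8, v0, e5, v4, e42, e20, e19]; push_cast; (try simp only [hs3]); (try ring))

theorem e46 (t T : ℝ) : v46 t T = sl113_v (exf_v (c1f_v t) (f2p_v T) t T) t (T - t) T (a1q1_v t) (rq1_v (f2p_v T - c1f_v t) (T - t)) (v2q3_v T) := by
  first | rfl | (simp only [v46, e8, v0, e5, v4, e42, e20, e36]; done) | (simp only [v46, e8, v0, e5, v4, e42, e20, e36]; push_cast; (try simp only [hs3]); (try ring))

theorem e49 (t T : ℝ) : v49 t T = 1/10 - (1 * Pool.Agent.StripNear.h0 - t) := by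
  first | rfl | (simp only [v49, v48, v47, v2, v1, v0]; done) | (simp only [v49, v48, v47, v2, v1, v0]; push_cast; (try simp only [hs3]); (try ring))

theorem e50 (t T : ℝ) : v50 t T = 1/10 - (1 * Pool.Agent.StripNear.h0 - (T - t)) := by
  first | rfl | (simp only [v50, v48, e25]; done) | (simp only [v50, v48, e25]; push_cast; (try simp only [hs3]); (try ring))

theorem e52 (t T : ℝ) : v52 t T = 1/10 - (2 * Pool.Agent.StripNear.h0 - T) := by
  first | rfl | (simp only [v52, v48, v51, v1, v4]; done) | (simp only [v52, v48, v51, v1, v4]; push_cast; (try simp only [hs3]); (try ring))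

theorem e53 (t T : ℝ) : v53 t T = sl123_v (exf_v (c1f_v t) (f2p_v T) t T) t (T - t) T (a1q1_v t) (rq2_v (f2p_v T - c1f_v t) (T - t)) (v2q3_v T) := by
  first | rfl | (simp only [v53, e8, v0, e5, v4, e42, e27, e36]; done) | (simp only [v53, e8, v0, e5, v4, e42, e27, e36]; push_cast; (try simp only [hs3]); (try ring))

theorem e54 (t T : ℝ) : v54 t T = 1/10 - ((T - t) - 1 * Pool.Agent.StripNear.h0) := by
  first | rfl | (simp only [v54, v48, e26]; done) | (simp only [v54, v48, e26]; push_cast; (try simp only [hs3]); (try ring))

theorem e55 (t T : ℝ) : v55 t T = sl133_v (exf_v (c1f_v t) (f2p_v T) t T) t (T - t) T (a1q1_v t) (rq3_v (f2p_v T - c1f_v t) (T - t)) (v2q3_v T) := by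
  first | rfl | (simp only [v55, e8, v0, e5, v4, e42, e38, e36]; done) | (simp only [v55, e8, v0, e5, v4, e42, e38, e36]; push_cast; (try simp only [hs3]); (try ring))

theorem e56 (t T : ℝ) : v56 t T = -(1 * Pool.Agent.StripNear.h0 - t) := by
  first | rfl | (simp only [v56, v0, v2, v1]; done) | (simp only [v56, v0, v2, v1]; push_cast; (try simp only [hs3]); (try ring))

theorem mem0 {t T : ℝ} (h1 : 0 ≤ t) (h2 : t ≤ Pool.Agent.StripNear.h0) (h3 : Pool.Agent.StripNear.h0 ≤ T) (h4 : T ≤ 2 * Pool.Agent.StripNear.h0) : Mem S b0 t T := by
  have g1 := h0_lo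
  have g2 := h0_hi
  unfold Mem b0
  refine ⟨abs_le.mpr ⟨?_, ?_⟩, abs_le.mpr ⟨?_, ?_⟩⟩ <;> norm_num [S] <;> linarith

theorem fin012 {t T : ℝ} (h1 : 0 * Pool.Agent.StripNear.h0 ≤ t) (h1' : t ≤ 1 / 2 * Pool.Agent.StripNear.h0) (h2 : 1 * Pool.Agent.StripNear.h0 ≤ T) (h2' : T ≤ 3 / 2 * Pool.Agent.StripNear.h0) (h3 : 1 / 2 * Pool.Agent.StripNear.h0 ≤ T - t) (h3' : T - t ≤ 1 * Pool.Agent.StripNear.h0) (h6 : t ≤ T) (ho : 0 ≤ exf_v (c1f_v t) (f2p_v T) t T + 1 / 2) (hq1 : 1 ≤ q3f_v (f2p_v T - c1f_v t) (T - t)) (hq3 : q3f_v (f2p_v T - c1f_v t) (T - t) ≤ 3) :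
    0 < sl012_v (exf_v (c1f_v t) (f2p_v T) t T) t (T - t) T (a1q0_v t) (rq1_v (f2p_v T - c1f_v t) (T - t)) (v2q2_v T) := by
  have hp := Pool.Agent.StripNear.h0_pos
  have hm : Mem S b0 t T := mem0 (by linarith) (by linarith) (by linarith) (by linarith)
  have h : Q t T := all t T hm
  unfold Q P15 at h
  rcases h with (h | h | h | h) | h
  · exfalso; rw [e9] at h; linarith
  · exfalso; rw [e12] at h; linarith
  · exfalso; rw [e14] at h; linarith
  · exfalso; rw [e17] at h; linarith
  replace h := h.1
  unfold P6 at h
  rcases h with h | h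
  · exfalso; rw [e41] at h; linarith
  replace h := h.1
  unfold P2 at h
  rcases h with (h | h) | h
  · exfalso; rw [e33] at h; linarith
  · exfalso; rw [e35] at h; linarith
  replace h := h.1
  unfold P0 at h
  rcases h with h | h | h
  · exfalso; rw [e24] at h; linarith
  · exfalso; rw [e26] at h; linarith
  · rw [e21] at h; exact h

theorem fin022 {t T : ℝ} (h1 : 0 * Pool.Agent.StripNear.h0 ≤ t) (h1' : t ≤ 1 / 2 * Pool.Agent.StripNear.h0) (h2 : 1 * Pool.Agent.StripNear.h0 ≤ T) (h2' : T ≤ 3 / 2 * Pool.Agent.StripNear.h0) (h3 : 1 * Pool.Agent.StripNear.h0 ≤ T - t) (h3' : T - t ≤ 3 / 2 * Pool.Agent.StripNear.h0) (h6 : t ≤ T) (ho : 0 ≤ exf_v (c1f_v t) (f2p_v T) t T + 1 / 2) (hq1 : 1 ≤ q3f_v (f2p_v T - c1f_v t) (T - t)) (hq3 : q3f_v (f2p_v T - c1f_v t) (T - t) ≤ 3) :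
    0 < sl022_v (exf_v (c1f_v t) (f2p_v T) t T) t (T - t) T (a1q0_v t) (rq2_v (f2p_v T - c1f_v t) (T - t)) (v2q2_v T) := by
  have hp := Pool.Agent.StripNear.h0_pos
  have hm : Mem S b0 t T := mem0 (by linarith) (by linarith) (by linarith) (by linarith)
  have h : Q t T := all t T hm
  unfold Q P15 at h
  rcases h with (h | h | h | h) | h
  · exfalso; rw [e9] at h; linarith
  · exfalso; rw [e12] at h; linarith
  · exfalso; rw [e14] at h; linarith
  · exfalso; rw [e17] at h; linarith
  replace h := h.1
  unfold P6 at h
  rcases h with h | h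
  · exfalso; rw [e41] at h; linarith
  replace h := h.1
  unfold P2 at h
  rcases h with (h | h) | h
  · exfalso; rw [e33] at h; linarith
  · exfalso; rw [e35] at h; linarith
  replace h := h.2
  unfold P1 at h
  rcases h with h | h | h
  · exfalso; rw [e25] at h; linarith
  · exfalso; rw [e31] at h; linarith
  · rw [e28] at h; exact h

theorem fin023 {t T : ℝ} (h1 : 0 * Pool.Agent.StripNear.h0 ≤ t) (h1' : t ≤ 1 / 2 * Pool.Agent.StripNear.h0) (h2 : 3 / 2 * Pool.Agent.StripNear.h0 ≤ T) (h2' : T ≤ 2 * Pool.Agent.StripNear.h0) (h3 : 1 * Pool.Agent.StripNear.h0 ≤ T - t) (h3' : T - t ≤ 3 / 2 * Pool.Agent.StripNear.h0) (h6 : t ≤ T) (ho : 0 ≤ exf_v (c1f_v t) (f2p_v T) t T + 1 / 2) (hq1 : 1 ≤ q3f_v (f2p_v T - c1f_v t) (T - t)) (hq3 : q3f_v (f2p_v T - c1f_v t) (T - t) ≤ 3) :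
    0 < sl023_v (exf_v (c1f_v t) (f2p_v T) t T) t (T - t) T (a1q0_v t) (rq2_v (f2p_v T - c1f_v t) (T - t)) (v2q3_v T) := by
  have hp := Pool.Agent.StripNear.h0_pos
  have hm : Mem S b0 t T := mem0 (by linarith) (by linarith) (by linarith) (by linarith)
  have h : Q t T := all t T hm
  unfold Q P15 at h
  rcases h with (h | h | h | h) | h
  · exfalso; rw [e9] at h; linarith
  · exfalso; rw [e12] at h; linarith
  · exfalso; rw [e14] at h; linarith
  · exfalso; rw [e17] at h; linarith
  replace h := h.1
  unfold P6 at h
  rcases h with h | h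
  · exfalso; rw [e41] at h; linarith
  replace h := h.2
  unfold P5 at h
  rcases h with h | h
  · exfalso; rw [e34] at h; linarith
  replace h := h.1
  unfold P3 at h
  rcases h with h | h | h
  · exfalso; rw [e25] at h; linarith
  · exfalso; rw [e31] at h; linarith
  · rw [e37] at h; exact h

theorem fin033 {t T : ℝ} (h1 : 0 * Pool.Agent.StripNear.h0 ≤ t) (h1' : t ≤ 1 / 2 * Pool.Agent.StripNear.h0) (h2 : 3 / 2 * Pool.Agent.StripNear.h0 ≤ T) (h2' : T ≤ 2 * Pool.Agent.StripNear.h0) (h3 : 3 / 2 * Pool.Agent.StripNear.h0 ≤ T - t) (h3' : T - t ≤ 2 * Pool.Agent.StripNear.h0) (h6 : t ≤ T) (ho : 0 ≤ exf_v (c1f_v t) (f2p_v T) t T + 1 / 2) (hq1 : 1 ≤ q3f_v (f2p_v T - c1f_v t) (T - t)) (hq3 : q3f_v (f2p_v T - c1f_v t) (T - t) ≤ 3) :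
    0 < sl033_v (exf_v (c1f_v t) (f2p_v T) t T) t (T - t) T (a1q0_v t) (rq3_v (f2p_v T - c1f_v t) (T - t)) (v2q3_v T) := by
  have hp := Pool.Agent.StripNear.h0_pos
  have hm : Mem S b0 t T := mem0 (by linarith) (by linarith) (by linarith) (by linarith)
  have h : Q t T := all t T hm
  unfold Q P15 at h
  rcases h with (h | h | h | h) | h
  · exfalso; rw [e9] at h; linarith
  · exfalso; rw [e12] at h; linarith
  · exfalso; rw [e14] at h; linarith
  · exfalso; rw [e17] at h; linarith
  replace h := h.1
  unfold P6 at h
  rcases h with h | h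
  · exfalso; rw [e41] at h; linarith
  replace h := h.2
  unfold P5 at h
  rcases h with h | h
  · exfalso; rw [e34] at h; linarith
  replace h := h.2
  unfold P4 at h
  rcases h with h | h
  · exfalso; rw [e30] at h; linarith
  · rw [e39] at h; exact h

theorem fin102 {t T : ℝ} (h1 : 1 / 2 * Pool.Agent.StripNear.h0 ≤ t) (h1' : t ≤ 1 * Pool.Agent.StripNear.h0) (h2 : 1 * Pool.Agent.StripNear.h0 ≤ T) (h2' : T ≤ 3 / 2 * Pool.Agent.StripNear.h0) (h3 : 0 * Pool.Agent.StripNear.h0 ≤ T - t) (h3' : T - t ≤ 1 / 2 * Pool.Agent.StripNear.h0) (h6 : t ≤ T) (ho : 0 ≤ exf_v (c1f_v t) (f2p_v T) t T + 1 / 2) (hq1 : 1 ≤ q3f_v (f2p_v T - c1f_v t) (T - t)) (hq3 : q3f_v (f2p_v T - c1f_v t) (T - t) ≤ 3) :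
    0 < sl102_v (exf_v (c1f_v t) (f2p_v T) t T) t (T - t) T (a1q1_v t) (rq0_v (f2p_v T - c1f_v t) (T - t)) (v2q2_v T) := by
  have hp := Pool.Agent.StripNear.h0_pos
  have hm : Mem S b0 t T := mem0 (by linarith) (by linarith) (by linarith) (by linarith)
  have h : Q t T := all t T hm
  unfold Q P15 at h
  rcases h with (h | h | h | h) | h
  · exfalso; rw [e9] at h; linarith
  · exfalso; rw [e12] at h; linarith
  · exfalso; rw [e14] at h; linarith
  · exfalso; rw [e17] at h; linarith
  replace h := h.2
  unfold P14 at h
  rcases h with (h | h) | h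
  · exfalso; rw [e40] at h; linarith
  · exfalso; rw [e56] at h; linarith
  replace h := h.1
  unfold P9 at h
  rcases h with (h | h) | h
  · exfalso; rw [e33] at h; linarith
  · exfalso; rw [e35] at h; linarith
  replace h := h.1
  unfold P7 at h
  rcases h with h | h
  · exfalso; rw [e23] at h; linarith
  · rw [e44] at h; exact h

theorem fin112 {t T : ℝ} (h1 : 1 / 2 * Pool.Agent.StripNear.h0 ≤ t) (h1' : t ≤ 1 * Pool.Agent.StripNear.h0) (h2 : 1 * Pool.Agent.StripNear.h0 ≤ T) (h2' : T ≤ 3 / 2 * Pool.Agent.StripNear.h0) (h3 : 1 / 2 * Pool.Agent.StripNear.h0 ≤ T - t) (h3' : T - t ≤ 1 * Pool.Agent.StripNear.h0) (h6 : t ≤ T) (ho : 0 ≤ exf_v (c1f_v t) (f2p_v T) t T + 1 / 2) (hq1 : 1 ≤ q3f_v (f2p_v T - c1f_v t) (T - t)) (hq3 : q3f_v (f2p_v T - c1f_v t) (T - t) ≤ 3) :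
    0 < sl112_v (exf_v (c1f_v t) (f2p_v T) t T) t (T - t) T (a1q1_v t) (rq1_v (f2p_v T - c1f_v t) (T - t)) (v2q2_v T) := by
  have hp := Pool.Agent.StripNear.h0_pos
  have hm : Mem S b0 t T := mem0 (by linarith) (by linarith) (by linarith) (by linarith)
  have h : Q t T := all t T hm
  unfold Q P15 at h
  rcases h with (h | h | h | h) | h
  · exfalso; rw [e9] at h; linarith
  · exfalso; rw [e12] at h; linarith
  · exfalso; rw [e14] at h; linarith
  · exfalso; rw [e17] at h; linarith
  replace h := h.2
  unfold P14 at h
  rcases h with (h | h) | h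
  · exfalso; rw [e40] at h; linarith
  · exfalso; rw [e56] at h; linarith
  replace h := h.1
  unfold P9 at h
  rcases h with (h | h) | h
  · exfalso; rw [e33] at h; linarith
  · exfalso; rw [e35] at h; linarith
  replace h := h.2
  unfold P8 at h
  rcases h with h | h | h
  · exfalso; rw [e24] at h; linarith
  · exfalso; rw [e26] at h; linarith
  · rw [e45] at h; exact h

theorem fin113 {t T : ℝ} (h1 : 1 / 2 * Pool.Agent.StripNear.h0 ≤ t) (h1' : t ≤ 1 * Pool.Agent.StripNear.h0) (h2 : 3 / 2 * Pool.Agent.StripNear.h0 ≤ T) (h2' : T ≤ 2 * Pool.Agent.StripNear.h0) (h3 : 1 / 2 * Pool.Agent.StripNear.h0 ≤ T - t) (h3' : T - t ≤ 1 * Pool.Agent.StripNear.h0) (h6 : t ≤ T) (ho : 0 ≤ exf_v (c1f_v t) (f2p_v T) t T + 1 / 2) (hq1 : 1 ≤ q3f_v (f2p_v T - c1f_v t) (T - t)) (hq3 : q3f_v (f2p_v T - c1f_v t) (T - t) ≤ 3) :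
    (0 < 1/10 - (1 * Pool.Agent.StripNear.h0 - t) ∧ 0 < 1/10 - (1 * Pool.Agent.StripNear.h0 - (T - t)) ∧ 0 < 1/10 - (2 * Pool.Agent.StripNear.h0 - T)) ∨ 0 < sl113_v (exf_v (c1f_v t) (f2p_v T) t T) t (T - t) T (a1q1_v t) (rq1_v (f2p_v T - c1f_v t) (T - t)) (v2q3_v T) := by
  have hp := Pool.Agent.StripNear.h0_pos
  have hm : Mem S b0 t T := mem0 (by linarith) (by linarith) (by linarith) (by linarith)
  have h : Q t T := all t T hm
  unfold Q P15 at h
  rcases h with (h | h | h | h) | h
  · exfalso; rw [e9] at h; linarith
  · exfalso; rw [e12] at h; linarith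
  · exfalso; rw [e14] at h; linarith
  · exfalso; rw [e17] at h; linarith
  replace h := h.2
  unfold P14 at h
  rcases h with (h | h) | h
  · exfalso; rw [e40] at h; linarith
  · exfalso; rw [e56] at h; linarith
  replace h := h.2
  unfold P13 at h
  rcases h with h | h
  · exfalso; rw [e34] at h; linarith
  replace h := h.1
  unfold P10 at h
  rcases h with h | h | h | h
  · exfalso; rw [e24] at h; linarith
  · exfalso; rw [e26] at h; linarith
  · left; simp only [e49, e50, e52] at h; exact h
  · right; rw [e46] at h; exact h

theorem fin123 {t T : ℝ} (h1 : 1 / 2 * Pool.Agent.StripNear.h0 ≤ t) (h1' : t ≤ 1 * Pool.Agent.StripNear.h0) (h2 : 3 / 2 * Pool.Agent.StripNear.h0 ≤ T) (h2' : T ≤ 2 * Pool.Agent.StripNear.h0) (h3 : 1 * Pool.Agent.StripNear.h0 ≤ T - t) (h3' : T - t ≤ 3 / 2 * Pool.Agent.StripNear.h0) (h6 : t ≤ T) (ho : 0 ≤ exf_v (c1f_v t) (f2p_v T) t T + 1 / 2) (hq1 : 1 ≤ q3f_v (f2p_v T - c1f_v t) (T - t)) (hq3 : q3f_v (f2p_v T - c1f_v t) (T - t) ≤ 3) :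
    (0 < 1/10 - (1 * Pool.Agent.StripNear.h0 - t) ∧ 0 < 1/10 - ((T - t) - 1 * Pool.Agent.StripNear.h0) ∧ 0 < 1/10 - (2 * Pool.Agent.StripNear.h0 - T)) ∨ 0 < sl123_v (exf_v (c1f_v t) (f2p_v T) t T) t (T - t) T (a1q1_v t) (rq2_v (f2p_v T - c1f_v t) (T - t)) (v2q3_v T) := by
  have hp := Pool.Agent.StripNear.h0_pos
  have hm : Mem S b0 t T := mem0 (by linarith) (by linarith) (by linarith) (by linarith)
  have h : Q t T := all t T hm
  unfold Q P15 at h
  rcases h with (h | h | h | h) | h
  · exfalso; rw [e9] at h; linarith
  · exfalso; rw [e12] at h; linarith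
  · exfalso; rw [e14] at h; linarith
  · exfalso; rw [e17] at h; linarith
  replace h := h.2
  unfold P14 at h
  rcases h with (h | h) | h
  · exfalso; rw [e40] at h; linarith
  · exfalso; rw [e56] at h; linarith
  replace h := h.2
  unfold P13 at h
  rcases h with h | h
  · exfalso; rw [e34] at h; linarith
  replace h := h.2.1
  unfold P11 at h
  rcases h with h | h | h | h
  · exfalso; rw [e25] at h; linarith
  · exfalso; rw [e31] at h; linarith
  · left; simp only [e49, e54, e52] at h; exact h
  · right; rw [e53] at h; exact h

theorem fin133 {t T : ℝ} (h1 : 1 / 2 * Pool.Agent.StripNear.h0 ≤ t) (h1' : t ≤ 1 * Pool.Agent.StripNear.h0) (h2 : 3 / 2 * Pool.Agent.StripNear.h0 ≤ T) (h2' : T ≤ 2 * Pool.Agent.StripNear.h0) (h3 : 3 / 2 * Pool.Agent.StripNear.h0 ≤ T - t) (h3' : T - t ≤ 2 * Pool.Agent.StripNear.h0) (h6 : t ≤ T) (ho : 0 ≤ exf_v (c1f_v t) (f2p_v T) t T + 1 / 2) (hq1 : 1 ≤ q3f_v (f2p_v T - c1f_v t) (T - t)) (hq3 : q3f_v (f2p_v T - c1f_v t) (T - t) ≤ 3) :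
    0 < sl133_v (exf_v (c1f_v t) (f2p_v T) t T) t (T - t) T (a1q1_v t) (rq3_v (f2p_v T - c1f_v t) (T - t)) (v2q3_v T) := by
  have hp := Pool.Agent.StripNear.h0_pos
  have hm : Mem S b0 t T := mem0 (by linarith) (by linarith) (by linarith) (by linarith)
  have h : Q t T := all t T hm
  unfold Q P15 at h
  rcases h with (h | h | h | h) | h
  · exfalso; rw [e9] at h; linarith
  · exfalso; rw [e12] at h; linarith
  · exfalso; rw [e14] at h; linarith
  · exfalso; rw [e17] at h; linarith
  replace h := h.2
  unfold P14 at h
  rcases h with (h | h) | h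
  · exfalso; rw [e40] at h; linarith
  · exfalso; rw [e56] at h; linarith
  replace h := h.2
  unfold P13 at h
  rcases h with h | h
  · exfalso; rw [e34] at h; linarith
  replace h := h.2.2
  unfold P12 at h
  rcases h with h | h
  · exfalso; rw [e30] at h; linarith
  · rw [e55] at h; exact h

end Pool.Agent.Strip051.LB.B0m2p_pp
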