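import Pool.Agent.Strip051.Box.C2
import Pool.Agent.Strip051.Box.S30
import Pool.Agent.Strip051.LB.Fn.F2
import Pool.Agent.Strip051.LB.Base

/-! # LINE boxes, subfamily B0m3p_mm -/

namespace Pool.Agent.Strip051.LB.B0m3p_mm

open Pool.Agent.Strip051.Box Pool.Agent.Strip051.Box2

open Pool.Agent.Strip051.LB.Fn Pool.Agent.Strip051.LB.Fn.F2

/-- coordinates of a point of the box -/
def In (b : Bx) (E : Pt) (x1 x2 : ℝ) : Prop :=
  (S : ℝ) * x1 = ((b.p1 : ℝ) - b.n1) + b.q1 * E.e1 ∧ (S : ℝ) * x2 = ((b.p2 : ℝ) - b.n2) + b.q2 * E.e2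

variable {b : Bx} {E : Pt} {x1 x2 : ℝ}

def t0 (b : Bx) : TM := X1 b
noncomputable def v0 (x1 _x2 : ℝ) : ℝ := x1
theorem h0 (h : In b E x1 x2) : Enc S E (t0 b) (v0 x1 x2) := enc_X1 h.1

def t1 (_b : Bx) : TM := tconst 1859775393 0 1
noncomputable def v1 (_x1 _x2 : ℝ) : ℝ := Real.sqrt ((3 : ℕ) : ℝ)
theorem h1 (_h : In b E x1 x2) : Enc S E (t1 b) (v1 x1 x2) := enc_sqrtn E (by decide) (by decide)

def t2 (b : Bx) : TM := tscale 1 2 (t1 b)
noncomputable def v2 (x1 x2 : ℝ) : ℝ := ((1 : ℕ) : ℝ) / ((2 : ℕ) : ℝ) * v1 x1 x2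
theorem h2 (h : In b E x1 x2) : Enc S E (t2 b) (v2 x1 x2) := enc_scale 1 (by norm_num) (h1 h)

def t3 (b : Bx) : TM := c1f_t (t0 b)
noncomputable def v3 (x1 x2 : ℝ) : ℝ := c1f_v (v0 x1 x2)
theorem h3 (h : In b E x1 x2) : Enc S E (t3 b) (v3 x1 x2) := c1f_enc (h0 h)

def t4 (b : Bx) : TM := tneg (t3 b)
noncomputable def v4 (x1 x2 : ℝ) : ℝ := -(v3 x1 x2)
theorem h4 (h : In b E x1 x2) : Enc S E (t4 b) (v4 x1 x2) := enc_neg (h3 h)

def t5 (b : Bx) : TM := X2 b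
noncomputable def v5 (_x1 x2 : ℝ) : ℝ := x2
theorem h5 (h : In b E x1 x2) : Enc S E (t5 b) (v5 x1 x2) := enc_X2 h.2

def t6 (b : Bx) : TM := tsub (t5 b) (t0 b)
noncomputable def v6 (x1 x2 : ℝ) : ℝ := v5 x1 x2 - v0 x1 x2
theorem h6 (h : In b E x1 x2) : Enc S E (t6 b) (v6 x1 x2) := enc_sub (h5 h) (h0 h)

def t7 (b : Bx) : TM := c3f_t (t5 b)
noncomputable def v7 (x1 x2 : ℝ) : ℝ := c3f_v (v5 x1 x2)
theorem h7 (h : In b E x1 x2) : Enc S E (t7 b) (v7 x1 x2) := c3f_enc (h5 h)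

def t8 (b : Bx) : TM := tneg (t7 b)
noncomputable def v8 (x1 x2 : ℝ) : ℝ := -(v7 x1 x2)
theorem h8 (h : In b E x1 x2) : Enc S E (t8 b) (v8 x1 x2) := enc_neg (h7 h)

def t9 (b : Bx) : TM := tsub (t3 b) (t7 b)
noncomputable def v9 (x1 x2 : ℝ) : ℝ := v3 x1 x2 - v7 x1 x2
theorem h9 (h : In b E x1 x2) : Enc S E (t9 b) (v9 x1 x2) := enc_sub (h3 h) (h7 h)

def t10 (b : Bx) : TM := exf_t (t4 b) (t8 b) (t0 b) (t5 b)
noncomputable def v10 (x1 x2 : ℝ) : ℝ := exf_v (v4 x1 x2) (v8 x1 x2) (v0 x1 x2) (v5 x1 x2)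
theorem h10 (h : In b E x1 x2) : Enc S E (t10 b) (v10 x1 x2) := exf_enc (h4 h) (h8 h) (h0 h) (h5 h)

def t11 (b : Bx) : TM := tsub (t0 b) (t5 b)
noncomputable def v11 (x1 x2 : ℝ) : ℝ := v0 x1 x2 - v5 x1 x2
theorem h11 (h : In b E x1 x2) : Enc S E (t11 b) (v11 x1 x2) := enc_sub (h0 h) (h5 h)

def t12 (b : Bx) : TM := q3f_t (t9 b) (t6 b)
noncomputable def v12 (x1 x2 : ℝ) : ℝ := q3f_v (v9 x1 x2) (v6 x1 x2)
theorem h12 (h : In b E x1 x2) : Enc S E (t12 b) (v12 x1 x2) := q3f_enc (h9 h) (h6 h)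

def t13 (_b : Bx) : TM := tconst (Nat.mul 1 S) 0 0
noncomputable def v13 (_x1 _x2 : ℝ) : ℝ := ((1 : ℕ) : ℝ)
theorem h13 (_h : In b E x1 x2) : Enc S E (t13 b) (v13 x1 x2) := enc_nc E 1

def t14 (b : Bx) : TM := tsub (t13 b) (t12 b)
noncomputable def v14 (x1 x2 : ℝ) : ℝ := v13 x1 x2 - v12 x1 x2
theorem h14 (h : In b E x1 x2) : Enc S E (t14 b) (v14 x1 x2) := enc_sub (h13 h) (h12 h)

def t15 (_b : Bx) : TM := tconst (Nat.mul 3 S) 0 0
noncomputable def v15 (_x1 _x2 : ℝ) : ℝ := ((3 : ℕ) : ℝ)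
theorem h15 (_h : In b E x1 x2) : Enc S E (t15 b) (v15 x1 x2) := enc_nc E 3

def t16 (b : Bx) : TM := tsub (t12 b) (t15 b)
noncomputable def v16 (x1 x2 : ℝ) : ℝ := v12 x1 x2 - v15 x1 x2
theorem h16 (h : In b E x1 x2) : Enc S E (t16 b) (v16 x1 x2) := enc_sub (h12 h) (h15 h)

def t17 (_b : Bx) : TM := tconst (Nat.div (Nat.mul 1 S) 2) 0 1
noncomputable def v17 (_x1 _x2 : ℝ) : ℝ := ((1 : ℕ) : ℝ) / ((2 : ℕ) : ℝ)
theorem h17 (_h : In b E x1 x2) : Enc S E (t17 b) (v17 x1 x2) := enc_rat E 1 (by norm_num)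

def t18 (b : Bx) : TM := tadd (t10 b) (t17 b)
noncomputable def v18 (x1 x2 : ℝ) : ℝ := v10 x1 x2 + v17 x1 x2
theorem h18 (h : In b E x1 x2) : Enc S E (t18 b) (v18 x1 x2) := enc_add (h10 h) (h17 h)

def t19 (b : Bx) : TM := tneg (t18 b)
noncomputable def v19 (x1 x2 : ℝ) : ℝ := -(v18 x1 x2)
theorem h19 (h : In b E x1 x2) : Enc S E (t19 b) (v19 x1 x2) := enc_neg (h18 h)

def t20 (b : Bx) : TM := a1q0_t (t0 b)
noncomputable def v20 (x1 x2 : ℝ) : ℝ := a1q0_v (v0 x1 x2)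
theorem h20 (h : In b E x1 x2) : Enc S E (t20 b) (v20 x1 x2) := a1q0_enc (h0 h)

def t21 (b : Bx) : TM := tneg (t20 b)
noncomputable def v21 (x1 x2 : ℝ) : ℝ := -(v20 x1 x2)
theorem h21 (h : In b E x1 x2) : Enc S E (t21 b) (v21 x1 x2) := enc_neg (h20 h)

def t22 (b : Bx) : TM := a3q2_t (t5 b)
noncomputable def v22 (x1 x2 : ℝ) : ℝ := a3q2_v (v5 x1 x2)
theorem h22 (h : In b E x1 x2) : Enc S E (t22 b) (v22 x1 x2) := a3q2_enc (h5 h)

def t23 (b : Bx) : TM := tneg (t22 b)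
noncomputable def v23 (x1 x2 : ℝ) : ℝ := -(v22 x1 x2)
theorem h23 (h : In b E x1 x2) : Enc S E (t23 b) (v23 x1 x2) := enc_neg (h22 h)

def t24 (b : Bx) : TM := rq1_t (t9 b) (t6 b)
noncomputable def v24 (x1 x2 : ℝ) : ℝ := rq1_v (v9 x1 x2) (v6 x1 x2)
theorem h24 (h : In b E x1 x2) : Enc S E (t24 b) (v24 x1 x2) := rq1_enc (h9 h) (h6 h)

def t25 (b : Bx) : TM := sl012_t (t10 b) (t0 b) (t6 b) (t5 b) (t21 b) (t24 b) (t23 b)
noncomputable def v25 (x1 x2 : ℝ) : ℝ := sl012_v (v10 x1 x2) (v0 x1 x2) (v6 x1 x2) (v5 x1 x2) (v21 x1 x2) (v24 x1 x2) (v23 x1 x2)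
theorem h25 (h : In b E x1 x2) : Enc S E (t25 b) (v25 x1 x2) := sl012_enc (h10 h) (h0 h) (h6 h) (h5 h) (h21 h) (h24 h) (h23 h)

def t26 (b : Bx) : TM := tscale 1 4 (t1 b)
noncomputable def v26 (x1 x2 : ℝ) : ℝ := ((1 : ℕ) : ℝ) / ((4 : ℕ) : ℝ) * v1 x1 x2
theorem h26 (h : In b E x1 x2) : Enc S E (t26 b) (v26 x1 x2) := enc_scale 1 (by norm_num) (h1 h)

def t27 (b : Bx) : TM := tsub (t6 b) (t26 b)
noncomputable def v27 (x1 x2 : ℝ) : ℝ := v6 x1 x2 - v26 x1 x2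
theorem h27 (h : In b E x1 x2) : Enc S E (t27 b) (v27 x1 x2) := enc_sub (h6 h) (h26 h)

def t28 (b : Bx) : TM := tsub (t26 b) (t6 b)
noncomputable def v28 (x1 x2 : ℝ) : ℝ := v26 x1 x2 - v6 x1 x2
theorem h28 (h : In b E x1 x2) : Enc S E (t28 b) (v28 x1 x2) := enc_sub (h26 h) (h6 h)

def t29 (b : Bx) : TM := tsub (t2 b) (t6 b)
noncomputable def v29 (x1 x2 : ℝ) : ℝ := v2 x1 x2 - v6 x1 x2
theorem h29 (h : In b E x1 x2) : Enc S E (t29 b) (v29 x1 x2) := enc_sub (h2 h) (h6 h)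

def t30 (b : Bx) : TM := tsub (t6 b) (t2 b)
noncomputable def v30 (x1 x2 : ℝ) : ℝ := v6 x1 x2 - v2 x1 x2
theorem h30 (h : In b E x1 x2) : Enc S E (t30 b) (v30 x1 x2) := enc_sub (h6 h) (h2 h)

def t31 (b : Bx) : TM := rq2_t (t9 b) (t6 b)
noncomputable def v31 (x1 x2 : ℝ) : ℝ := rq2_v (v9 x1 x2) (v6 x1 x2)
theorem h31 (h : In b E x1 x2) : Enc S E (t31 b) (v31 x1 x2) := rq2_enc (h9 h) (h6 h)

def t32 (b : Bx) : TM := sl022_t (t10 b) (t0 b) (t6 b) (t5 b) (t21 b) (t31 b) (t23 b)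
noncomputable def v32 (x1 x2 : ℝ) : ℝ := sl022_v (v10 x1 x2) (v0 x1 x2) (v6 x1 x2) (v5 x1 x2) (v21 x1 x2) (v31 x1 x2) (v23 x1 x2)
theorem h32 (h : In b E x1 x2) : Enc S E (t32 b) (v32 x1 x2) := sl022_enc (h10 h) (h0 h) (h6 h) (h5 h) (h21 h) (h31 h) (h23 h)

def t33 (b : Bx) : TM := tscale 3 4 (t1 b)
noncomputable def v33 (x1 x2 : ℝ) : ℝ := ((3 : ℕ) : ℝ) / ((4 : ℕ) : ℝ) * v1 x1 x2
theorem h33 (h : In b E x1 x2) : Enc S E (t33 b) (v33 x1 x2) := enc_scale 3 (by norm_num) (h1 h)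

def t34 (b : Bx) : TM := tsub (t33 b) (t6 b)
noncomputable def v34 (x1 x2 : ℝ) : ℝ := v33 x1 x2 - v6 x1 x2
theorem h34 (h : In b E x1 x2) : Enc S E (t34 b) (v34 x1 x2) := enc_sub (h33 h) (h6 h)

def t35 (b : Bx) : TM := tsub (t6 b) (t33 b)
noncomputable def v35 (x1 x2 : ℝ) : ℝ := v6 x1 x2 - v33 x1 x2
theorem h35 (h : In b E x1 x2) : Enc S E (t35 b) (v35 x1 x2) := enc_sub (h6 h) (h33 h)

def t36 (b : Bx) : TM := tscale 3 2 (t3 b)
noncomputable def v36 (x1 x2 : ℝ) : ℝ := ((3 : ℕ) : ℝ) / ((2 : ℕ) : ℝ) * v3 x1 x2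
theorem h36 (h : In b E x1 x2) : Enc S E (t36 b) (v36 x1 x2) := enc_scale 3 (by norm_num) (h3 h)

def t37 (b : Bx) : TM := tneg (t36 b)
noncomputable def v37 (x1 x2 : ℝ) : ℝ := -(v36 x1 x2)
theorem h37 (h : In b E x1 x2) : Enc S E (t37 b) (v37 x1 x2) := enc_neg (h36 h)

def t38 (b : Bx) : TM := tmul S (t2 b) (t0 b)
noncomputable def v38 (x1 x2 : ℝ) : ℝ := v2 x1 x2 * v0 x1 x2
theorem h38 (h : In b E x1 x2) : Enc S E (t38 b) (v38 x1 x2) := enc_mul hS (h2 h) (h0 h)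

def t39 (b : Bx) : TM := tsub (t37 b) (t38 b)
noncomputable def v39 (x1 x2 : ℝ) : ℝ := v37 x1 x2 - v38 x1 x2
theorem h39 (h : In b E x1 x2) : Enc S E (t39 b) (v39 x1 x2) := enc_sub (h37 h) (h38 h)

def t40 (b : Bx) : TM := tadd (t39 b) (t7 b)
noncomputable def v40 (x1 x2 : ℝ) : ℝ := v39 x1 x2 + v7 x1 x2
theorem h40 (h : In b E x1 x2) : Enc S E (t40 b) (v40 x1 x2) := enc_add (h39 h) (h7 h)

def t41 (_b : Bx) : TM := tconst (Nat.div (Nat.mul 1 S) 16) 0 1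
noncomputable def v41 (_x1 _x2 : ℝ) : ℝ := ((1 : ℕ) : ℝ) / ((16 : ℕ) : ℝ)
theorem h41 (_h : In b E x1 x2) : Enc S E (t41 b) (v41 x1 x2) := enc_rat E 1 (by norm_num)

def t42 (b : Bx) : TM := tsub (t41 b) (t40 b)
noncomputable def v42 (x1 x2 : ℝ) : ℝ := v41 x1 x2 - v40 x1 x2
theorem h42 (h : In b E x1 x2) : Enc S E (t42 b) (v42 x1 x2) := enc_sub (h41 h) (h40 h)

def t43 (b : Bx) : TM := tadd (t41 b) (t40 b)
noncomputable def v43 (x1 x2 : ℝ) : ℝ := v41 x1 x2 + v40 x1 x2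
theorem h43 (h : In b E x1 x2) : Enc S E (t43 b) (v43 x1 x2) := enc_add (h41 h) (h40 h)

def t44 (b : Bx) : TM := tsub (t5 b) (t2 b)
noncomputable def v44 (x1 x2 : ℝ) : ℝ := v5 x1 x2 - v2 x1 x2
theorem h44 (h : In b E x1 x2) : Enc S E (t44 b) (v44 x1 x2) := enc_sub (h5 h) (h2 h)

def t45 (b : Bx) : TM := tsub (t2 b) (t5 b)
noncomputable def v45 (x1 x2 : ℝ) : ℝ := v2 x1 x2 - v5 x1 x2
theorem h45 (h : In b E x1 x2) : Enc S E (t45 b) (v45 x1 x2) := enc_sub (h2 h) (h5 h)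

def t46 (b : Bx) : TM := tsub (t33 b) (t5 b)
noncomputable def v46 (x1 x2 : ℝ) : ℝ := v33 x1 x2 - v5 x1 x2
theorem h46 (h : In b E x1 x2) : Enc S E (t46 b) (v46 x1 x2) := enc_sub (h33 h) (h5 h)

def t47 (b : Bx) : TM := tsub (t5 b) (t33 b)
noncomputable def v47 (x1 x2 : ℝ) : ℝ := v5 x1 x2 - v33 x1 x2
theorem h47 (h : In b E x1 x2) : Enc S E (t47 b) (v47 x1 x2) := enc_sub (h5 h) (h33 h)

def t48 (b : Bx) : TM := a3q3_t (t5 b)
noncomputable def v48 (x1 x2 : ℝ) : ℝ := a3q3_v (v5 x1 x2)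
theorem h48 (h : In b E x1 x2) : Enc S E (t48 b) (v48 x1 x2) := a3q3_enc (h5 h)

def t49 (b : Bx) : TM := tneg (t48 b)
noncomputable def v49 (x1 x2 : ℝ) : ℝ := -(v48 x1 x2)
theorem h49 (h : In b E x1 x2) : Enc S E (t49 b) (v49 x1 x2) := enc_neg (h48 h)

def t50 (b : Bx) : TM := sl023_t (t10 b) (t0 b) (t6 b) (t5 b) (t21 b) (t31 b) (t49 b)
noncomputable def v50 (x1 x2 : ℝ) : ℝ := sl023_v (v10 x1 x2) (v0 x1 x2) (v6 x1 x2) (v5 x1 x2) (v21 x1 x2) (v31 x1 x2) (v49 x1 x2)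
theorem h50 (h : In b E x1 x2) : Enc S E (t50 b) (v50 x1 x2) := sl023_enc (h10 h) (h0 h) (h6 h) (h5 h) (h21 h) (h31 h) (h49 h)

def t51 (b : Bx) : TM := rq3_t (t9 b) (t6 b)
noncomputable def v51 (x1 x2 : ℝ) : ℝ := rq3_v (v9 x1 x2) (v6 x1 x2)
theorem h51 (h : In b E x1 x2) : Enc S E (t51 b) (v51 x1 x2) := rq3_enc (h9 h) (h6 h)

def t52 (b : Bx) : TM := sl033_t (t10 b) (t0 b) (t6 b) (t5 b) (t21 b) (t51 b) (t49 b)
noncomputable def v52 (x1 x2 : ℝ) : ℝ := sl033_v (v10 x1 x2) (v0 x1 x2) (v6 x1 x2) (v5 x1 x2) (v21 x1 x2) (v51 x1 x2) (v49 x1 x2)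
theorem h52 (h : In b E x1 x2) : Enc S E (t52 b) (v52 x1 x2) := sl033_enc (h10 h) (h0 h) (h6 h) (h5 h) (h21 h) (h51 h) (h49 h)

def t53 (b : Bx) : TM := tsub (t26 b) (t0 b)
noncomputable def v53 (x1 x2 : ℝ) : ℝ := v26 x1 x2 - v0 x1 x2
theorem h53 (h : In b E x1 x2) : Enc S E (t53 b) (v53 x1 x2) := enc_sub (h26 h) (h0 h)

def t54 (b : Bx) : TM := tsub (t0 b) (t26 b)
noncomputable def v54 (x1 x2 : ℝ) : ℝ := v0 x1 x2 - v26 x1 x2
theorem h54 (h : In b E x1 x2) : Enc S E (t54 b) (v54 x1 x2) := enc_sub (h0 h) (h26 h)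

def t55 (b : Bx) : TM := a1q1_t (t0 b)
noncomputable def v55 (x1 x2 : ℝ) : ℝ := a1q1_v (v0 x1 x2)
theorem h55 (h : In b E x1 x2) : Enc S E (t55 b) (v55 x1 x2) := a1q1_enc (h0 h)

def t56 (b : Bx) : TM := tneg (t55 b)
noncomputable def v56 (x1 x2 : ℝ) : ℝ := -(v55 x1 x2)
theorem h56 (h : In b E x1 x2) : Enc S E (t56 b) (v56 x1 x2) := enc_neg (h55 h)

def t57 (b : Bx) : TM := rq0_t (t9 b) (t6 b)
noncomputable def v57 (x1 x2 : ℝ) : ℝ := rq0_v (v9 x1 x2) (v6 x1 x2)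
theorem h57 (h : In b E x1 x2) : Enc S E (t57 b) (v57 x1 x2) := rq0_enc (h9 h) (h6 h)

def t58 (b : Bx) : TM := sl102_t (t10 b) (t0 b) (t6 b) (t5 b) (t56 b) (t57 b) (t23 b)
noncomputable def v58 (x1 x2 : ℝ) : ℝ := sl102_v (v10 x1 x2) (v0 x1 x2) (v6 x1 x2) (v5 x1 x2) (v56 x1 x2) (v57 x1 x2) (v23 x1 x2)
theorem h58 (h : In b E x1 x2) : Enc S E (t58 b) (v58 x1 x2) := sl102_enc (h10 h) (h0 h) (h6 h) (h5 h) (h56 h) (h57 h) (h23 h)

def t59 (b : Bx) : TM := tsub (t2 b) (t0 b)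
noncomputable def v59 (x1 x2 : ℝ) : ℝ := v2 x1 x2 - v0 x1 x2
theorem h59 (h : In b E x1 x2) : Enc S E (t59 b) (v59 x1 x2) := enc_sub (h2 h) (h0 h)

def t60 (_b : Bx) : TM := tconst (Nat.div (Nat.mul 1 S) 10) 0 1
noncomputable def v60 (_x1 _x2 : ℝ) : ℝ := ((1 : ℕ) : ℝ) / ((10 : ℕ) : ℝ)
theorem h60 (_h : In b E x1 x2) : Enc S E (t60 b) (v60 x1 x2) := enc_rat E 1 (by norm_num)

def t61 (b : Bx) : TM := tsub (t60 b) (t59 b)
noncomputable def v61 (x1 x2 : ℝ) : ℝ := v60 x1 x2 - v59 x1 x2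
theorem h61 (h : In b E x1 x2) : Enc S E (t61 b) (v61 x1 x2) := enc_sub (h60 h) (h59 h)

def t63 (b : Bx) : TM := tsub (t60 b) (t6 b)
noncomputable def v63 (x1 x2 : ℝ) : ℝ := v60 x1 x2 - v6 x1 x2
theorem h63 (h : In b E x1 x2) : Enc S E (t63 b) (v63 x1 x2) := enc_sub (h60 h) (h6 h)

def t64 (b : Bx) : TM := tsub (t60 b) (t44 b)
noncomputable def v64 (x1 x2 : ℝ) : ℝ := v60 x1 x2 - v44 x1 x2
theorem h64 (h : In b E x1 x2) : Enc S E (t64 b) (v64 x1 x2) := enc_sub (h60 h) (h44 h)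

def t65 (b : Bx) : TM := sl112_t (t10 b) (t0 b) (t6 b) (t5 b) (t56 b) (t24 b) (t23 b)
noncomputable def v65 (x1 x2 : ℝ) : ℝ := sl112_v (v10 x1 x2) (v0 x1 x2) (v6 x1 x2) (v5 x1 x2) (v56 x1 x2) (v24 x1 x2) (v23 x1 x2)
theorem h65 (h : In b E x1 x2) : Enc S E (t65 b) (v65 x1 x2) := sl112_enc (h10 h) (h0 h) (h6 h) (h5 h) (h56 h) (h24 h) (h23 h)

def t66 (b : Bx) : TM := sl113_t (t10 b) (t0 b) (t6 b) (t5 b) (t56 b) (t24 b) (t49 b)
noncomputable def v66 (x1 x2 : ℝ) : ℝ := sl113_v (v10 x1 x2) (v0 x1 x2) (v6 x1 x2) (v5 x1 x2) (v56 x1 x2) (v24 x1 x2) (v49 x1 x2)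
theorem h66 (h : In b E x1 x2) : Enc S E (t66 b) (v66 x1 x2) := sl113_enc (h10 h) (h0 h) (h6 h) (h5 h) (h56 h) (h24 h) (h49 h)

def t67 (b : Bx) : TM := sl123_t (t10 b) (t0 b) (t6 b) (t5 b) (t56 b) (t31 b) (t49 b)
noncomputable def v67 (x1 x2 : ℝ) : ℝ := sl123_v (v10 x1 x2) (v0 x1 x2) (v6 x1 x2) (v5 x1 x2) (v56 x1 x2) (v31 x1 x2) (v49 x1 x2)
theorem h67 (h : In b E x1 x2) : Enc S E (t67 b) (v67 x1 x2) := sl123_enc (h10 h) (h0 h) (h6 h) (h5 h) (h56 h) (h31 h) (h49 h)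

def t68 (b : Bx) : TM := sl133_t (t10 b) (t0 b) (t6 b) (t5 b) (t56 b) (t51 b) (t49 b)
noncomputable def v68 (x1 x2 : ℝ) : ℝ := sl133_v (v10 x1 x2) (v0 x1 x2) (v6 x1 x2) (v5 x1 x2) (v56 x1 x2) (v51 x1 x2) (v49 x1 x2)
theorem h68 (h : In b E x1 x2) : Enc S E (t68 b) (v68 x1 x2) := sl133_enc (h10 h) (h0 h) (h6 h) (h5 h) (h56 h) (h51 h) (h49 h)

def t69 (b : Bx) : TM := tsub (t0 b) (t2 b)
noncomputable def v69 (x1 x2 : ℝ) : ℝ := v0 x1 x2 - v2 x1 x2
theorem h69 (h : In b E x1 x2) : Enc S E (t69 b) (v69 x1 x2) := enc_sub (h0 h) (h2 h)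

def g0 (b : Bx) : Bool := or (pos (t28 b)) (or (pos (t30 b)) (pos (t25 b)))

def l0 (b : Bx) : Nat := cond (g0 b) 0 (pickb 1 (t25 b) b)

def P0 (x1 x2 : ℝ) : Prop := 0 < v28 x1 x2 ∨ 0 < v30 x1 x2 ∨ 0 < v25 x1 x2

theorem l0_sound (h : In b E x1 x2) (e : l0 b = 0) : P0 x1 x2 := by
  have e1 : g0 b = true := by
    rcases e2 : g0 b with _ | _
    · unfold l0 at e; rw [e2, cond_false] at e; exact absurd e (pickb_ne _ _ _)
    · rfl
  exact ((Bool.or_eq_true_iff.mp e1).imp (fun a => pos_sound hS (h28 h) a) (fun a => ((Bool.or_eq_true_iff.mp a).imp (fun a => pos_sound hS (h30 h) a) (fun a => pos_sound hS (h25 h) a))))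

def g1 (b : Bx) : Bool := or (pos (t29 b)) (or (pos (t35 b)) (or (and (pos (t42 b)) (pos (t43 b))) (pos (t32 b))))

def l1 (b : Bx) : Nat := cond (g1 b) 0 (pickb 1 (t32 b) b)

def P1 (x1 x2 : ℝ) : Prop := 0 < v29 x1 x2 ∨ 0 < v35 x1 x2 ∨ (0 < v42 x1 x2 ∧ 0 < v43 x1 x2) ∨ 0 < v32 x1 x2

theorem l1_sound (h : In b E x1 x2) (e : l1 b = 0) : P1 x1 x2 := by
  have e1 : g1 b = true := by
    rcases e2 : g1 b with _ | _
    · unfold l1 at e; rw [e2, cond_false] at e; exact absurd e (pickb_ne _ _ _)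
    · rfl
  exact ((Bool.or_eq_true_iff.mp e1).imp (fun a => pos_sound hS (h29 h) a) (fun a => ((Bool.or_eq_true_iff.mp a).imp (fun a => pos_sound hS (h35 h) a) (fun a => ((Bool.or_eq_true_iff.mp a).imp (fun a => ⟨pos_sound hS (h42 h) (Bool.and_eq_true_iff.mp a).1, pos_sound hS (h43 h) (Bool.and_eq_true_iff.mp a).2⟩) (fun a => pos_sound hS (h32 h) a))))))

def g2 (b : Bx) : Bool := or (pos (t45 b)) (pos (t47 b))

def l2 (b : Bx) : Nat := cond (g2 b) 0 (cond (Nat.beq (l0 b) 0) (l1 b) (l0 b))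

def P2 (x1 x2 : ℝ) : Prop := (0 < v45 x1 x2 ∨ 0 < v47 x1 x2) ∨ (P0 x1 x2 ∧ P1 x1 x2)

theorem l2_sound (h : In b E x1 x2) (e : l2 b = 0) : P2 x1 x2 := by
  unfold l2 at e
  rcases e1 : g2 b with _ | _
  · rw [e1, cond_false] at e
    have z0 : l0 b = 0 := by
      rcases e2 : Nat.beq (l0 b) 0 with _ | _
      · rw [e2, cond_false] at e; exact e
      · exact Nat.eq_of_beq_eq_true e2
    have w0 : Nat.beq (l0 b) 0 = true := by rw [z0]; rfl
    rw [w0, cond_true] at e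
    have z1 : l1 b = 0 := e
    exact Or.inr ⟨l0_sound h z0, l1_sound h z1⟩
  · exact Or.inl (((Bool.or_eq_true_iff.mp e1).imp (fun a => pos_sound hS (h45 h) a) (fun a => pos_sound hS (h47 h) a)))

def g3 (b : Bx) : Bool := or (pos (t29 b)) (or (pos (t35 b)) (or (and (pos (t42 b)) (pos (t43 b))) (pos (t50 b))))

def l3 (b : Bx) : Nat := cond (g3 b) 0 (pickb 1 (t50 b) b)

def P3 (x1 x2 : ℝ) : Prop := 0 < v29 x1 x2 ∨ 0 < v35 x1 x2 ∨ (0 < v42 x1 x2 ∧ 0 < v43 x1 x2) ∨ 0 < v50 x1 x2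

theorem l3_sound (h : In b E x1 x2) (e : l3 b = 0) : P3 x1 x2 := by
  have e1 : g3 b = true := by
    rcases e2 : g3 b with _ | _
    · unfold l3 at e; rw [e2, cond_false] at e; exact absurd e (pickb_ne _ _ _)
    · rfl
  exact ((Bool.or_eq_true_iff.mp e1).imp (fun a => pos_sound hS (h29 h) a) (fun a => ((Bool.or_eq_true_iff.mp a).imp (fun a => pos_sound hS (h35 h) a) (fun a => ((Bool.or_eq_true_iff.mp a).imp (fun a => ⟨pos_sound hS (h42 h) (Bool.and_eq_true_iff.mp a).1, pos_sound hS (h43 h) (Bool.and_eq_true_iff.mp a).2⟩) (fun a => pos_sound hS (h50 h) a))))))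

def g4 (b : Bx) : Bool := or (pos (t34 b)) (pos (t52 b))

def l4 (b : Bx) : Nat := cond (g4 b) 0 (pickb 1 (t52 b) b)

def P4 (x1 x2 : ℝ) : Prop := 0 < v34 x1 x2 ∨ 0 < v52 x1 x2

theorem l4_sound (h : In b E x1 x2) (e : l4 b = 0) : P4 x1 x2 := by
  have e1 : g4 b = true := by
    rcases e2 : g4 b with _ | _
    · unfold l4 at e; rw [e2, cond_false] at e; exact absurd e (pickb_ne _ _ _)
    · rfl
  exact ((Bool.or_eq_true_iff.mp e1).imp (fun a => pos_sound hS (h34 h) a) (fun a => pos_sound hS (h52 h) a))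

def g5 (b : Bx) : Bool := pos (t46 b)

def l5 (b : Bx) : Nat := cond (g5 b) 0 (cond (Nat.beq (l3 b) 0) (l4 b) (l3 b))

def P5 (x1 x2 : ℝ) : Prop := (0 < v46 x1 x2) ∨ (P3 x1 x2 ∧ P4 x1 x2)

theorem l5_sound (h : In b E x1 x2) (e : l5 b = 0) : P5 x1 x2 := by
  unfold l5 at e
  rcases e1 : g5 b with _ | _
  · rw [e1, cond_false] at e
    have z3 : l3 b = 0 := by
      rcases e2 : Nat.beq (l3 b) 0 with _ | _
      · rw [e2, cond_false] at e; exact e
      · exact Nat.eq_of_beq_eq_true e2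
    have w3 : Nat.beq (l3 b) 0 = true := by rw [z3]; rfl
    rw [w3, cond_true] at e
    have z4 : l4 b = 0 := e
    exact Or.inr ⟨l3_sound h z3, l4_sound h z4⟩
  · exact Or.inl (pos_sound hS (h46 h) e1)

def g6 (b : Bx) : Bool := pos (t54 b)

def l6 (b : Bx) : Nat := cond (g6 b) 0 (cond (Nat.beq (l2 b) 0) (l5 b) (l2 b))

def P6 (x1 x2 : ℝ) : Prop := (0 < v54 x1 x2) ∨ (P2 x1 x2 ∧ P5 x1 x2)

theorem l6_sound (h : In b E x1 x2) (e : l6 b = 0) : P6 x1 x2 := by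
  unfold l6 at e
  rcases e1 : g6 b with _ | _
  · rw [e1, cond_false] at e
    have z2 : l2 b = 0 := by
      rcases e2 : Nat.beq (l2 b) 0 with _ | _
      · rw [e2, cond_false] at e; exact e
      · exact Nat.eq_of_beq_eq_true e2
    have w2 : Nat.beq (l2 b) 0 = true := by rw [z2]; rfl
    rw [w2, cond_true] at e
    have z5 : l5 b = 0 := e
    exact Or.inr ⟨l2_sound h z2, l5_sound h z5⟩
  · exact Or.inl (pos_sound hS (h54 h) e1)

def g7 (b : Bx) : Bool := or (pos (t27 b)) (or (and (pos (t61 b)) (and (pos (t63 b)) (pos (t64 b)))) (pos (t58 b)))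

def l7 (b : Bx) : Nat := cond (g7 b) 0 (pickb 1 (t58 b) b)

def P7 (x1 x2 : ℝ) : Prop := 0 < v27 x1 x2 ∨ (0 < v61 x1 x2 ∧ 0 < v63 x1 x2 ∧ 0 < v64 x1 x2) ∨ 0 < v58 x1 x2

theorem l7_sound (h : In b E x1 x2) (e : l7 b = 0) : P7 x1 x2 := by
  have e1 : g7 b = true := by
    rcases e2 : g7 b with _ | _
    · unfold l7 at e; rw [e2, cond_false] at e; exact absurd e (pickb_ne _ _ _)
    · rfl
  exact ((Bool.or_eq_true_iff.mp e1).imp (fun a => pos_sound hS (h27 h) a) (fun a => ((Bool.or_eq_true_iff.mp a).imp (fun a => ⟨pos_sound hS (h61 h) (Bool.and_eq_true_iff.mp a).1, ⟨pos_sound hS (h63 h) (Bool.and_eq_true_iff.mp (Bool.and_eq_true_iff.mp a).2).1, pos_sound hS (h64 h) (Bool.and_eq_true_iff.mp (Bool.and_eq_true_iff.mp a).2).2⟩⟩) (fun a => pos_sound hS (h58 h) a))))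

def g8 (b : Bx) : Bool := or (pos (t28 b)) (or (pos (t30 b)) (pos (t65 b)))

def l8 (b : Bx) : Nat := cond (g8 b) 0 (pickb 1 (t65 b) b)

def P8 (x1 x2 : ℝ) : Prop := 0 < v28 x1 x2 ∨ 0 < v30 x1 x2 ∨ 0 < v65 x1 x2

theorem l8_sound (h : In b E x1 x2) (e : l8 b = 0) : P8 x1 x2 := by
  have e1 : g8 b = true := by
    rcases e2 : g8 b with _ | _
    · unfold l8 at e; rw [e2, cond_false] at e; exact absurd e (pickb_ne _ _ _)
    · rfl
  exact ((Bool.or_eq_true_iff.mp e1).imp (fun a => pos_sound hS (h28 h) a) (fun a => ((Bool.or_eq_true_iff.mp a).imp (fun a => pos_sound hS (h30 h) a) (fun a => pos_sound hS (h65 h) a))))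

def g9 (b : Bx) : Bool := or (pos (t45 b)) (pos (t47 b))

def l9 (b : Bx) : Nat := cond (g9 b) 0 (cond (Nat.beq (l7 b) 0) (l8 b) (l7 b))

def P9 (x1 x2 : ℝ) : Prop := (0 < v45 x1 x2 ∨ 0 < v47 x1 x2) ∨ (P7 x1 x2 ∧ P8 x1 x2)

theorem l9_sound (h : In b E x1 x2) (e : l9 b = 0) : P9 x1 x2 := by
  unfold l9 at e
  rcases e1 : g9 b with _ | _
  · rw [e1, cond_false] at e
    have z7 : l7 b = 0 := by
      rcases e2 : Nat.beq (l7 b) 0 with _ | _
      · rw [e2, cond_false] at e; exact e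
      · exact Nat.eq_of_beq_eq_true e2
    have w7 : Nat.beq (l7 b) 0 = true := by rw [z7]; rfl
    rw [w7, cond_true] at e
    have z8 : l8 b = 0 := e
    exact Or.inr ⟨l7_sound h z7, l8_sound h z8⟩
  · exact Or.inl (((Bool.or_eq_true_iff.mp e1).imp (fun a => pos_sound hS (h45 h) a) (fun a => pos_sound hS (h47 h) a)))

def g10 (b : Bx) : Bool := or (pos (t28 b)) (or (pos (t30 b)) (pos (t66 b)))

def l10 (b : Bx) : Nat := cond (g10 b) 0 (pickb 1 (t66 b) b)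

def P10 (x1 x2 : ℝ) : Prop := 0 < v28 x1 x2 ∨ 0 < v30 x1 x2 ∨ 0 < v66 x1 x2

theorem l10_sound (h : In b E x1 x2) (e : l10 b = 0) : P10 x1 x2 := by
  have e1 : g10 b = true := by
    rcases e2 : g10 b with _ | _
    · unfold l10 at e; rw [e2, cond_false] at e; exact absurd e (pickb_ne _ _ _)
    · rfl
  exact ((Bool.or_eq_true_iff.mp e1).imp (fun a => pos_sound hS (h28 h) a) (fun a => ((Bool.or_eq_true_iff.mp a).imp (fun a => pos_sound hS (h30 h) a) (fun a => pos_sound hS (h66 h) a))))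

def g11 (b : Bx) : Bool := or (pos (t29 b)) (or (pos (t35 b)) (or (and (pos (t42 b)) (pos (t43 b))) (pos (t67 b))))

def l11 (b : Bx) : Nat := cond (g11 b) 0 (pickb 1 (t67 b) b)

def P11 (x1 x2 : ℝ) : Prop := 0 < v29 x1 x2 ∨ 0 < v35 x1 x2 ∨ (0 < v42 x1 x2 ∧ 0 < v43 x1 x2) ∨ 0 < v67 x1 x2

theorem l11_sound (h : In b E x1 x2) (e : l11 b = 0) : P11 x1 x2 := by
  have e1 : g11 b = true := by
    rcases e2 : g11 b with _ | _
    · unfold l11 at e; rw [e2, cond_false] at e; exact absurd e (pickb_ne _ _ _)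
    · rfl
  exact ((Bool.or_eq_true_iff.mp e1).imp (fun a => pos_sound hS (h29 h) a) (fun a => ((Bool.or_eq_true_iff.mp a).imp (fun a => pos_sound hS (h35 h) a) (fun a => ((Bool.or_eq_true_iff.mp a).imp (fun a => ⟨pos_sound hS (h42 h) (Bool.and_eq_true_iff.mp a).1, pos_sound hS (h43 h) (Bool.and_eq_true_iff.mp a).2⟩) (fun a => pos_sound hS (h67 h) a))))))

def g12 (b : Bx) : Bool := or (pos (t34 b)) (pos (t68 b))

def l12 (b : Bx) : Nat := cond (g12 b) 0 (pickb 1 (t68 b) b)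

def P12 (x1 x2 : ℝ) : Prop := 0 < v34 x1 x2 ∨ 0 < v68 x1 x2

theorem l12_sound (h : In b E x1 x2) (e : l12 b = 0) : P12 x1 x2 := by
  have e1 : g12 b = true := by
    rcases e2 : g12 b with _ | _
    · unfold l12 at e; rw [e2, cond_false] at e; exact absurd e (pickb_ne _ _ _)
    · rfl
  exact ((Bool.or_eq_true_iff.mp e1).imp (fun a => pos_sound hS (h34 h) a) (fun a => pos_sound hS (h68 h) a))

def g13 (b : Bx) : Bool := pos (t46 b)

def l13 (b : Bx) : Nat := cond (g13 b) 0 (cond (Nat.beq (l10 b) 0) (cond (Nat.beq (l11 b) 0) (l12 b) (l11 b)) (l10 b))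

def P13 (x1 x2 : ℝ) : Prop := (0 < v46 x1 x2) ∨ (P10 x1 x2 ∧ P11 x1 x2 ∧ P12 x1 x2)

theorem l13_sound (h : In b E x1 x2) (e : l13 b = 0) : P13 x1 x2 := by
  unfold l13 at e
  rcases e1 : g13 b with _ | _
  · rw [e1, cond_false] at e
    have z10 : l10 b = 0 := by
      rcases e2 : Nat.beq (l10 b) 0 with _ | _
      · rw [e2, cond_false] at e; exact e
      · exact Nat.eq_of_beq_eq_true e2
    have w10 : Nat.beq (l10 b) 0 = true := by rw [z10]; rfl
    rw [w10, cond_true] at e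
    have z11 : l11 b = 0 := by
      rcases e2 : Nat.beq (l11 b) 0 with _ | _
      · rw [e2, cond_false] at e; exact e
      · exact Nat.eq_of_beq_eq_true e2
    have w11 : Nat.beq (l11 b) 0 = true := by rw [z11]; rfl
    rw [w11, cond_true] at e
    have z12 : l12 b = 0 := e
    exact Or.inr ⟨l10_sound h z10, l11_sound h z11, l12_sound h z12⟩
  · exact Or.inl (pos_sound hS (h46 h) e1)

def g14 (b : Bx) : Bool := or (pos (t53 b)) (pos (t69 b))

def l14 (b : Bx) : Nat := cond (g14 b) 0 (cond (Nat.beq (l9 b) 0) (l13 b) (l9 b))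

def P14 (x1 x2 : ℝ) : Prop := (0 < v53 x1 x2 ∨ 0 < v69 x1 x2) ∨ (P9 x1 x2 ∧ P13 x1 x2)

theorem l14_sound (h : In b E x1 x2) (e : l14 b = 0) : P14 x1 x2 := by
  unfold l14 at e
  rcases e1 : g14 b with _ | _
  · rw [e1, cond_false] at e
    have z9 : l9 b = 0 := by
      rcases e2 : Nat.beq (l9 b) 0 with _ | _
      · rw [e2, cond_false] at e; exact e
      · exact Nat.eq_of_beq_eq_true e2
    have w9 : Nat.beq (l9 b) 0 = true := by rw [z9]; rfl
    rw [w9, cond_true] at e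
    have z13 : l13 b = 0 := e
    exact Or.inr ⟨l9_sound h z9, l13_sound h z13⟩
  · exact Or.inl (((Bool.or_eq_true_iff.mp e1).imp (fun a => pos_sound hS (h53 h) a) (fun a => pos_sound hS (h69 h) a)))

def g15 (b : Bx) : Bool := or (pos (t11 b)) (or (pos (t14 b)) (or (pos (t16 b)) (pos (t19 b))))

def l15 (b : Bx) : Nat := cond (g15 b) 0 (cond (Nat.beq (l6 b) 0) (l14 b) (l6 b))

def P15 (x1 x2 : ℝ) : Prop := (0 < v11 x1 x2 ∨ 0 < v14 x1 x2 ∨ 0 < v16 x1 x2 ∨ 0 < v19 x1 x2) ∨ (P6 x1 x2 ∧ P14 x1 x2)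

theorem l15_sound (h : In b E x1 x2) (e : l15 b = 0) : P15 x1 x2 := by
  unfold l15 at e
  rcases e1 : g15 b with _ | _
  · rw [e1, cond_false] at e
    have z6 : l6 b = 0 := by
      rcases e2 : Nat.beq (l6 b) 0 with _ | _
      · rw [e2, cond_false] at e; exact e
      · exact Nat.eq_of_beq_eq_true e2
    have w6 : Nat.beq (l6 b) 0 = true := by rw [z6]; rfl
    rw [w6, cond_true] at e
    have z14 : l14 b = 0 := e
    exact Or.inr ⟨l6_sound h z6, l14_sound h z14⟩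
  · exact Or.inl (((Bool.or_eq_true_iff.mp e1).imp (fun a => pos_sound hS (h11 h) a) (fun a => ((Bool.or_eq_true_iff.mp a).imp (fun a => pos_sound hS (h14 h) a) (fun a => ((Bool.or_eq_true_iff.mp a).imp (fun a => pos_sound hS (h16 h) a) (fun a => pos_sound hS (h19 h) a)))))))

def f (b : Bx) : Nat := l15 b

/-- the statement -/
def Q (x1 x2 : ℝ) : Prop := P15 x1 x2

theorem f_sound (b : Bx) (hb : f b = 0) (x1 x2 : ℝ) (hm : Mem S b x1 x2) : Q x1 x2 := by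
  obtain ⟨E, h⟩ := pt_of_mem hm
  have h : In b E x1 x2 := h
  unfold f at hb
  have e := hb
  have z15 : l15 b = 0 := e
  exact (l15_sound h z15)

/-- the box -/
def b0 : Bx := ⟨464943848, 0, 464943850, 1394831545, 0, 464943850⟩

theorem chk_all {n : ℕ} {b : Bx} (h : chk f n b = true) (x1 x2 : ℝ) (hm : Mem S b x1 x2) : Q x1 x2 :=
  chk_sound (fun b hb x1 x2 hm => f_sound b hb x1 x2 hm) n b h x1 x2 hm


open Pool.Agent.Strip051.LB

set_option maxRecDepth 100000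

theorem c0 : chk f 60 (b0) = true := by decide +kernel

theorem all (x1 x2 : ℝ) (h : Mem S b0 x1 x2) : Q x1 x2 := by
  exact chk_all c0 x1 x2 h

theorem e4 (t T : ℝ) : v4 t T = -(c1f_v t) := by
  first | rfl | (simp only [v4, v3, v0]; done) | (simp only [v4, v3, v0]; push_cast; (try simp only [hs3]); (try ring))

theorem e6 (t T : ℝ) : v6 t T = T - t := by
  first | rfl | (simp only [v6, v5, v0]; done) | (simp only [v6, v5, v0]; push_cast; (try simp only [hs3]); (try ring))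

theorem e8 (t T : ℝ) : v8 t T = -(c3f_v T) := by
  first | rfl | (simp only [v8, v7, v5]; done) | (simp only [v8, v7, v5]; push_cast; (try simp only [hs3]); (try ring))

theorem e9 (t T : ℝ) : v9 t T = (-(c3f_v T) - -(c1f_v t)) := by
  first | rfl | (simp only [v9, v3, v0, v7, v5]; done) | (simp only [v9, v3, v0, v7, v5]; push_cast; (try simp only [hs3]); (try ring))

theorem e10 (t T : ℝ) : v10 t T = exf_v (-(c1f_v t)) (-(c3f_v T)) t T := by
  first | rfl | (simp only [v10, e4, e8, v0, v5]; done) | (simp only [v10, e4, e8, v0, v5]; push_cast; (try simp only [hs3]); (try ring))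

theorem e11 (t T : ℝ) : v11 t T = -(T - t) := by
  first | rfl | (simp only [v11, v0, v5]; done) | (simp only [v11, v0, v5]; push_cast; (try simp only [hs3]); (try ring))

theorem e12 (t T : ℝ) : v12 t T = q3f_v (-(c3f_v T) - -(c1f_v t)) (T - t) := by
  first | rfl | (simp only [v12, e9, e6]; done) | (simp only [v12, e9, e6]; push_cast; (try simp only [hs3]); (try ring))

theorem e14 (t T : ℝ) : v14 t T = 1 - q3f_v (-(c3f_v T) - -(c1f_v t)) (T - t) := by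
  first | rfl | (simp only [v14, v13, e12]; done) | (simp only [v14, v13, e12]; push_cast; (try simp only [hs3]); (try ring))

theorem e16 (t T : ℝ) : v16 t T = q3f_v (-(c3f_v T) - -(c1f_v t)) (T - t) - 3 := by
  first | rfl | (simp only [v16, e12, v15]; done) | (simp only [v16, e12, v15]; push_cast; (try simp only [hs3]); (try ring))

theorem e19 (t T : ℝ) : v19 t T = -(exf_v (-(c1f_v t)) (-(c3f_v T)) t T + 1 / 2) := by
  first | rfl | (simp only [v19, v18, e10, v17]; done) | (simp only [v19, v18, e10, v17]; push_cast; (try simp only [hs3]); (try ring))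

theorem e21 (t T : ℝ) : v21 t T = -(a1q0_v t) := by
  first | rfl | (simp only [v21, v20, v0]; done) | (simp only [v21, v20, v0]; push_cast; (try simp only [hs3]); (try ring))

theorem e23 (t T : ℝ) : v23 t T = -(a3q2_v T) := by
  first | rfl | (simp only [v23, v22, v5]; done) | (simp only [v23, v22, v5]; push_cast; (try simp only [hs3]); (try ring))

theorem e24 (t T : ℝ) : v24 t T = rq1_v (-(c3f_v T) - -(c1f_v t)) (T - t) := by
  first | rfl | (simp only [v24, e9, e6]; done) | (simp only [v24, e9, e6]; push_cast; (try simp only [hs3]); (try ring))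

theorem e25 (t T : ℝ) : v25 t T = sl012_v (exf_v (-(c1f_v t)) (-(c3f_v T)) t T) t (T - t) T (-(a1q0_v t)) (rq1_v (-(c3f_v T) - -(c1f_v t)) (T - t)) (-(a3q2_v T)) := by
  first | rfl | (simp only [v25, e10, v0, e6, v5, e21, e24, e23]; done) | (simp only [v25, e10, v0, e6, v5, e21, e24, e23]; push_cast; (try simp only [hs3]); (try ring))

theorem e27 (t T : ℝ) : v27 t T = -(1 / 2 * Pool.Agent.StripNear.h0 - (T - t)) := by
  first | rfl | (simp only [v27, e6, v26, v1]; done) | (simp only [v27, e6, v26, v1]; push_cast; (try simp only [hs3]); (try ring))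

theorem e28 (t T : ℝ) : v28 t T = -((T - t) - 1 / 2 * Pool.Agent.StripNear.h0) := by
  first | rfl | (simp only [v28, v26, v1, e6]; done) | (simp only [v28, v26, v1, e6]; push_cast; (try simp only [hs3]); (try ring))

theorem e29 (t T : ℝ) : v29 t T = -((T - t) - 1 * Pool.Agent.StripNear.h0) := by
  first | rfl | (simp only [v29, v2, v1, e6]; done) | (simp only [v29, v2, v1, e6]; push_cast; (try simp only [hs3]); (try ring))

theorem e30 (t T : ℝ) : v30 t T = -(1 * Pool.Agent.StripNear.h0 - (T - t)) := by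
  first | rfl | (simp only [v30, e6, v2, v1]; done) | (simp only [v30, e6, v2, v1]; push_cast; (try simp only [hs3]); (try ring))

theorem e31 (t T : ℝ) : v31 t T = rq2_v (-(c3f_v T) - -(c1f_v t)) (T - t) := by
  first | rfl | (simp only [v31, e9, e6]; done) | (simp only [v31, e9, e6]; push_cast; (try simp only [hs3]); (try ring))

theorem e32 (t T : ℝ) : v32 t T = sl022_v (exf_v (-(c1f_v t)) (-(c3f_v T)) t T) t (T - t) T (-(a1q0_v t)) (rq2_v (-(c3f_v T) - -(c1f_v t)) (T - t)) (-(a3q2_v T)) := by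
  first | rfl | (simp only [v32, e10, v0, e6, v5, e21, e31, e23]; done) | (simp only [v32, e10, v0, e6, v5, e21, e31, e23]; push_cast; (try simp only [hs3]); (try ring))

theorem e34 (t T : ℝ) : v34 t T = -((T - t) - 3 / 2 * Pool.Agent.StripNear.h0) := by
  first | rfl | (simp only [v34, v33, v1, e6]; done) | (simp only [v34, v33, v1, e6]; push_cast; (try simp only [hs3]); (try ring))

theorem e35 (t T : ℝ) : v35 t T = -(3 / 2 * Pool.Agent.StripNear.h0 - (T - t)) := by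
  first | rfl | (simp only [v35, e6, v33, v1]; done) | (simp only [v35, e6, v33, v1]; push_cast; (try simp only [hs3]); (try ring))

theorem e42 (t T : ℝ) : v42 t T = 1 / 16 - ((3 / 2 * -(c1f_v t) - Pool.Agent.StripNear.h0 * t) - -(c3f_v T)) := by
  first | rfl | (simp only [v42, v41, v40, v39, v37, v36, v3, v0, v38, v2, v1, v7, v5]; done) | (simp only [v42, v41, v40, v39, v37, v36, v3, v0, v38, v2, v1, v7, v5]; push_cast; (try simp only [hs3]); (try ring))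

theorem e43 (t T : ℝ) : v43 t T = 1 / 16 + ((3 / 2 * -(c1f_v t) - Pool.Agent.StripNear.h0 * t) - -(c3f_v T)) := by
  first | rfl | (simp only [v43, v41, v40, v39, v37, v36, v3, v0, v38, v2, v1, v7, v5]; done) | (simp only [v43, v41, v40, v39, v37, v36, v3, v0, v38, v2, v1, v7, v5]; push_cast; (try simp only [hs3]); (try ring))

theorem e45 (t T : ℝ) : v45 t T = -(T - 1 * Pool.Agent.StripNear.h0) := by
  first | rfl | (simp only [v45, v2, v1, v5]; done) | (simp only [v45, v2, v1, v5]; push_cast; (try simp only [hs3]); (try ring))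

theorem e46 (t T : ℝ) : v46 t T = -(T - 3 / 2 * Pool.Agent.StripNear.h0) := by
  first | rfl | (simp only [v46, v33, v1, v5]; done) | (simp only [v46, v33, v1, v5]; push_cast; (try simp only [hs3]); (try ring))

theorem e47 (t T : ℝ) : v47 t T = -(3 / 2 * Pool.Agent.StripNear.h0 - T) := by
  first | rfl | (simp only [v47, v5, v33, v1]; done) | (simp only [v47, v5, v33, v1]; push_cast; (try simp only [hs3]); (try ring))

theorem e49 (t T : ℝ) : v49 t T = -(a3q3_v T) := by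
  first | rfl | (simp only [v49, v48, v5]; done) | (simp only [v49, v48, v5]; push_cast; (try simp only [hs3]); (try ring))

theorem e50 (t T : ℝ) : v50 t T = sl023_v (exf_v (-(c1f_v t)) (-(c3f_v T)) t T) t (T - t) T (-(a1q0_v t)) (rq2_v (-(c3f_v T) - -(c1f_v t)) (T - t)) (-(a3q3_v T)) := by
  first | rfl | (simp only [v50, e10, v0, e6, v5, e21, e31, e49]; done) | (simp only [v50, e10, v0, e6, v5, e21, e31, e49]; push_cast; (try simp only [hs3]); (try ring))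

theorem e51 (t T : ℝ) : v51 t T = rq3_v (-(c3f_v T) - -(c1f_v t)) (T - t) := by
  first | rfl | (simp only [v51, e9, e6]; done) | (simp only [v51, e9, e6]; push_cast; (try simp only [hs3]); (try ring))

theorem e52 (t T : ℝ) : v52 t T = sl033_v (exf_v (-(c1f_v t)) (-(c3f_v T)) t T) t (T - t) T (-(a1q0_v t)) (rq3_v (-(c3f_v T) - -(c1f_v t)) (T - t)) (-(a3q3_v T)) := by
  first | rfl | (simp only [v52, e10, v0, e6, v5, e21, e51, e49]; done) | (simp only [v52, e10, v0, e6, v5, e21, e51, e49]; push_cast; (try simp only [hs3]); (try ring))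

theorem e53 (t T : ℝ) : v53 t T = -(t - 1 / 2 * Pool.Agent.StripNear.h0) := by
  first | rfl | (simp only [v53, v26, v1, v0]; done) | (simp only [v53, v26, v1, v0]; push_cast; (try simp only [hs3]); (try ring))

theorem e54 (t T : ℝ) : v54 t T = -(1 / 2 * Pool.Agent.StripNear.h0 - t) := by
  first | rfl | (simp only [v54, v0, v26, v1]; done) | (simp only [v54, v0, v26, v1]; push_cast; (try simp only [hs3]); (try ring))

theorem e56 (t T : ℝ) : v56 t T = -(a1q1_v t) := by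
  first | rfl | (simp only [v56, v55, v0]; done) | (simp only [v56, v55, v0]; push_cast; (try simp only [hs3]); (try ring))

theorem e57 (t T : ℝ) : v57 t T = rq0_v (-(c3f_v T) - -(c1f_v t)) (T - t) := by
  first | rfl | (simp only [v57, e9, e6]; done) | (simp only [v57, e9, e6]; push_cast; (try simp only [hs3]); (try ring))

theorem e58 (t T : ℝ) : v58 t T = sl102_v (exf_v (-(c1f_v t)) (-(c3f_v T)) t T) t (T - t) T (-(a1q1_v t)) (rq0_v (-(c3f_v T) - -(c1f_v t)) (T - t)) (-(a3q2_v T)) := by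
  first | rfl | (simp only [v58, e10, v0, e6, v5, e56, e57, e23]; done) | (simp only [v58, e10, v0, e6, v5, e56, e57, e23]; push_cast; (try simp only [hs3]); (try ring))

theorem e61 (t T : ℝ) : v61 t T = 1/10 - (1 * Pool.Agent.StripNear.h0 - t) := by
  first | rfl | (simp only [v61, v60, v59, v2, v1, v0]; done) | (simp only [v61, v60, v59, v2, v1, v0]; push_cast; (try simp only [hs3]); (try ring))

theorem e63 (t T : ℝ) : v63 t T = 1/10 - ((T - t) - 0 * Pool.Agent.StripNear.h0) := by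
  first | rfl | (simp only [v63, v60, e6]; done) | (simp only [v63, v60, e6]; push_cast; (try simp only [hs3]); (try ring))

theorem e64 (t T : ℝ) : v64 t T = 1/10 - (T - 1 * Pool.Agent.StripNear.h0) := by
  first | rfl | (simp only [v64, v60, v44, v5, v2, v1]; done) | (simp only [v64, v60, v44, v5, v2, v1]; push_cast; (try simp only [hs3]); (try ring))

theorem e65 (t T : ℝ) : v65 t T = sl112_v (exf_v (-(c1f_v t)) (-(c3f_v T)) t T) t (T - t) T (-(a1q1_v t)) (rq1_v (-(c3f_v T) - -(c1f_v t)) (T - t)) (-(a3q2_v T)) := by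
  first | rfl | (simp only [v65, e10, v0, e6, v5, e56, e24, e23]; done) | (simp only [v65, e10, v0, e6, v5, e56, e24, e23]; push_cast; (try simp only [hs3]); (try ring))

theorem e66 (t T : ℝ) : v66 t T = sl113_v (exf_v (-(c1f_v t)) (-(c3f_v T)) t T) t (T - t) T (-(a1q1_v t)) (rq1_v (-(c3f_v T) - -(c1f_v t)) (T - t)) (-(a3q3_v T)) := by
  first | rfl | (simp only [v66, e10, v0, e6, v5, e56, e24, e49]; done) | (simp only [v66, e10, v0, e6, v5, e56, e24, e49]; push_cast; (try simp only [hs3]); (try ring))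

theorem e67 (t T : ℝ) : v67 t T = sl123_v (exf_v (-(c1f_v t)) (-(c3f_v T)) t T) t (T - t) T (-(a1q1_v t)) (rq2_v (-(c3f_v T) - -(c1f_v t)) (T - t)) (-(a3q3_v T)) := by
  first | rfl | (simp only [v67, e10, v0, e6, v5, e56, e31, e49]; done) | (simp only [v67, e10, v0, e6, v5, e56, e31, e49]; push_cast; (try simp only [hs3]); (try ring))

theorem e68 (t T : ℝ) : v68 t T = sl133_v (exf_v (-(c1f_v t)) (-(c3f_v T)) t T) t (T - t) T (-(a1q1_v t)) (rq3_v (-(c3f_v T) - -(c1f_v t)) (T - t)) (-(a3q3_v T)) := by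
  first | rfl | (simp only [v68, e10, v0, e6, v5, e56, e51, e49]; done) | (simp only [v68, e10, v0, e6, v5, e56, e51, e49]; push_cast; (try simp only [hs3]); (try ring))

theorem e69 (t T : ℝ) : v69 t T = -(1 * Pool.Agent.StripNear.h0 - t) := by
  first | rfl | (simp only [v69, v0, v2, v1]; done) | (simp only [v69, v0, v2, v1]; push_cast; (try simp only [hs3]); (try ring))

theorem mem0 {t T : ℝ} (h1 : 0 ≤ t) (h2 : t ≤ Pool.Agent.StripNear.h0) (h3 : Pool.Agent.StripNear.h0 ≤ T) (h4 : T ≤ 2 * Pool.Agent.StripNear.h0) : Mem S b0 t T := by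
  have g1 := h0_lo
  have g2 := h0_hi
  unfold Mem b0
  refine ⟨abs_le.mpr ⟨?_, ?_⟩, abs_le.mpr ⟨?_, ?_⟩⟩ <;> norm_num [S] <;> linarith

theorem fin012 {t T : ℝ} (h1 : 0 * Pool.Agent.StripNear.h0 ≤ t) (h1' : t ≤ 1 / 2 * Pool.Agent.StripNear.h0) (h2 : 1 * Pool.Agent.StripNear.h0 ≤ T) (h2' : T ≤ 3 / 2 * Pool.Agent.StripNear.h0) (h3 : 1 / 2 * Pool.Agent.StripNear.h0 ≤ T - t) (h3' : T - t ≤ 1 * Pool.Agent.StripNear.h0) (h6 : t ≤ T) (ho : 0 ≤ exf_v (-(c1f_v t)) (-(c3f_v T)) t T + 1 / 2) (hq1 : 1 ≤ q3f_v (-(c3f_v T) - -(c1f_v t)) (T - t)) (hq3 : q3f_v (-(c3f_v T) - -(c1f_v t)) (T - t) ≤ 3) :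
    0 < sl012_v (exf_v (-(c1f_v t)) (-(c3f_v T)) t T) t (T - t) T (-(a1q0_v t)) (rq1_v (-(c3f_v T) - -(c1f_v t)) (T - t)) (-(a3q2_v T)) := by
  have hp := Pool.Agent.StripNear.h0_pos
  have hm : Mem S b0 t T := mem0 (by linarith) (by linarith) (by linarith) (by linarith)
  have h : Q t T := all t T hm
  unfold Q P15 at h
  rcases h with (h | h | h | h) | h
  · exfalso; rw [e11] at h; linarith
  · exfalso; rw [e14] at h; linarith
  · exfalso; rw [e16] at h; linarith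
  · exfalso; rw [e19] at h; linarith
  replace h := h.1
  unfold P6 at h
  rcases h with h | h
  · exfalso; rw [e54] at h; linarith
  replace h := h.1
  unfold P2 at h
  rcases h with (h | h) | h
  · exfalso; rw [e45] at h; linarith
  · exfalso; rw [e47] at h; linarith
  replace h := h.1
  unfold P0 at h
  rcases h with h | h | h
  · exfalso; rw [e28] at h; linarith
  · exfalso; rw [e30] at h; linarith
  · rw [e25] at h; exact h

theorem fin022 {t T : ℝ} (h1 : 0 * Pool.Agent.StripNear.h0 ≤ t) (h1' : t ≤ 1 / 2 * Pool.Agent.StripNear.h0) (h2 : 1 * Pool.Agent.StripNear.h0 ≤ T) (h2' : T ≤ 3 / 2 * Pool.Agent.StripNear.h0) (h3 : 1 * Pool.Agent.StripNear.h0 ≤ T - t) (h3' : T - t ≤ 3 / 2 * Pool.Agent.StripNear.h0) (h6 : t ≤ T) (ho : 0 ≤ exf_v (-(c1f_v t)) (-(c3f_v T)) t T + 1 / 2) (hq1 : 1 ≤ q3f_v (-(c3f_v T) - -(c1f_v t)) (T - t)) (hq3 : q3f_v (-(c3f_v T) - -(c1f_v t)) (T - t) ≤ 3) :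
    (0 < 1 / 16 - ((3 / 2 * -(c1f_v t) - Pool.Agent.StripNear.h0 * t) - -(c3f_v T)) ∧ 0 < 1 / 16 + ((3 / 2 * -(c1f_v t) - Pool.Agent.StripNear.h0 * t) - -(c3f_v T))) ∨ 0 < sl022_v (exf_v (-(c1f_v t)) (-(c3f_v T)) t T) t (T - t) T (-(a1q0_v t)) (rq2_v (-(c3f_v T) - -(c1f_v t)) (T - t)) (-(a3q2_v T)) := by
  have hp := Pool.Agent.StripNear.h0_pos
  have hm : Mem S b0 t T := mem0 (by linarith) (by linarith) (by linarith) (by linarith)
  have h : Q t T := all t T hm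
  unfold Q P15 at h
  rcases h with (h | h | h | h) | h
  · exfalso; rw [e11] at h; linarith
  · exfalso; rw [e14] at h; linarith
  · exfalso; rw [e16] at h; linarith
  · exfalso; rw [e19] at h; linarith
  replace h := h.1
  unfold P6 at h
  rcases h with h | h
  · exfalso; rw [e54] at h; linarith
  replace h := h.1
  unfold P2 at h
  rcases h with (h | h) | h
  · exfalso; rw [e45] at h; linarith
  · exfalso; rw [e47] at h; linarith
  replace h := h.2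
  unfold P1 at h
  rcases h with h | h | h | h
  · exfalso; rw [e29] at h; linarith
  · exfalso; rw [e35] at h; linarith
  · left; simp only [e42, e43] at h; exact h
  · right; rw [e32] at h; exact h

theorem fin023 {t T : ℝ} (h1 : 0 * Pool.Agent.StripNear.h0 ≤ t) (h1' : t ≤ 1 / 2 * Pool.Agent.StripNear.h0) (h2 : 3 / 2 * Pool.Agent.StripNear.h0 ≤ T) (h2' : T ≤ 2 * Pool.Agent.StripNear.h0) (h3 : 1 * Pool.Agent.StripNear.h0 ≤ T - t) (h3' : T - t ≤ 3 / 2 * Pool.Agent.StripNear.h0) (h6 : t ≤ T) (ho : 0 ≤ exf_v (-(c1f_v t)) (-(c3f_v T)) t T + 1 / 2) (hq1 : 1 ≤ q3f_v (-(c3f_v T) - -(c1f_v t)) (T - t)) (hq3 : q3f_v (-(c3f_v T) - -(c1f_v t)) (T - t) ≤ 3) :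
    (0 < 1 / 16 - ((3 / 2 * -(c1f_v t) - Pool.Agent.StripNear.h0 * t) - -(c3f_v T)) ∧ 0 < 1 / 16 + ((3 / 2 * -(c1f_v t) - Pool.Agent.StripNear.h0 * t) - -(c3f_v T))) ∨ 0 < sl023_v (exf_v (-(c1f_v t)) (-(c3f_v T)) t T) t (T - t) T (-(a1q0_v t)) (rq2_v (-(c3f_v T) - -(c1f_v t)) (T - t)) (-(a3q3_v T)) := by
  have hp := Pool.Agent.StripNear.h0_pos
  have hm : Mem S b0 t T := mem0 (by linarith) (by linarith) (by linarith) (by linarith)
  have h : Q t T := all t T hm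
  unfold Q P15 at h
  rcases h with (h | h | h | h) | h
  · exfalso; rw [e11] at h; linarith
  · exfalso; rw [e14] at h; linarith
  · exfalso; rw [e16] at h; linarith
  · exfalso; rw [e19] at h; linarith
  replace h := h.1
  unfold P6 at h
  rcases h with h | h
  · exfalso; rw [e54] at h; linarith
  replace h := h.2
  unfold P5 at h
  rcases h with h | h
  · exfalso; rw [e46] at h; linarith
  replace h := h.1
  unfold P3 at h
  rcases h with h | h | h | h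
  · exfalso; rw [e29] at h; linarith
  · exfalso; rw [e35] at h; linarith
  · left; simp only [e42, e43] at h; exact h
  · right; rw [e50] at h; exact h

theorem fin033 {t T : ℝ} (h1 : 0 * Pool.Agent.StripNear.h0 ≤ t) (h1' : t ≤ 1 / 2 * Pool.Agent.StripNear.h0) (h2 : 3 / 2 * Pool.Agent.StripNear.h0 ≤ T) (h2' : T ≤ 2 * Pool.Agent.StripNear.h0) (h3 : 3 / 2 * Pool.Agent.StripNear.h0 ≤ T - t) (h3' : T - t ≤ 2 * Pool.Agent.StripNear.h0) (h6 : t ≤ T) (ho : 0 ≤ exf_v (-(c1f_v t)) (-(c3f_v T)) t T + 1 / 2) (hq1 : 1 ≤ q3f_v (-(c3f_v T) - -(c1f_v t)) (T - t)) (hq3 : q3f_v (-(c3f_v T) - -(c1f_v t)) (T - t) ≤ 3) :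
    0 < sl033_v (exf_v (-(c1f_v t)) (-(c3f_v T)) t T) t (T - t) T (-(a1q0_v t)) (rq3_v (-(c3f_v T) - -(c1f_v t)) (T - t)) (-(a3q3_v T)) := by
  have hp := Pool.Agent.StripNear.h0_pos
  have hm : Mem S b0 t T := mem0 (by linarith) (by linarith) (by linarith) (by linarith)
  have h : Q t T := all t T hm
  unfold Q P15 at h
  rcases h with (h | h | h | h) | h
  · exfalso; rw [e11] at h; linarith
  · exfalso; rw [e14] at h; linarith
  · exfalso; rw [e16] at h; linarith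
  · exfalso; rw [e19] at h; linarith
  replace h := h.1
  unfold P6 at h
  rcases h with h | h
  · exfalso; rw [e54] at h; linarith
  replace h := h.2
  unfold P5 at h
  rcases h with h | h
  · exfalso; rw [e46] at h; linarith
  replace h := h.2
  unfold P4 at h
  rcases h with h | h
  · exfalso; rw [e34] at h; linarith
  · rw [e52] at h; exact h

theorem fin102 {t T : ℝ} (h1 : 1 / 2 * Pool.Agent.StripNear.h0 ≤ t) (h1' : t ≤ 1 * Pool.Agent.StripNear.h0) (h2 : 1 * Pool.Agent.StripNear.h0 ≤ T) (h2' : T ≤ 3 / 2 * Pool.Agent.StripNear.h0) (h3 : 0 * Pool.Agent.StripNear.h0 ≤ T - t) (h3' : T - t ≤ 1 / 2 * Pool.Agent.StripNear.h0) (h6 : t ≤ T) (ho : 0 ≤ exf_v (-(c1f_v t)) (-(c3f_v T)) t T + 1 / 2) (hq1 : 1 ≤ q3f_v (-(c3f_v T) - -(c1f_v t)) (T - t)) (hq3 : q3f_v (-(c3f_v T) - -(c1f_v t)) (T - t) ≤ 3) :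
    (0 < 1/10 - (1 * Pool.Agent.StripNear.h0 - t) ∧ 0 < 1/10 - ((T - t) - 0 * Pool.Agent.StripNear.h0) ∧ 0 < 1/10 - (T - 1 * Pool.Agent.StripNear.h0)) ∨ 0 < sl102_v (exf_v (-(c1f_v t)) (-(c3f_v T)) t T) t (T - t) T (-(a1q1_v t)) (rq0_v (-(c3f_v T) - -(c1f_v t)) (T - t)) (-(a3q2_v T)) := by
  have hp := Pool.Agent.StripNear.h0_pos
  have hm : Mem S b0 t T := mem0 (by linarith) (by linarith) (by linarith) (by linarith)
  have h : Q t T := all t T hm
  unfold Q P15 at h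
  rcases h with (h | h | h | h) | h
  · exfalso; rw [e11] at h; linarith
  · exfalso; rw [e14] at h; linarith
  · exfalso; rw [e16] at h; linarith
  · exfalso; rw [e19] at h; linarith
  replace h := h.2
  unfold P14 at h
  rcases h with (h | h) | h
  · exfalso; rw [e53] at h; linarith
  · exfalso; rw [e69] at h; linarith
  replace h := h.1
  unfold P9 at h
  rcases h with (h | h) | h
  · exfalso; rw [e45] at h; linarith
  · exfalso; rw [e47] at h; linarith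
  replace h := h.1
  unfold P7 at h
  rcases h with h | h | h
  · exfalso; rw [e27] at h; linarith
  · left; simp only [e61, e63, e64] at h; exact h
  · right; rw [e58] at h; exact h

theorem fin112 {t T : ℝ} (h1 : 1 / 2 * Pool.Agent.StripNear.h0 ≤ t) (h1' : t ≤ 1 * Pool.Agent.StripNear.h0) (h2 : 1 * Pool.Agent.StripNear.h0 ≤ T) (h2' : T ≤ 3 / 2 * Pool.Agent.StripNear.h0) (h3 : 1 / 2 * Pool.Agent.StripNear.h0 ≤ T - t) (h3' : T - t ≤ 1 * Pool.Agent.StripNear.h0) (h6 : t ≤ T) (ho : 0 ≤ exf_v (-(c1f_v t)) (-(c3f_v T)) t T + 1 / 2) (hq1 : 1 ≤ q3f_v (-(c3f_v T) - -(c1f_v t)) (T - t)) (hq3 : q3f_v (-(c3f_v T) - -(c1f_v t)) (T - t) ≤ 3) :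
    0 < sl112_v (exf_v (-(c1f_v t)) (-(c3f_v T)) t T) t (T - t) T (-(a1q1_v t)) (rq1_v (-(c3f_v T) - -(c1f_v t)) (T - t)) (-(a3q2_v T)) := by
  have hp := Pool.Agent.StripNear.h0_pos
  have hm : Mem S b0 t T := mem0 (by linarith) (by linarith) (by linarith) (by linarith)
  have h : Q t T := all t T hm
  unfold Q P15 at h
  rcases h with (h | h | h | h) | h
  · exfalso; rw [e11] at h; linarith
  · exfalso; rw [e14] at h; linarith
  · exfalso; rw [e16] at h; linarith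
  · exfalso; rw [e19] at h; linarith
  replace h := h.2
  unfold P14 at h
  rcases h with (h | h) | h
  · exfalso; rw [e53] at h; linarith
  · exfalso; rw [e69] at h; linarith
  replace h := h.1
  unfold P9 at h
  rcases h with (h | h) | h
  · exfalso; rw [e45] at h; linarith
  · exfalso; rw [e47] at h; linarith
  replace h := h.2
  unfold P8 at h
  rcases h with h | h | h
  · exfalso; rw [e28] at h; linarith
  · exfalso; rw [e30] at h; linarith
  · rw [e65] at h; exact h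

theorem fin113 {t T : ℝ} (h1 : 1 / 2 * Pool.Agent.StripNear.h0 ≤ t) (h1' : t ≤ 1 * Pool.Agent.StripNear.h0) (h2 : 3 / 2 * Pool.Agent.StripNear.h0 ≤ T) (h2' : T ≤ 2 * Pool.Agent.StripNear.h0) (h3 : 1 / 2 * Pool.Agent.StripNear.h0 ≤ T - t) (h3' : T - t ≤ 1 * Pool.Agent.StripNear.h0) (h6 : t ≤ T) (ho : 0 ≤ exf_v (-(c1f_v t)) (-(c3f_v T)) t T + 1 / 2) (hq1 : 1 ≤ q3f_v (-(c3f_v T) - -(c1f_v t)) (T - t)) (hq3 : q3f_v (-(c3f_v T) - -(c1f_v t)) (T - t) ≤ 3) :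
    0 < sl113_v (exf_v (-(c1f_v t)) (-(c3f_v T)) t T) t (T - t) T (-(a1q1_v t)) (rq1_v (-(c3f_v T) - -(c1f_v t)) (T - t)) (-(a3q3_v T)) := by
  have hp := Pool.Agent.StripNear.h0_pos
  have hm : Mem S b0 t T := mem0 (by linarith) (by linarith) (by linarith) (by linarith)
  have h : Q t T := all t T hm
  unfold Q P15 at h
  rcases h with (h | h | h | h) | h
  · exfalso; rw [e11] at h; linarith
  · exfalso; rw [e14] at h; linarith
  · exfalso; rw [e16] at h; linarith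
  · exfalso; rw [e19] at h; linarith
  replace h := h.2
  unfold P14 at h
  rcases h with (h | h) | h
  · exfalso; rw [e53] at h; linarith
  · exfalso; rw [e69] at h; linarith
  replace h := h.2
  unfold P13 at h
  rcases h with h | h
  · exfalso; rw [e46] at h; linarith
  replace h := h.1
  unfold P10 at h
  rcases h with h | h | h
  · exfalso; rw [e28] at h; linarith
  · exfalso; rw [e30] at h; linarith
  · rw [e66] at h; exact h

theorem fin123 {t T : ℝ} (h1 : 1 / 2 * Pool.Agent.StripNear.h0 ≤ t) (h1' : t ≤ 1 * Pool.Agent.StripNear.h0) (h2 : 3 / 2 * Pool.Agent.StripNear.h0 ≤ T) (h2' : T ≤ 2 * Pool.Agent.StripNear.h0) (h3 : 1 * Pool.Agent.StripNear.h0 ≤ T - t) (h3' : T - t ≤ 3 / 2 * Pool.Agent.StripNear.h0) (h6 : t ≤ T) (ho : 0 ≤ exf_v (-(c1f_v t)) (-(c3f_v T)) t T + 1 / 2) (hq1 : 1 ≤ q3f_v (-(c3f_v T) - -(c1f_v t)) (T - t)) (hq3 : q3f_v (-(c3f_v T) - -(c1f_v t)) (T - t) ≤ 3) :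
    (0 < 1 / 16 - ((3 / 2 * -(c1f_v t) - Pool.Agent.StripNear.h0 * t) - -(c3f_v T)) ∧ 0 < 1 / 16 + ((3 / 2 * -(c1f_v t) - Pool.Agent.StripNear.h0 * t) - -(c3f_v T))) ∨ 0 < sl123_v (exf_v (-(c1f_v t)) (-(c3f_v T)) t T) t (T - t) T (-(a1q1_v t)) (rq2_v (-(c3f_v T) - -(c1f_v t)) (T - t)) (-(a3q3_v T)) := by
  have hp := Pool.Agent.StripNear.h0_pos
  have hm : Mem S b0 t T := mem0 (by linarith) (by linarith) (by linarith) (by linarith)
  have h : Q t T := all t T hm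
  unfold Q P15 at h
  rcases h with (h | h | h | h) | h
  · exfalso; rw [e11] at h; linarith
  · exfalso; rw [e14] at h; linarith
  · exfalso; rw [e16] at h; linarith
  · exfalso; rw [e19] at h; linarith
  replace h := h.2
  unfold P14 at h
  rcases h with (h | h) | h
  · exfalso; rw [e53] at h; linarith
  · exfalso; rw [e69] at h; linarith
  replace h := h.2
  unfold P13 at h
  rcases h with h | h
  · exfalso; rw [e46] at h; linarith
  replace h := h.2.1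
  unfold P11 at h
  rcases h with h | h | h | h
  · exfalso; rw [e29] at h; linarith
  · exfalso; rw [e35] at h; linarith
  · left; simp only [e42, e43] at h; exact h
  · right; rw [e67] at h; exact h

theorem fin133 {t T : ℝ} (h1 : 1 / 2 * Pool.Agent.StripNear.h0 ≤ t) (h1' : t ≤ 1 * Pool.Agent.StripNear.h0) (h2 : 3 / 2 * Pool.Agent.StripNear.h0 ≤ T) (h2' : T ≤ 2 * Pool.Agent.StripNear.h0) (h3 : 3 / 2 * Pool.Agent.StripNear.h0 ≤ T - t) (h3' : T - t ≤ 2 * Pool.Agent.StripNear.h0) (h6 : t ≤ T) (ho : 0 ≤ exf_v (-(c1f_v t)) (-(c3f_v T)) t T + 1 / 2) (hq1 : 1 ≤ q3f_v (-(c3f_v T) - -(c1f_v t)) (T - t)) (hq3 : q3f_v (-(c3f_v T) - -(c1f_v t)) (T - t) ≤ 3) :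
    0 < sl133_v (exf_v (-(c1f_v t)) (-(c3f_v T)) t T) t (T - t) T (-(a1q1_v t)) (rq3_v (-(c3f_v T) - -(c1f_v t)) (T - t)) (-(a3q3_v T)) := by
  have hp := Pool.Agent.StripNear.h0_pos
  have hm : Mem S b0 t T := mem0 (by linarith) (by linarith) (by linarith) (by linarith)
  have h : Q t T := all t T hm
  unfold Q P15 at h
  rcases h with (h | h | h | h) | h
  · exfalso; rw [e11] at h; linarith
  · exfalso; rw [e14] at h; linarith
  · exfalso; rw [e16] at h; linarith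
  · exfalso; rw [e19] at h; linarith
  replace h := h.2
  unfold P14 at h
  rcases h with (h | h) | h
  · exfalso; rw [e53] at h; linarith
  · exfalso; rw [e69] at h; linarith
  replace h := h.2
  unfold P13 at h
  rcases h with h | h
  · exfalso; rw [e46] at h; linarith
  replace h := h.2.2
  unfold P12 at h
  rcases h with h | h
  · exfalso; rw [e34] at h; linarith
  · rw [e68] at h; exact h

end Pool.Agent.Strip051.LB.B0m3p_mm
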