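import Pool.Agent.Strip051.Box.C2
import Pool.Agent.Strip051.Box.S30
import Pool.Agent.Strip051.LB.Fn.F2
import Pool.Agent.Strip051.LB.Base

/-! # LINE boxes, subfamily B0m3p_pm -/

namespace Pool.Agent.Strip051.LB.B0m3p_pm

open Pool.Agent.Strip051.Box Pool.Agent.Strip051.Box2

open Pool.Agent.Strip051.LB.Fn Pool.Agent.Strip051.LB.Fn.F2

/-- coordinates of a point of the box -/
def In (b : Bx) (E : Pt) (x1 x2 : ℝ) : Prop :=
  (S : ℝ) * x1 = ((b.p1 : ℝ) - b.n1) + b.q1 * E.e1 ∧ (S : ℝ) * x2 = ((b.p2 : ℝ) - b.n2) + b.q2 * E.e2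

variable {b : Bx} {E : Pt} {x1 x2 : ℝ}

def t0 (b : Bx) : TM := X1 b
noncomputable def v0 (x1 _x2 : ℝ) : ℝ := x1
theorem h0 (h : In b E x1 x2) : Enc S E (t0 b) (v0 x1 x2) := enc_X1 h.1

def t1 (_b : Bx) : TM := tconst 1859775393 0 1
noncomputable def v1 (_x1 _x2 : ℝ) : ℝ := Real.sqrt ((3 : ℕ) : ℝ)
theorem h1 (_h : In b E x1 x2) : Enc S E (t1 b) (v1 x1 x2) := enc_sqrtn E (by decide) (by decide)

def t2 (b : Bx) : TM := tscale 1 2 (t1 b)
noncomputable def v2 (x1 x2 : ℝ) : ℝ := ((1 : ℕ) : ℝ) / ((2 : ℕ) : ℝ) * v1 x1 x2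
theorem h2 (h : In b E x1 x2) : Enc S E (t2 b) (v2 x1 x2) := enc_scale 1 (by norm_num) (h1 h)

def t3 (b : Bx) : TM := c1f_t (t0 b)
noncomputable def v3 (x1 x2 : ℝ) : ℝ := c1f_v (v0 x1 x2)
theorem h3 (h : In b E x1 x2) : Enc S E (t3 b) (v3 x1 x2) := c1f_enc (h0 h)

def t4 (b : Bx) : TM := X2 b
noncomputable def v4 (_x1 x2 : ℝ) : ℝ := x2
theorem h4 (h : In b E x1 x2) : Enc S E (t4 b) (v4 x1 x2) := enc_X2 h.2

def t5 (b : Bx) : TM := tsub (t4 b) (t0 b)
noncomputable def v5 (x1 x2 : ℝ) : ℝ := v4 x1 x2 - v0 x1 x2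
theorem h5 (h : In b E x1 x2) : Enc S E (t5 b) (v5 x1 x2) := enc_sub (h4 h) (h0 h)

def t6 (b : Bx) : TM := c3f_t (t4 b)
noncomputable def v6 (x1 x2 : ℝ) : ℝ := c3f_v (v4 x1 x2)
theorem h6 (h : In b E x1 x2) : Enc S E (t6 b) (v6 x1 x2) := c3f_enc (h4 h)

def t7 (b : Bx) : TM := tneg (t6 b)
noncomputable def v7 (x1 x2 : ℝ) : ℝ := -(v6 x1 x2)
theorem h7 (h : In b E x1 x2) : Enc S E (t7 b) (v7 x1 x2) := enc_neg (h6 h)

def t8 (b : Bx) : TM := tsub (t7 b) (t3 b)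
noncomputable def v8 (x1 x2 : ℝ) : ℝ := v7 x1 x2 - v3 x1 x2
theorem h8 (h : In b E x1 x2) : Enc S E (t8 b) (v8 x1 x2) := enc_sub (h7 h) (h3 h)

def t9 (b : Bx) : TM := exf_t (t3 b) (t7 b) (t0 b) (t4 b)
noncomputable def v9 (x1 x2 : ℝ) : ℝ := exf_v (v3 x1 x2) (v7 x1 x2) (v0 x1 x2) (v4 x1 x2)
theorem h9 (h : In b E x1 x2) : Enc S E (t9 b) (v9 x1 x2) := exf_enc (h3 h) (h7 h) (h0 h) (h4 h)

def t10 (b : Bx) : TM := tsub (t0 b) (t4 b)
noncomputable def v10 (x1 x2 : ℝ) : ℝ := v0 x1 x2 - v4 x1 x2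
theorem h10 (h : In b E x1 x2) : Enc S E (t10 b) (v10 x1 x2) := enc_sub (h0 h) (h4 h)

def t11 (b : Bx) : TM := q3f_t (t8 b) (t5 b)
noncomputable def v11 (x1 x2 : ℝ) : ℝ := q3f_v (v8 x1 x2) (v5 x1 x2)
theorem h11 (h : In b E x1 x2) : Enc S E (t11 b) (v11 x1 x2) := q3f_enc (h8 h) (h5 h)

def t12 (_b : Bx) : TM := tconst (Nat.mul 1 S) 0 0
noncomputable def v12 (_x1 _x2 : ℝ) : ℝ := ((1 : ℕ) : ℝ)
theorem h12 (_h : In b E x1 x2) : Enc S E (t12 b) (v12 x1 x2) := enc_nc E 1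

def t13 (b : Bx) : TM := tsub (t12 b) (t11 b)
noncomputable def v13 (x1 x2 : ℝ) : ℝ := v12 x1 x2 - v11 x1 x2
theorem h13 (h : In b E x1 x2) : Enc S E (t13 b) (v13 x1 x2) := enc_sub (h12 h) (h11 h)

def t14 (_b : Bx) : TM := tconst (Nat.mul 3 S) 0 0
noncomputable def v14 (_x1 _x2 : ℝ) : ℝ := ((3 : ℕ) : ℝ)
theorem h14 (_h : In b E x1 x2) : Enc S E (t14 b) (v14 x1 x2) := enc_nc E 3

def t15 (b : Bx) : TM := tsub (t11 b) (t14 b)
noncomputable def v15 (x1 x2 : ℝ) : ℝ := v11 x1 x2 - v14 x1 x2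
theorem h15 (h : In b E x1 x2) : Enc S E (t15 b) (v15 x1 x2) := enc_sub (h11 h) (h14 h)

def t16 (_b : Bx) : TM := tconst (Nat.div (Nat.mul 1 S) 2) 0 1
noncomputable def v16 (_x1 _x2 : ℝ) : ℝ := ((1 : ℕ) : ℝ) / ((2 : ℕ) : ℝ)
theorem h16 (_h : In b E x1 x2) : Enc S E (t16 b) (v16 x1 x2) := enc_rat E 1 (by norm_num)

def t17 (b : Bx) : TM := tadd (t9 b) (t16 b)
noncomputable def v17 (x1 x2 : ℝ) : ℝ := v9 x1 x2 + v16 x1 x2
theorem h17 (h : In b E x1 x2) : Enc S E (t17 b) (v17 x1 x2) := enc_add (h9 h) (h16 h)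

def t18 (b : Bx) : TM := tneg (t17 b)
noncomputable def v18 (x1 x2 : ℝ) : ℝ := -(v17 x1 x2)
theorem h18 (h : In b E x1 x2) : Enc S E (t18 b) (v18 x1 x2) := enc_neg (h17 h)

def t19 (b : Bx) : TM := a1q0_t (t0 b)
noncomputable def v19 (x1 x2 : ℝ) : ℝ := a1q0_v (v0 x1 x2)
theorem h19 (h : In b E x1 x2) : Enc S E (t19 b) (v19 x1 x2) := a1q0_enc (h0 h)

def t20 (b : Bx) : TM := a3q2_t (t4 b)
noncomputable def v20 (x1 x2 : ℝ) : ℝ := a3q2_v (v4 x1 x2)
theorem h20 (h : In b E x1 x2) : Enc S E (t20 b) (v20 x1 x2) := a3q2_enc (h4 h)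

def t21 (b : Bx) : TM := tneg (t20 b)
noncomputable def v21 (x1 x2 : ℝ) : ℝ := -(v20 x1 x2)
theorem h21 (h : In b E x1 x2) : Enc S E (t21 b) (v21 x1 x2) := enc_neg (h20 h)

def t22 (b : Bx) : TM := rq1_t (t8 b) (t5 b)
noncomputable def v22 (x1 x2 : ℝ) : ℝ := rq1_v (v8 x1 x2) (v5 x1 x2)
theorem h22 (h : In b E x1 x2) : Enc S E (t22 b) (v22 x1 x2) := rq1_enc (h8 h) (h5 h)

def t23 (b : Bx) : TM := sl012_t (t9 b) (t0 b) (t5 b) (t4 b) (t19 b) (t22 b) (t21 b)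
noncomputable def v23 (x1 x2 : ℝ) : ℝ := sl012_v (v9 x1 x2) (v0 x1 x2) (v5 x1 x2) (v4 x1 x2) (v19 x1 x2) (v22 x1 x2) (v21 x1 x2)
theorem h23 (h : In b E x1 x2) : Enc S E (t23 b) (v23 x1 x2) := sl012_enc (h9 h) (h0 h) (h5 h) (h4 h) (h19 h) (h22 h) (h21 h)

def t24 (b : Bx) : TM := tscale 1 4 (t1 b)
noncomputable def v24 (x1 x2 : ℝ) : ℝ := ((1 : ℕ) : ℝ) / ((4 : ℕ) : ℝ) * v1 x1 x2
theorem h24 (h : In b E x1 x2) : Enc S E (t24 b) (v24 x1 x2) := enc_scale 1 (by norm_num) (h1 h)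

def t25 (b : Bx) : TM := tsub (t5 b) (t24 b)
noncomputable def v25 (x1 x2 : ℝ) : ℝ := v5 x1 x2 - v24 x1 x2
theorem h25 (h : In b E x1 x2) : Enc S E (t25 b) (v25 x1 x2) := enc_sub (h5 h) (h24 h)

def t26 (b : Bx) : TM := tsub (t24 b) (t5 b)
noncomputable def v26 (x1 x2 : ℝ) : ℝ := v24 x1 x2 - v5 x1 x2
theorem h26 (h : In b E x1 x2) : Enc S E (t26 b) (v26 x1 x2) := enc_sub (h24 h) (h5 h)

def t27 (b : Bx) : TM := tsub (t2 b) (t5 b)
noncomputable def v27 (x1 x2 : ℝ) : ℝ := v2 x1 x2 - v5 x1 x2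
theorem h27 (h : In b E x1 x2) : Enc S E (t27 b) (v27 x1 x2) := enc_sub (h2 h) (h5 h)

def t28 (b : Bx) : TM := tsub (t5 b) (t2 b)
noncomputable def v28 (x1 x2 : ℝ) : ℝ := v5 x1 x2 - v2 x1 x2
theorem h28 (h : In b E x1 x2) : Enc S E (t28 b) (v28 x1 x2) := enc_sub (h5 h) (h2 h)

def t29 (b : Bx) : TM := rq2_t (t8 b) (t5 b)
noncomputable def v29 (x1 x2 : ℝ) : ℝ := rq2_v (v8 x1 x2) (v5 x1 x2)
theorem h29 (h : In b E x1 x2) : Enc S E (t29 b) (v29 x1 x2) := rq2_enc (h8 h) (h5 h)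

def t30 (b : Bx) : TM := sl022_t (t9 b) (t0 b) (t5 b) (t4 b) (t19 b) (t29 b) (t21 b)
noncomputable def v30 (x1 x2 : ℝ) : ℝ := sl022_v (v9 x1 x2) (v0 x1 x2) (v5 x1 x2) (v4 x1 x2) (v19 x1 x2) (v29 x1 x2) (v21 x1 x2)
theorem h30 (h : In b E x1 x2) : Enc S E (t30 b) (v30 x1 x2) := sl022_enc (h9 h) (h0 h) (h5 h) (h4 h) (h19 h) (h29 h) (h21 h)

def t31 (b : Bx) : TM := tscale 3 4 (t1 b)
noncomputable def v31 (x1 x2 : ℝ) : ℝ := ((3 : ℕ) : ℝ) / ((4 : ℕ) : ℝ) * v1 x1 x2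
theorem h31 (h : In b E x1 x2) : Enc S E (t31 b) (v31 x1 x2) := enc_scale 3 (by norm_num) (h1 h)

def t32 (b : Bx) : TM := tsub (t31 b) (t5 b)
noncomputable def v32 (x1 x2 : ℝ) : ℝ := v31 x1 x2 - v5 x1 x2
theorem h32 (h : In b E x1 x2) : Enc S E (t32 b) (v32 x1 x2) := enc_sub (h31 h) (h5 h)

def t33 (b : Bx) : TM := tsub (t5 b) (t31 b)
noncomputable def v33 (x1 x2 : ℝ) : ℝ := v5 x1 x2 - v31 x1 x2
theorem h33 (h : In b E x1 x2) : Enc S E (t33 b) (v33 x1 x2) := enc_sub (h5 h) (h31 h)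

def t34 (b : Bx) : TM := tscale 3 2 (t3 b)
noncomputable def v34 (x1 x2 : ℝ) : ℝ := ((3 : ℕ) : ℝ) / ((2 : ℕ) : ℝ) * v3 x1 x2
theorem h34 (h : In b E x1 x2) : Enc S E (t34 b) (v34 x1 x2) := enc_scale 3 (by norm_num) (h3 h)

def t35 (b : Bx) : TM := tmul S (t2 b) (t0 b)
noncomputable def v35 (x1 x2 : ℝ) : ℝ := v2 x1 x2 * v0 x1 x2
theorem h35 (h : In b E x1 x2) : Enc S E (t35 b) (v35 x1 x2) := enc_mul hS (h2 h) (h0 h)

def t36 (b : Bx) : TM := tsub (t34 b) (t35 b)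
noncomputable def v36 (x1 x2 : ℝ) : ℝ := v34 x1 x2 - v35 x1 x2
theorem h36 (h : In b E x1 x2) : Enc S E (t36 b) (v36 x1 x2) := enc_sub (h34 h) (h35 h)

def t37 (b : Bx) : TM := tadd (t36 b) (t6 b)
noncomputable def v37 (x1 x2 : ℝ) : ℝ := v36 x1 x2 + v6 x1 x2
theorem h37 (h : In b E x1 x2) : Enc S E (t37 b) (v37 x1 x2) := enc_add (h36 h) (h6 h)

def t38 (_b : Bx) : TM := tconst (Nat.div (Nat.mul 1 S) 16) 0 1
noncomputable def v38 (_x1 _x2 : ℝ) : ℝ := ((1 : ℕ) : ℝ) / ((16 : ℕ) : ℝ)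
theorem h38 (_h : In b E x1 x2) : Enc S E (t38 b) (v38 x1 x2) := enc_rat E 1 (by norm_num)

def t39 (b : Bx) : TM := tsub (t38 b) (t37 b)
noncomputable def v39 (x1 x2 : ℝ) : ℝ := v38 x1 x2 - v37 x1 x2
theorem h39 (h : In b E x1 x2) : Enc S E (t39 b) (v39 x1 x2) := enc_sub (h38 h) (h37 h)

def t40 (b : Bx) : TM := tadd (t38 b) (t37 b)
noncomputable def v40 (x1 x2 : ℝ) : ℝ := v38 x1 x2 + v37 x1 x2
theorem h40 (h : In b E x1 x2) : Enc S E (t40 b) (v40 x1 x2) := enc_add (h38 h) (h37 h)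

def t42 (b : Bx) : TM := tsub (t2 b) (t4 b)
noncomputable def v42 (x1 x2 : ℝ) : ℝ := v2 x1 x2 - v4 x1 x2
theorem h42 (h : In b E x1 x2) : Enc S E (t42 b) (v42 x1 x2) := enc_sub (h2 h) (h4 h)

def t43 (b : Bx) : TM := tsub (t31 b) (t4 b)
noncomputable def v43 (x1 x2 : ℝ) : ℝ := v31 x1 x2 - v4 x1 x2
theorem h43 (h : In b E x1 x2) : Enc S E (t43 b) (v43 x1 x2) := enc_sub (h31 h) (h4 h)

def t44 (b : Bx) : TM := tsub (t4 b) (t31 b)
noncomputable def v44 (x1 x2 : ℝ) : ℝ := v4 x1 x2 - v31 x1 x2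
theorem h44 (h : In b E x1 x2) : Enc S E (t44 b) (v44 x1 x2) := enc_sub (h4 h) (h31 h)

def t45 (b : Bx) : TM := a3q3_t (t4 b)
noncomputable def v45 (x1 x2 : ℝ) : ℝ := a3q3_v (v4 x1 x2)
theorem h45 (h : In b E x1 x2) : Enc S E (t45 b) (v45 x1 x2) := a3q3_enc (h4 h)

def t46 (b : Bx) : TM := tneg (t45 b)
noncomputable def v46 (x1 x2 : ℝ) : ℝ := -(v45 x1 x2)
theorem h46 (h : In b E x1 x2) : Enc S E (t46 b) (v46 x1 x2) := enc_neg (h45 h)

def t47 (b : Bx) : TM := sl023_t (t9 b) (t0 b) (t5 b) (t4 b) (t19 b) (t29 b) (t46 b)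
noncomputable def v47 (x1 x2 : ℝ) : ℝ := sl023_v (v9 x1 x2) (v0 x1 x2) (v5 x1 x2) (v4 x1 x2) (v19 x1 x2) (v29 x1 x2) (v46 x1 x2)
theorem h47 (h : In b E x1 x2) : Enc S E (t47 b) (v47 x1 x2) := sl023_enc (h9 h) (h0 h) (h5 h) (h4 h) (h19 h) (h29 h) (h46 h)

def t48 (b : Bx) : TM := rq3_t (t8 b) (t5 b)
noncomputable def v48 (x1 x2 : ℝ) : ℝ := rq3_v (v8 x1 x2) (v5 x1 x2)
theorem h48 (h : In b E x1 x2) : Enc S E (t48 b) (v48 x1 x2) := rq3_enc (h8 h) (h5 h)

def t49 (b : Bx) : TM := sl033_t (t9 b) (t0 b) (t5 b) (t4 b) (t19 b) (t48 b) (t46 b)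
noncomputable def v49 (x1 x2 : ℝ) : ℝ := sl033_v (v9 x1 x2) (v0 x1 x2) (v5 x1 x2) (v4 x1 x2) (v19 x1 x2) (v48 x1 x2) (v46 x1 x2)
theorem h49 (h : In b E x1 x2) : Enc S E (t49 b) (v49 x1 x2) := sl033_enc (h9 h) (h0 h) (h5 h) (h4 h) (h19 h) (h48 h) (h46 h)

def t50 (b : Bx) : TM := tsub (t24 b) (t0 b)
noncomputable def v50 (x1 x2 : ℝ) : ℝ := v24 x1 x2 - v0 x1 x2
theorem h50 (h : In b E x1 x2) : Enc S E (t50 b) (v50 x1 x2) := enc_sub (h24 h) (h0 h)

def t51 (b : Bx) : TM := tsub (t0 b) (t24 b)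
noncomputable def v51 (x1 x2 : ℝ) : ℝ := v0 x1 x2 - v24 x1 x2
theorem h51 (h : In b E x1 x2) : Enc S E (t51 b) (v51 x1 x2) := enc_sub (h0 h) (h24 h)

def t52 (b : Bx) : TM := a1q1_t (t0 b)
noncomputable def v52 (x1 x2 : ℝ) : ℝ := a1q1_v (v0 x1 x2)
theorem h52 (h : In b E x1 x2) : Enc S E (t52 b) (v52 x1 x2) := a1q1_enc (h0 h)

def t53 (b : Bx) : TM := rq0_t (t8 b) (t5 b)
noncomputable def v53 (x1 x2 : ℝ) : ℝ := rq0_v (v8 x1 x2) (v5 x1 x2)
theorem h53 (h : In b E x1 x2) : Enc S E (t53 b) (v53 x1 x2) := rq0_enc (h8 h) (h5 h)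

def t54 (b : Bx) : TM := sl102_t (t9 b) (t0 b) (t5 b) (t4 b) (t52 b) (t53 b) (t21 b)
noncomputable def v54 (x1 x2 : ℝ) : ℝ := sl102_v (v9 x1 x2) (v0 x1 x2) (v5 x1 x2) (v4 x1 x2) (v52 x1 x2) (v53 x1 x2) (v21 x1 x2)
theorem h54 (h : In b E x1 x2) : Enc S E (t54 b) (v54 x1 x2) := sl102_enc (h9 h) (h0 h) (h5 h) (h4 h) (h52 h) (h53 h) (h21 h)

def t55 (b : Bx) : TM := sl112_t (t9 b) (t0 b) (t5 b) (t4 b) (t52 b) (t22 b) (t21 b)
noncomputable def v55 (x1 x2 : ℝ) : ℝ := sl112_v (v9 x1 x2) (v0 x1 x2) (v5 x1 x2) (v4 x1 x2) (v52 x1 x2) (v22 x1 x2) (v21 x1 x2)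
theorem h55 (h : In b E x1 x2) : Enc S E (t55 b) (v55 x1 x2) := sl112_enc (h9 h) (h0 h) (h5 h) (h4 h) (h52 h) (h22 h) (h21 h)

def t56 (b : Bx) : TM := sl113_t (t9 b) (t0 b) (t5 b) (t4 b) (t52 b) (t22 b) (t46 b)
noncomputable def v56 (x1 x2 : ℝ) : ℝ := sl113_v (v9 x1 x2) (v0 x1 x2) (v5 x1 x2) (v4 x1 x2) (v52 x1 x2) (v22 x1 x2) (v46 x1 x2)
theorem h56 (h : In b E x1 x2) : Enc S E (t56 b) (v56 x1 x2) := sl113_enc (h9 h) (h0 h) (h5 h) (h4 h) (h52 h) (h22 h) (h46 h)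

def t57 (b : Bx) : TM := tsub (t2 b) (t0 b)
noncomputable def v57 (x1 x2 : ℝ) : ℝ := v2 x1 x2 - v0 x1 x2
theorem h57 (h : In b E x1 x2) : Enc S E (t57 b) (v57 x1 x2) := enc_sub (h2 h) (h0 h)

def t58 (_b : Bx) : TM := tconst (Nat.div (Nat.mul 1 S) 10) 0 1
noncomputable def v58 (_x1 _x2 : ℝ) : ℝ := ((1 : ℕ) : ℝ) / ((10 : ℕ) : ℝ)
theorem h58 (_h : In b E x1 x2) : Enc S E (t58 b) (v58 x1 x2) := enc_rat E 1 (by norm_num)

def t59 (b : Bx) : TM := tsub (t58 b) (t57 b)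
noncomputable def v59 (x1 x2 : ℝ) : ℝ := v58 x1 x2 - v57 x1 x2
theorem h59 (h : In b E x1 x2) : Enc S E (t59 b) (v59 x1 x2) := enc_sub (h58 h) (h57 h)

def t60 (b : Bx) : TM := tsub (t58 b) (t27 b)
noncomputable def v60 (x1 x2 : ℝ) : ℝ := v58 x1 x2 - v27 x1 x2
theorem h60 (h : In b E x1 x2) : Enc S E (t60 b) (v60 x1 x2) := enc_sub (h58 h) (h27 h)

def t61 (b : Bx) : TM := tsub (t1 b) (t4 b)
noncomputable def v61 (x1 x2 : ℝ) : ℝ := v1 x1 x2 - v4 x1 x2
theorem h61 (h : In b E x1 x2) : Enc S E (t61 b) (v61 x1 x2) := enc_sub (h1 h) (h4 h)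

def t62 (b : Bx) : TM := tsub (t58 b) (t61 b)
noncomputable def v62 (x1 x2 : ℝ) : ℝ := v58 x1 x2 - v61 x1 x2
theorem h62 (h : In b E x1 x2) : Enc S E (t62 b) (v62 x1 x2) := enc_sub (h58 h) (h61 h)

def t63 (b : Bx) : TM := sl123_t (t9 b) (t0 b) (t5 b) (t4 b) (t52 b) (t29 b) (t46 b)
noncomputable def v63 (x1 x2 : ℝ) : ℝ := sl123_v (v9 x1 x2) (v0 x1 x2) (v5 x1 x2) (v4 x1 x2) (v52 x1 x2) (v29 x1 x2) (v46 x1 x2)
theorem h63 (h : In b E x1 x2) : Enc S E (t63 b) (v63 x1 x2) := sl123_enc (h9 h) (h0 h) (h5 h) (h4 h) (h52 h) (h29 h) (h46 h)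

def t64 (b : Bx) : TM := tsub (t58 b) (t28 b)
noncomputable def v64 (x1 x2 : ℝ) : ℝ := v58 x1 x2 - v28 x1 x2
theorem h64 (h : In b E x1 x2) : Enc S E (t64 b) (v64 x1 x2) := enc_sub (h58 h) (h28 h)

def t65 (b : Bx) : TM := sl133_t (t9 b) (t0 b) (t5 b) (t4 b) (t52 b) (t48 b) (t46 b)
noncomputable def v65 (x1 x2 : ℝ) : ℝ := sl133_v (v9 x1 x2) (v0 x1 x2) (v5 x1 x2) (v4 x1 x2) (v52 x1 x2) (v48 x1 x2) (v46 x1 x2)
theorem h65 (h : In b E x1 x2) : Enc S E (t65 b) (v65 x1 x2) := sl133_enc (h9 h) (h0 h) (h5 h) (h4 h) (h52 h) (h48 h) (h46 h)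

def t66 (b : Bx) : TM := tsub (t0 b) (t2 b)
noncomputable def v66 (x1 x2 : ℝ) : ℝ := v0 x1 x2 - v2 x1 x2
theorem h66 (h : In b E x1 x2) : Enc S E (t66 b) (v66 x1 x2) := enc_sub (h0 h) (h2 h)

def g0 (b : Bx) : Bool := or (pos (t26 b)) (or (pos (t28 b)) (pos (t23 b)))

def l0 (b : Bx) : Nat := cond (g0 b) 0 (pickb 1 (t23 b) b)

def P0 (x1 x2 : ℝ) : Prop := 0 < v26 x1 x2 ∨ 0 < v28 x1 x2 ∨ 0 < v23 x1 x2

theorem l0_sound (h : In b E x1 x2) (e : l0 b = 0) : P0 x1 x2 := by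
  have e1 : g0 b = true := by
    rcases e2 : g0 b with _ | _
    · unfold l0 at e; rw [e2, cond_false] at e; exact absurd e (pickb_ne _ _ _)
    · rfl
  exact ((Bool.or_eq_true_iff.mp e1).imp (fun a => pos_sound hS (h26 h) a) (fun a => ((Bool.or_eq_true_iff.mp a).imp (fun a => pos_sound hS (h28 h) a) (fun a => pos_sound hS (h23 h) a))))

def g1 (b : Bx) : Bool := or (pos (t27 b)) (or (pos (t33 b)) (or (and (pos (t39 b)) (pos (t40 b))) (pos (t30 b))))

def l1 (b : Bx) : Nat := cond (g1 b) 0 (pickb 1 (t30 b) b)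

def P1 (x1 x2 : ℝ) : Prop := 0 < v27 x1 x2 ∨ 0 < v33 x1 x2 ∨ (0 < v39 x1 x2 ∧ 0 < v40 x1 x2) ∨ 0 < v30 x1 x2

theorem l1_sound (h : In b E x1 x2) (e : l1 b = 0) : P1 x1 x2 := by
  have e1 : g1 b = true := by
    rcases e2 : g1 b with _ | _
    · unfold l1 at e; rw [e2, cond_false] at e; exact absurd e (pickb_ne _ _ _)
    · rfl
  exact ((Bool.or_eq_true_iff.mp e1).imp (fun a => pos_sound hS (h27 h) a) (fun a => ((Bool.or_eq_true_iff.mp a).imp (fun a => pos_sound hS (h33 h) a) (fun a => ((Bool.or_eq_true_iff.mp a).imp (fun a => ⟨pos_sound hS (h39 h) (Bool.and_eq_true_iff.mp a).1, pos_sound hS (h40 h) (Bool.and_eq_true_iff.mp a).2⟩) (fun a => pos_sound hS (h30 h) a))))))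

def g2 (b : Bx) : Bool := or (pos (t42 b)) (pos (t44 b))

def l2 (b : Bx) : Nat := cond (g2 b) 0 (cond (Nat.beq (l0 b) 0) (l1 b) (l0 b))

def P2 (x1 x2 : ℝ) : Prop := (0 < v42 x1 x2 ∨ 0 < v44 x1 x2) ∨ (P0 x1 x2 ∧ P1 x1 x2)

theorem l2_sound (h : In b E x1 x2) (e : l2 b = 0) : P2 x1 x2 := by
  unfold l2 at e
  rcases e1 : g2 b with _ | _
  · rw [e1, cond_false] at e
    have z0 : l0 b = 0 := by
      rcases e2 : Nat.beq (l0 b) 0 with _ | _
      · rw [e2, cond_false] at e; exact e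
      · exact Nat.eq_of_beq_eq_true e2
    have w0 : Nat.beq (l0 b) 0 = true := by rw [z0]; rfl
    rw [w0, cond_true] at e
    have z1 : l1 b = 0 := e
    exact Or.inr ⟨l0_sound h z0, l1_sound h z1⟩
  · exact Or.inl (((Bool.or_eq_true_iff.mp e1).imp (fun a => pos_sound hS (h42 h) a) (fun a => pos_sound hS (h44 h) a)))

def g3 (b : Bx) : Bool := or (pos (t27 b)) (or (pos (t33 b)) (or (and (pos (t39 b)) (pos (t40 b))) (pos (t47 b))))

def l3 (b : Bx) : Nat := cond (g3 b) 0 (pickb 1 (t47 b) b)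

def P3 (x1 x2 : ℝ) : Prop := 0 < v27 x1 x2 ∨ 0 < v33 x1 x2 ∨ (0 < v39 x1 x2 ∧ 0 < v40 x1 x2) ∨ 0 < v47 x1 x2

theorem l3_sound (h : In b E x1 x2) (e : l3 b = 0) : P3 x1 x2 := by
  have e1 : g3 b = true := by
    rcases e2 : g3 b with _ | _
    · unfold l3 at e; rw [e2, cond_false] at e; exact absurd e (pickb_ne _ _ _)
    · rfl
  exact ((Bool.or_eq_true_iff.mp e1).imp (fun a => pos_sound hS (h27 h) a) (fun a => ((Bool.or_eq_true_iff.mp a).imp (fun a => pos_sound hS (h33 h) a) (fun a => ((Bool.or_eq_true_iff.mp a).imp (fun a => ⟨pos_sound hS (h39 h) (Bool.and_eq_true_iff.mp a).1, pos_sound hS (h40 h) (Bool.and_eq_true_iff.mp a).2⟩) (fun a => pos_sound hS (h47 h) a))))))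

def g4 (b : Bx) : Bool := or (pos (t32 b)) (pos (t49 b))

def l4 (b : Bx) : Nat := cond (g4 b) 0 (pickb 1 (t49 b) b)

def P4 (x1 x2 : ℝ) : Prop := 0 < v32 x1 x2 ∨ 0 < v49 x1 x2

theorem l4_sound (h : In b E x1 x2) (e : l4 b = 0) : P4 x1 x2 := by
  have e1 : g4 b = true := by
    rcases e2 : g4 b with _ | _
    · unfold l4 at e; rw [e2, cond_false] at e; exact absurd e (pickb_ne _ _ _)
    · rfl
  exact ((Bool.or_eq_true_iff.mp e1).imp (fun a => pos_sound hS (h32 h) a) (fun a => pos_sound hS (h49 h) a))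

def g5 (b : Bx) : Bool := pos (t43 b)

def l5 (b : Bx) : Nat := cond (g5 b) 0 (cond (Nat.beq (l3 b) 0) (l4 b) (l3 b))

def P5 (x1 x2 : ℝ) : Prop := (0 < v43 x1 x2) ∨ (P3 x1 x2 ∧ P4 x1 x2)

theorem l5_sound (h : In b E x1 x2) (e : l5 b = 0) : P5 x1 x2 := by
  unfold l5 at e
  rcases e1 : g5 b with _ | _
  · rw [e1, cond_false] at e
    have z3 : l3 b = 0 := by
      rcases e2 : Nat.beq (l3 b) 0 with _ | _
      · rw [e2, cond_false] at e; exact e
      · exact Nat.eq_of_beq_eq_true e2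
    have w3 : Nat.beq (l3 b) 0 = true := by rw [z3]; rfl
    rw [w3, cond_true] at e
    have z4 : l4 b = 0 := e
    exact Or.inr ⟨l3_sound h z3, l4_sound h z4⟩
  · exact Or.inl (pos_sound hS (h43 h) e1)

def g6 (b : Bx) : Bool := pos (t51 b)

def l6 (b : Bx) : Nat := cond (g6 b) 0 (cond (Nat.beq (l2 b) 0) (l5 b) (l2 b))

def P6 (x1 x2 : ℝ) : Prop := (0 < v51 x1 x2) ∨ (P2 x1 x2 ∧ P5 x1 x2)

theorem l6_sound (h : In b E x1 x2) (e : l6 b = 0) : P6 x1 x2 := by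
  unfold l6 at e
  rcases e1 : g6 b with _ | _
  · rw [e1, cond_false] at e
    have z2 : l2 b = 0 := by
      rcases e2 : Nat.beq (l2 b) 0 with _ | _
      · rw [e2, cond_false] at e; exact e
      · exact Nat.eq_of_beq_eq_true e2
    have w2 : Nat.beq (l2 b) 0 = true := by rw [z2]; rfl
    rw [w2, cond_true] at e
    have z5 : l5 b = 0 := e
    exact Or.inr ⟨l2_sound h z2, l5_sound h z5⟩
  · exact Or.inl (pos_sound hS (h51 h) e1)

def g7 (b : Bx) : Bool := or (pos (t25 b)) (pos (t54 b))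

def l7 (b : Bx) : Nat := cond (g7 b) 0 (pickb 1 (t54 b) b)

def P7 (x1 x2 : ℝ) : Prop := 0 < v25 x1 x2 ∨ 0 < v54 x1 x2

theorem l7_sound (h : In b E x1 x2) (e : l7 b = 0) : P7 x1 x2 := by
  have e1 : g7 b = true := by
    rcases e2 : g7 b with _ | _
    · unfold l7 at e; rw [e2, cond_false] at e; exact absurd e (pickb_ne _ _ _)
    · rfl
  exact ((Bool.or_eq_true_iff.mp e1).imp (fun a => pos_sound hS (h25 h) a) (fun a => pos_sound hS (h54 h) a))

def g8 (b : Bx) : Bool := or (pos (t26 b)) (or (pos (t28 b)) (pos (t55 b)))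

def l8 (b : Bx) : Nat := cond (g8 b) 0 (pickb 1 (t55 b) b)

def P8 (x1 x2 : ℝ) : Prop := 0 < v26 x1 x2 ∨ 0 < v28 x1 x2 ∨ 0 < v55 x1 x2

theorem l8_sound (h : In b E x1 x2) (e : l8 b = 0) : P8 x1 x2 := by
  have e1 : g8 b = true := by
    rcases e2 : g8 b with _ | _
    · unfold l8 at e; rw [e2, cond_false] at e; exact absurd e (pickb_ne _ _ _)
    · rfl
  exact ((Bool.or_eq_true_iff.mp e1).imp (fun a => pos_sound hS (h26 h) a) (fun a => ((Bool.or_eq_true_iff.mp a).imp (fun a => pos_sound hS (h28 h) a) (fun a => pos_sound hS (h55 h) a))))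

def g9 (b : Bx) : Bool := or (pos (t42 b)) (pos (t44 b))

def l9 (b : Bx) : Nat := cond (g9 b) 0 (cond (Nat.beq (l7 b) 0) (l8 b) (l7 b))

def P9 (x1 x2 : ℝ) : Prop := (0 < v42 x1 x2 ∨ 0 < v44 x1 x2) ∨ (P7 x1 x2 ∧ P8 x1 x2)

theorem l9_sound (h : In b E x1 x2) (e : l9 b = 0) : P9 x1 x2 := by
  unfold l9 at e
  rcases e1 : g9 b with _ | _
  · rw [e1, cond_false] at e
    have z7 : l7 b = 0 := by
      rcases e2 : Nat.beq (l7 b) 0 with _ | _
      · rw [e2, cond_false] at e; exact e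
      · exact Nat.eq_of_beq_eq_true e2
    have w7 : Nat.beq (l7 b) 0 = true := by rw [z7]; rfl
    rw [w7, cond_true] at e
    have z8 : l8 b = 0 := e
    exact Or.inr ⟨l7_sound h z7, l8_sound h z8⟩
  · exact Or.inl (((Bool.or_eq_true_iff.mp e1).imp (fun a => pos_sound hS (h42 h) a) (fun a => pos_sound hS (h44 h) a)))

def g10 (b : Bx) : Bool := or (pos (t26 b)) (or (pos (t28 b)) (or (and (pos (t59 b)) (and (pos (t60 b)) (pos (t62 b)))) (pos (t56 b))))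

def l10 (b : Bx) : Nat := cond (g10 b) 0 (pickb 1 (t56 b) b)

def P10 (x1 x2 : ℝ) : Prop := 0 < v26 x1 x2 ∨ 0 < v28 x1 x2 ∨ (0 < v59 x1 x2 ∧ 0 < v60 x1 x2 ∧ 0 < v62 x1 x2) ∨ 0 < v56 x1 x2

theorem l10_sound (h : In b E x1 x2) (e : l10 b = 0) : P10 x1 x2 := by
  have e1 : g10 b = true := by
    rcases e2 : g10 b with _ | _
    · unfold l10 at e; rw [e2, cond_false] at e; exact absurd e (pickb_ne _ _ _)
    · rfl
  exact ((Bool.or_eq_true_iff.mp e1).imp (fun a => pos_sound hS (h26 h) a) (fun a => ((Bool.or_eq_true_iff.mp a).imp (fun a => pos_sound hS (h28 h) a) (fun a => ((Bool.or_eq_true_iff.mp a).imp (fun a => ⟨pos_sound hS (h59 h) (Bool.and_eq_true_iff.mp a).1, ⟨pos_sound hS (h60 h) (Bool.and_eq_true_iff.mp (Bool.and_eq_true_iff.mp a).2).1, pos_sound hS (h62 h) (Bool.and_eq_true_iff.mp (Bool.and_eq_true_iff.mp a).2).2⟩⟩) (fun a => pos_sound hS (h56 h) a))))))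

def g11 (b : Bx) : Bool := or (pos (t27 b)) (or (pos (t33 b)) (or (and (pos (t59 b)) (and (pos (t64 b)) (pos (t62 b)))) (or (and (pos (t39 b)) (pos (t40 b))) (pos (t63 b)))))

def l11 (b : Bx) : Nat := cond (g11 b) 0 (pickb 1 (t63 b) b)

def P11 (x1 x2 : ℝ) : Prop := 0 < v27 x1 x2 ∨ 0 < v33 x1 x2 ∨ (0 < v59 x1 x2 ∧ 0 < v64 x1 x2 ∧ 0 < v62 x1 x2) ∨ (0 < v39 x1 x2 ∧ 0 < v40 x1 x2) ∨ 0 < v63 x1 x2

theorem l11_sound (h : In b E x1 x2) (e : l11 b = 0) : P11 x1 x2 := by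
  have e1 : g11 b = true := by
    rcases e2 : g11 b with _ | _
    · unfold l11 at e; rw [e2, cond_false] at e; exact absurd e (pickb_ne _ _ _)
    · rfl
  exact ((Bool.or_eq_true_iff.mp e1).imp (fun a => pos_sound hS (h27 h) a) (fun a => ((Bool.or_eq_true_iff.mp a).imp (fun a => pos_sound hS (h33 h) a) (fun a => ((Bool.or_eq_true_iff.mp a).imp (fun a => ⟨pos_sound hS (h59 h) (Bool.and_eq_true_iff.mp a).1, ⟨pos_sound hS (h64 h) (Bool.and_eq_true_iff.mp (Bool.and_eq_true_iff.mp a).2).1, pos_sound hS (h62 h) (Bool.and_eq_true_iff.mp (Bool.and_eq_true_iff.mp a).2).2⟩⟩) (fun a => ((Bool.or_eq_true_iff.mp a).imp (fun a => ⟨pos_sound hS (h39 h) (Bool.and_eq_true_iff.mp a).1, pos_sound hS (h40 h) (Bool.and_eq_true_iff.mp a).2⟩) (fun a => pos_sound hS (h63 h) a))))))))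

def g12 (b : Bx) : Bool := or (pos (t32 b)) (pos (t65 b))

def l12 (b : Bx) : Nat := cond (g12 b) 0 (pickb 1 (t65 b) b)

def P12 (x1 x2 : ℝ) : Prop := 0 < v32 x1 x2 ∨ 0 < v65 x1 x2

theorem l12_sound (h : In b E x1 x2) (e : l12 b = 0) : P12 x1 x2 := by
  have e1 : g12 b = true := by
    rcases e2 : g12 b with _ | _
    · unfold l12 at e; rw [e2, cond_false] at e; exact absurd e (pickb_ne _ _ _)
    · rfl
  exact ((Bool.or_eq_true_iff.mp e1).imp (fun a => pos_sound hS (h32 h) a) (fun a => pos_sound hS (h65 h) a))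

def g13 (b : Bx) : Bool := pos (t43 b)

def l13 (b : Bx) : Nat := cond (g13 b) 0 (cond (Nat.beq (l10 b) 0) (cond (Nat.beq (l11 b) 0) (l12 b) (l11 b)) (l10 b))

def P13 (x1 x2 : ℝ) : Prop := (0 < v43 x1 x2) ∨ (P10 x1 x2 ∧ P11 x1 x2 ∧ P12 x1 x2)

theorem l13_sound (h : In b E x1 x2) (e : l13 b = 0) : P13 x1 x2 := by
  unfold l13 at e
  rcases e1 : g13 b with _ | _
  · rw [e1, cond_false] at e
    have z10 : l10 b = 0 := by
      rcases e2 : Nat.beq (l10 b) 0 with _ | _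
      · rw [e2, cond_false] at e; exact e
      · exact Nat.eq_of_beq_eq_true e2
    have w10 : Nat.beq (l10 b) 0 = true := by rw [z10]; rfl
    rw [w10, cond_true] at e
    have z11 : l11 b = 0 := by
      rcases e2 : Nat.beq (l11 b) 0 with _ | _
      · rw [e2, cond_false] at e; exact e
      · exact Nat.eq_of_beq_eq_true e2
    have w11 : Nat.beq (l11 b) 0 = true := by rw [z11]; rfl
    rw [w11, cond_true] at e
    have z12 : l12 b = 0 := e
    exact Or.inr ⟨l10_sound h z10, l11_sound h z11, l12_sound h z12⟩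
  · exact Or.inl (pos_sound hS (h43 h) e1)

def g14 (b : Bx) : Bool := or (pos (t50 b)) (pos (t66 b))

def l14 (b : Bx) : Nat := cond (g14 b) 0 (cond (Nat.beq (l9 b) 0) (l13 b) (l9 b))

def P14 (x1 x2 : ℝ) : Prop := (0 < v50 x1 x2 ∨ 0 < v66 x1 x2) ∨ (P9 x1 x2 ∧ P13 x1 x2)

theorem l14_sound (h : In b E x1 x2) (e : l14 b = 0) : P14 x1 x2 := by
  unfold l14 at e
  rcases e1 : g14 b with _ | _
  · rw [e1, cond_false] at e
    have z9 : l9 b = 0 := by
      rcases e2 : Nat.beq (l9 b) 0 with _ | _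
      · rw [e2, cond_false] at e; exact e
      · exact Nat.eq_of_beq_eq_true e2
    have w9 : Nat.beq (l9 b) 0 = true := by rw [z9]; rfl
    rw [w9, cond_true] at e
    have z13 : l13 b = 0 := e
    exact Or.inr ⟨l9_sound h z9, l13_sound h z13⟩
  · exact Or.inl (((Bool.or_eq_true_iff.mp e1).imp (fun a => pos_sound hS (h50 h) a) (fun a => pos_sound hS (h66 h) a)))

def g15 (b : Bx) : Bool := or (pos (t10 b)) (or (pos (t13 b)) (or (pos (t15 b)) (pos (t18 b))))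

def l15 (b : Bx) : Nat := cond (g15 b) 0 (cond (Nat.beq (l6 b) 0) (l14 b) (l6 b))

def P15 (x1 x2 : ℝ) : Prop := (0 < v10 x1 x2 ∨ 0 < v13 x1 x2 ∨ 0 < v15 x1 x2 ∨ 0 < v18 x1 x2) ∨ (P6 x1 x2 ∧ P14 x1 x2)

theorem l15_sound (h : In b E x1 x2) (e : l15 b = 0) : P15 x1 x2 := by
  unfold l15 at e
  rcases e1 : g15 b with _ | _
  · rw [e1, cond_false] at e
    have z6 : l6 b = 0 := by
      rcases e2 : Nat.beq (l6 b) 0 with _ | _
      · rw [e2, cond_false] at e; exact e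
      · exact Nat.eq_of_beq_eq_true e2
    have w6 : Nat.beq (l6 b) 0 = true := by rw [z6]; rfl
    rw [w6, cond_true] at e
    have z14 : l14 b = 0 := e
    exact Or.inr ⟨l6_sound h z6, l14_sound h z14⟩
  · exact Or.inl (((Bool.or_eq_true_iff.mp e1).imp (fun a => pos_sound hS (h10 h) a) (fun a => ((Bool.or_eq_true_iff.mp a).imp (fun a => pos_sound hS (h13 h) a) (fun a => ((Bool.or_eq_true_iff.mp a).imp (fun a => pos_sound hS (h15 h) a) (fun a => pos_sound hS (h18 h) a)))))))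

def f (b : Bx) : Nat := l15 b

/-- the statement -/
def Q (x1 x2 : ℝ) : Prop := P15 x1 x2

theorem f_sound (b : Bx) (hb : f b = 0) (x1 x2 : ℝ) (hm : Mem S b x1 x2) : Q x1 x2 := by
  obtain ⟨E, h⟩ := pt_of_mem hm
  have h : In b E x1 x2 := h
  unfold f at hb
  have e := hb
  have z15 : l15 b = 0 := e
  exact (l15_sound h z15)

/-- the box -/
def b0 : Bx := ⟨464943848, 0, 464943850, 1394831545, 0, 464943850⟩

theorem chk_all {n : ℕ} {b : Bx} (h : chk f n b = true) (x1 x2 : ℝ) (hm : Mem S b x1 x2) : Q x1 x2 :=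
  chk_sound (fun b hb x1 x2 hm => f_sound b hb x1 x2 hm) n b h x1 x2 hm


open Pool.Agent.Strip051.LB

set_option maxRecDepth 100000

theorem c0 : chk f 60 (b0) = true := by decide +kernel

theorem all (x1 x2 : ℝ) (h : Mem S b0 x1 x2) : Q x1 x2 := by
  exact chk_all c0 x1 x2 h

theorem e3 (t T : ℝ) : v3 t T = c1f_v t := by
  first | rfl | (simp only [v3, v0]; done) | (simp only [v3, v0]; push_cast; (try simp only [hs3]); (try ring))

theorem e5 (t T : ℝ) : v5 t T = T - t := by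
  first | rfl | (simp only [v5, v4, v0]; done) | (simp only [v5, v4, v0]; push_cast; (try simp only [hs3]); (try ring))

theorem e7 (t T : ℝ) : v7 t T = -(c3f_v T) := by
  first | rfl | (simp only [v7, v6, v4]; done) | (simp only [v7, v6, v4]; push_cast; (try simp only [hs3]); (try ring))

theorem e8 (t T : ℝ) : v8 t T = (-(c3f_v T) - c1f_v t) := by
  first | rfl | (simp only [v8, e7, e3]; done) | (simp only [v8, e7, e3]; push_cast; (try simp only [hs3]); (try ring))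

theorem e9 (t T : ℝ) : v9 t T = exf_v (c1f_v t) (-(c3f_v T)) t T := by
  first | rfl | (simp only [v9, e3, e7, v0, v4]; done) | (simp only [v9, e3, e7, v0, v4]; push_cast; (try simp only [hs3]); (try ring))

theorem e10 (t T : ℝ) : v10 t T = -(T - t) := by
  first | rfl | (simp only [v10, v0, v4]; done) | (simp only [v10, v0, v4]; push_cast; (try simp only [hs3]); (try ring))

theorem e11 (t T : ℝ) : v11 t T = q3f_v (-(c3f_v T) - c1f_v t) (T - t) := by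
  first | rfl | (simp only [v11, e8, e5]; done) | (simp only [v11, e8, e5]; push_cast; (try simp only [hs3]); (try ring))

theorem e13 (t T : ℝ) : v13 t T = 1 - q3f_v (-(c3f_v T) - c1f_v t) (T - t) := by
  first | rfl | (simp only [v13, v12, e11]; done) | (simp only [v13, v12, e11]; push_cast; (try simp only [hs3]); (try ring))

theorem e15 (t T : ℝ) : v15 t T = q3f_v (-(c3f_v T) - c1f_v t) (T - t) - 3 := by
  first | rfl | (simp only [v15, e11, v14]; done) | (simp only [v15, e11, v14]; push_cast; (try simp only [hs3]); (try ring))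

theorem e18 (t T : ℝ) : v18 t T = -(exf_v (c1f_v t) (-(c3f_v T)) t T + 1 / 2) := by
  first | rfl | (simp only [v18, v17, e9, v16]; done) | (simp only [v18, v17, e9, v16]; push_cast; (try simp only [hs3]); (try ring))

theorem e19 (t T : ℝ) : v19 t T = a1q0_v t := by
  first | rfl | (simp only [v19, v0]; done) | (simp only [v19, v0]; push_cast; (try simp only [hs3]); (try ring))

theorem e21 (t T : ℝ) : v21 t T = -(a3q2_v T) := by
  first | rfl | (simp only [v21, v20, v4]; done) | (simp only [v21, v20, v4]; push_cast; (try simp only [hs3]); (try ring))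

theorem e22 (t T : ℝ) : v22 t T = rq1_v (-(c3f_v T) - c1f_v t) (T - t) := by
  first | rfl | (simp only [v22, e8, e5]; done) | (simp only [v22, e8, e5]; push_cast; (try simp only [hs3]); (try ring))

theorem e23 (t T : ℝ) : v23 t T = sl012_v (exf_v (c1f_v t) (-(c3f_v T)) t T) t (T - t) T (a1q0_v t) (rq1_v (-(c3f_v T) - c1f_v t) (T - t)) (-(a3q2_v T)) := by
  first | rfl | (simp only [v23, e9, v0, e5, v4, e19, e22, e21]; done) | (simp only [v23, e9, v0, e5, v4, e19, e22, e21]; push_cast; (try simp only [hs3]); (try ring))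

theorem e25 (t T : ℝ) : v25 t T = -(1 / 2 * Pool.Agent.StripNear.h0 - (T - t)) := by
  first | rfl | (simp only [v25, e5, v24, v1]; done) | (simp only [v25, e5, v24, v1]; push_cast; (try simp only [hs3]); (try ring))

theorem e26 (t T : ℝ) : v26 t T = -((T - t) - 1 / 2 * Pool.Agent.StripNear.h0) := by
  first | rfl | (simp only [v26, v24, v1, e5]; done) | (simp only [v26, v24, v1, e5]; push_cast; (try simp only [hs3]); (try ring))

theorem e27 (t T : ℝ) : v27 t T = -((T - t) - 1 * Pool.Agent.StripNear.h0) := by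
  first | rfl | (simp only [v27, v2, v1, e5]; done) | (simp only [v27, v2, v1, e5]; push_cast; (try simp only [hs3]); (try ring))

theorem e28 (t T : ℝ) : v28 t T = -(1 * Pool.Agent.StripNear.h0 - (T - t)) := by
  first | rfl | (simp only [v28, e5, v2, v1]; done) | (simp only [v28, e5, v2, v1]; push_cast; (try simp only [hs3]); (try ring))

theorem e29 (t T : ℝ) : v29 t T = rq2_v (-(c3f_v T) - c1f_v t) (T - t) := by
  first | rfl | (simp only [v29, e8, e5]; done) | (simp only [v29, e8, e5]; push_cast; (try simp only [hs3]); (try ring))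

theorem e30 (t T : ℝ) : v30 t T = sl022_v (exf_v (c1f_v t) (-(c3f_v T)) t T) t (T - t) T (a1q0_v t) (rq2_v (-(c3f_v T) - c1f_v t) (T - t)) (-(a3q2_v T)) := by
  first | rfl | (simp only [v30, e9, v0, e5, v4, e19, e29, e21]; done) | (simp only [v30, e9, v0, e5, v4, e19, e29, e21]; push_cast; (try simp only [hs3]); (try ring))

theorem e32 (t T : ℝ) : v32 t T = -((T - t) - 3 / 2 * Pool.Agent.StripNear.h0) := by
  first | rfl | (simp only [v32, v31, v1, e5]; done) | (simp only [v32, v31, v1, e5]; push_cast; (try simp only [hs3]); (try ring))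

theorem e33 (t T : ℝ) : v33 t T = -(3 / 2 * Pool.Agent.StripNear.h0 - (T - t)) := by
  first | rfl | (simp only [v33, e5, v31, v1]; done) | (simp only [v33, e5, v31, v1]; push_cast; (try simp only [hs3]); (try ring))

theorem e39 (t T : ℝ) : v39 t T = 1 / 16 - ((3 / 2 * c1f_v t - Pool.Agent.StripNear.h0 * t) - -(c3f_v T)) := by
  first | rfl | (simp only [v39, v38, v37, v36, v34, e3, v35, v2, v1, v0, v6, v4]; done) | (simp only [v39, v38, v37, v36, v34, e3, v35, v2, v1, v0, v6, v4]; push_cast; (try simp only [hs3]); (try ring))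

theorem e40 (t T : ℝ) : v40 t T = 1 / 16 + ((3 / 2 * c1f_v t - Pool.Agent.StripNear.h0 * t) - -(c3f_v T)) := by
  first | rfl | (simp only [v40, v38, v37, v36, v34, e3, v35, v2, v1, v0, v6, v4]; done) | (simp only [v40, v38, v37, v36, v34, e3, v35, v2, v1, v0, v6, v4]; push_cast; (try simp only [hs3]); (try ring))

theorem e42 (t T : ℝ) : v42 t T = -(T - 1 * Pool.Agent.StripNear.h0) := by
  first | rfl | (simp only [v42, v2, v1, v4]; done) | (simp only [v42, v2, v1, v4]; push_cast; (try simp only [hs3]); (try ring))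

theorem e43 (t T : ℝ) : v43 t T = -(T - 3 / 2 * Pool.Agent.StripNear.h0) := by
  first | rfl | (simp only [v43, v31, v1, v4]; done) | (simp only [v43, v31, v1, v4]; push_cast; (try simp only [hs3]); (try ring))

theorem e44 (t T : ℝ) : v44 t T = -(3 / 2 * Pool.Agent.StripNear.h0 - T) := by
  first | rfl | (simp only [v44, v4, v31, v1]; done) | (simp only [v44, v4, v31, v1]; push_cast; (try simp only [hs3]); (try ring))

theorem e46 (t T : ℝ) : v46 t T = -(a3q3_v T) := by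
  first | rfl | (simp only [v46, v45, v4]; done) | (simp only [v46, v45, v4]; push_cast; (try simp only [hs3]); (try ring))

theorem e47 (t T : ℝ) : v47 t T = sl023_v (exf_v (c1f_v t) (-(c3f_v T)) t T) t (T - t) T (a1q0_v t) (rq2_v (-(c3f_v T) - c1f_v t) (T - t)) (-(a3q3_v T)) := by
  first | rfl | (simp only [v47, e9, v0, e5, v4, e19, e29, e46]; done) | (simp only [v47, e9, v0, e5, v4, e19, e29, e46]; push_cast; (try simp only [hs3]); (try ring))

theorem e48 (t T : ℝ) : v48 t T = rq3_v (-(c3f_v T) - c1f_v t) (T - t) := by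
  first | rfl | (simp only [v48, e8, e5]; done) | (simp only [v48, e8, e5]; push_cast; (try simp only [hs3]); (try ring))

theorem e49 (t T : ℝ) : v49 t T = sl033_v (exf_v (c1f_v t) (-(c3f_v T)) t T) t (T - t) T (a1q0_v t) (rq3_v (-(c3f_v T) - c1f_v t) (T - t)) (-(a3q3_v T)) := by
  first | rfl | (simp only [v49, e9, v0, e5, v4, e19, e48, e46]; done) | (simp only [v49, e9, v0, e5, v4, e19, e48, e46]; push_cast; (try simp only [hs3]); (try ring))

theorem e50 (t T : ℝ) : v50 t T = -(t - 1 / 2 * Pool.Agent.StripNear.h0) := by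
  first | rfl | (simp only [v50, v24, v1, v0]; done) | (simp only [v50, v24, v1, v0]; push_cast; (try simp only [hs3]); (try ring))

theorem e51 (t T : ℝ) : v51 t T = -(1 / 2 * Pool.Agent.StripNear.h0 - t) := by
  first | rfl | (simp only [v51, v0, v24, v1]; done) | (simp only [v51, v0, v24, v1]; push_cast; (try simp only [hs3]); (try ring))

theorem e52 (t T : ℝ) : v52 t T = a1q1_v t := by
  first | rfl | (simp only [v52, v0]; done) | (simp only [v52, v0]; push_cast; (try simp only [hs3]); (try ring))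

theorem e53 (t T : ℝ) : v53 t T = rq0_v (-(c3f_v T) - c1f_v t) (T - t) := by
  first | rfl | (simp only [v53, e8, e5]; done) | (simp only [v53, e8, e5]; push_cast; (try simp only [hs3]); (try ring))

theorem e54 (t T : ℝ) : v54 t T = sl102_v (exf_v (c1f_v t) (-(c3f_v T)) t T) t (T - t) T (a1q1_v t) (rq0_v (-(c3f_v T) - c1f_v t) (T - t)) (-(a3q2_v T)) := by
  first | rfl | (simp only [v54, e9, v0, e5, v4, e52, e53, e21]; done) | (simp only [v54, e9, v0, e5, v4, e52, e53, e21]; push_cast; (try simp only [hs3]); (try ring))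

theorem e55 (t T : ℝ) : v55 t T = sl112_v (exf_v (c1f_v t) (-(c3f_v T)) t T) t (T - t) T (a1q1_v t) (rq1_v (-(c3f_v T) - c1f_v t) (T - t)) (-(a3q2_v T)) := by
  first | rfl | (simp only [v55, e9, v0, e5, v4, e52, e22, e21]; done) | (simp only [v55, e9, v0, e5, v4, e52, e22, e21]; push_cast; (try simp only [hs3]); (try ring))

theorem e56 (t T : ℝ) : v56 t T = sl113_v (exf_v (c1f_v t) (-(c3f_v T)) t T) t (T - t) T (a1q1_v t) (rq1_v (-(c3f_v T) - c1f_v t) (T - t)) (-(a3q3_v T)) := by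
  first | rfl | (simp only [v56, e9, v0, e5, v4, e52, e22, e46]; done) | (simp only [v56, e9, v0, e5, v4, e52, e22, e46]; push_cast; (try simp only [hs3]); (try ring))

theorem e59 (t T : ℝ) : v59 t T = 1/10 - (1 * Pool.Agent.StripNear.h0 - t) := by
  first | rfl | (simp only [v59, v58, v57, v2, v1, v0]; done) | (simp only [v59, v58, v57, v2, v1, v0]; push_cast; (try simp only [hs3]); (try ring))

theorem e60 (t T : ℝ) : v60 t T = 1/10 - (1 * Pool.Agent.StripNear.h0 - (T - t)) := by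
  first | rfl | (simp only [v60, v58, e27]; done) | (simp only [v60, v58, e27]; push_cast; (try simp only [hs3]); (try ring))

theorem e62 (t T : ℝ) : v62 t T = 1/10 - (2 * Pool.Agent.StripNear.h0 - T) := by
  first | rfl | (simp only [v62, v58, v61, v1, v4]; done) | (simp only [v62, v58, v61, v1, v4]; push_cast; (try simp only [hs3]); (try ring))

theorem e63 (t T : ℝ) : v63 t T = sl123_v (exf_v (c1f_v t) (-(c3f_v T)) t T) t (T - t) T (a1q1_v t) (rq2_v (-(c3f_v T) - c1f_v t) (T - t)) (-(a3q3_v T)) := by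
  first | rfl | (simp only [v63, e9, v0, e5, v4, e52, e29, e46]; done) | (simp only [v63, e9, v0, e5, v4, e52, e29, e46]; push_cast; (try simp only [hs3]); (try ring))

theorem e64 (t T : ℝ) : v64 t T = 1/10 - ((T - t) - 1 * Pool.Agent.StripNear.h0) := by
  first | rfl | (simp only [v64, v58, e28]; done) | (simp only [v64, v58, e28]; push_cast; (try simp only [hs3]); (try ring))

theorem e65 (t T : ℝ) : v65 t T = sl133_v (exf_v (c1f_v t) (-(c3f_v T)) t T) t (T - t) T (a1q1_v t) (rq3_v (-(c3f_v T) - c1f_v t) (T - t)) (-(a3q3_v T)) := by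
  first | rfl | (simp only [v65, e9, v0, e5, v4, e52, e48, e46]; done) | (simp only [v65, e9, v0, e5, v4, e52, e48, e46]; push_cast; (try simp only [hs3]); (try ring))

theorem e66 (t T : ℝ) : v66 t T = -(1 * Pool.Agent.StripNear.h0 - t) := by
  first | rfl | (simp only [v66, v0, v2, v1]; done) | (simp only [v66, v0, v2, v1]; push_cast; (try simp only [hs3]); (try ring))

theorem mem0 {t T : ℝ} (h1 : 0 ≤ t) (h2 : t ≤ Pool.Agent.StripNear.h0) (h3 : Pool.Agent.StripNear.h0 ≤ T) (h4 : T ≤ 2 * Pool.Agent.StripNear.h0) : Mem S b0 t T := by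
  have g1 := h0_lo
  have g2 := h0_hi
  unfold Mem b0
  refine ⟨abs_le.mpr ⟨?_, ?_⟩, abs_le.mpr ⟨?_, ?_⟩⟩ <;> norm_num [S] <;> linarith

theorem fin012 {t T : ℝ} (h1 : 0 * Pool.Agent.StripNear.h0 ≤ t) (h1' : t ≤ 1 / 2 * Pool.Agent.StripNear.h0) (h2 : 1 * Pool.Agent.StripNear.h0 ≤ T) (h2' : T ≤ 3 / 2 * Pool.Agent.StripNear.h0) (h3 : 1 / 2 * Pool.Agent.StripNear.h0 ≤ T - t) (h3' : T - t ≤ 1 * Pool.Agent.StripNear.h0) (h6 : t ≤ T) (ho : 0 ≤ exf_v (c1f_v t) (-(c3f_v T)) t T + 1 / 2) (hq1 : 1 ≤ q3f_v (-(c3f_v T) - c1f_v t) (T - t)) (hq3 : q3f_v (-(c3f_v T) - c1f_v t) (T - t) ≤ 3) :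
    0 < sl012_v (exf_v (c1f_v t) (-(c3f_v T)) t T) t (T - t) T (a1q0_v t) (rq1_v (-(c3f_v T) - c1f_v t) (T - t)) (-(a3q2_v T)) := by
  have hp := Pool.Agent.StripNear.h0_pos
  have hm : Mem S b0 t T := mem0 (by linarith) (by linarith) (by linarith) (by linarith)
  have h : Q t T := all t T hm
  unfold Q P15 at h
  rcases h with (h | h | h | h) | h
  · exfalso; rw [e10] at h; linarith
  · exfalso; rw [e13] at h; linarith
  · exfalso; rw [e15] at h; linarith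
  · exfalso; rw [e18] at h; linarith
  replace h := h.1
  unfold P6 at h
  rcases h with h | h
  · exfalso; rw [e51] at h; linarith
  replace h := h.1
  unfold P2 at h
  rcases h with (h | h) | h
  · exfalso; rw [e42] at h; linarith
  · exfalso; rw [e44] at h; linarith
  replace h := h.1
  unfold P0 at h
  rcases h with h | h | h
  · exfalso; rw [e26] at h; linarith
  · exfalso; rw [e28] at h; linarith
  · rw [e23] at h; exact h

theorem fin022 {t T : ℝ} (h1 : 0 * Pool.Agent.StripNear.h0 ≤ t) (h1' : t ≤ 1 / 2 * Pool.Agent.StripNear.h0) (h2 : 1 * Pool.Agent.StripNear.h0 ≤ T) (h2' : T ≤ 3 / 2 * Pool.Agent.StripNear.h0) (h3 : 1 * Pool.Agent.StripNear.h0 ≤ T - t) (h3' : T - t ≤ 3 / 2 * Pool.Agent.StripNear.h0) (h6 : t ≤ T) (ho : 0 ≤ exf_v (c1f_v t) (-(c3f_v T)) t T + 1 / 2) (hq1 : 1 ≤ q3f_v (-(c3f_v T) - c1f_v t) (T - t)) (hq3 : q3f_v (-(c3f_v T) - c1f_v t) (T - t) ≤ 3) :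
    (0 < 1 / 16 - ((3 / 2 * c1f_v t - Pool.Agent.StripNear.h0 * t) - -(c3f_v T)) ∧ 0 < 1 / 16 + ((3 / 2 * c1f_v t - Pool.Agent.StripNear.h0 * t) - -(c3f_v T))) ∨ 0 < sl022_v (exf_v (c1f_v t) (-(c3f_v T)) t T) t (T - t) T (a1q0_v t) (rq2_v (-(c3f_v T) - c1f_v t) (T - t)) (-(a3q2_v T)) := by
  have hp := Pool.Agent.StripNear.h0_pos
  have hm : Mem S b0 t T := mem0 (by linarith) (by linarith) (by linarith) (by linarith)
  have h : Q t T := all t T hm
  unfold Q P15 at h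
  rcases h with (h | h | h | h) | h
  · exfalso; rw [e10] at h; linarith
  · exfalso; rw [e13] at h; linarith
  · exfalso; rw [e15] at h; linarith
  · exfalso; rw [e18] at h; linarith
  replace h := h.1
  unfold P6 at h
  rcases h with h | h
  · exfalso; rw [e51] at h; linarith
  replace h := h.1
  unfold P2 at h
  rcases h with (h | h) | h
  · exfalso; rw [e42] at h; linarith
  · exfalso; rw [e44] at h; linarith
  replace h := h.2
  unfold P1 at h
  rcases h with h | h | h | h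
  · exfalso; rw [e27] at h; linarith
  · exfalso; rw [e33] at h; linarith
  · left; simp only [e39, e40] at h; exact h
  · right; rw [e30] at h; exact h

theorem fin023 {t T : ℝ} (h1 : 0 * Pool.Agent.StripNear.h0 ≤ t) (h1' : t ≤ 1 / 2 * Pool.Agent.StripNear.h0) (h2 : 3 / 2 * Pool.Agent.StripNear.h0 ≤ T) (h2' : T ≤ 2 * Pool.Agent.StripNear.h0) (h3 : 1 * Pool.Agent.StripNear.h0 ≤ T - t) (h3' : T - t ≤ 3 / 2 * Pool.Agent.StripNear.h0) (h6 : t ≤ T) (ho : 0 ≤ exf_v (c1f_v t) (-(c3f_v T)) t T + 1 / 2) (hq1 : 1 ≤ q3f_v (-(c3f_v T) - c1f_v t) (T - t)) (hq3 : q3f_v (-(c3f_v T) - c1f_v t) (T - t) ≤ 3) :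
    (0 < 1 / 16 - ((3 / 2 * c1f_v t - Pool.Agent.StripNear.h0 * t) - -(c3f_v T)) ∧ 0 < 1 / 16 + ((3 / 2 * c1f_v t - Pool.Agent.StripNear.h0 * t) - -(c3f_v T))) ∨ 0 < sl023_v (exf_v (c1f_v t) (-(c3f_v T)) t T) t (T - t) T (a1q0_v t) (rq2_v (-(c3f_v T) - c1f_v t) (T - t)) (-(a3q3_v T)) := by
  have hp := Pool.Agent.StripNear.h0_pos
  have hm : Mem S b0 t T := mem0 (by linarith) (by linarith) (by linarith) (by linarith)
  have h : Q t T := all t T hm
  unfold Q P15 at h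
  rcases h with (h | h | h | h) | h
  · exfalso; rw [e10] at h; linarith
  · exfalso; rw [e13] at h; linarith
  · exfalso; rw [e15] at h; linarith
  · exfalso; rw [e18] at h; linarith
  replace h := h.1
  unfold P6 at h
  rcases h with h | h
  · exfalso; rw [e51] at h; linarith
  replace h := h.2
  unfold P5 at h
  rcases h with h | h
  · exfalso; rw [e43] at h; linarith
  replace h := h.1
  unfold P3 at h
  rcases h with h | h | h | h
  · exfalso; rw [e27] at h; linarith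
  · exfalso; rw [e33] at h; linarith
  · left; simp only [e39, e40] at h; exact h
  · right; rw [e47] at h; exact h

theorem fin033 {t T : ℝ} (h1 : 0 * Pool.Agent.StripNear.h0 ≤ t) (h1' : t ≤ 1 / 2 * Pool.Agent.StripNear.h0) (h2 : 3 / 2 * Pool.Agent.StripNear.h0 ≤ T) (h2' : T ≤ 2 * Pool.Agent.StripNear.h0) (h3 : 3 / 2 * Pool.Agent.StripNear.h0 ≤ T - t) (h3' : T - t ≤ 2 * Pool.Agent.StripNear.h0) (h6 : t ≤ T) (ho : 0 ≤ exf_v (c1f_v t) (-(c3f_v T)) t T + 1 / 2) (hq1 : 1 ≤ q3f_v (-(c3f_v T) - c1f_v t) (T - t)) (hq3 : q3f_v (-(c3f_v T) - c1f_v t) (T - t) ≤ 3) :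
    0 < sl033_v (exf_v (c1f_v t) (-(c3f_v T)) t T) t (T - t) T (a1q0_v t) (rq3_v (-(c3f_v T) - c1f_v t) (T - t)) (-(a3q3_v T)) := by
  have hp := Pool.Agent.StripNear.h0_pos
  have hm : Mem S b0 t T := mem0 (by linarith) (by linarith) (by linarith) (by linarith)
  have h : Q t T := all t T hm
  unfold Q P15 at h
  rcases h with (h | h | h | h) | h
  · exfalso; rw [e10] at h; linarith
  · exfalso; rw [e13] at h; linarith
  · exfalso; rw [e15] at h; linarith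
  · exfalso; rw [e18] at h; linarith
  replace h := h.1
  unfold P6 at h
  rcases h with h | h
  · exfalso; rw [e51] at h; linarith
  replace h := h.2
  unfold P5 at h
  rcases h with h | h
  · exfalso; rw [e43] at h; linarith
  replace h := h.2
  unfold P4 at h
  rcases h with h | h
  · exfalso; rw [e32] at h; linarith
  · rw [e49] at h; exact h

theorem fin102 {t T : ℝ} (h1 : 1 / 2 * Pool.Agent.StripNear.h0 ≤ t) (h1' : t ≤ 1 * Pool.Agent.StripNear.h0) (h2 : 1 * Pool.Agent.StripNear.h0 ≤ T) (h2' : T ≤ 3 / 2 * Pool.Agent.StripNear.h0) (h3 : 0 * Pool.Agent.StripNear.h0 ≤ T - t) (h3' : T - t ≤ 1 / 2 * Pool.Agent.StripNear.h0) (h6 : t ≤ T) (ho : 0 ≤ exf_v (c1f_v t) (-(c3f_v T)) t T + 1 / 2) (hq1 : 1 ≤ q3f_v (-(c3f_v T) - c1f_v t) (T - t)) (hq3 : q3f_v (-(c3f_v T) - c1f_v t) (T - t) ≤ 3) :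
    0 < sl102_v (exf_v (c1f_v t) (-(c3f_v T)) t T) t (T - t) T (a1q1_v t) (rq0_v (-(c3f_v T) - c1f_v t) (T - t)) (-(a3q2_v T)) := by
  have hp := Pool.Agent.StripNear.h0_pos
  have hm : Mem S b0 t T := mem0 (by linarith) (by linarith) (by linarith) (by linarith)
  have h : Q t T := all t T hm
  unfold Q P15 at h
  rcases h with (h | h | h | h) | h
  · exfalso; rw [e10] at h; linarith
  · exfalso; rw [e13] at h; linarith
  · exfalso; rw [e15] at h; linarith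
  · exfalso; rw [e18] at h; linarith
  replace h := h.2
  unfold P14 at h
  rcases h with (h | h) | h
  · exfalso; rw [e50] at h; linarith
  · exfalso; rw [e66] at h; linarith
  replace h := h.1
  unfold P9 at h
  rcases h with (h | h) | h
  · exfalso; rw [e42] at h; linarith
  · exfalso; rw [e44] at h; linarith
  replace h := h.1
  unfold P7 at h
  rcases h with h | h
  · exfalso; rw [e25] at h; linarith
  · rw [e54] at h; exact h

theorem fin112 {t T : ℝ} (h1 : 1 / 2 * Pool.Agent.StripNear.h0 ≤ t) (h1' : t ≤ 1 * Pool.Agent.StripNear.h0) (h2 : 1 * Pool.Agent.StripNear.h0 ≤ T) (h2' : T ≤ 3 / 2 * Pool.Agent.StripNear.h0) (h3 : 1 / 2 * Pool.Agent.StripNear.h0 ≤ T - t) (h3' : T - t ≤ 1 * Pool.Agent.StripNear.h0) (h6 : t ≤ T) (ho : 0 ≤ exf_v (c1f_v t) (-(c3f_v T)) t T + 1 / 2) (hq1 : 1 ≤ q3f_v (-(c3f_v T) - c1f_v t) (T - t)) (hq3 : q3f_v (-(c3f_v T) - c1f_v t) (T - t) ≤ 3) :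
    0 < sl112_v (exf_v (c1f_v t) (-(c3f_v T)) t T) t (T - t) T (a1q1_v t) (rq1_v (-(c3f_v T) - c1f_v t) (T - t)) (-(a3q2_v T)) := by
  have hp := Pool.Agent.StripNear.h0_pos
  have hm : Mem S b0 t T := mem0 (by linarith) (by linarith) (by linarith) (by linarith)
  have h : Q t T := all t T hm
  unfold Q P15 at h
  rcases h with (h | h | h | h) | h
  · exfalso; rw [e10] at h; linarith
  · exfalso; rw [e13] at h; linarith
  · exfalso; rw [e15] at h; linarith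
  · exfalso; rw [e18] at h; linarith
  replace h := h.2
  unfold P14 at h
  rcases h with (h | h) | h
  · exfalso; rw [e50] at h; linarith
  · exfalso; rw [e66] at h; linarith
  replace h := h.1
  unfold P9 at h
  rcases h with (h | h) | h
  · exfalso; rw [e42] at h; linarith
  · exfalso; rw [e44] at h; linarith
  replace h := h.2
  unfold P8 at h
  rcases h with h | h | h
  · exfalso; rw [e26] at h; linarith
  · exfalso; rw [e28] at h; linarith
  · rw [e55] at h; exact h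

theorem fin113 {t T : ℝ} (h1 : 1 / 2 * Pool.Agent.StripNear.h0 ≤ t) (h1' : t ≤ 1 * Pool.Agent.StripNear.h0) (h2 : 3 / 2 * Pool.Agent.StripNear.h0 ≤ T) (h2' : T ≤ 2 * Pool.Agent.StripNear.h0) (h3 : 1 / 2 * Pool.Agent.StripNear.h0 ≤ T - t) (h3' : T - t ≤ 1 * Pool.Agent.StripNear.h0) (h6 : t ≤ T) (ho : 0 ≤ exf_v (c1f_v t) (-(c3f_v T)) t T + 1 / 2) (hq1 : 1 ≤ q3f_v (-(c3f_v T) - c1f_v t) (T - t)) (hq3 : q3f_v (-(c3f_v T) - c1f_v t) (T - t) ≤ 3) :
    (0 < 1/10 - (1 * Pool.Agent.StripNear.h0 - t) ∧ 0 < 1/10 - (1 * Pool.Agent.StripNear.h0 - (T - t)) ∧ 0 < 1/10 - (2 * Pool.Agent.StripNear.h0 - T)) ∨ 0 < sl113_v (exf_v (c1f_v t) (-(c3f_v T)) t T) t (T - t) T (a1q1_v t) (rq1_v (-(c3f_v T) - c1f_v t) (T - t)) (-(a3q3_v T)) := by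
  have hp := Pool.Agent.StripNear.h0_pos
  have hm : Mem S b0 t T := mem0 (by linarith) (by linarith) (by linarith) (by linarith)
  have h : Q t T := all t T hm
  unfold Q P15 at h
  rcases h with (h | h | h | h) | h
  · exfalso; rw [e10] at h; linarith
  · exfalso; rw [e13] at h; linarith
  · exfalso; rw [e15] at h; linarith
  · exfalso; rw [e18] at h; linarith
  replace h := h.2
  unfold P14 at h
  rcases h with (h | h) | h
  · exfalso; rw [e50] at h; linarith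
  · exfalso; rw [e66] at h; linarith
  replace h := h.2
  unfold P13 at h
  rcases h with h | h
  · exfalso; rw [e43] at h; linarith
  replace h := h.1
  unfold P10 at h
  rcases h with h | h | h | h
  · exfalso; rw [e26] at h; linarith
  · exfalso; rw [e28] at h; linarith
  · left; simp only [e59, e60, e62] at h; exact h
  · right; rw [e56] at h; exact h

theorem fin123 {t T : ℝ} (h1 : 1 / 2 * Pool.Agent.StripNear.h0 ≤ t) (h1' : t ≤ 1 * Pool.Agent.StripNear.h0) (h2 : 3 / 2 * Pool.Agent.StripNear.h0 ≤ T) (h2' : T ≤ 2 * Pool.Agent.StripNear.h0) (h3 : 1 * Pool.Agent.StripNear.h0 ≤ T - t) (h3' : T - t ≤ 3 / 2 * Pool.Agent.StripNear.h0) (h6 : t ≤ T) (ho : 0 ≤ exf_v (c1f_v t) (-(c3f_v T)) t T + 1 / 2) (hq1 : 1 ≤ q3f_v (-(c3f_v T) - c1f_v t) (T - t)) (hq3 : q3f_v (-(c3f_v T) - c1f_v t) (T - t) ≤ 3) :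
    (0 < 1/10 - (1 * Pool.Agent.StripNear.h0 - t) ∧ 0 < 1/10 - ((T - t) - 1 * Pool.Agent.StripNear.h0) ∧ 0 < 1/10 - (2 * Pool.Agent.StripNear.h0 - T)) ∨ (0 < 1 / 16 - ((3 / 2 * c1f_v t - Pool.Agent.StripNear.h0 * t) - -(c3f_v T)) ∧ 0 < 1 / 16 + ((3 / 2 * c1f_v t - Pool.Agent.StripNear.h0 * t) - -(c3f_v T))) ∨ 0 < sl123_v (exf_v (c1f_v t) (-(c3f_v T)) t T) t (T - t) T (a1q1_v t) (rq2_v (-(c3f_v T) - c1f_v t) (T - t)) (-(a3q3_v T)) := by
  have hp := Pool.Agent.StripNear.h0_pos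
  have hm : Mem S b0 t T := mem0 (by linarith) (by linarith) (by linarith) (by linarith)
  have h : Q t T := all t T hm
  unfold Q P15 at h
  rcases h with (h | h | h | h) | h
  · exfalso; rw [e10] at h; linarith
  · exfalso; rw [e13] at h; linarith
  · exfalso; rw [e15] at h; linarith
  · exfalso; rw [e18] at h; linarith
  replace h := h.2
  unfold P14 at h
  rcases h with (h | h) | h
  · exfalso; rw [e50] at h; linarith
  · exfalso; rw [e66] at h; linarith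
  replace h := h.2
  unfold P13 at h
  rcases h with h | h
  · exfalso; rw [e43] at h; linarith
  replace h := h.2.1
  unfold P11 at h
  rcases h with h | h | h | h | h
  · exfalso; rw [e27] at h; linarith
  · exfalso; rw [e33] at h; linarith
  · left; simp only [e59, e64, e62] at h; exact h
  · right; left; simp only [e39, e40] at h; exact h
  · right; right; rw [e63] at h; exact h

theorem fin133 {t T : ℝ} (h1 : 1 / 2 * Pool.Agent.StripNear.h0 ≤ t) (h1' : t ≤ 1 * Pool.Agent.StripNear.h0) (h2 : 3 / 2 * Pool.Agent.StripNear.h0 ≤ T) (h2' : T ≤ 2 * Pool.Agent.StripNear.h0) (h3 : 3 / 2 * Pool.Agent.StripNear.h0 ≤ T - t) (h3' : T - t ≤ 2 * Pool.Agent.StripNear.h0) (h6 : t ≤ T) (ho : 0 ≤ exf_v (c1f_v t) (-(c3f_v T)) t T + 1 / 2) (hq1 : 1 ≤ q3f_v (-(c3f_v T) - c1f_v t) (T - t)) (hq3 : q3f_v (-(c3f_v T) - c1f_v t) (T - t) ≤ 3) :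
    0 < sl133_v (exf_v (c1f_v t) (-(c3f_v T)) t T) t (T - t) T (a1q1_v t) (rq3_v (-(c3f_v T) - c1f_v t) (T - t)) (-(a3q3_v T)) := by
  have hp := Pool.Agent.StripNear.h0_pos
  have hm : Mem S b0 t T := mem0 (by linarith) (by linarith) (by linarith) (by linarith)
  have h : Q t T := all t T hm
  unfold Q P15 at h
  rcases h with (h | h | h | h) | h
  · exfalso; rw [e10] at h; linarith
  · exfalso; rw [e13] at h; linarith
  · exfalso; rw [e15] at h; linarith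
  · exfalso; rw [e18] at h; linarith
  replace h := h.2
  unfold P14 at h
  rcases h with (h | h) | h
  · exfalso; rw [e50] at h; linarith
  · exfalso; rw [e66] at h; linarith
  replace h := h.2
  unfold P13 at h
  rcases h with h | h
  · exfalso; rw [e43] at h; linarith
  replace h := h.2.2
  unfold P12 at h
  rcases h with h | h
  · exfalso; rw [e32] at h; linarith
  · rw [e65] at h; exact h

end Pool.Agent.Strip051.LB.B0m3p_pm
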