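import Pool.Agent.Strip051.Box.C2
import Pool.Agent.Strip051.Box.S30
import Pool.Agent.Strip051.LB.Fn.F2
import Pool.Agent.Strip051.LB.Base

/-! # LINE boxes, subfamily B0p3p_mm -/

namespace Pool.Agent.Strip051.LB.B0p3p_mm

open Pool.Agent.Strip051.Box Pool.Agent.Strip051.Box2

open Pool.Agent.Strip051.LB.Fn Pool.Agent.Strip051.LB.Fn.F2

/-- coordinates of a point of the box -/
def In (b : Bx) (E : Pt) (x1 x2 : ℝ) : Prop :=
  (S : ℝ) * x1 = ((b.p1 : ℝ) - b.n1) + b.q1 * E.e1 ∧ (S : ℝ) * x2 = ((b.p2 : ℝ) - b.n2) + b.q2 * E.e2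

variable {b : Bx} {E : Pt} {x1 x2 : ℝ}

def t0 (b : Bx) : TM := X1 b
noncomputable def v0 (x1 _x2 : ℝ) : ℝ := x1
theorem h0 (h : In b E x1 x2) : Enc S E (t0 b) (v0 x1 x2) := enc_X1 h.1

def t1 (_b : Bx) : TM := tconst 1859775393 0 1
noncomputable def v1 (_x1 _x2 : ℝ) : ℝ := Real.sqrt ((3 : ℕ) : ℝ)
theorem h1 (_h : In b E x1 x2) : Enc S E (t1 b) (v1 x1 x2) := enc_sqrtn E (by decide) (by decide)

def t2 (b : Bx) : TM := tscale 1 2 (t1 b)
noncomputable def v2 (x1 x2 : ℝ) : ℝ := ((1 : ℕ) : ℝ) / ((2 : ℕ) : ℝ) * v1 x1 x2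
theorem h2 (h : In b E x1 x2) : Enc S E (t2 b) (v2 x1 x2) := enc_scale 1 (by norm_num) (h1 h)

def t3 (b : Bx) : TM := c1f_t (t0 b)
noncomputable def v3 (x1 x2 : ℝ) : ℝ := c1f_v (v0 x1 x2)
theorem h3 (h : In b E x1 x2) : Enc S E (t3 b) (v3 x1 x2) := c1f_enc (h0 h)

def t4 (b : Bx) : TM := tneg (t3 b)
noncomputable def v4 (x1 x2 : ℝ) : ℝ := -(v3 x1 x2)
theorem h4 (h : In b E x1 x2) : Enc S E (t4 b) (v4 x1 x2) := enc_neg (h3 h)

def t5 (b : Bx) : TM := X2 b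
noncomputable def v5 (_x1 x2 : ℝ) : ℝ := x2
theorem h5 (h : In b E x1 x2) : Enc S E (t5 b) (v5 x1 x2) := enc_X2 h.2

def t6 (b : Bx) : TM := tsub (t5 b) (t0 b)
noncomputable def v6 (x1 x2 : ℝ) : ℝ := v5 x1 x2 - v0 x1 x2
theorem h6 (h : In b E x1 x2) : Enc S E (t6 b) (v6 x1 x2) := enc_sub (h5 h) (h0 h)

def t7 (b : Bx) : TM := c3f_t (t5 b)
noncomputable def v7 (x1 x2 : ℝ) : ℝ := c3f_v (v5 x1 x2)
theorem h7 (h : In b E x1 x2) : Enc S E (t7 b) (v7 x1 x2) := c3f_enc (h5 h)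

def t8 (b : Bx) : TM := tneg (t7 b)
noncomputable def v8 (x1 x2 : ℝ) : ℝ := -(v7 x1 x2)
theorem h8 (h : In b E x1 x2) : Enc S E (t8 b) (v8 x1 x2) := enc_neg (h7 h)

def t9 (b : Bx) : TM := tsub (t3 b) (t7 b)
noncomputable def v9 (x1 x2 : ℝ) : ℝ := v3 x1 x2 - v7 x1 x2
theorem h9 (h : In b E x1 x2) : Enc S E (t9 b) (v9 x1 x2) := enc_sub (h3 h) (h7 h)

def t10 (b : Bx) : TM := exf_t (t4 b) (t8 b) (t0 b) (t5 b)
noncomputable def v10 (x1 x2 : ℝ) : ℝ := exf_v (v4 x1 x2) (v8 x1 x2) (v0 x1 x2) (v5 x1 x2)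
theorem h10 (h : In b E x1 x2) : Enc S E (t10 b) (v10 x1 x2) := exf_enc (h4 h) (h8 h) (h0 h) (h5 h)

def t11 (b : Bx) : TM := tsub (t0 b) (t5 b)
noncomputable def v11 (x1 x2 : ℝ) : ℝ := v0 x1 x2 - v5 x1 x2
theorem h11 (h : In b E x1 x2) : Enc S E (t11 b) (v11 x1 x2) := enc_sub (h0 h) (h5 h)

def t12 (b : Bx) : TM := q3f_t (t9 b) (t6 b)
noncomputable def v12 (x1 x2 : ℝ) : ℝ := q3f_v (v9 x1 x2) (v6 x1 x2)
theorem h12 (h : In b E x1 x2) : Enc S E (t12 b) (v12 x1 x2) := q3f_enc (h9 h) (h6 h)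

def t13 (_b : Bx) : TM := tconst (Nat.mul 1 S) 0 0
noncomputable def v13 (_x1 _x2 : ℝ) : ℝ := ((1 : ℕ) : ℝ)
theorem h13 (_h : In b E x1 x2) : Enc S E (t13 b) (v13 x1 x2) := enc_nc E 1

def t14 (b : Bx) : TM := tsub (t13 b) (t12 b)
noncomputable def v14 (x1 x2 : ℝ) : ℝ := v13 x1 x2 - v12 x1 x2
theorem h14 (h : In b E x1 x2) : Enc S E (t14 b) (v14 x1 x2) := enc_sub (h13 h) (h12 h)

def t15 (_b : Bx) : TM := tconst (Nat.mul 3 S) 0 0
noncomputable def v15 (_x1 _x2 : ℝ) : ℝ := ((3 : ℕ) : ℝ)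
theorem h15 (_h : In b E x1 x2) : Enc S E (t15 b) (v15 x1 x2) := enc_nc E 3

def t16 (b : Bx) : TM := tsub (t12 b) (t15 b)
noncomputable def v16 (x1 x2 : ℝ) : ℝ := v12 x1 x2 - v15 x1 x2
theorem h16 (h : In b E x1 x2) : Enc S E (t16 b) (v16 x1 x2) := enc_sub (h12 h) (h15 h)

def t17 (_b : Bx) : TM := tconst (Nat.div (Nat.mul 1 S) 2) 0 1
noncomputable def v17 (_x1 _x2 : ℝ) : ℝ := ((1 : ℕ) : ℝ) / ((2 : ℕ) : ℝ)
theorem h17 (_h : In b E x1 x2) : Enc S E (t17 b) (v17 x1 x2) := enc_rat E 1 (by norm_num)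

def t18 (b : Bx) : TM := tadd (t10 b) (t17 b)
noncomputable def v18 (x1 x2 : ℝ) : ℝ := v10 x1 x2 + v17 x1 x2
theorem h18 (h : In b E x1 x2) : Enc S E (t18 b) (v18 x1 x2) := enc_add (h10 h) (h17 h)

def t19 (b : Bx) : TM := tneg (t18 b)
noncomputable def v19 (x1 x2 : ℝ) : ℝ := -(v18 x1 x2)
theorem h19 (h : In b E x1 x2) : Enc S E (t19 b) (v19 x1 x2) := enc_neg (h18 h)

def t20 (b : Bx) : TM := a3q2_t (t5 b)
noncomputable def v20 (x1 x2 : ℝ) : ℝ := a3q2_v (v5 x1 x2)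
theorem h20 (h : In b E x1 x2) : Enc S E (t20 b) (v20 x1 x2) := a3q2_enc (h5 h)

def t21 (b : Bx) : TM := tneg (t20 b)
noncomputable def v21 (x1 x2 : ℝ) : ℝ := -(v20 x1 x2)
theorem h21 (h : In b E x1 x2) : Enc S E (t21 b) (v21 x1 x2) := enc_neg (h20 h)

def t22 (b : Bx) : TM := rq0_t (t9 b) (t6 b)
noncomputable def v22 (x1 x2 : ℝ) : ℝ := rq0_v (v9 x1 x2) (v6 x1 x2)
theorem h22 (h : In b E x1 x2) : Enc S E (t22 b) (v22 x1 x2) := rq0_enc (h9 h) (h6 h)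

def t23 (b : Bx) : TM := sl202_t (t10 b) (t0 b) (t6 b) (t5 b) (t4 b) (t22 b) (t21 b)
noncomputable def v23 (x1 x2 : ℝ) : ℝ := sl202_v (v10 x1 x2) (v0 x1 x2) (v6 x1 x2) (v5 x1 x2) (v4 x1 x2) (v22 x1 x2) (v21 x1 x2)
theorem h23 (h : In b E x1 x2) : Enc S E (t23 b) (v23 x1 x2) := sl202_enc (h10 h) (h0 h) (h6 h) (h5 h) (h4 h) (h22 h) (h21 h)

def t24 (b : Bx) : TM := tscale 1 4 (t1 b)
noncomputable def v24 (x1 x2 : ℝ) : ℝ := ((1 : ℕ) : ℝ) / ((4 : ℕ) : ℝ) * v1 x1 x2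
theorem h24 (h : In b E x1 x2) : Enc S E (t24 b) (v24 x1 x2) := enc_scale 1 (by norm_num) (h1 h)

def t25 (b : Bx) : TM := tsub (t24 b) (t6 b)
noncomputable def v25 (x1 x2 : ℝ) : ℝ := v24 x1 x2 - v6 x1 x2
theorem h25 (h : In b E x1 x2) : Enc S E (t25 b) (v25 x1 x2) := enc_sub (h24 h) (h6 h)

def t26 (b : Bx) : TM := tsub (t6 b) (t24 b)
noncomputable def v26 (x1 x2 : ℝ) : ℝ := v6 x1 x2 - v24 x1 x2
theorem h26 (h : In b E x1 x2) : Enc S E (t26 b) (v26 x1 x2) := enc_sub (h6 h) (h24 h)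

def t27 (b : Bx) : TM := tscale 3 2 (t3 b)
noncomputable def v27 (x1 x2 : ℝ) : ℝ := ((3 : ℕ) : ℝ) / ((2 : ℕ) : ℝ) * v3 x1 x2
theorem h27 (h : In b E x1 x2) : Enc S E (t27 b) (v27 x1 x2) := enc_scale 3 (by norm_num) (h3 h)

def t28 (b : Bx) : TM := tneg (t27 b)
noncomputable def v28 (x1 x2 : ℝ) : ℝ := -(v27 x1 x2)
theorem h28 (h : In b E x1 x2) : Enc S E (t28 b) (v28 x1 x2) := enc_neg (h27 h)

def t29 (b : Bx) : TM := tmul S (t2 b) (t0 b)
noncomputable def v29 (x1 x2 : ℝ) : ℝ := v2 x1 x2 * v0 x1 x2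
theorem h29 (h : In b E x1 x2) : Enc S E (t29 b) (v29 x1 x2) := enc_mul hS (h2 h) (h0 h)

def t30 (b : Bx) : TM := tsub (t28 b) (t29 b)
noncomputable def v30 (x1 x2 : ℝ) : ℝ := v28 x1 x2 - v29 x1 x2
theorem h30 (h : In b E x1 x2) : Enc S E (t30 b) (v30 x1 x2) := enc_sub (h28 h) (h29 h)

def t31 (b : Bx) : TM := tadd (t30 b) (t7 b)
noncomputable def v31 (x1 x2 : ℝ) : ℝ := v30 x1 x2 + v7 x1 x2
theorem h31 (h : In b E x1 x2) : Enc S E (t31 b) (v31 x1 x2) := enc_add (h30 h) (h7 h)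

def t32 (_b : Bx) : TM := tconst (Nat.div (Nat.mul 1 S) 16) 0 1
noncomputable def v32 (_x1 _x2 : ℝ) : ℝ := ((1 : ℕ) : ℝ) / ((16 : ℕ) : ℝ)
theorem h32 (_h : In b E x1 x2) : Enc S E (t32 b) (v32 x1 x2) := enc_rat E 1 (by norm_num)

def t33 (b : Bx) : TM := tsub (t32 b) (t31 b)
noncomputable def v33 (x1 x2 : ℝ) : ℝ := v32 x1 x2 - v31 x1 x2
theorem h33 (h : In b E x1 x2) : Enc S E (t33 b) (v33 x1 x2) := enc_sub (h32 h) (h31 h)

def t34 (b : Bx) : TM := tadd (t32 b) (t31 b)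
noncomputable def v34 (x1 x2 : ℝ) : ℝ := v32 x1 x2 + v31 x1 x2
theorem h34 (h : In b E x1 x2) : Enc S E (t34 b) (v34 x1 x2) := enc_add (h32 h) (h31 h)

def t36 (b : Bx) : TM := tsub (t2 b) (t5 b)
noncomputable def v36 (x1 x2 : ℝ) : ℝ := v2 x1 x2 - v5 x1 x2
theorem h36 (h : In b E x1 x2) : Enc S E (t36 b) (v36 x1 x2) := enc_sub (h2 h) (h5 h)

def t37 (b : Bx) : TM := tscale 3 4 (t1 b)
noncomputable def v37 (x1 x2 : ℝ) : ℝ := ((3 : ℕ) : ℝ) / ((4 : ℕ) : ℝ) * v1 x1 x2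
theorem h37 (h : In b E x1 x2) : Enc S E (t37 b) (v37 x1 x2) := enc_scale 3 (by norm_num) (h1 h)

def t38 (b : Bx) : TM := tsub (t37 b) (t5 b)
noncomputable def v38 (x1 x2 : ℝ) : ℝ := v37 x1 x2 - v5 x1 x2
theorem h38 (h : In b E x1 x2) : Enc S E (t38 b) (v38 x1 x2) := enc_sub (h37 h) (h5 h)

def t39 (b : Bx) : TM := tsub (t5 b) (t37 b)
noncomputable def v39 (x1 x2 : ℝ) : ℝ := v5 x1 x2 - v37 x1 x2
theorem h39 (h : In b E x1 x2) : Enc S E (t39 b) (v39 x1 x2) := enc_sub (h5 h) (h37 h)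

def t40 (b : Bx) : TM := a3q3_t (t5 b)
noncomputable def v40 (x1 x2 : ℝ) : ℝ := a3q3_v (v5 x1 x2)
theorem h40 (h : In b E x1 x2) : Enc S E (t40 b) (v40 x1 x2) := a3q3_enc (h5 h)

def t41 (b : Bx) : TM := tneg (t40 b)
noncomputable def v41 (x1 x2 : ℝ) : ℝ := -(v40 x1 x2)
theorem h41 (h : In b E x1 x2) : Enc S E (t41 b) (v41 x1 x2) := enc_neg (h40 h)

def t42 (b : Bx) : TM := sl203_t (t10 b) (t0 b) (t6 b) (t5 b) (t4 b) (t22 b) (t41 b)
noncomputable def v42 (x1 x2 : ℝ) : ℝ := sl203_v (v10 x1 x2) (v0 x1 x2) (v6 x1 x2) (v5 x1 x2) (v4 x1 x2) (v22 x1 x2) (v41 x1 x2)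
theorem h42 (h : In b E x1 x2) : Enc S E (t42 b) (v42 x1 x2) := sl203_enc (h10 h) (h0 h) (h6 h) (h5 h) (h4 h) (h22 h) (h41 h)

def t43 (b : Bx) : TM := rq1_t (t9 b) (t6 b)
noncomputable def v43 (x1 x2 : ℝ) : ℝ := rq1_v (v9 x1 x2) (v6 x1 x2)
theorem h43 (h : In b E x1 x2) : Enc S E (t43 b) (v43 x1 x2) := rq1_enc (h9 h) (h6 h)

def t44 (b : Bx) : TM := sl213_t (t10 b) (t0 b) (t6 b) (t5 b) (t4 b) (t43 b) (t41 b)
noncomputable def v44 (x1 x2 : ℝ) : ℝ := sl213_v (v10 x1 x2) (v0 x1 x2) (v6 x1 x2) (v5 x1 x2) (v4 x1 x2) (v43 x1 x2) (v41 x1 x2)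
theorem h44 (h : In b E x1 x2) : Enc S E (t44 b) (v44 x1 x2) := sl213_enc (h10 h) (h0 h) (h6 h) (h5 h) (h4 h) (h43 h) (h41 h)

def t46 (b : Bx) : TM := tsub (t6 b) (t2 b)
noncomputable def v46 (x1 x2 : ℝ) : ℝ := v6 x1 x2 - v2 x1 x2
theorem h46 (h : In b E x1 x2) : Enc S E (t46 b) (v46 x1 x2) := enc_sub (h6 h) (h2 h)

def t48 (b : Bx) : TM := tsub (t2 b) (t0 b)
noncomputable def v48 (x1 x2 : ℝ) : ℝ := v2 x1 x2 - v0 x1 x2
theorem h48 (h : In b E x1 x2) : Enc S E (t48 b) (v48 x1 x2) := enc_sub (h2 h) (h0 h)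

def t50 (b : Bx) : TM := tsub (t0 b) (t37 b)
noncomputable def v50 (x1 x2 : ℝ) : ℝ := v0 x1 x2 - v37 x1 x2
theorem h50 (h : In b E x1 x2) : Enc S E (t50 b) (v50 x1 x2) := enc_sub (h0 h) (h37 h)

def g0 (b : Bx) : Bool := or (pos (t26 b)) (or (and (pos (t33 b)) (pos (t34 b))) (pos (t23 b)))

def l0 (b : Bx) : Nat := cond (g0 b) 0 (pickb 1 (t23 b) b)

def P0 (x1 x2 : ℝ) : Prop := 0 < v26 x1 x2 ∨ (0 < v33 x1 x2 ∧ 0 < v34 x1 x2) ∨ 0 < v23 x1 x2

theorem l0_sound (h : In b E x1 x2) (e : l0 b = 0) : P0 x1 x2 := by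
  have e1 : g0 b = true := by
    rcases e2 : g0 b with _ | _
    · unfold l0 at e; rw [e2, cond_false] at e; exact absurd e (pickb_ne _ _ _)
    · rfl
  exact ((Bool.or_eq_true_iff.mp e1).imp (fun a => pos_sound hS (h26 h) a) (fun a => ((Bool.or_eq_true_iff.mp a).imp (fun a => ⟨pos_sound hS (h33 h) (Bool.and_eq_true_iff.mp a).1, pos_sound hS (h34 h) (Bool.and_eq_true_iff.mp a).2⟩) (fun a => pos_sound hS (h23 h) a))))

def g1 (b : Bx) : Bool := or (pos (t36 b)) (pos (t39 b))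

def l1 (b : Bx) : Nat := cond (g1 b) 0 (l0 b)

def P1 (x1 x2 : ℝ) : Prop := (0 < v36 x1 x2 ∨ 0 < v39 x1 x2) ∨ (P0 x1 x2)

theorem l1_sound (h : In b E x1 x2) (e : l1 b = 0) : P1 x1 x2 := by
  unfold l1 at e
  rcases e1 : g1 b with _ | _
  · rw [e1, cond_false] at e
    have z0 : l0 b = 0 := e
    exact Or.inr (l0_sound h z0)
  · exact Or.inl (((Bool.or_eq_true_iff.mp e1).imp (fun a => pos_sound hS (h36 h) a) (fun a => pos_sound hS (h39 h) a)))

def g2 (b : Bx) : Bool := or (pos (t26 b)) (or (and (pos (t33 b)) (pos (t34 b))) (pos (t42 b)))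

def l2 (b : Bx) : Nat := cond (g2 b) 0 (pickb 1 (t42 b) b)

def P2 (x1 x2 : ℝ) : Prop := 0 < v26 x1 x2 ∨ (0 < v33 x1 x2 ∧ 0 < v34 x1 x2) ∨ 0 < v42 x1 x2

theorem l2_sound (h : In b E x1 x2) (e : l2 b = 0) : P2 x1 x2 := by
  have e1 : g2 b = true := by
    rcases e2 : g2 b with _ | _
    · unfold l2 at e; rw [e2, cond_false] at e; exact absurd e (pickb_ne _ _ _)
    · rfl
  exact ((Bool.or_eq_true_iff.mp e1).imp (fun a => pos_sound hS (h26 h) a) (fun a => ((Bool.or_eq_true_iff.mp a).imp (fun a => ⟨pos_sound hS (h33 h) (Bool.and_eq_true_iff.mp a).1, pos_sound hS (h34 h) (Bool.and_eq_true_iff.mp a).2⟩) (fun a => pos_sound hS (h42 h) a))))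

def g3 (b : Bx) : Bool := or (pos (t25 b)) (or (pos (t46 b)) (or (and (pos (t33 b)) (pos (t34 b))) (pos (t44 b))))

def l3 (b : Bx) : Nat := cond (g3 b) 0 (pickb 1 (t44 b) b)

def P3 (x1 x2 : ℝ) : Prop := 0 < v25 x1 x2 ∨ 0 < v46 x1 x2 ∨ (0 < v33 x1 x2 ∧ 0 < v34 x1 x2) ∨ 0 < v44 x1 x2

theorem l3_sound (h : In b E x1 x2) (e : l3 b = 0) : P3 x1 x2 := by
  have e1 : g3 b = true := by
    rcases e2 : g3 b with _ | _
    · unfold l3 at e; rw [e2, cond_false] at e; exact absurd e (pickb_ne _ _ _)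
    · rfl
  exact ((Bool.or_eq_true_iff.mp e1).imp (fun a => pos_sound hS (h25 h) a) (fun a => ((Bool.or_eq_true_iff.mp a).imp (fun a => pos_sound hS (h46 h) a) (fun a => ((Bool.or_eq_true_iff.mp a).imp (fun a => ⟨pos_sound hS (h33 h) (Bool.and_eq_true_iff.mp a).1, pos_sound hS (h34 h) (Bool.and_eq_true_iff.mp a).2⟩) (fun a => pos_sound hS (h44 h) a))))))

def g4 (b : Bx) : Bool := pos (t38 b)

def l4 (b : Bx) : Nat := cond (g4 b) 0 (cond (Nat.beq (l2 b) 0) (l3 b) (l2 b))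

def P4 (x1 x2 : ℝ) : Prop := (0 < v38 x1 x2) ∨ (P2 x1 x2 ∧ P3 x1 x2)

theorem l4_sound (h : In b E x1 x2) (e : l4 b = 0) : P4 x1 x2 := by
  unfold l4 at e
  rcases e1 : g4 b with _ | _
  · rw [e1, cond_false] at e
    have z2 : l2 b = 0 := by
      rcases e2 : Nat.beq (l2 b) 0 with _ | _
      · rw [e2, cond_false] at e; exact e
      · exact Nat.eq_of_beq_eq_true e2
    have w2 : Nat.beq (l2 b) 0 = true := by rw [z2]; rfl
    rw [w2, cond_true] at e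
    have z3 : l3 b = 0 := e
    exact Or.inr ⟨l2_sound h z2, l3_sound h z3⟩
  · exact Or.inl (pos_sound hS (h38 h) e1)

def g5 (b : Bx) : Bool := or (pos (t48 b)) (pos (t50 b))

def l5 (b : Bx) : Nat := cond (g5 b) 0 (cond (Nat.beq (l1 b) 0) (l4 b) (l1 b))

def P5 (x1 x2 : ℝ) : Prop := (0 < v48 x1 x2 ∨ 0 < v50 x1 x2) ∨ (P1 x1 x2 ∧ P4 x1 x2)

theorem l5_sound (h : In b E x1 x2) (e : l5 b = 0) : P5 x1 x2 := by
  unfold l5 at e
  rcases e1 : g5 b with _ | _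
  · rw [e1, cond_false] at e
    have z1 : l1 b = 0 := by
      rcases e2 : Nat.beq (l1 b) 0 with _ | _
      · rw [e2, cond_false] at e; exact e
      · exact Nat.eq_of_beq_eq_true e2
    have w1 : Nat.beq (l1 b) 0 = true := by rw [z1]; rfl
    rw [w1, cond_true] at e
    have z4 : l4 b = 0 := e
    exact Or.inr ⟨l1_sound h z1, l4_sound h z4⟩
  · exact Or.inl (((Bool.or_eq_true_iff.mp e1).imp (fun a => pos_sound hS (h48 h) a) (fun a => pos_sound hS (h50 h) a)))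

def g6 (b : Bx) : Bool := or (pos (t11 b)) (or (pos (t14 b)) (or (pos (t16 b)) (pos (t19 b))))

def l6 (b : Bx) : Nat := cond (g6 b) 0 (l5 b)

def P6 (x1 x2 : ℝ) : Prop := (0 < v11 x1 x2 ∨ 0 < v14 x1 x2 ∨ 0 < v16 x1 x2 ∨ 0 < v19 x1 x2) ∨ (P5 x1 x2)

theorem l6_sound (h : In b E x1 x2) (e : l6 b = 0) : P6 x1 x2 := by
  unfold l6 at e
  rcases e1 : g6 b with _ | _
  · rw [e1, cond_false] at e
    have z5 : l5 b = 0 := e
    exact Or.inr (l5_sound h z5)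
  · exact Or.inl (((Bool.or_eq_true_iff.mp e1).imp (fun a => pos_sound hS (h11 h) a) (fun a => ((Bool.or_eq_true_iff.mp a).imp (fun a => pos_sound hS (h14 h) a) (fun a => ((Bool.or_eq_true_iff.mp a).imp (fun a => pos_sound hS (h16 h) a) (fun a => pos_sound hS (h19 h) a)))))))

def f (b : Bx) : Nat := l6 b

/-- the statement -/
def Q (x1 x2 : ℝ) : Prop := P6 x1 x2

theorem f_sound (b : Bx) (hb : f b = 0) (x1 x2 : ℝ) (hm : Mem S b x1 x2) : Q x1 x2 := by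
  obtain ⟨E, h⟩ := pt_of_mem hm
  have h : In b E x1 x2 := h
  unfold f at hb
  have e := hb
  have z6 : l6 b = 0 := e
  exact (l6_sound h z6)

/-- the box -/
def b0 : Bx := ⟨1001814760, 0, 71927065, 1394831545, 0, 464943850⟩

theorem chk_all {n : ℕ} {b : Bx} (h : chk f n b = true) (x1 x2 : ℝ) (hm : Mem S b x1 x2) : Q x1 x2 :=
  chk_sound (fun b hb x1 x2 hm => f_sound b hb x1 x2 hm) n b h x1 x2 hm


open Pool.Agent.Strip051.LB

set_option maxRecDepth 100000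

theorem c0 : chk f 60 (L2 b0) = true := by decide +kernel

theorem c1 : chk f 60 (L2 (L2 (R2 b0))) = true := by decide +kernel

theorem c2 : chk f 60 (L1 (L2 (R2 (L2 (R2 b0))))) = true := by decide +kernel

theorem c3 : chk f 60 (L2 (R1 (L2 (R2 (L2 (R2 b0)))))) = true := by decide +kernel

theorem c4 : chk f 60 (R2 (R1 (L2 (R2 (L2 (R2 b0)))))) = true := by decide +kernel

theorem c5 : chk f 60 (R2 (R2 (L2 (R2 b0)))) = true := by decide +kernel

theorem c6 : chk f 60 (R2 (R2 b0)) = true := by decide +kernel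

theorem all (x1 x2 : ℝ) (h : Mem S b0 x1 x2) : Q x1 x2 := by
  rcases mem_split2 h with h | h
  · exact chk_all c0 x1 x2 h
  · rcases mem_split2 h with h | h
    · rcases mem_split2 h with h | h
      · exact chk_all c1 x1 x2 h
      · rcases mem_split2 h with h | h
        · rcases mem_split1 h with h | h
          · exact chk_all c2 x1 x2 h
          · rcases mem_split2 h with h | h
            · exact chk_all c3 x1 x2 h
            · exact chk_all c4 x1 x2 h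
        · exact chk_all c5 x1 x2 h
    · exact chk_all c6 x1 x2 h

theorem e4 (t T : ℝ) : v4 t T = -(c1f_v t) := by
  first | rfl | (simp only [v4, v3, v0]; done) | (simp only [v4, v3, v0]; push_cast; (try simp only [hs3]); (try ring))

theorem e6 (t T : ℝ) : v6 t T = T - t := by
  first | rfl | (simp only [v6, v5, v0]; done) | (simp only [v6, v5, v0]; push_cast; (try simp only [hs3]); (try ring))

theorem e8 (t T : ℝ) : v8 t T = -(c3f_v T) := by
  first | rfl | (simp only [v8, v7, v5]; done) | (simp only [v8, v7, v5]; push_cast; (try simp only [hs3]); (try ring))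

theorem e9 (t T : ℝ) : v9 t T = (-(c3f_v T) - -(c1f_v t)) := by
  first | rfl | (simp only [v9, v3, v0, v7, v5]; done) | (simp only [v9, v3, v0, v7, v5]; push_cast; (try simp only [hs3]); (try ring))

theorem e10 (t T : ℝ) : v10 t T = exf_v (-(c1f_v t)) (-(c3f_v T)) t T := by
  first | rfl | (simp only [v10, e4, e8, v0, v5]; done) | (simp only [v10, e4, e8, v0, v5]; push_cast; (try simp only [hs3]); (try ring))

theorem e11 (t T : ℝ) : v11 t T = -(T - t) := by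
  first | rfl | (simp only [v11, v0, v5]; done) | (simp only [v11, v0, v5]; push_cast; (try simp only [hs3]); (try ring))

theorem e12 (t T : ℝ) : v12 t T = q3f_v (-(c3f_v T) - -(c1f_v t)) (T - t) := by
  first | rfl | (simp only [v12, e9, e6]; done) | (simp only [v12, e9, e6]; push_cast; (try simp only [hs3]); (try ring))

theorem e14 (t T : ℝ) : v14 t T = 1 - q3f_v (-(c3f_v T) - -(c1f_v t)) (T - t) := by
  first | rfl | (simp only [v14, v13, e12]; done) | (simp only [v14, v13, e12]; push_cast; (try simp only [hs3]); (try ring))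

theorem e16 (t T : ℝ) : v16 t T = q3f_v (-(c3f_v T) - -(c1f_v t)) (T - t) - 3 := by
  first | rfl | (simp only [v16, e12, v15]; done) | (simp only [v16, e12, v15]; push_cast; (try simp only [hs3]); (try ring))

theorem e19 (t T : ℝ) : v19 t T = -(exf_v (-(c1f_v t)) (-(c3f_v T)) t T + 1 / 2) := by
  first | rfl | (simp only [v19, v18, e10, v17]; done) | (simp only [v19, v18, e10, v17]; push_cast; (try simp only [hs3]); (try ring))

theorem e21 (t T : ℝ) : v21 t T = -(a3q2_v T) := by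
  first | rfl | (simp only [v21, v20, v5]; done) | (simp only [v21, v20, v5]; push_cast; (try simp only [hs3]); (try ring))

theorem e22 (t T : ℝ) : v22 t T = rq0_v (-(c3f_v T) - -(c1f_v t)) (T - t) := by
  first | rfl | (simp only [v22, e9, e6]; done) | (simp only [v22, e9, e6]; push_cast; (try simp only [hs3]); (try ring))

theorem e23 (t T : ℝ) : v23 t T = sl202_v (exf_v (-(c1f_v t)) (-(c3f_v T)) t T) t (T - t) T (-(c1f_v t)) (rq0_v (-(c3f_v T) - -(c1f_v t)) (T - t)) (-(a3q2_v T)) := by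
  first | rfl | (simp only [v23, e10, v0, e6, v5, e4, e22, e21]; done) | (simp only [v23, e10, v0, e6, v5, e4, e22, e21]; push_cast; (try simp only [hs3]); (try ring))

theorem e25 (t T : ℝ) : v25 t T = -((T - t) - 1 / 2 * Pool.Agent.StripNear.h0) := by
  first | rfl | (simp only [v25, v24, v1, e6]; done) | (simp only [v25, v24, v1, e6]; push_cast; (try simp only [hs3]); (try ring))

theorem e26 (t T : ℝ) : v26 t T = -(1 / 2 * Pool.Agent.StripNear.h0 - (T - t)) := by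
  first | rfl | (simp only [v26, e6, v24, v1]; done) | (simp only [v26, e6, v24, v1]; push_cast; (try simp only [hs3]); (try ring))

theorem e33 (t T : ℝ) : v33 t T = 1 / 16 - ((3 / 2 * -(c1f_v t) - Pool.Agent.StripNear.h0 * t) - -(c3f_v T)) := by
  first | rfl | (simp only [v33, v32, v31, v30, v28, v27, v3, v0, v29, v2, v1, v7, v5]; done) | (simp only [v33, v32, v31, v30, v28, v27, v3, v0, v29, v2, v1, v7, v5]; push_cast; (try simp only [hs3]); (try ring))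

theorem e34 (t T : ℝ) : v34 t T = 1 / 16 + ((3 / 2 * -(c1f_v t) - Pool.Agent.StripNear.h0 * t) - -(c3f_v T)) := by
  first | rfl | (simp only [v34, v32, v31, v30, v28, v27, v3, v0, v29, v2, v1, v7, v5]; done) | (simp only [v34, v32, v31, v30, v28, v27, v3, v0, v29, v2, v1, v7, v5]; push_cast; (try simp only [hs3]); (try ring))

theorem e36 (t T : ℝ) : v36 t T = -(T - 1 * Pool.Agent.StripNear.h0) := by
  first | rfl | (simp only [v36, v2, v1, v5]; done) | (simp only [v36, v2, v1, v5]; push_cast; (try simp only [hs3]); (try ring))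

theorem e38 (t T : ℝ) : v38 t T = -(T - 3 / 2 * Pool.Agent.StripNear.h0) := by
  first | rfl | (simp only [v38, v37, v1, v5]; done) | (simp only [v38, v37, v1, v5]; push_cast; (try simp only [hs3]); (try ring))

theorem e39 (t T : ℝ) : v39 t T = -(3 / 2 * Pool.Agent.StripNear.h0 - T) := by
  first | rfl | (simp only [v39, v5, v37, v1]; done) | (simp only [v39, v5, v37, v1]; push_cast; (try simp only [hs3]); (try ring))

theorem e41 (t T : ℝ) : v41 t T = -(a3q3_v T) := by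
  first | rfl | (simp only [v41, v40, v5]; done) | (simp only [v41, v40, v5]; push_cast; (try simp only [hs3]); (try ring))

theorem e42 (t T : ℝ) : v42 t T = sl203_v (exf_v (-(c1f_v t)) (-(c3f_v T)) t T) t (T - t) T (-(c1f_v t)) (rq0_v (-(c3f_v T) - -(c1f_v t)) (T - t)) (-(a3q3_v T)) := by
  first | rfl | (simp only [v42, e10, v0, e6, v5, e4, e22, e41]; done) | (simp only [v42, e10, v0, e6, v5, e4, e22, e41]; push_cast; (try simp only [hs3]); (try ring))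

theorem e43 (t T : ℝ) : v43 t T = rq1_v (-(c3f_v T) - -(c1f_v t)) (T - t) := by
  first | rfl | (simp only [v43, e9, e6]; done) | (simp only [v43, e9, e6]; push_cast; (try simp only [hs3]); (try ring))

theorem e44 (t T : ℝ) : v44 t T = sl213_v (exf_v (-(c1f_v t)) (-(c3f_v T)) t T) t (T - t) T (-(c1f_v t)) (rq1_v (-(c3f_v T) - -(c1f_v t)) (T - t)) (-(a3q3_v T)) := by
  first | rfl | (simp only [v44, e10, v0, e6, v5, e4, e43, e41]; done) | (simp only [v44, e10, v0, e6, v5, e4, e43, e41]; push_cast; (try simp only [hs3]); (try ring))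

theorem e46 (t T : ℝ) : v46 t T = -(1 * Pool.Agent.StripNear.h0 - (T - t)) := by
  first | rfl | (simp only [v46, e6, v2, v1]; done) | (simp only [v46, e6, v2, v1]; push_cast; (try simp only [hs3]); (try ring))

theorem e48 (t T : ℝ) : v48 t T = -(t - 1 * Pool.Agent.StripNear.h0) := by
  first | rfl | (simp only [v48, v2, v1, v0]; done) | (simp only [v48, v2, v1, v0]; push_cast; (try simp only [hs3]); (try ring))

theorem e50 (t T : ℝ) : v50 t T = -(3 / 2 * Pool.Agent.StripNear.h0 - t) := by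
  first | rfl | (simp only [v50, v0, v37, v1]; done) | (simp only [v50, v0, v37, v1]; push_cast; (try simp only [hs3]); (try ring))

theorem mem0 {t T : ℝ} (h1 : Pool.Agent.StripNear.h0 ≤ t) (h2 : t ≤ 1) (h3 : Pool.Agent.StripNear.h0 ≤ T) (h4 : T ≤ 2 * Pool.Agent.StripNear.h0) : Mem S b0 t T := by
  have g1 := h0_lo
  have g2 := h0_hi
  unfold Mem b0
  refine ⟨abs_le.mpr ⟨?_, ?_⟩, abs_le.mpr ⟨?_, ?_⟩⟩ <;> norm_num [S] <;> linarith

theorem fin202 {t T : ℝ} (h1 : 1 * Pool.Agent.StripNear.h0 ≤ t) (h1' : t ≤ 3 / 2 * Pool.Agent.StripNear.h0) (h2 : 1 * Pool.Agent.StripNear.h0 ≤ T) (h2' : T ≤ 3 / 2 * Pool.Agent.StripNear.h0) (h3 : 0 * Pool.Agent.StripNear.h0 ≤ T - t) (h3' : T - t ≤ 1 / 2 * Pool.Agent.StripNear.h0) (h4 : t ≤ 1) (h6 : t ≤ T) (ho : 0 ≤ exf_v (-(c1f_v t)) (-(c3f_v T)) t T + 1 / 2) (hq1 : 1 ≤ q3f_v (-(c3f_v T) - -(c1f_v t)) (T - t)) (hq3 : q3f_v (-(c3f_v T) - -(c1f_v t)) (T - t) ≤ 3) :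
    (0 < 1 / 16 - ((3 / 2 * -(c1f_v t) - Pool.Agent.StripNear.h0 * t) - -(c3f_v T)) ∧ 0 < 1 / 16 + ((3 / 2 * -(c1f_v t) - Pool.Agent.StripNear.h0 * t) - -(c3f_v T))) ∨ 0 < sl202_v (exf_v (-(c1f_v t)) (-(c3f_v T)) t T) t (T - t) T (-(c1f_v t)) (rq0_v (-(c3f_v T) - -(c1f_v t)) (T - t)) (-(a3q2_v T)) := by
  have hp := Pool.Agent.StripNear.h0_pos
  have hm : Mem S b0 t T := mem0 (by linarith) (by linarith) (by linarith) (by linarith)
  have h : Q t T := all t T hm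
  unfold Q P6 at h
  rcases h with (h | h | h | h) | h
  · exfalso; rw [e11] at h; linarith
  · exfalso; rw [e14] at h; linarith
  · exfalso; rw [e16] at h; linarith
  · exfalso; rw [e19] at h; linarith
  unfold P5 at h
  rcases h with (h | h) | h
  · exfalso; rw [e48] at h; linarith
  · exfalso; rw [e50] at h; linarith
  replace h := h.1
  unfold P1 at h
  rcases h with (h | h) | h
  · exfalso; rw [e36] at h; linarith
  · exfalso; rw [e39] at h; linarith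
  unfold P0 at h
  rcases h with h | h | h
  · exfalso; rw [e26] at h; linarith
  · left; simp only [e33, e34] at h; exact h
  · right; rw [e23] at h; exact h

theorem fin203 {t T : ℝ} (h1 : 1 * Pool.Agent.StripNear.h0 ≤ t) (h1' : t ≤ 3 / 2 * Pool.Agent.StripNear.h0) (h2 : 3 / 2 * Pool.Agent.StripNear.h0 ≤ T) (h2' : T ≤ 2 * Pool.Agent.StripNear.h0) (h3 : 0 * Pool.Agent.StripNear.h0 ≤ T - t) (h3' : T - t ≤ 1 / 2 * Pool.Agent.StripNear.h0) (h4 : t ≤ 1) (h6 : t ≤ T) (ho : 0 ≤ exf_v (-(c1f_v t)) (-(c3f_v T)) t T + 1 / 2) (hq1 : 1 ≤ q3f_v (-(c3f_v T) - -(c1f_v t)) (T - t)) (hq3 : q3f_v (-(c3f_v T) - -(c1f_v t)) (T - t) ≤ 3) :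
    (0 < 1 / 16 - ((3 / 2 * -(c1f_v t) - Pool.Agent.StripNear.h0 * t) - -(c3f_v T)) ∧ 0 < 1 / 16 + ((3 / 2 * -(c1f_v t) - Pool.Agent.StripNear.h0 * t) - -(c3f_v T))) ∨ 0 < sl203_v (exf_v (-(c1f_v t)) (-(c3f_v T)) t T) t (T - t) T (-(c1f_v t)) (rq0_v (-(c3f_v T) - -(c1f_v t)) (T - t)) (-(a3q3_v T)) := by
  have hp := Pool.Agent.StripNear.h0_pos
  have hm : Mem S b0 t T := mem0 (by linarith) (by linarith) (by linarith) (by linarith)
  have h : Q t T := all t T hm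
  unfold Q P6 at h
  rcases h with (h | h | h | h) | h
  · exfalso; rw [e11] at h; linarith
  · exfalso; rw [e14] at h; linarith
  · exfalso; rw [e16] at h; linarith
  · exfalso; rw [e19] at h; linarith
  unfold P5 at h
  rcases h with (h | h) | h
  · exfalso; rw [e48] at h; linarith
  · exfalso; rw [e50] at h; linarith
  replace h := h.2
  unfold P4 at h
  rcases h with h | h
  · exfalso; rw [e38] at h; linarith
  replace h := h.1
  unfold P2 at h
  rcases h with h | h | h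
  · exfalso; rw [e26] at h; linarith
  · left; simp only [e33, e34] at h; exact h
  · right; rw [e42] at h; exact h

theorem fin213 {t T : ℝ} (h1 : 1 * Pool.Agent.StripNear.h0 ≤ t) (h1' : t ≤ 3 / 2 * Pool.Agent.StripNear.h0) (h2 : 3 / 2 * Pool.Agent.StripNear.h0 ≤ T) (h2' : T ≤ 2 * Pool.Agent.StripNear.h0) (h3 : 1 / 2 * Pool.Agent.StripNear.h0 ≤ T - t) (h3' : T - t ≤ 1 * Pool.Agent.StripNear.h0) (h4 : t ≤ 1) (h6 : t ≤ T) (ho : 0 ≤ exf_v (-(c1f_v t)) (-(c3f_v T)) t T + 1 / 2) (hq1 : 1 ≤ q3f_v (-(c3f_v T) - -(c1f_v t)) (T - t)) (hq3 : q3f_v (-(c3f_v T) - -(c1f_v t)) (T - t) ≤ 3) :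
    (0 < 1 / 16 - ((3 / 2 * -(c1f_v t) - Pool.Agent.StripNear.h0 * t) - -(c3f_v T)) ∧ 0 < 1 / 16 + ((3 / 2 * -(c1f_v t) - Pool.Agent.StripNear.h0 * t) - -(c3f_v T))) ∨ 0 < sl213_v (exf_v (-(c1f_v t)) (-(c3f_v T)) t T) t (T - t) T (-(c1f_v t)) (rq1_v (-(c3f_v T) - -(c1f_v t)) (T - t)) (-(a3q3_v T)) := by
  have hp := Pool.Agent.StripNear.h0_pos
  have hm : Mem S b0 t T := mem0 (by linarith) (by linarith) (by linarith) (by linarith)
  have h : Q t T := all t T hm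
  unfold Q P6 at h
  rcases h with (h | h | h | h) | h
  · exfalso; rw [e11] at h; linarith
  · exfalso; rw [e14] at h; linarith
  · exfalso; rw [e16] at h; linarith
  · exfalso; rw [e19] at h; linarith
  unfold P5 at h
  rcases h with (h | h) | h
  · exfalso; rw [e48] at h; linarith
  · exfalso; rw [e50] at h; linarith
  replace h := h.2
  unfold P4 at h
  rcases h with h | h
  · exfalso; rw [e38] at h; linarith
  replace h := h.2
  unfold P3 at h
  rcases h with h | h | h | h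
  · exfalso; rw [e25] at h; linarith
  · exfalso; rw [e46] at h; linarith
  · left; simp only [e33, e34] at h; exact h
  · right; rw [e44] at h; exact h

end Pool.Agent.Strip051.LB.B0p3p_mm
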