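import Pool.Agent.Strip051.LB.B0p3p_pm.C1
import Pool.Agent.Strip051.LB.B0p3p_pm.C2

/-! # LINE boxes B0p3p_pm: assembly -/

namespace Pool.Agent.Strip051.LB.B0p3p_pm

open Pool.Agent.Strip051.Box Pool.Agent.Strip051.Box2 Pool.Agent.Strip051.LB

open Pool.Agent.Strip051.LB.Fn Pool.Agent.Strip051.LB.Fn.F2

theorem all (x1 x2 : ℝ) (h : Mem S b0 x1 x2) : Q x1 x2 := by
  rcases mem_split2 h with h | h
  · exact chk_all c0 x1 x2 h
  · rcases mem_split2 h with h | h
    · rcases mem_split2 h with h | h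
      · exact chk_all c1 x1 x2 h
      · rcases mem_split2 h with h | h
        · exact chk_all c2 x1 x2 h
        · rcases mem_split1 h with h | h
          · exact chk_all c3 x1 x2 h
          · rcases mem_split2 h with h | h
            · rcases mem_split1 h with h | h
              · exact chk_all c4 x1 x2 h
              · rcases mem_split2 h with h | h
                · exact chk_all c5 x1 x2 h
                · exact chk_all c6 x1 x2 h
            · exact chk_all c7 x1 x2 h
    · rcases mem_split2 h with h | h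
      · exact chk_all c8 x1 x2 h
      · exact chk_all c9 x1 x2 h

theorem e3 (t T : ℝ) : v3 t T = c1f_v t := by
  first | rfl | (simp only [v3, v0]; done) | (simp only [v3, v0]; push_cast; (try simp only [hs3]); (try ring))

theorem e5 (t T : ℝ) : v5 t T = T - t := by
  first | rfl | (simp only [v5, v4, v0]; done) | (simp only [v5, v4, v0]; push_cast; (try simp only [hs3]); (try ring))

theorem e7 (t T : ℝ) : v7 t T = -(c3f_v T) := by
  first | rfl | (simp only [v7, v6, v4]; done) | (simp only [v7, v6, v4]; push_cast; (try simp only [hs3]); (try ring))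

theorem e8 (t T : ℝ) : v8 t T = (-(c3f_v T) - c1f_v t) := by
  first | rfl | (simp only [v8, e7, e3]; done) | (simp only [v8, e7, e3]; push_cast; (try simp only [hs3]); (try ring))

theorem e9 (t T : ℝ) : v9 t T = exf_v (c1f_v t) (-(c3f_v T)) t T := by
  first | rfl | (simp only [v9, e3, e7, v0, v4]; done) | (simp only [v9, e3, e7, v0, v4]; push_cast; (try simp only [hs3]); (try ring))

theorem e10 (t T : ℝ) : v10 t T = -(T - t) := by
  first | rfl | (simp only [v10, v0, v4]; done) | (simp only [v10, v0, v4]; push_cast; (try simp only [hs3]); (try ring))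

theorem e11 (t T : ℝ) : v11 t T = q3f_v (-(c3f_v T) - c1f_v t) (T - t) := by
  first | rfl | (simp only [v11, e8, e5]; done) | (simp only [v11, e8, e5]; push_cast; (try simp only [hs3]); (try ring))

theorem e13 (t T : ℝ) : v13 t T = 1 - q3f_v (-(c3f_v T) - c1f_v t) (T - t) := by
  first | rfl | (simp only [v13, v12, e11]; done) | (simp only [v13, v12, e11]; push_cast; (try simp only [hs3]); (try ring))

theorem e15 (t T : ℝ) : v15 t T = q3f_v (-(c3f_v T) - c1f_v t) (T - t) - 3 := by
  first | rfl | (simp only [v15, e11, v14]; done) | (simp only [v15, e11, v14]; push_cast; (try simp only [hs3]); (try ring))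

theorem e18 (t T : ℝ) : v18 t T = -(exf_v (c1f_v t) (-(c3f_v T)) t T + 1 / 2) := by
  first | rfl | (simp only [v18, v17, e9, v16]; done) | (simp only [v18, v17, e9, v16]; push_cast; (try simp only [hs3]); (try ring))

theorem e20 (t T : ℝ) : v20 t T = -(a3q2_v T) := by
  first | rfl | (simp only [v20, v19, v4]; done) | (simp only [v20, v19, v4]; push_cast; (try simp only [hs3]); (try ring))

theorem e21 (t T : ℝ) : v21 t T = rq0_v (-(c3f_v T) - c1f_v t) (T - t) := by
  first | rfl | (simp only [v21, e8, e5]; done) | (simp only [v21, e8, e5]; push_cast; (try simp only [hs3]); (try ring))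

theorem e22 (t T : ℝ) : v22 t T = sl202_v (exf_v (c1f_v t) (-(c3f_v T)) t T) t (T - t) T (c1f_v t) (rq0_v (-(c3f_v T) - c1f_v t) (T - t)) (-(a3q2_v T)) := by
  first | rfl | (simp only [v22, e9, v0, e5, v4, e3, e21, e20]; done) | (simp only [v22, e9, v0, e5, v4, e3, e21, e20]; push_cast; (try simp only [hs3]); (try ring))

theorem e24 (t T : ℝ) : v24 t T = -((T - t) - 1 / 2 * Pool.Agent.StripNear.h0) := by
  first | rfl | (simp only [v24, v23, v1, e5]; done) | (simp only [v24, v23, v1, e5]; push_cast; (try simp only [hs3]); (try ring))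

theorem e25 (t T : ℝ) : v25 t T = -(1 / 2 * Pool.Agent.StripNear.h0 - (T - t)) := by
  first | rfl | (simp only [v25, e5, v23, v1]; done) | (simp only [v25, e5, v23, v1]; push_cast; (try simp only [hs3]); (try ring))

theorem e31 (t T : ℝ) : v31 t T = 1 / 16 - ((3 / 2 * c1f_v t - Pool.Agent.StripNear.h0 * t) - -(c3f_v T)) := by
  first | rfl | (simp only [v31, v30, v29, v28, v26, e3, v27, v2, v1, v0, v6, v4]; done) | (simp only [v31, v30, v29, v28, v26, e3, v27, v2, v1, v0, v6, v4]; push_cast; (try simp only [hs3]); (try ring))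

theorem e32 (t T : ℝ) : v32 t T = 1 / 16 + ((3 / 2 * c1f_v t - Pool.Agent.StripNear.h0 * t) - -(c3f_v T)) := by
  first | rfl | (simp only [v32, v30, v29, v28, v26, e3, v27, v2, v1, v0, v6, v4]; done) | (simp only [v32, v30, v29, v28, v26, e3, v27, v2, v1, v0, v6, v4]; push_cast; (try simp only [hs3]); (try ring))

theorem e34 (t T : ℝ) : v34 t T = -(T - 1 * Pool.Agent.StripNear.h0) := by
  first | rfl | (simp only [v34, v2, v1, v4]; done) | (simp only [v34, v2, v1, v4]; push_cast; (try simp only [hs3]); (try ring))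

theorem e36 (t T : ℝ) : v36 t T = -(T - 3 / 2 * Pool.Agent.StripNear.h0) := by
  first | rfl | (simp only [v36, v35, v1, v4]; done) | (simp only [v36, v35, v1, v4]; push_cast; (try simp only [hs3]); (try ring))

theorem e37 (t T : ℝ) : v37 t T = -(3 / 2 * Pool.Agent.StripNear.h0 - T) := by
  first | rfl | (simp only [v37, v4, v35, v1]; done) | (simp only [v37, v4, v35, v1]; push_cast; (try simp only [hs3]); (try ring))

theorem e39 (t T : ℝ) : v39 t T = -(a3q3_v T) := by
  first | rfl | (simp only [v39, v38, v4]; done) | (simp only [v39, v38, v4]; push_cast; (try simp only [hs3]); (try ring))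

theorem e40 (t T : ℝ) : v40 t T = sl203_v (exf_v (c1f_v t) (-(c3f_v T)) t T) t (T - t) T (c1f_v t) (rq0_v (-(c3f_v T) - c1f_v t) (T - t)) (-(a3q3_v T)) := by
  first | rfl | (simp only [v40, e9, v0, e5, v4, e3, e21, e39]; done) | (simp only [v40, e9, v0, e5, v4, e3, e21, e39]; push_cast; (try simp only [hs3]); (try ring))

theorem e41 (t T : ℝ) : v41 t T = rq1_v (-(c3f_v T) - c1f_v t) (T - t) := by
  first | rfl | (simp only [v41, e8, e5]; done) | (simp only [v41, e8, e5]; push_cast; (try simp only [hs3]); (try ring))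

theorem e42 (t T : ℝ) : v42 t T = sl213_v (exf_v (c1f_v t) (-(c3f_v T)) t T) t (T - t) T (c1f_v t) (rq1_v (-(c3f_v T) - c1f_v t) (T - t)) (-(a3q3_v T)) := by
  first | rfl | (simp only [v42, e9, v0, e5, v4, e3, e41, e39]; done) | (simp only [v42, e9, v0, e5, v4, e3, e41, e39]; push_cast; (try simp only [hs3]); (try ring))

theorem e44 (t T : ℝ) : v44 t T = -(1 * Pool.Agent.StripNear.h0 - (T - t)) := by
  first | rfl | (simp only [v44, e5, v2, v1]; done) | (simp only [v44, e5, v2, v1]; push_cast; (try simp only [hs3]); (try ring))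

theorem e46 (t T : ℝ) : v46 t T = -(t - 1 * Pool.Agent.StripNear.h0) := by
  first | rfl | (simp only [v46, v2, v1, v0]; done) | (simp only [v46, v2, v1, v0]; push_cast; (try simp only [hs3]); (try ring))

theorem e48 (t T : ℝ) : v48 t T = -(3 / 2 * Pool.Agent.StripNear.h0 - t) := by
  first | rfl | (simp only [v48, v0, v35, v1]; done) | (simp only [v48, v0, v35, v1]; push_cast; (try simp only [hs3]); (try ring))

theorem mem0 {t T : ℝ} (h1 : Pool.Agent.StripNear.h0 ≤ t) (h2 : t ≤ 1) (h3 : Pool.Agent.StripNear.h0 ≤ T) (h4 : T ≤ 2 * Pool.Agent.StripNear.h0) : Mem S b0 t T := by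
  have g1 := h0_lo
  have g2 := h0_hi
  unfold Mem b0
  refine ⟨abs_le.mpr ⟨?_, ?_⟩, abs_le.mpr ⟨?_, ?_⟩⟩ <;> norm_num [S] <;> linarith

theorem fin202 {t T : ℝ} (h1 : 1 * Pool.Agent.StripNear.h0 ≤ t) (h1' : t ≤ 3 / 2 * Pool.Agent.StripNear.h0) (h2 : 1 * Pool.Agent.StripNear.h0 ≤ T) (h2' : T ≤ 3 / 2 * Pool.Agent.StripNear.h0) (h3 : 0 * Pool.Agent.StripNear.h0 ≤ T - t) (h3' : T - t ≤ 1 / 2 * Pool.Agent.StripNear.h0) (h4 : t ≤ 1) (h6 : t ≤ T) (ho : 0 ≤ exf_v (c1f_v t) (-(c3f_v T)) t T + 1 / 2) (hq1 : 1 ≤ q3f_v (-(c3f_v T) - c1f_v t) (T - t)) (hq3 : q3f_v (-(c3f_v T) - c1f_v t) (T - t) ≤ 3) :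
    (0 < 1 / 16 - ((3 / 2 * c1f_v t - Pool.Agent.StripNear.h0 * t) - -(c3f_v T)) ∧ 0 < 1 / 16 + ((3 / 2 * c1f_v t - Pool.Agent.StripNear.h0 * t) - -(c3f_v T))) ∨ 0 < sl202_v (exf_v (c1f_v t) (-(c3f_v T)) t T) t (T - t) T (c1f_v t) (rq0_v (-(c3f_v T) - c1f_v t) (T - t)) (-(a3q2_v T)) := by
  have hp := Pool.Agent.StripNear.h0_pos
  have hm : Mem S b0 t T := mem0 (by linarith) (by linarith) (by linarith) (by linarith)
  have h : Q t T := all t T hm
  unfold Q P6 at h
  rcases h with (h | h | h | h) | h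
  · exfalso; rw [e10] at h; linarith
  · exfalso; rw [e13] at h; linarith
  · exfalso; rw [e15] at h; linarith
  · exfalso; rw [e18] at h; linarith
  unfold P5 at h
  rcases h with (h | h) | h
  · exfalso; rw [e46] at h; linarith
  · exfalso; rw [e48] at h; linarith
  replace h := h.1
  unfold P1 at h
  rcases h with (h | h) | h
  · exfalso; rw [e34] at h; linarith
  · exfalso; rw [e37] at h; linarith
  unfold P0 at h
  rcases h with h | h | h
  · exfalso; rw [e25] at h; linarith
  · left; simp only [e31, e32] at h; exact h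
  · right; rw [e22] at h; exact h

theorem fin203 {t T : ℝ} (h1 : 1 * Pool.Agent.StripNear.h0 ≤ t) (h1' : t ≤ 3 / 2 * Pool.Agent.StripNear.h0) (h2 : 3 / 2 * Pool.Agent.StripNear.h0 ≤ T) (h2' : T ≤ 2 * Pool.Agent.StripNear.h0) (h3 : 0 * Pool.Agent.StripNear.h0 ≤ T - t) (h3' : T - t ≤ 1 / 2 * Pool.Agent.StripNear.h0) (h4 : t ≤ 1) (h6 : t ≤ T) (ho : 0 ≤ exf_v (c1f_v t) (-(c3f_v T)) t T + 1 / 2) (hq1 : 1 ≤ q3f_v (-(c3f_v T) - c1f_v t) (T - t)) (hq3 : q3f_v (-(c3f_v T) - c1f_v t) (T - t) ≤ 3) :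
    (0 < 1 / 16 - ((3 / 2 * c1f_v t - Pool.Agent.StripNear.h0 * t) - -(c3f_v T)) ∧ 0 < 1 / 16 + ((3 / 2 * c1f_v t - Pool.Agent.StripNear.h0 * t) - -(c3f_v T))) ∨ 0 < sl203_v (exf_v (c1f_v t) (-(c3f_v T)) t T) t (T - t) T (c1f_v t) (rq0_v (-(c3f_v T) - c1f_v t) (T - t)) (-(a3q3_v T)) := by
  have hp := Pool.Agent.StripNear.h0_pos
  have hm : Mem S b0 t T := mem0 (by linarith) (by linarith) (by linarith) (by linarith)
  have h : Q t T := all t T hm
  unfold Q P6 at h
  rcases h with (h | h | h | h) | h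
  · exfalso; rw [e10] at h; linarith
  · exfalso; rw [e13] at h; linarith
  · exfalso; rw [e15] at h; linarith
  · exfalso; rw [e18] at h; linarith
  unfold P5 at h
  rcases h with (h | h) | h
  · exfalso; rw [e46] at h; linarith
  · exfalso; rw [e48] at h; linarith
  replace h := h.2
  unfold P4 at h
  rcases h with h | h
  · exfalso; rw [e36] at h; linarith
  replace h := h.1
  unfold P2 at h
  rcases h with h | h | h
  · exfalso; rw [e25] at h; linarith
  · left; simp only [e31, e32] at h; exact h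
  · right; rw [e40] at h; exact h

theorem fin213 {t T : ℝ} (h1 : 1 * Pool.Agent.StripNear.h0 ≤ t) (h1' : t ≤ 3 / 2 * Pool.Agent.StripNear.h0) (h2 : 3 / 2 * Pool.Agent.StripNear.h0 ≤ T) (h2' : T ≤ 2 * Pool.Agent.StripNear.h0) (h3 : 1 / 2 * Pool.Agent.StripNear.h0 ≤ T - t) (h3' : T - t ≤ 1 * Pool.Agent.StripNear.h0) (h4 : t ≤ 1) (h6 : t ≤ T) (ho : 0 ≤ exf_v (c1f_v t) (-(c3f_v T)) t T + 1 / 2) (hq1 : 1 ≤ q3f_v (-(c3f_v T) - c1f_v t) (T - t)) (hq3 : q3f_v (-(c3f_v T) - c1f_v t) (T - t) ≤ 3) :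
    (0 < 1 / 16 - ((3 / 2 * c1f_v t - Pool.Agent.StripNear.h0 * t) - -(c3f_v T)) ∧ 0 < 1 / 16 + ((3 / 2 * c1f_v t - Pool.Agent.StripNear.h0 * t) - -(c3f_v T))) ∨ 0 < sl213_v (exf_v (c1f_v t) (-(c3f_v T)) t T) t (T - t) T (c1f_v t) (rq1_v (-(c3f_v T) - c1f_v t) (T - t)) (-(a3q3_v T)) := by
  have hp := Pool.Agent.StripNear.h0_pos
  have hm : Mem S b0 t T := mem0 (by linarith) (by linarith) (by linarith) (by linarith)
  have h : Q t T := all t T hm
  unfold Q P6 at h
  rcases h with (h | h | h | h) | h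
  · exfalso; rw [e10] at h; linarith
  · exfalso; rw [e13] at h; linarith
  · exfalso; rw [e15] at h; linarith
  · exfalso; rw [e18] at h; linarith
  unfold P5 at h
  rcases h with (h | h) | h
  · exfalso; rw [e46] at h; linarith
  · exfalso; rw [e48] at h; linarith
  replace h := h.2
  unfold P4 at h
  rcases h with h | h
  · exfalso; rw [e36] at h; linarith
  replace h := h.2
  unfold P3 at h
  rcases h with h | h | h | h
  · exfalso; rw [e24] at h; linarith
  · exfalso; rw [e44] at h; linarith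
  · left; simp only [e31, e32] at h; exact h
  · right; rw [e42] at h; exact h

end Pool.Agent.Strip051.LB.B0p3p_pm
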