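import Pool.Agent.Strip051.LB.Fn.R

/-! # The value functions are odd -/

namespace Pool.Agent.Strip051.LB

open Pool.Agent.Strip051.LB.Fn

theorem rq0_neg {X T : ℝ} (h : 0 < X) : rq0_v (-X) T = -rq0_v X T := by
  simp only [rq0_v, rq0_v2, rq0_v3, rq0_v4, rq0_v5, rq0_v6]
  rw [if_pos (by linarith : -X ≤ 0), if_neg (by linarith : ¬ X ≤ 0), neg_neg]

theorem rq1_neg {X T : ℝ} (h : 0 < X) : rq1_v (-X) T = -rq1_v X T := by
  simp only [rq1_v, rq1_v2, rq1_v3, rq1_v4, rq1_v5, rq1_v6]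
  rw [if_pos (by linarith : -X ≤ 0), if_neg (by linarith : ¬ X ≤ 0), neg_neg]

theorem rq2_neg {X T : ℝ} (h : 0 < X) : rq2_v (-X) T = -rq2_v X T := by
  simp only [rq2_v, rq2_v2, rq2_v3, rq2_v4, rq2_v5, rq2_v6]
  rw [if_pos (by linarith : -X ≤ 0), if_neg (by linarith : ¬ X ≤ 0), neg_neg]

theorem rq3_neg {X T : ℝ} (h : 0 < X) : rq3_v (-X) T = -rq3_v X T := by
  simp only [rq3_v, rq3_v2, rq3_v3, rq3_v4, rq3_v5, rq3_v6]
  rw [if_pos (by linarith : -X ≤ 0), if_neg (by linarith : ¬ X ≤ 0), neg_neg]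

end Pool.Agent.Strip051.LB
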