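import Pool.Agent.Strip051.LB.Fn.R
import Pool.Agent.Strip051.LB.Base

/-! # The slack of a triple of quarters, written out -/

namespace Pool.Agent.Strip051.LB

open Pool.Agent.StripNear Pool.Agent.Strip051.LB.Fn

theorem s3n : Real.sqrt ((3 : ℕ) : ℝ) = 2 * h0 := by
  push_cast; exact hs3

theorem hn : ((1 : ℕ) : ℝ) / ((2 : ℕ) : ℝ) * (2 * h0) = h0 := by
  push_cast; ring

theorem sl001_eq (e t t2 T R1 R2 R3 : ℝ) : sl001_v e t t2 T R1 R2 R3 =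
    starw_v e t t2 (h0 - T) (-R1) (-R2) R3 := by
  simp only [sl001_v, sl001_v7, sl001_v8, sl001_v11, sl001_v12, sl001_v13, sl001_v14, s3n, hn]

theorem sl011_eq (e t t2 T R1 R2 R3 : ℝ) : sl011_v e t t2 T R1 R2 R3 =
    starn_v e (h0 - T) t R3 (-R1) R2 := by
  simp only [sl011_v, sl011_v7, sl011_v8, sl011_v12, sl011_v13, sl011_v14, s3n, hn]

theorem sl012_eq (e t t2 T R1 R2 R3 : ℝ) : sl012_v e t t2 T R1 R2 R3 =
    starn_v e (T - h0) (h0 - t2) R3 (-R2) R1 := by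
  simp only [sl012_v, sl012_v7, sl012_v8, sl012_v11, sl012_v12, sl012_v13, sl012_v14, s3n, hn]

theorem sl022_eq (e t t2 T R1 R2 R3 : ℝ) : sl022_v e t t2 T R1 R2 R3 =
    starn_v e t (t2 - h0) (-R1) (-R2) (-R3) := by
  simp only [sl022_v, sl022_v7, sl022_v8, sl022_v10, sl022_v12, sl022_v13, sl022_v14, sl022_v15, s3n, hn]

theorem sl023_eq (e t t2 T R1 R2 R3 : ℝ) : sl023_v e t t2 T R1 R2 R3 =
    starw_v e t (t2 - h0) (2 * h0 - T) (-R1) (-R2) R3 := by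
  simp only [sl023_v, sl023_v7, sl023_v8, sl023_v10, sl023_v12, sl023_v13, sl023_v14, sl023_v15, s3n, hn]

theorem sl033_eq (e t t2 T R1 R2 R3 : ℝ) : sl033_v e t t2 T R1 R2 R3 =
    starn_v e (2 * h0 - T) t R3 (-R1) R2 := by
  simp only [sl033_v, sl033_v7, sl033_v12, sl033_v13, sl033_v14, s3n, hn]

theorem sl101_eq (e t t2 T R1 R2 R3 : ℝ) : sl101_v e t t2 T R1 R2 R3 =
    starn_v e t2 (h0 - T) (-R2) R3 R1 := by
  simp only [sl101_v, sl101_v7, sl101_v8, sl101_v12, sl101_v13, sl101_v14, s3n, hn]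

theorem sl102_eq (e t t2 T R1 R2 R3 : ℝ) : sl102_v e t t2 T R1 R2 R3 =
    starn_v e (h0 - t) (T - h0) (-R1) R3 R2 := by
  simp only [sl102_v, sl102_v7, sl102_v8, sl102_v11, sl102_v12, sl102_v13, sl102_v14, s3n, hn]

theorem sl112_eq (e t t2 T R1 R2 R3 : ℝ) : sl112_v e t t2 T R1 R2 R3 =
    starw_v e (T - h0) (h0 - t2) (h0 - t) R3 (-R2) (-R1) := by
  simp only [sl112_v, sl112_v7, sl112_v8, sl112_v11, sl112_v12, sl112_v13, sl112_v14, sl112_v15, sl112_v16, s3n, hn]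

theorem sl113_eq (e t t2 T R1 R2 R3 : ℝ) : sl113_v e t t2 T R1 R2 R3 =
    starn_v e (h0 - t2) (h0 - t) (-R2) (-R1) (-R3) := by
  simp only [sl113_v, sl113_v7, sl113_v8, sl113_v12, sl113_v13, sl113_v14, sl113_v15, sl113_v16, sl113_v17, s3n, hn]

theorem sl123_eq (e t t2 T R1 R2 R3 : ℝ) : sl123_v e t t2 T R1 R2 R3 =
    starn_v e (t2 - h0) (2 * h0 - T) (-R2) R3 R1 := by
  simp only [sl123_v, sl123_v7, sl123_v8, sl123_v10, sl123_v12, sl123_v13, sl123_v14, s3n, hn]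

theorem sl133_eq (e t t2 T R1 R2 R3 : ℝ) : sl133_v e t t2 T R1 R2 R3 =
    starw_v e (T - 2 * h0) (2 * h0 - t2) (h0 - t) R3 (-R2) (-R1) := by
  simp only [sl133_v, sl133_v7, sl133_v8, sl133_v11, sl133_v12, sl133_v13, sl133_v14, sl133_v15, sl133_v16, s3n, hn]

theorem sl202_eq (e t t2 T R1 R2 R3 : ℝ) : sl202_v e t t2 T R1 R2 R3 =
    starn_v e (t - h0) t2 (-R1) (-R2) (-R3) := by
  simp only [sl202_v, sl202_v7, sl202_v8, sl202_v9, sl202_v12, sl202_v13, sl202_v14, sl202_v15, s3n, hn]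

theorem sl203_eq (e t t2 T R1 R2 R3 : ℝ) : sl203_v e t t2 T R1 R2 R3 =
    starw_v e (t - h0) t2 (2 * h0 - T) (-R1) (-R2) R3 := by
  simp only [sl203_v, sl203_v7, sl203_v8, sl203_v9, sl203_v12, sl203_v13, sl203_v14, sl203_v15, s3n, hn]

theorem sl213_eq (e t t2 T R1 R2 R3 : ℝ) : sl213_v e t t2 T R1 R2 R3 =
    starn_v e (2 * h0 - T) (t - h0) R3 (-R1) R2 := by
  simp only [sl213_v, sl213_v7, sl213_v8, sl213_v9, sl213_v12, sl213_v13, sl213_v14, s3n, hn]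

theorem sl303_eq (e t t2 T R1 R2 R3 : ℝ) : sl303_v e t t2 T R1 R2 R3 =
    starn_v e t2 (2 * h0 - T) (-R2) R3 R1 := by
  simp only [sl303_v, sl303_v7, sl303_v12, sl303_v13, sl303_v14, s3n, hn]

theorem sl313_eq (e t t2 T R1 R2 R3 : ℝ) : sl313_v e t t2 T R1 R2 R3 =
    starw_v e (T - 2 * h0) (h0 - t2) (2 * h0 - t) R3 (-R2) (-R1) := by
  simp only [sl313_v, sl313_v7, sl313_v8, sl313_v11, sl313_v12, sl313_v13, sl313_v14, sl313_v15, sl313_v16, s3n, hn]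

end Pool.Agent.Strip051.LB
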