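import Pool.Agent.Strip051.LB.RegF
import Pool.Agent.Strip051.LB.SlEq
import Pool.Agent.Strip051.LB.Odd

/-! # Elementary facts for the tight charts -/

namespace Pool.Agent.Strip051.LB

open Pool.Agent.StripNear Pool.Agent.Strip051.LB.Fn

theorem c1f_nn (T : ℝ) : 0 ≤ c1f_v T := by
  rw [RegF.c1f_eq]; exact Real.sqrt_nonneg _

theorem c3f_nn (T : ℝ) : 0 ≤ c3f_v T := by
  rw [RegF.c3f_eq]; exact Real.sqrt_nonneg _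

theorem c1f_sq {T : ℝ} (h : T ^ 2 ≤ 1) : c1f_v T ^ 2 + T ^ 2 = 1 := by
  rw [RegF.c1f_eq, Real.sq_sqrt (by linarith)]; ring

theorem c3f_sq {T : ℝ} (h : T ^ 2 ≤ 3) : c3f_v T ^ 2 + T ^ 2 = 3 := by
  rw [RegF.c3f_eq, Real.sq_sqrt (by linarith)]; ring

theorem c1f_le {X T : ℝ} (hX : 0 ≤ X) (h : 1 ≤ X ^ 2 + T ^ 2) : c1f_v T ≤ X := by
  rw [RegF.c1f_eq]; exact Real.sqrt_le_iff.mpr ⟨hX, by linarith⟩

theorem le_c3f {X T : ℝ} (h : X ^ 2 + T ^ 2 ≤ 3) : X ≤ c3f_v T := by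
  rw [RegF.c3f_eq]
  exact le_trans (le_abs_self X) (Real.abs_le_sqrt (by linarith))

theorem sq_le_one {T : ℝ} (h : 0 ≤ T) (h' : T ≤ 1) : T ^ 2 ≤ 1 := by nlinarith

theorem sq_le_three {T : ℝ} (h : 0 ≤ T) (h' : T ≤ 2 * h0) : T ^ 2 ≤ 3 := by
  have := RegF.h2
  nlinarith

theorem h0_lt_one : h0 < 1 := by
  have := h0_hi
  linarith

theorem w_nonneg {d W δ : ℝ} (h : d = W * δ) (hd : 0 ≤ d) (hδ : 0 < δ) : 0 ≤ W := by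
  by_contra hn
  have : W * δ < 0 := mul_neg_of_neg_of_pos (lt_of_not_ge hn) hδ
  linarith

theorem sqrt_of_sq {T a : ℝ} (h : 0 ≤ T) (e : a = T ^ 2) : Real.sqrt a = T := by
  rw [e]; exact Real.sqrt_sq h

theorem c1f_ub {k b T : ℝ} (h : k * h0 ≤ T) (hk : 0 ≤ k) (hb : 0 ≤ b)
    (h2 : 1 - k ^ 2 * (3 / 4) ≤ b ^ 2) : c1f_v T ≤ b := by
  rw [RegF.c1f_eq]
  refine Real.sqrt_le_iff.mpr ⟨hb, ?_⟩
  have h3 := RegF.h2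
  have h4 : (k * h0) ^ 2 ≤ T ^ 2 := pow_le_pow_left₀ (mul_nonneg hk h0_pos.le) h 2
  rw [mul_pow, h3] at h4
  linarith

theorem c3f_ub {k b T : ℝ} (h : k * h0 ≤ T) (hk : 0 ≤ k) (hb : 0 ≤ b)
    (h2 : 3 - k ^ 2 * (3 / 4) ≤ b ^ 2) : c3f_v T ≤ b := by
  rw [RegF.c3f_eq]
  refine Real.sqrt_le_iff.mpr ⟨hb, ?_⟩
  have h3 := RegF.h2
  have h4 : (k * h0) ^ 2 ≤ T ^ 2 := pow_le_pow_left₀ (mul_nonneg hk h0_pos.le) h 2
  rw [mul_pow, h3] at h4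
  linarith

theorem f1p_nn {T : ℝ} (h1 : 0 ≤ T) (hT : T ≤ 2 * h0) : 0 ≤ f1p_v T := by
  rw [RegF.f1p_eq]
  have h2 := RegF.sw_half (T := T) (by linarith) (by linarith)
  have h3 := c1f_nn T
  linarith

theorem c_le {c X T : ℝ} (u1 : c ^ 2 + T ^ 2 = 1) (u2 : 1 ≤ X ^ 2 + T ^ 2) (hs : 0 < X + c) :
    c ≤ X := by
  by_contra hn
  have : (X - c) * (X + c) < 0 := mul_neg_of_neg_of_pos (by linarith) hs
  nlinarith

theorem t_lt {X T : ℝ} (hX : 0 < X) (u : X ^ 2 + T ^ 2 ≤ 3) (hT : 0 ≤ T) : T < 2 * h0 := by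
  by_contra hn
  have h3 := RegF.h2
  have h4 : (2 * h0) ^ 2 ≤ T ^ 2 := pow_le_pow_left₀ (by linarith [h0_pos]) (not_lt.mp hn) 2
  rw [mul_pow, h3] at h4
  have := pow_pos hX 2
  linarith

end Pool.Agent.Strip051.LB
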