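import Pool.Agent.Strip051.LB.RegF
import Pool.Agent.Strip051.LB.Fd.R

/-! # Identities for the special tight charts -/

namespace Pool.Agent.Strip051.LB

open Pool.Agent.StripNear Pool.Agent.Strip051.LB.Fn Pool.Agent.Strip051.LB.RegF

/-- (a) -/
theorem kx2a_eq {X T : ℝ} (hX : 0 < X) (_h1 : h0 ≤ T) (hT : T ≤ 1) :
    Fc.kx2_v X T = Fd.kx2a_v X T (c1f_v T) := by
  have e1 : Fc.kx2_v X T = Fc.kx2p_v X T := if_neg hX.not_ge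
  have hT1 : Fc.kx2p_v92 X T ≤ 0 := by
    show T - ((1 : ℕ) : ℝ) ≤ 0
    push_cast
    linarith
  have e2 : Fc.kx2p_v X T = Fc.kx2p_v94 X T := if_pos hT1
  rw [e1, e2]
  rfl

/-- (b) -/
theorem kx2b_eq {X T : ℝ} (hX : 0 < X) (hT : 1 < T) (_h2 : T ≤ 3 / 2 * h0) :
    Fc.kx2_v X T = Fd.kx2b_v X T := by
  have e1 : Fc.kx2_v X T = Fc.kx2p_v X T := if_neg hX.not_ge
  have hT1 : ¬ Fc.kx2p_v92 X T ≤ 0 := by
    show ¬ (T - ((1 : ℕ) : ℝ) ≤ 0)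
    push_cast
    linarith
  have e2 : Fc.kx2p_v X T = Fc.kx2p_v91 X T := if_neg hT1
  have hf : f1p_v T = Fd.kx2b_v17 X T := by
    show ((1 : ℕ) : ℝ) / ((2 : ℕ) : ℝ) * (c1f_v T + sw_v T - ((1 : ℕ) : ℝ) / ((2 : ℕ) : ℝ)) =
      ((1 : ℕ) : ℝ) / ((2 : ℕ) : ℝ) * (sw_v T - ((1 : ℕ) : ℝ) / ((2 : ℕ) : ℝ))
    rw [c1_zero' hT.le, zero_add]
  have hb : b1q2_v T = Fd.kx2b_v12 X T := if_neg hT1
  rw [e1, e2]
  show (if X - f1p_v T ≤ 0 then Fd.kx2b_v42 X T else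
    ((f1p_v T * b1q2_v T + (X - f1p_v T) * ((f2p_v T * b2q2_v T - f1p_v T * b1q2_v T) *
      (f2p_v T - f1p_v T)⁻¹ - ((1 : ℕ) : ℝ) + ((1 : ℕ) : ℝ))) - X) *
      (Fd.kx2b_v32 X T)⁻¹) = Fd.kx2b_v X T
  rw [hf, hb]
  rfl

/-- (d) -/
theorem kxq0_eq {X T u G Y : ℝ} (hu : 0 < u) (e1 : f1m_v T - c1f_v T = u * G)
    (e2 : X - c1f_v T = u * Y) : Fc.kxq0_v X T = if Y - G ≤ 0 then Fc.rho0_v T else
      Fc.sgq0_v T + min (max (G * Y⁻¹) 0) 1 * (Fc.rho0_v T - Fc.sgq0_v T) := by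
  show (if X - f1m_v T ≤ 0 then Fc.rho0_v T else
    Fc.sgq0_v T + min (max ((f1m_v T - c1f_v T) * (X - c1f_v T)⁻¹) 0) 1 *
      (Fc.rho0_v T - Fc.sgq0_v T)) = _
  have h1 : X - f1m_v T = u * (Y - G) := by linarith
  have h2 : (f1m_v T - c1f_v T) * (X - c1f_v T)⁻¹ = G * Y⁻¹ := by
    rw [e1, e2, mul_inv]
    have : u * u⁻¹ = 1 := mul_inv_cancel₀ hu.ne'
    linear_combination G * Y⁻¹ * this
  rw [h1, h2]
  by_cases h : Y - G ≤ 0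
  · rw [if_pos h, if_pos (mul_nonpos_of_nonneg_of_nonpos hu.le h)]
  · rw [if_neg h, if_neg (not_le.2 (mul_pos hu (not_le.1 h)))]

theorem f1c1 {T : ℝ} (h1 : 0 ≤ T) (h2 : T ≤ h0 / 2) : f1m_v T - c1f_v T =
    T * (((2 * h0 - T) * (sw_v T + 1 / 2)⁻¹ + T * (1 + c1f_v T)⁻¹) / 2) := by
  rw [f1m_sub h1 h2]
  ring

theorem lam_mul {z a b : ℝ} (hz : 0 < z) : z * a * (z * b)⁻¹ = a * b⁻¹ := by
  rw [mul_inv]
  have : z * z⁻¹ = 1 := mul_inv_cancel₀ hz.ne'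
  linear_combination a * b⁻¹ * this

/-- The distance of the second curve from the large circle near the top. -/
theorem c3_sub_f2p {T : ℝ} (h1 : h0 ≤ T) (h2 : T < 2 * h0) : c3f_v T - f2p_v T =
    c3f_v T * ((1 - c3f_v T * (T * ((2 * h0 + T) * (sw_v T + 1 / 2))⁻¹)) / 2) := by
  have hp := hpos
  have hq := RegF.h2
  have k1 := c3_sq' (T := T) (by nlinarith)
  have k2 := sw_sq (T := T) (by linarith) h2.le
  have k3 := sw_half (T := T) (by linarith) h2.le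
  have k4 := c3_nn T
  rw [f2p_eq]
  set c := c3f_v T
  set w := sw_v T
  have e1 : w + 1 / 2 ≠ 0 := by linarith
  have e2 : 2 * h0 + T ≠ 0 := by linarith
  have e3 : (2 * h0 + T) * (w + 1 / 2) * ((2 * h0 + T) * (w + 1 / 2))⁻¹ = 1 :=
    mul_inv_cancel₀ (mul_ne_zero e2 e1)
  set J := ((2 * h0 + T) * (w + 1 / 2))⁻¹
  have e4 : c ^ 2 * T = (w - 1 / 2) * ((2 * h0 + T) * (w + 1 / 2)) := by
    have : (w - 1 / 2) * (w + 1 / 2) = T * (2 * h0 - T) := by nlinarith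
    nlinarith
  have e5 : c ^ 2 * T * J = w - 1 / 2 := by
    rw [e4]
    linear_combination (w - 1 / 2) * e3
  linear_combination (1 / 2 : ℝ) * e5

/-- (c) -/
theorem kx3z_eq {T z xi : ℝ} (h1 : 3 / 2 * h0 ≤ T) (h2 : T < 2 * h0) (e : z = c3f_v T)
    (_hx0 : 0 ≤ xi) (_hx1 : xi ≤ 1) : Fc.kx3_v (z * xi) T = Fd.kx3z_v (z * xi) T z xi := by
  have hp := hpos
  have hq := RegF.h2
  have hz : 0 < c3f_v T := by
    rw [c3f_eq]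
    apply Real.sqrt_pos.2
    nlinarith
  have k := c3_sub_f2p (T := T) (by linarith) h2
  subst e
  set z := c3f_v T with hz'
  have l1 : min (max (z * xi * (z + z * xi)⁻¹) 0) 1 =
      min (max (xi * (((1 : ℕ) : ℝ) + xi)⁻¹) 0) 1 := by
    rw [show z + z * xi = z * (((1 : ℕ) : ℝ) + xi) by push_cast; ring, lam_mul hz]
  have hN : z - f2p_v T = z * (((1 : ℕ) : ℝ) / ((2 : ℕ) : ℝ) * (((1 : ℕ) : ℝ) -
      z * (T * ((Real.sqrt ((3 : ℕ) : ℝ) + T) * (sw_v T + ((1 : ℕ) : ℝ) / ((2 : ℕ) : ℝ)))⁻¹))) := by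
    rw [k, s3c]
    push_cast
    ring
  have l2 : min (max ((z - f2p_v T) * (z - z * xi)⁻¹) 0) 1 =
      min (max (((1 : ℕ) : ℝ) / ((2 : ℕ) : ℝ) * (((1 : ℕ) : ℝ) -
        z * (T * ((Real.sqrt ((3 : ℕ) : ℝ) + T) * (sw_v T + ((1 : ℕ) : ℝ) / ((2 : ℕ) : ℝ)))⁻¹)) *
          (((1 : ℕ) : ℝ) - xi)⁻¹) 0) 1 := by
    rw [show z - z * xi = z * (((1 : ℕ) : ℝ) - xi) by push_cast; ring, hN, lam_mul hz]
  have t : f2p_v T - z * xi = z * (((1 : ℕ) : ℝ) / ((2 : ℕ) : ℝ) * (((1 : ℕ) : ℝ) +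
      z * (T * ((Real.sqrt ((3 : ℕ) : ℝ) + T) *
        (sw_v T + ((1 : ℕ) : ℝ) / ((2 : ℕ) : ℝ)))⁻¹)) - xi) := by
    have : f2p_v T = z - (z - f2p_v T) := by ring
    rw [this, hN]
    push_cast
    ring
  simp only [
    Fc.kx3_v4, Fc.kx3_v5, Fc.kx3_v6, Fc.kx3_v7, Fc.kx3_v8, Fc.kx3_v9, Fc.kx3_v10, Fc.kx3_v11,
    Fc.kx3_v12, Fc.kx3_v13, Fc.kx3_v14, Fc.kx3_v15, Fc.kx3_v16, Fc.kx3_v17, Fc.kx3_v18,
    Fc.kx3_v19, Fc.kx3_v20, Fc.kx3_v21, Fc.kx3_v22, Fc.kx3_v23, Fc.kx3_v24, Fc.kx3_v25,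
    Fc.kx3_v26, Fc.kx3_v27, Fc.kx3_v28, Fc.kx3_v29, Fc.kx3_v30, Fc.kx3_v31, Fc.kx3_v32,
    Fc.kx3_v33, Fc.kx3_v34, Fc.kx3_v35, Fc.kx3_v36, Fc.kx3_v37, Fc.kx3_v38, Fc.kx3_v40,
    Fc.kx3_v41, Fc.kx3_v42, Fc.kx3_v43, Fc.kx3_v44, Fc.kx3_v45, Fc.kx3_v46, Fc.kx3_v47,
    Fc.kx3_v48, Fc.kx3_v49, Fc.kx3_v50, Fc.kx3_v51, Fc.kx3_v52, Fc.kx3_v53, Fc.kx3_v54,
    Fc.kx3_v55, Fc.kx3_v56, Fc.kx3_v57, Fc.kx3_v58, Fc.kx3_v60, Fc.kx3_v61, Fc.kx3_v62,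
    Fc.kx3_v63, Fc.kx3_v64, Fc.kx3_v65, Fc.kx3_v66, Fc.kx3_v67, Fc.kx3_v68, Fc.kx3_v69,
    Fc.kx3_v70, Fc.kx3_v71, Fc.kx3_v72, Fc.kx3_v73, Fc.kx3_v74, Fc.kx3_v75, Fc.kx3_v,
    Fd.kx3z_v4, Fd.kx3z_v5, Fd.kx3z_v6, Fd.kx3z_v7, Fd.kx3z_v8, Fd.kx3z_v9, Fd.kx3z_v10,
    Fd.kx3z_v11, Fd.kx3z_v12, Fd.kx3z_v13, Fd.kx3z_v14, Fd.kx3z_v15, Fd.kx3z_v16, Fd.kx3z_v17,
    Fd.kx3z_v18, Fd.kx3z_v19, Fd.kx3z_v20, Fd.kx3z_v21, Fd.kx3z_v22, Fd.kx3z_v23, Fd.kx3z_v24,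
    Fd.kx3z_v25, Fd.kx3z_v26, Fd.kx3z_v27, Fd.kx3z_v28, Fd.kx3z_v29, Fd.kx3z_v30, Fd.kx3z_v31,
    Fd.kx3z_v32, Fd.kx3z_v33, Fd.kx3z_v34, Fd.kx3z_v35, Fd.kx3z_v36, Fd.kx3z_v38, Fd.kx3z_v39,
    Fd.kx3z_v40, Fd.kx3z_v41, Fd.kx3z_v42, Fd.kx3z_v43, Fd.kx3z_v44, Fd.kx3z_v45, Fd.kx3z_v46,
    Fd.kx3z_v47, Fd.kx3z_v48, Fd.kx3z_v49, Fd.kx3z_v50, Fd.kx3z_v51, Fd.kx3z_v52, Fd.kx3z_v53,
    Fd.kx3z_v54, Fd.kx3z_v55, Fd.kx3z_v56, Fd.kx3z_v58, Fd.kx3z_v59, Fd.kx3z_v60, Fd.kx3z_v61,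
    Fd.kx3z_v62, Fd.kx3z_v63, Fd.kx3z_v64, Fd.kx3z_v65, Fd.kx3z_v66, Fd.kx3z_v67, Fd.kx3z_v68,
    Fd.kx3z_v69, Fd.kx3z_v70, Fd.kx3z_v71, Fd.kx3z_v72, Fd.kx3z_v73, Fd.kx3z_v74, Fd.kx3z_v]
  rw [← hz', l1, l2]
  by_cases h : ((1 : ℕ) : ℝ) / ((2 : ℕ) : ℝ) * (((1 : ℕ) : ℝ) +
      z * (T * ((Real.sqrt ((3 : ℕ) : ℝ) + T) *
        (sw_v T + ((1 : ℕ) : ℝ) / ((2 : ℕ) : ℝ)))⁻¹)) - xi ≤ 0
  · exact (if_pos (by rw [t]; exact mul_nonpos_of_nonneg_of_nonpos hz.le h)).trans (if_pos h).symm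
  · exact (if_neg (by rw [t]; exact not_le.2 (mul_pos hz (not_le.1 h)))).trans (if_neg h).symm

theorem le_of_sq_le_sq {a b : ℝ} (h : b ^ 2 ≤ a ^ 2) (ha : 0 ≤ a) : b ≤ a := by
  by_contra h'
  have := not_le.1 h'
  nlinarith

/-- (e) -/
theorem f1p_le {t t2 : ℝ} (h1 : h0 / 2 ≤ t) (h2 : t ≤ h0) (h3 : h0 ≤ t2) (h4 : t2 ≤ 1)
    (h5 : 1 ≤ t + t2) (h6 : t + t2 ≤ 2 * h0) : f1p_v (t + t2) ≤ c1f_v t - c1f_v t2 := by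
  have hp := hpos
  have hh := h0_hi
  have hq := RegF.h2
  have k1 := c1_sq' (T := t) (by nlinarith)
  have k2 := c1_sq' (T := t2) (by nlinarith)
  have k3 := c1_nn t
  have k4 := c1_nn t2
  have k5 := sw_sq (T := t + t2) (by linarith) h6
  have k6 := sw_half (T := t + t2) (by linarith) h6
  rw [f1p_eq, c1_zero' h5]
  set a := c1f_v t
  set b := c1f_v t2
  set w := sw_v (t + t2)
  have i1 : (a - b) * (a + b) = (t2 - t) * (t + t2) := by linear_combination k1 - k2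
  have i2 : (w - 1 / 2) * (w + 1 / 2) = (t + t2) * (2 * h0 - (t + t2)) := by
    linear_combination k5 - hq
  have i3 : a ≤ 1 := (sq_le_one_iff₀ k3).1 (by rw [k1]; linarith [sq_nonneg t])
  have i4 : b ≤ 1 := (sq_le_one_iff₀ k4).1 (by rw [k2]; linarith [sq_nonneg t2])
  have i5 : b ≤ a := by
    refine le_of_sq_le_sq ?_ k3
    rw [k1, k2]
    have : t ^ 2 ≤ t2 ^ 2 := pow_le_pow_left₀ (by linarith) (by linarith) 2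
    linarith
  have i6 : w - 1 / 2 ≤ (w - 1 / 2) * (w + 1 / 2) :=
    le_mul_of_one_le_right (by linarith) (by linarith)
  have i7 : (a - b) * (a + b) ≤ (a - b) * 2 :=
    mul_le_mul_of_nonneg_left (by linarith) (by linarith)
  have i8 : (t + t2) * (2 * h0 - (t + t2)) ≤ (t + t2) * (t2 - t) :=
    mul_le_mul_of_nonneg_left (by linarith) (by linarith)
  linarith

/-- (f) the top, in terms of `z = c3 T` -/
theorem zch_T {T : ℝ} (h1 : 0 ≤ T) (h2 : T ≤ 2 * h0) :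
    2 * h0 - T = c3f_v T ^ 2 * (2 * h0 + T)⁻¹ := by
  have hp := hpos
  have hq := RegF.h2
  have k1 := c3_sq' (T := T) (by nlinarith)
  have k2 : 2 * h0 + T ≠ 0 := by linarith
  rw [k1, show 3 - T ^ 2 = (2 * h0 - T) * (2 * h0 + T) by nlinarith, mul_assoc,
    mul_inv_cancel₀ k2, mul_one]

theorem zch_t {t t2 T z m : ℝ} (hT : T = t + t2) (h1 : 0 ≤ T) (h2 : T ≤ 2 * h0)
    (hz : z = c3f_v T) (ht2 : t2 = h0 + z * m) : t = h0 - z * (m + z * (2 * h0 + T)⁻¹) := by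
  have := zch_T h1 h2
  rw [← hz] at this
  linear_combination -this - hT - ht2

theorem zch_X {t w : ℝ} (h0' : 0 ≤ t) (h1 : t ≤ 1) (ht : t = h0 - w) :
    c1f_v t - 1 / 2 = w * ((h0 + t) * (c1f_v t + 1 / 2)⁻¹) := by
  have hq := RegF.h2
  have k1 := c1_sq' (T := t) (by nlinarith)
  have k3 := c1_nn t
  set a := c1f_v t
  have k4 : a + 1 / 2 ≠ 0 := by linarith
  have k5 : (a + 1 / 2) * (a + 1 / 2)⁻¹ = 1 := mul_inv_cancel₀ k4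
  have k6 : (a - 1 / 2) * (a + 1 / 2) = w * (h0 + t) := by
    have : w = h0 - t := by linarith
    rw [this]
    nlinarith
  linear_combination (a + 1 / 2)⁻¹ * k6 - (a - 1 / 2) * k5

theorem zch_s {t2 w : ℝ} (h0' : 0 ≤ t2) (h1 : t2 ≤ 1) (ht : t2 = h0 + w) :
    1 / 2 - c1f_v t2 = w * (t2 + h0) * (c1f_v t2 + 1 / 2)⁻¹ := by
  have := zch_X (w := -w) h0' h1 (by linarith)
  linear_combination -this

/-- (f) the difference of the two abscissas -/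
theorem zch_Xs {t t2 T z m : ℝ} (hT : T = t + t2) (h0' : 0 ≤ t) (h1 : t ≤ 1) (h2 : 0 ≤ t2)
    (h3 : t2 ≤ 1) (h4 : T ≤ 2 * h0) (hz : z = c3f_v T) (ht2 : t2 = h0 + z * m) :
    c1f_v t - c1f_v t2 = z * ((m + z * (2 * h0 + T)⁻¹) * ((h0 + t) * (c1f_v t + 1 / 2)⁻¹) +
      m * (t2 + h0) * (c1f_v t2 + 1 / 2)⁻¹) := by
  have e1 := zch_t hT (by linarith) h4 hz ht2
  have e2 := zch_X h0' h1 e1
  have e3 := zch_s h2 h3 ht2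
  linear_combination e2 + e3

/-- (f) the height of the third vertex -/
theorem zch_v {t t2 T z m : ℝ} (hT : T = t + t2) (h0' : 0 ≤ t) (h1 : t ≤ 1) (h2 : 0 ≤ t2)
    (h4 : T ≤ 2 * h0) (hz : z = c3f_v T) (ht2 : t2 = h0 + z * m) :
    (t / 2 + h0 * c1f_v t) - t2 = z ^ 2 * ((2 * h0 + T)⁻¹ - (m + z * (2 * h0 + T)⁻¹) ^ 2 *
      (h0 + 3 / 2 * ((h0 + t) * (c1f_v t + 1 / 2)⁻¹)) * (c1f_v t + 1 / 2)⁻¹) := by
  have hq := RegF.h2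
  have e1 := zch_t hT (by linarith) h4 hz ht2
  have e2 := zch_X h0' h1 e1
  have k3 := c1_nn t
  set a := c1f_v t
  set g := (2 * h0 + T)⁻¹
  have k4 : a + 1 / 2 ≠ 0 := by linarith
  have k5 : (a + 1 / 2) * (a + 1 / 2)⁻¹ = 1 := mul_inv_cancel₀ k4
  set J := (a + 1 / 2)⁻¹
  obtain ⟨ν, hν⟩ : ∃ ν, ν = m + z * g := ⟨_, rfl⟩
  rw [← hν] at e1 e2 ⊢
  obtain ⟨p, hp⟩ : ∃ p, p = (h0 + t) * J := ⟨_, rfl⟩
  rw [← hp] at e2 ⊢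
  have hm : m = ν - z * g := by linarith
  rw [hm] at ht2
  have ha : a = 1 / 2 + z * ν * p := by linarith
  -- `h0 p - 3/2 = - z ν (h0 + 3/2 p) J`
  have key : h0 * p - 3 / 2 = -(z * ν * (h0 + 3 / 2 * p) * J) := by
    have q1 : h0 * (h0 + t) - 3 / 2 * (a + 1 / 2) = -(z * ν * (h0 + 3 / 2 * p)) := by
      rw [ha, e1]
      linear_combination 2 * hq
    rw [hp] at *
    linear_combination J * q1 + 3 / 2 * k5
  linear_combination (1 / 2 : ℝ) * e1 + h0 * ha - ht2 + z * ν * key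

/-- (f) the bound for `m` -/
theorem zch_m {t t2 T z m : ℝ} (hT : T = t + t2) (h0' : 0 ≤ t) (h1 : t ≤ 1) (h2 : h0 ≤ t2)
    (h3 : t2 ≤ 1) (h4 : T ≤ 2 * h0) (hz : z = c3f_v T) (hz0 : 0 < z) (ht2 : t2 = h0 + z * m)
    (h : c1f_v t - c1f_v t2 ≤ z) : m ≤ 3 / 5 := by
  have hp := hpos
  have hl := h0_lo
  have hq := RegF.h2
  have hm : 0 ≤ m := by
    by_contra h'
    have := mul_neg_of_pos_of_neg hz0 (not_le.1 h')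
    linarith
  have e := zch_Xs hT h0' h1 (by linarith) h3 h4 hz ht2
  rw [e] at h
  have h' : (m + z * (2 * h0 + T)⁻¹) * ((h0 + t) * (c1f_v t + 1 / 2)⁻¹) +
      m * (t2 + h0) * (c1f_v t2 + 1 / 2)⁻¹ ≤ 1 := by
    by_contra h''
    have := mul_lt_mul_of_pos_left (not_le.1 h'') hz0
    linarith
  have k1 := c1_nn t
  have k2 := c1_nn t2
  have k3 := c1_sq' (T := t2) (by nlinarith)
  have k4 : c1f_v t2 ≤ 1 / 2 := by nlinarith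
  have p1 : 0 ≤ (m + z * (2 * h0 + T)⁻¹) * ((h0 + t) * (c1f_v t + 1 / 2)⁻¹) := by
    have : 0 ≤ (2 * h0 + T)⁻¹ := inv_nonneg.2 (by linarith)
    have : 0 ≤ (c1f_v t + 1 / 2)⁻¹ := inv_nonneg.2 (by linarith)
    positivity
  have p2 : 1 ≤ (c1f_v t2 + 1 / 2)⁻¹ := by
    rw [one_le_inv₀ (by linarith)]
    linarith
  have p3 : m * (t2 + h0) * 1 ≤ m * (t2 + h0) * (c1f_v t2 + 1 / 2)⁻¹ :=
    mul_le_mul_of_nonneg_left p2 (mul_nonneg hm (by linarith))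
  have p4 : m * (2 * h0) ≤ m * (t2 + h0) := mul_le_mul_of_nonneg_left (by linarith) hm
  nlinarith

/-- (g) the blow-up at `(h0, h0)` -/
theorem blow_v {t T u b : ℝ} (h0' : 0 ≤ t) (h1 : t ≤ 1) (ht : t = h0 - u * b)
    (hT : T = h0 + u * (1 - b)) : (t / 2 + h0 * c1f_v t) - T =
      u * (b / 2 + h0 * b * (t + h0) * (c1f_v t + 1 / 2)⁻¹ - 1) := by
  have e2 := zch_X h0' h1 ht
  linear_combination (1 / 2 : ℝ) * ht + h0 * e2 - hT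

end Pool.Agent.Strip051.LB
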