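import Pool.Agent.Strip051.LB.Cf
import Pool.Agent.Strip051.LB.Sp

/-! # Elementary facts for the special tight charts -/

namespace Pool.Agent.Strip051.LB

open Pool.Agent.StripNear Pool.Agent.Strip051.LB.Fn

theorem hc_le {c t : ℝ} (s : c ^ 2 + t ^ 2 = 1) : h0 * c + t / 2 ≤ 1 := by
  have h3 := RegF.h2
  have h4 : (h0 * c + t / 2) ^ 2 + (c / 2 - h0 * t) ^ 2 = 1 := by
    linear_combination (h0 ^ 2 + 1 / 4) * s + h3
  nlinarith [sq_nonneg (c / 2 - h0 * t)]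

theorem c1_gt {t t2 : ℝ} (h1 : 0 ≤ t) (h2 : t ≤ 1 / 2 * h0) (h3 : 1 / 2 * h0 ≤ t2) (h4 : t2 ≤ h0)
    (hq : 1 ≤ (c1f_v t + -(c1f_v t2)) ^ 2 + (t + t2) ^ 2) : 0 < c1f_v t + -(c1f_v t2) := by
  have g2 := h0_hi
  have hp := h0_pos
  have hh := RegF.h2
  have s1 : c1f_v t ^ 2 + t ^ 2 = 1 := c1f_sq (sq_le_one (by linarith) (by linarith))
  have s2 : c1f_v t2 ^ 2 + t2 ^ 2 = 1 := c1f_sq (sq_le_one (by linarith) (by linarith))
  have n1 := c1f_nn t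
  have n2 := c1f_nn t2
  have h5 : t < t2 := by
    by_contra hn
    have e1 : t = t2 := by linarith
    have e2 : t2 = 1 / 2 * h0 := by linarith
    rw [e1, e2] at hq
    nlinarith
  by_contra hn
  have h6 : c1f_v t ≤ c1f_v t2 := by linarith
  have h7 : c1f_v t ^ 2 ≤ c1f_v t2 ^ 2 := pow_le_pow_left₀ n1 h6 2
  nlinarith

/-- Blow-up coordinates at the corner (h, h). -/
theorem blow {t T : ℝ} (h1 : t ≤ h0) (h2 : h0 ≤ T) : ∃ u b : ℝ, 0 ≤ u ∧ 0 ≤ b ∧ b ≤ 1 ∧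
    t = h0 - u * b ∧ T = h0 + u * (1 - b) ∧ u = T - t := by
  rcases (sub_nonneg.mpr (le_trans h1 h2)).eq_or_lt with h | h
  · exact ⟨0, 0, le_refl _, le_refl _, zero_le_one, by linarith, by linarith, by linarith⟩
  · refine ⟨T - t, (h0 - t) / (T - t), h.le, div_nonneg (by linarith) h.le, ?_, ?_, ?_, rfl⟩
    · rw [div_le_one h]; linarith
    · rw [mul_div_cancel₀ _ h.ne']; ring
    · rw [mul_sub, mul_div_cancel₀ _ h.ne']; ring

theorem blow_w {t T u b c : ℝ} (s : c ^ 2 + t ^ 2 = 1) (n : 0 ≤ c) (e1 : t = h0 - u * b)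
    (e2 : T = h0 + u * (1 - b)) :
    (t / 2 + h0 * c) - T = u * (b / 2 + h0 * b * (t + h0) * (c + 1 / 2)⁻¹ - 1) := by
  have h3 := RegF.h2
  have hc : c + 1 / 2 ≠ 0 := by linarith
  have k : c - 1 / 2 = u * (b * (t + h0) * (c + 1 / 2)⁻¹) := by
    have : (c - 1 / 2) * (c + 1 / 2) = u * (b * (t + h0)) := by
      have e3 : u * b = h0 - t := by linarith
      have : u * (b * (t + h0)) = (u * b) * (t + h0) := by ring
      rw [this, e3]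
      linear_combination s - h3
    rw [← mul_assoc, ← this, mul_assoc, mul_inv_cancel₀ hc, mul_one]
  have e4 : c = 1 / 2 + u * (b * (t + h0) * (c + 1 / 2)⁻¹) := by linarith
  calc (t / 2 + h0 * c) - T = t / 2 + h0 * (1 / 2 + u * (b * (t + h0) * (c + 1 / 2)⁻¹)) - T := by
        rw [← e4]
    _ = _ := by
        rw [e2]
        have e5 : t / 2 = h0 / 2 - u * b / 2 := by rw [e1]; ring
        rw [e5]; ring

/-- Coordinates at the corner (h, h, 2h). -/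
theorem zed {t t2 : ℝ} (h1 : 0 ≤ t) (h2 : t ≤ h0) (h3 : h0 ≤ t2) (h4 : t2 ≤ 1)
    (hT : 83 / 50 ≤ t + t2) (h6 : t + t2 ≤ 2 * h0)
    (hq : (c1f_v t + -(c1f_v t2)) ^ 2 + (t + t2) ^ 2 ≤ 3) : ∃ z m : ℝ, 0 ≤ z ∧ z ≤ 1 / 2 ∧
      0 ≤ m ∧ m ≤ 3 / 5 ∧ z = c3f_v (t + t2) ∧ t2 = h0 + z * m := by
  have g2 := h0_hi
  have g1 := h0_lo
  have hh := RegF.h2
  have s3 : c3f_v (t + t2) ^ 2 + (t + t2) ^ 2 = 3 := c3f_sq (sq_le_three (by linarith) h6)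
  have n3 := c3f_nn (t + t2)
  have s1 : c1f_v t ^ 2 + t ^ 2 = 1 := c1f_sq (sq_le_one (by linarith) (by linarith))
  have s2 : c1f_v t2 ^ 2 + t2 ^ 2 = 1 := c1f_sq (sq_le_one (by linarith) (by linarith))
  have n1 := c1f_nn t
  have n2 := c1f_nn t2
  have z1 : c3f_v (t + t2) ≤ 1 / 2 := by nlinarith
  have a1 : 1 / 2 ≤ c1f_v t := by
    by_contra hn
    have : c1f_v t ^ 2 < (1 / 2) ^ 2 := pow_lt_pow_left₀ (not_le.mp hn) n1 (by norm_num)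
    nlinarith
  have a2 : c1f_v t2 ≤ 1 / 2 := by
    by_contra hn
    have : (1 / 2) ^ 2 < c1f_v t2 ^ 2 := pow_lt_pow_left₀ (not_le.mp hn) (by norm_num) (by norm_num)
    nlinarith
  have a3 : (c1f_v t + -(c1f_v t2)) ^ 2 ≤ c3f_v (t + t2) ^ 2 := by linarith
  have a4 : c1f_v t + -(c1f_v t2) ≤ c3f_v (t + t2) := by
    by_contra hn
    have := pow_lt_pow_left₀ (not_le.mp hn) n3 (n := 2) (by norm_num)
    linarith
  have a5 : (t2 - h0) * (2 * h0) ≤ (t2 - h0) * (t2 + h0) :=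
    mul_le_mul_of_nonneg_left (by linarith) (by linarith)
  have a6 : (t2 - h0) * (t2 + h0) = (1 / 2 - c1f_v t2) * (1 / 2 + c1f_v t2) := by
    linear_combination s2 - hh
  have a7 : (1 / 2 - c1f_v t2) * (1 / 2 + c1f_v t2) ≤ (1 / 2 - c1f_v t2) * 1 :=
    mul_le_mul_of_nonneg_left (by linarith) (by linarith)
  have a8 : (t2 - h0) * (2 * h0) ≤ c3f_v (t + t2) := by linarith
  rcases n3.eq_or_lt with h | h
  · have : t2 - h0 = 0 := by
      rw [← h] at a8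
      have : 0 ≤ (t2 - h0) := by linarith
      nlinarith
    exact ⟨c3f_v (t + t2), 0, n3, z1, le_refl _, by norm_num, rfl, by linarith⟩
  · refine ⟨c3f_v (t + t2), (t2 - h0) / c3f_v (t + t2), n3, z1, div_nonneg (by linarith) n3, ?_, rfl, ?_⟩
    · rw [div_le_iff₀ h]
      refine le_of_mul_le_mul_right (a := 2 * h0) (le_trans a8 ?_) (by linarith)
      have : c3f_v (t + t2) * 1 ≤ c3f_v (t + t2) * (3 / 5 * (2 * h0)) :=
        mul_le_mul_of_nonneg_left (by linarith) n3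
      linarith
    · rw [mul_div_cancel₀ _ h.ne']; ring

theorem zed_w {t t2 z m c : ℝ} (s : c ^ 2 + t ^ 2 = 1) (n : 0 ≤ c) (sz : z ^ 2 + (t + t2) ^ 2 = 3)
    (hT : 0 ≤ t + t2) (e : t2 = h0 + z * m) :
    (t / 2 + h0 * c) - t2 = z ^ 2 * ((2 * h0 + (t + t2))⁻¹ - (m + z * (2 * h0 + (t + t2))⁻¹) ^ 2 *
      (h0 + 3 / 2 * ((h0 + t) * (c + 1 / 2)⁻¹)) * (c + 1 / 2)⁻¹) := by
  have h3 := RegF.h2
  have hp := h0_pos
  have hc : c + 1 / 2 ≠ 0 := by linarith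
  have hk : 2 * h0 + (t + t2) ≠ 0 := by linarith
  have g1 : 2 * h0 - (t + t2) = z ^ 2 * (2 * h0 + (t + t2))⁻¹ := by
    have : (2 * h0 - (t + t2)) * (2 * h0 + (t + t2)) = z ^ 2 := by linear_combination 4 * h3 - sz
    rw [← this, mul_assoc, mul_inv_cancel₀ hk, mul_one]
  obtain ⟨g, hg⟩ : ∃ g, g = (2 * h0 + (t + t2))⁻¹ := ⟨_, rfl⟩
  obtain ⟨q, hq⟩ : ∃ q, q = (c + 1 / 2)⁻¹ := ⟨_, rfl⟩
  rw [← hg] at g1
  rw [← hg, ← hq]
  have e1 : h0 - t = z * (m + z * g) := by linear_combination g1 + e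
  have e2 : q * (c + 1 / 2) = 1 := by rw [hq]; exact inv_mul_cancel₀ hc
  have e3 : c - 1 / 2 = (h0 - t) * (h0 + t) * q := by
    linear_combination (-(c - 1 / 2)) * e2 + q * (s - h3)
  have e4 : z ^ 2 * (g - (m + z * g) ^ 2 * (h0 + 3 / 2 * ((h0 + t) * q)) * q) =
      z ^ 2 * g - (h0 - t) ^ 2 * (h0 + 3 / 2 * ((h0 + t) * q)) * q := by
    rw [e1]; ring
  rw [e4, ← g1]
  -- c = 1/2 + (h0-t)(h0+t) q ; q (c+1/2) = 1
  have e5 : q = 1 - (h0 - t) * (h0 + t) * q ^ 2 := by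
    linear_combination e2 - q * e3
  linear_combination h0 * e3 + 2 * (h0 - t) * q * h3 + (3 / 2) * (h0 - t) * e5

theorem zed_x {t t2 z m c s : ℝ} (s1 : c ^ 2 + t ^ 2 = 1) (n : 0 ≤ c) (s2 : s ^ 2 + t2 ^ 2 = 1)
    (n2 : 0 ≤ s) (sz : z ^ 2 + (t + t2) ^ 2 = 3) (hT : 0 ≤ t + t2) (e : t2 = h0 + z * m) :
    c + -s = z * ((m + z * (2 * h0 + (t + t2))⁻¹) * ((h0 + t) * (c + 1 / 2)⁻¹) +
      m * (t2 + h0) * (s + 1 / 2)⁻¹) := by
  have h3 := RegF.h2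
  have hp := h0_pos
  have hc : c + 1 / 2 ≠ 0 := by linarith
  have hs : s + 1 / 2 ≠ 0 := by linarith
  have hk : 2 * h0 + (t + t2) ≠ 0 := by linarith
  have g1 : 2 * h0 - (t + t2) = z ^ 2 * (2 * h0 + (t + t2))⁻¹ := by
    have : (2 * h0 - (t + t2)) * (2 * h0 + (t + t2)) = z ^ 2 := by linear_combination 4 * h3 - sz
    rw [← this, mul_assoc, mul_inv_cancel₀ hk, mul_one]
  obtain ⟨g, hg⟩ : ∃ g, g = (2 * h0 + (t + t2))⁻¹ := ⟨_, rfl⟩
  obtain ⟨q, hq⟩ : ∃ q, q = (c + 1 / 2)⁻¹ := ⟨_, rfl⟩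
  obtain ⟨r, hr⟩ : ∃ r, r = (s + 1 / 2)⁻¹ := ⟨_, rfl⟩
  rw [← hg] at g1
  rw [← hg, ← hq, ← hr]
  have e1 : h0 - t = z * (m + z * g) := by linear_combination g1 + e
  have e2 : q * (c + 1 / 2) = 1 := by rw [hq]; exact inv_mul_cancel₀ hc
  have e4 : r * (s + 1 / 2) = 1 := by rw [hr]; exact inv_mul_cancel₀ hs
  have e3 : c - 1 / 2 = (h0 - t) * (h0 + t) * q := by
    linear_combination (-(c - 1 / 2)) * e2 + q * (s1 - h3)
  have e5 : 1 / 2 - s = (t2 - h0) * (t2 + h0) * r := by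
    linear_combination (-(1 / 2 - s)) * e4 + r * (h3 - s2)
  have e6 : z * m = t2 - h0 := by linarith
  calc c + -s = (c - 1 / 2) + (1 / 2 - s) := by ring
    _ = (h0 - t) * (h0 + t) * q + (t2 - h0) * (t2 + h0) * r := by rw [← e3, ← e5]
    _ = _ := by rw [e1, ← e6]; ring

end Pool.Agent.Strip051.LB
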