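import Pool.Agent.Strip051.LB.ChA00U_pm_012a.Sl
import Pool.Agent.Strip051.LB.ChA00U_pm_012a.All
import Pool.Agent.Strip051.LB.Sp2

/-! # LINE tight chart ChA00U_pm_012a -/

namespace Pool.Agent.Strip051.LB.ChA00U_pm_012a

open Pool.Agent.Strip051.LB Pool.Agent.Strip051.LB.Fn Pool.Agent.Strip051.LB.Fc Pool.Agent.Strip051.LB.Fd Pool.Agent.StripNear Pool.Agent.Strip051.Box Pool.Agent.Strip051.Box2

set_option maxRecDepth 100000
set_option linter.all false

theorem mem0 {x1 x2 : ℝ} (h1 : 0 ≤ x1) (h2 : x1 ≤ 8660254039 / 20000000000) (h3 : 0 ≤ x2) (h4 : x2 ≤ 501 / 1000) : Mem S b0 x1 x2 := by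
  unfold Mem b0
  refine ⟨abs_le.mpr ⟨?_, ?_⟩, abs_le.mpr ⟨?_, ?_⟩⟩ <;> norm_num [S] <;> linarith

theorem tight012a {t t2 : ℝ} (h1 : 0 * Pool.Agent.StripNear.h0 ≤ t) (h1' : t ≤ 1 / 2 * Pool.Agent.StripNear.h0) (h2 : 1 / 2 * Pool.Agent.StripNear.h0 ≤ t2) (h2' : t2 ≤ 1 * Pool.Agent.StripNear.h0) (h3 : 1 * Pool.Agent.StripNear.h0 ≤ t + t2) (h3' : t + t2 ≤ 3 / 2 * Pool.Agent.StripNear.h0) (h6 : t + t2 ≤ 2 * Pool.Agent.StripNear.h0) (ho : 0 ≤ exf_v (c1f_v t) (-(c1f_v t2)) t t2 + 1 / 2) (hq1 : 1 ≤ q3f_v (c1f_v t + -(c1f_v t2)) (t + t2)) (hq3 : q3f_v (c1f_v t + -(c1f_v t2)) (t + t2) ≤ 3) (hw1 : 0 ≤ 1 / 16 - (t2 - (Pool.Agent.StripNear.h0 * c1f_v t - t / 2))) (hw2 : 0 ≤ 1 / 16 + (t2 - (Pool.Agent.StripNear.h0 * c1f_v t - t / 2))) (hT1 : t + t2 ≤ 1) :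
    0 ≤ sl012_v (exf_v (c1f_v t) (-(c1f_v t2)) t t2) t t2 (t + t2) (a1q0_v t) (-(a1q1_v t2)) (rq2_v (c1f_v t + -(c1f_v t2)) (t + t2)) := by
  have hq1q := hq1
  have hq3q := hq3
  simp only [q3f_v, q3f_v2, q3f_v3, q3f_v4] at hq1q hq3q
  have hp := h0_pos
  have g1 := h0_lo
  have g2 := h0_hi
  have gg := RegF.h2
  have s1 : c1f_v t ^ 2 + t ^ 2 = 1 := c1f_sq (sq_le_one (by linarith) (by linarith))
  have s2 : c1f_v t2 ^ 2 + t2 ^ 2 = 1 := c1f_sq (sq_le_one (by linarith) (by linarith))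
  have n1 := c1f_nn t
  have n2 := c1f_nn t2
  have sT : c1f_v (t + t2) ^ 2 + (t + t2) ^ 2 = 1 := c1f_sq (sq_le_one (by linarith) hT1)
  have nT := c1f_nn (t + t2)
  have mT : c1f_v (t + t2) ≤ 1 / 2 := c1f_ub (k := 1) (by linarith) (by norm_num) (by norm_num) (by norm_num)
  have hm : Mem S b0 t (c1f_v (t + t2)) := mem0 (by linarith) (by linarith) (by linarith) (by linarith)
  have hP : Q t (c1f_v (t + t2)) := all t (c1f_v (t + t2)) hm
  have fT : v5 t (c1f_v (t + t2)) = (t + t2) := by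
    rw [v5]; refine sqrt_of_sq (by linarith) ?_
    simp only [v1, v2, v3, v4]
    push_cast
    linarith [sT]
  have fy : v6 t (c1f_v (t + t2)) = t2 := by
    simp only [v0, v6, fT, v7, s3n]
    (try push_cast)
    linarith
  have fc : v11 t (c1f_v (t + t2)) = c1f_v t := by
    rw [v11, v10]
    simp only [v3, v9, v0, fT, fy]
    rfl
  have fs : v28 t (c1f_v (t + t2)) = c1f_v t2 := by
    rw [v28, v27]
    simp only [v3, v26, fT, fy, fc]
    rfl
  have fW : v25 t (c1f_v (t + t2)) = (t2 - (Pool.Agent.StripNear.h0 * c1f_v t - t / 2)) := by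
    simp only [v0, v8, v19, v21, v22, v25, fT, fy, fc, fs, v7, s3n]
    (try push_cast)
    first | ring1 | (clear hP hm; grind)
  have fe : v88 t (c1f_v (t + t2)) = exf_v (c1f_v t) (-(c1f_v t2)) t t2 := by
    simp only [v0, v13, v82, v83, v85, v86, v87, v88, fT, fy, fc, fs, fW, v7, s3n, exf_v, exf_v4, exf_v5, exf_v6, exf_v7, exf_v8, exf_v9, exf_v10, exf_v11]
    (try push_cast)
    (try ring)
  have fd : v54 t (c1f_v (t + t2)) = q3f_v (c1f_v t + -(c1f_v t2)) (t + t2) - 1 := by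
    simp only [v0, v3, v31, v32, v51, v52, v53, v54, fT, fy, fc, fs, fW, fe, v7, s3n, q3f_v, q3f_v2, q3f_v3, q3f_v4]
    (try push_cast)
    (try ring)
  unfold Q P1 at hP
  rcases hP with (h | h | h | h | h | h | h | h | h | h) | hP
  · exfalso
    simp only [v0, v139, v141, fT, fy, fc, fs, fW, fe, fd, v7, s3n] at h
    (try push_cast at h)
    linarith
  · exfalso
    simp only [v139, v143, fT, fy, fc, fs, fW, fe, fd, v7, s3n] at h
    (try push_cast at h)
    linarith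
  · exfalso
    simp only [v8, v98, fT, fy, fc, fs, fW, fe, fd, v7, s3n] at h
    (try push_cast at h)
    linarith
  · exfalso
    simp only [v0, v8, v32, v137, fT, fy, fc, fs, fW, fe, fd, v7, s3n] at h
    (try push_cast at h)
    linarith
  · exfalso
    simp only [v0, v32, v144, v146, fT, fy, fc, fs, fW, fe, fd, v7, s3n] at h
    (try push_cast at h)
    linarith
  · exfalso
    have e : v148 t (c1f_v (t + t2)) = v25 t (c1f_v (t + t2)) - 1 / 16 := by
      simp only [v0, v6, v19, v22, v25, v147, v148]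
      (try push_cast)
      (try ring)
    rw [e, fW] at h
    linarith
  · exfalso
    have e : v150 t (c1f_v (t + t2)) = -v25 t (c1f_v (t + t2)) - 1 / 16 := by
      simp only [v0, v6, v19, v22, v25, v147, v149, v150]
      (try push_cast)
      (try ring)
    rw [e, fW] at h
    linarith
  · exfalso
    simp only [v0, v32, v151, fT, fy, fc, fs, fW, fe, fd, v7, s3n] at h
    (try push_cast at h)
    linarith
  · exfalso
    have e : v152 t (c1f_v (t + t2)) = -v54 t (c1f_v (t + t2)) := by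
      simp only [v3, v53, v54, v152]
      (try push_cast)
      (try ring)
    rw [e, fd] at h
    linarith
  · exfalso
    have e : v154 t (c1f_v (t + t2)) = -(v88 t (c1f_v (t + t2)) + 1 / 2) := by
      simp only [v13, v88, v153, v154]
      (try push_cast)
      (try ring)
    rw [e, fe] at h
    linarith
  unfold P0 at hP
  obtain ⟨hδ, p27, p60, p76, p77, p47, p114, p37, hQ⟩ := hP
  have c : Cx t (c1f_v (t + t2)) := ⟨by rw [fc]; linarith [s1], p27, p60, p76, p77, p47, p114, p37⟩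
  have hd0 : 0 ≤ v54 t (c1f_v (t + t2)) := by rw [fd]; linarith
  have hW : 0 ≤ v25 t (c1f_v (t + t2)) := w_nonneg (sD c) hd0 hδ
  have hWQ : 0 ≤ v25 t (c1f_v (t + t2)) * v138 t (c1f_v (t + t2)) := by
    rcases hQ with h | h
    · exfalso
      simp only [v25, v149] at h hW
      linarith
    · exact mul_nonneg hW h.le
  have r1 : v39 t (c1f_v (t + t2)) = (a1q0_v t) := by
    simp only [v0, v3, v33, v34, v35, v36, v37, v38, v39, fT, fy, fc, fs, fW, fe, fd, v7, s3n, a1q0_v, a1q0_v1, a1q0_v2, a1q0_v3, a1q0_v4, a1q0_v5, a1q0_v6, a1q0_v7, a1q0_v8, a1q0_v9, a1q0_v10]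
    (try push_cast)
    (try ring)
  have r2 : v50 t (c1f_v (t + t2)) = (-(a1q1_v t2)) := by
    simp only [v3, v40, v41, v42, v43, v44, v45, v46, v47, v48, v49, v50, fT, fy, fc, fs, fW, fe, fd, r1, v7, s3n, a1q1_v, a1q1_v1, a1q1_v2, a1q1_v3, a1q1_v4, a1q1_v5, a1q1_v6, a1q1_v7, a1q1_v8, a1q1_v9, a1q1_v10, a1q1_v11, a1q1_v12, a1q1_v13]
    (try push_cast)
    (try ring)
  have fx : v31 t (c1f_v (t + t2)) = (c1f_v t + -(c1f_v t2)) := by
    simp only [v31, fT, fy, fc, fs, fW, fe, fd, r1, r2, v7, s3n]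
    (try push_cast)
    (try ring)
  have ft : v32 t (c1f_v (t + t2)) = (t + t2) := by
    simp only [v0, v32, fT, fy, fc, fs, fW, fe, fd, r1, r2, fx, v7, s3n]
    (try push_cast)
    (try ring)
  have u2 : 1 ≤ (c1f_v t + -(c1f_v t2)) ^ 2 + (t + t2) ^ 2 := by
    have h := hq1
    simp only [q3f_v, q3f_v2, q3f_v3, q3f_v4] at h
    linarith
  have u4 : |(c1f_v t + -(c1f_v t2))| ≤ f2p_v (t + t2) := by
    have h := p76
    have h' := p77
    simp only [v75, v76, v77, fT, fy, fc, fs, fW, fe, fd, r1, r2, fx, ft, v7, s3n] at h h'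
    rw [abs_le]
    constructor <;> linarith
  have hr := RegF.rq2_low (T := (t + t2)) (X := (c1f_v t + -(c1f_v t2))) (by linarith) (by linarith) u2 u4
  have hX := c1_gt (t := t) (t2 := t2) (by linarith) (by linarith) (by linarith) (by linarith) hq1q
  rw [kx2a_eq hX (by linarith) hT1] at hr
  have r3 : v79 t (c1f_v (t + t2)) = rq2_v (c1f_v t + -(c1f_v t2)) (t + t2) := by
    rw [hr]
    simp only [v1, v74, v78, v79, fT, fy, fc, fs, fW, fe, fd, r1, r2, fx, ft, v7, s3n, q3f_v, q3f_v2, q3f_v3, q3f_v4]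
    (try push_cast)
    (try simp only [hs3])
    (try ring)
  have l1 : v99 t (c1f_v (t + t2)) = ((t + t2) - Pool.Agent.StripNear.h0) := by
    simp only [v8, v99, fT, fy, fc, fs, fW, fe, fd, r1, r2, fx, ft, r3, v7, s3n]
    (try push_cast)
    (try ring)
  have l2 : (-v98 t (c1f_v (t + t2))) = (Pool.Agent.StripNear.h0 - t2) := by
    simp only [v8, v98, fT, fy, fc, fs, fW, fe, fd, r1, r2, fx, ft, r3, v7, s3n]
    (try push_cast)
    (try ring)
  have k := core c hW hWQ (by rw [l1]; linarith) (by rw [l2]; linarith) (by rw [l1, l2]; linarith)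
  rw [sl012_eq]
  rw [fe, l1, l2, r1, r2, r3] at k
  exact k

end Pool.Agent.Strip051.LB.ChA00U_pm_012a
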