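import Mathlib.Analysis.Real.Sqrt
import Mathlib.Tactic.FieldSimp
import Mathlib.Tactic.LinearCombination

/-! # Slopes of elementary operations

If `v = B + W * q` for the arguments then the same holds for the result. -/

namespace Pool.Agent.Strip051.LB

theorem sl_inv {va Ba qa W : ℝ} (ha : va = Ba + W * qa) (h1 : va ≠ 0) (h2 : Ba ≠ 0) :
    va⁻¹ = Ba⁻¹ + W * (-(qa * (va⁻¹ * Ba⁻¹))) := by
  have h3 : W * qa = va - Ba := by rw [ha]; ring
  have : W * (-(qa * (va⁻¹ * Ba⁻¹))) = -((W * qa) * (va⁻¹ * Ba⁻¹)) := by ring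
  rw [this, h3]
  field_simp
  ring

theorem sl_sqrt {va Ba b0 qa W : ℝ} (ha : va = Ba + W * qa) (hb : Ba = b0 ^ 2) (h1 : 0 ≤ va)
    (h2 : 0 < Real.sqrt va + b0) :
    Real.sqrt va = b0 + W * (qa * (Real.sqrt va + b0)⁻¹) := by
  have h3 : W * qa = va - Ba := by rw [ha]; ring
  have h4 : Real.sqrt va ^ 2 = va := Real.sq_sqrt h1
  have h5 : W * (qa * (Real.sqrt va + b0)⁻¹) = (Real.sqrt va ^ 2 - b0 ^ 2) * (Real.sqrt va + b0)⁻¹ := by
    rw [h4, ← hb, ← h3]; ring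
  have h6 : (Real.sqrt va ^ 2 - b0 ^ 2) = (Real.sqrt va - b0) * (Real.sqrt va + b0) := by ring
  rw [h5, h6, mul_assoc, mul_inv_cancel₀ h2.ne']
  ring

theorem diff_of_sq {X c d : ℝ} (h : X ^ 2 - c ^ 2 = d) (hp : 0 < X + c) :
    X - c = d * (X + c)⁻¹ := by
  rw [← h]
  have : X ^ 2 - c ^ 2 = (X - c) * (X + c) := by ring
  rw [this, mul_assoc, mul_inv_cancel₀ hp.ne', mul_one]

theorem s3sq : Real.sqrt ((3 : ℕ) : ℝ) ^ 2 = 3 := by
  rw [Real.sq_sqrt (by positivity)]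
  norm_num

end Pool.Agent.Strip051.LB
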