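import Pool.Agent.Strip051.LB.Fc.R
import Pool.Agent.Strip051.LB.Base

/-! # The slack divided by the distance to the tight curve -/

namespace Pool.Agent.Strip051.LB

open Pool.Agent.Strip051.LB.Fn Pool.Agent.Strip051.LB.Fc Pool.Agent.Strip051.LC.Line

/-- The slack written out. -/
theorem starn_def (ex l1 l2 A1 A2 A3 : ℝ) :
    ∃ r W1 W2 W3 c : ℝ, r = min (max (l1 * (l1 + l2)⁻¹) 0) 1 ∧
    W1 = (A1 * (1 / 2 * √3 - l1) + A2 * (1 / 2 * √3 - 2 * l1 - l2) -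
      A3 * (1 / 2 * √3 - l1 - l2)) * (√3)⁻¹ ∧
    W2 = (A2 * (1 / 2 * √3 - l2) - A1 * (1 / 2 * √3 - l1) +
      A3 * (2 * r - 1) * (1 / 2 * √3 - l1 - l2)) * (√3)⁻¹ ∧
    W3 = (-(A1 * (1 / 2 * √3 - l1 - 2 * l2)) - A2 * (1 / 2 * √3 - l2) +
      A3 * (1 / 2 * √3 - l1 - l2)) * (√3)⁻¹ ∧ c = 10 / 19 * ex ∧
    starn_v ex l1 l2 A1 A2 A3 = 1 / 4 * (ex * (2 + √3)) - 19 / 20 *
      (l1 * phi (W1 + c) (W2 + c) + l2 * phi (W2 + c) (W3 + c) +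
        (1 / 2 * √3 - l1 - l2) * phi (W3 + c) (W1 + c)) := by
  refine ⟨_, _, _, _, _, rfl, rfl, rfl, rfl, rfl, ?_⟩
  have key : starn_v ex l1 l2 A1 A2 A3 = ((1 : ℕ) : ℝ) / ((4 : ℕ) : ℝ) * (ex * (((2 : ℕ) : ℝ) + √((3 : ℕ) : ℝ))) - ((19 : ℕ) : ℝ) / ((20 : ℕ) : ℝ) * (l1 * phi (((A1 * ((((1 : ℕ) : ℝ) / ((2 : ℕ) : ℝ) * √((3 : ℕ) : ℝ)) - l1) + A2 * ((((1 : ℕ) : ℝ) / ((2 : ℕ) : ℝ) * √((3 : ℕ) : ℝ)) - ((2 : ℕ) : ℝ) * l1 - l2) - A3 * ((((1 : ℕ) : ℝ) / ((2 : ℕ) : ℝ) * √((3 : ℕ) : ℝ)) - l1 - l2)) * (√((3 : ℕ) : ℝ))⁻¹) + (((10 : ℕ) : ℝ) / ((19 : ℕ) : ℝ) * ex)) (((A2 * ((((1 : ℕ) : ℝ) / ((2 : ℕ) : ℝ) * √((3 : ℕ) : ℝ)) - l2) - A1 * ((((1 : ℕ) : ℝ) / ((2 : ℕ) : ℝ) * √((3 : ℕ) : ℝ)) - l1) + A3 * (((2 : ℕ) : ℝ) * (min (max (l1 * (l1 + l2)⁻¹) 0) 1) - ((1 : ℕ) : ℝ)) * ((((1 : ℕ) : ℝ) / ((2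 : ℕ) : ℝ) * √((3 : ℕ) : ℝ)) - l1 - l2)) * (√((3 : ℕ) : ℝ))⁻¹) + (((10 : ℕ) : ℝ) / ((19 : ℕ) : ℝ) * ex)) + l2 * phi (((A2 * ((((1 : ℕ) : ℝ) / ((2 : ℕ) : ℝ) * √((3 : ℕ) : ℝ)) - l2) - A1 * ((((1 : ℕ) : ℝ) / ((2 : ℕ) : ℝ) * √((3 : ℕ) : ℝ)) - l1) + A3 * (((2 : ℕ) : ℝ) * (min (max (l1 * (l1 + l2)⁻¹) 0) 1) - ((1 : ℕ) : ℝ)) * ((((1 : ℕ) : ℝ) / ((2 : ℕ) : ℝ) * √((3 : ℕ) : ℝ)) - l1 - l2)) * (√((3 : ℕ) : ℝ))⁻¹) + (((10 : ℕ) : ℝ) / ((19 : ℕ) : ℝ) * ex)) (((-(A1 * ((((1 : ℕ) : ℝ) / ((2 : ℕ) : ℝ) * √((3 : ℕ) : ℝ)) - l1 - ((2 : ℕ) : ℝ) * l2)) - A2 * ((((1 : ℕ) : ℝ) / ((2 : ℕ) : ℝ) * √((3 : ℕ) : ℝ)) - l2) + A3 * ((((1 : ℕ) : ℝ) / ((2 : ℕ) : ℝ) * √((3 : ℕ) : ℝ)) - l1 - l2)) * (√((3 : ℕ) : ℝ))⁻¹) + (((10 : ℕ) : ℝ) / ((19 : ℕ) : ℝ) * ex)) + ((((1 : ℕ) : ℝ) / ((2 : ℕ) : ℝ) * √((3 : ℕ) : ℝ)) -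 l1 - l2) * phi (((-(A1 * ((((1 : ℕ) : ℝ) / ((2 : ℕ) : ℝ) * √((3 : ℕ) : ℝ)) - l1 - ((2 : ℕ) : ℝ) * l2)) - A2 * ((((1 : ℕ) : ℝ) / ((2 : ℕ) : ℝ) * √((3 : ℕ) : ℝ)) - l2) + A3 * ((((1 : ℕ) : ℝ) / ((2 : ℕ) : ℝ) * √((3 : ℕ) : ℝ)) - l1 - l2)) * (√((3 : ℕ) : ℝ))⁻¹) + (((10 : ℕ) : ℝ) / ((19 : ℕ) : ℝ) * ex)) (((A1 * ((((1 : ℕ) : ℝ) / ((2 : ℕ) : ℝ) * √((3 : ℕ) : ℝ)) - l1) + A2 * ((((1 : ℕ) : ℝ) / ((2 : ℕ) : ℝ) * √((3 : ℕ) : ℝ)) - ((2 : ℕ) : ℝ) * l1 - l2) - A3 * ((((1 : ℕ) : ℝ) / ((2 : ℕ) : ℝ) * √((3 : ℕ) : ℝ)) - l1 - l2)) * (√((3 : ℕ) : ℝ))⁻¹) + (((10 : ℕ) : ℝ) / ((19 : ℕ) : ℝ) * ex))) := rfl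
  rw [key]
  push_cast
  rfl

/-- The quotient written out. -/
theorem qn_def (l1 l2 E G D : ℝ) :
    ∃ a P1 P2 P3 c : ℝ, a = min (max (l1 * (l1 + l2)⁻¹) 0) 1 ∧
    P1 = (G + (1 / 2 * √3 - (l1 + l2)) * D) * (√3)⁻¹ + c ∧
    P2 = (l1 + l2) * c - ((√3 - (l1 + l2)) * G + ((1 - (1 - a)) - (1 - a)) *
      (1 / 2 * √3 - (l1 + l2)) * (l1 + l2) * D) * (√3)⁻¹ ∧
    P3 = (G - (1 / 2 * √3 - (l1 + l2)) * D) * (√3)⁻¹ + c ∧ c = 10 / 19 * E ∧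
    qn_v l1 l2 E G D = 1 / 4 * (E * (2 + √3)) - 19 / 20 *
      ((phi ((l1 + l2) * P1) P2 + (1 - a) * (phi P2 ((l1 + l2) * P3) -
        phi ((l1 + l2) * P1) P2)) + (1 / 2 * √3 - (l1 + l2)) * phi P3 P1) := by
  refine ⟨_, _, _, _, _, rfl, rfl, rfl, rfl, rfl, ?_⟩
  have key : qn_v l1 l2 E G D = ((1 : ℕ) : ℝ) / ((4 : ℕ) : ℝ) * (E * (((2 : ℕ) : ℝ) + √((3 : ℕ) : ℝ))) - ((19 : ℕ) : ℝ) / ((20 : ℕ) : ℝ) * ((phi ((l1 + l2) * ((G + ((((1 : ℕ) : ℝ) / ((2 : ℕ) : ℝ) * √((3 : ℕ) : ℝ)) - (l1 + l2)) * D) * (√((3 : ℕ) : ℝ))⁻¹ + (((10 : ℕ) : ℝ) / ((19 : ℕ) : ℝ) * E))) ((l1 + l2) * (((10 : ℕ) : ℝ) / ((19 : ℕ) : ℝ) * E) - ((√((3 : ℕ) : ℝ) - (l1 + l2)) * G + ((((1 : ℕ) : ℝ) - (((1 : ℕ) : ℝ) - (min (max (l1 * (l1 + l2)⁻¹) 0) 1))) - (((1 : ℕ) : ℝ) - (min (max (l1 * (l1 + l2)⁻¹) 0) 1))) * ((((1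 : ℕ) : ℝ) / ((2 : ℕ) : ℝ) * √((3 : ℕ) : ℝ)) - (l1 + l2)) * (l1 + l2) * D) * (√((3 : ℕ) : ℝ))⁻¹) + (((1 : ℕ) : ℝ) - (min (max (l1 * (l1 + l2)⁻¹) 0) 1)) * (phi ((l1 + l2) * (((10 : ℕ) : ℝ) / ((19 : ℕ) : ℝ) * E) - ((√((3 : ℕ) : ℝ) - (l1 + l2)) * G + ((((1 : ℕ) : ℝ) - (((1 : ℕ) : ℝ) - (min (max (l1 * (l1 + l2)⁻¹) 0) 1))) - (((1 : ℕ) : ℝ) - (min (max (l1 * (l1 + l2)⁻¹) 0) 1))) * ((((1 : ℕ) : ℝ) / ((2 : ℕ) : ℝ) * √((3 : ℕ) : ℝ)) - (l1 + l2)) * (l1 + l2) * D) * (√((3 : ℕ) : ℝ))⁻¹) ((l1 + l2) * ((G - ((((1 : ℕ) : ℝ) / ((2 : ℕ) : ℝ) * √((3 : ℕ) : ℝ)) - (l1 + l2)) * D) * (√((3 : ℕ) : ℝ))⁻¹ + (((10 : ℕ) : ℝ) / ((19 : ℕ) : ℝ) * E))) - phi ((l1 + l2) * ((G + ((((1 : ℕ) : ℝ) / ((2 : ℕ) : ℝ) * √((3 : ℕ) : ℝ)) - (l1 + l2)) * D) * (√((3 : ℕ) : ℝ))⁻¹ + (((10 : ℕ) : ℝ) / ((19 : ℕ) : ℝ) * E)))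 ((l1 + l2) * (((10 : ℕ) : ℝ) / ((19 : ℕ) : ℝ) * E) - ((√((3 : ℕ) : ℝ) - (l1 + l2)) * G + ((((1 : ℕ) : ℝ) - (((1 : ℕ) : ℝ) - (min (max (l1 * (l1 + l2)⁻¹) 0) 1))) - (((1 : ℕ) : ℝ) - (min (max (l1 * (l1 + l2)⁻¹) 0) 1))) * ((((1 : ℕ) : ℝ) / ((2 : ℕ) : ℝ) * √((3 : ℕ) : ℝ)) - (l1 + l2)) * (l1 + l2) * D) * (√((3 : ℕ) : ℝ))⁻¹))) + ((((1 : ℕ) : ℝ) / ((2 : ℕ) : ℝ) * √((3 : ℕ) : ℝ)) - (l1 + l2)) * phi ((G - ((((1 : ℕ) : ℝ) / ((2 : ℕ) : ℝ) * √((3 : ℕ) : ℝ)) - (l1 + l2)) * D) * (√((3 : ℕ) : ℝ))⁻¹ + (((10 : ℕ) : ℝ) / ((19 : ℕ) : ℝ) * E)) ((G + ((((1 : ℕ) : ℝ) / ((2 : ℕ) : ℝ) * √((3 : ℕ) : ℝ)) - (l1 + l2)) * D) * (√((3 : ℕ) : ℝ))⁻¹ + (((10 : ℕ) : ℝ) / ((19 : ℕ) : ℝ) * E))) := rfl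
  rw [key]
  push_cast
  rfl

/-- The slack written out. -/
theorem starw_def (ex l1 l2 l3 A1 A2 A3 : ℝ) :
    ∃ W1 W2 W3 c : ℝ,
    W1 = (A1 * (l2 + l3) - A3 * (l1 + l2) + A2 * (l3 - l1)) * (√3)⁻¹ ∧
    W2 = (A2 * (l3 + l1) - A1 * (l2 + l3) + A3 * (l1 - l2)) * (√3)⁻¹ ∧
    W3 = (A3 * (l1 + l2) - A2 * (l3 + l1) + A1 * (l2 - l3)) * (√3)⁻¹ ∧ c = 10 / 19 * ex ∧
    starw_v ex l1 l2 l3 A1 A2 A3 = 1 / 4 * (ex * (2 + √3)) - 19 / 20 *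
      (l1 * phi (W1 + c) (W2 + c) + l2 * phi (W2 + c) (W3 + c) + l3 * phi (W3 + c) (W1 + c)) := by
  refine ⟨_, _, _, _, rfl, rfl, rfl, rfl, ?_⟩
  have key : starw_v ex l1 l2 l3 A1 A2 A3 = ((1 : ℕ) : ℝ) / ((4 : ℕ) : ℝ) * (ex * (((2 : ℕ) : ℝ) + √((3 : ℕ) : ℝ))) - ((19 : ℕ) : ℝ) / ((20 : ℕ) : ℝ) * (l1 * phi (((A1 * (l2 + l3) - A3 * (l1 + l2) + A2 * (l3 - l1)) * (√((3 : ℕ) : ℝ))⁻¹) + (((10 : ℕ) : ℝ) / ((19 : ℕ) : ℝ) * ex)) (((A2 * (l3 + l1) - A1 * (l2 + l3) + A3 * (l1 - l2)) * (√((3 : ℕ) : ℝ))⁻¹) + (((10 : ℕ) : ℝ) / ((19 : ℕ) : ℝ) * ex)) + l2 * phi (((A2 * (l3 + l1) - A1 * (l2 + l3) + A3 * (l1 - l2)) * (√((3 : ℕ) : ℝ))⁻¹) + (((10 : ℕ) : ℝ) / ((19 : ℕ) : ℝ) * ex)) (((A3 * (l1 + l2) - A2 * (l3 + l1) + A1 * (l2 - l3)) * (√((3 : ℕ) : ℝ))⁻¹) + (((10 : ℕ) : ℝ) / ((19 : ℕ) : ℝ) * ex))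 + l3 * phi (((A3 * (l1 + l2) - A2 * (l3 + l1) + A1 * (l2 - l3)) * (√((3 : ℕ) : ℝ))⁻¹) + (((10 : ℕ) : ℝ) / ((19 : ℕ) : ℝ) * ex)) (((A1 * (l2 + l3) - A3 * (l1 + l2) + A2 * (l3 - l1)) * (√((3 : ℕ) : ℝ))⁻¹) + (((10 : ℕ) : ℝ) / ((19 : ℕ) : ℝ) * ex))) := rfl
  rw [key]
  push_cast
  rfl

/-- The quotient written out. -/
theorem qw_def (l1 l2 l3 E G12 G23 G31 : ℝ) :
    ∃ Q1 Q2 Q3 c : ℝ, Q1 = (G12 + G23 - G31) * (√3)⁻¹ ∧ Q2 = (G23 + G31 - G12) * (√3)⁻¹ ∧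
    Q3 = (G31 + G12 - G23) * (√3)⁻¹ ∧ c = 10 / 19 * E ∧
    qw_v l1 l2 l3 E G12 G23 G31 = 1 / 4 * (E * (2 + √3)) - 19 / 20 *
      (l1 * phi (Q1 + c) (Q2 + c) + l2 * phi (Q2 + c) (Q3 + c) + l3 * phi (Q3 + c) (Q1 + c)) := by
  refine ⟨_, _, _, _, rfl, rfl, rfl, rfl, ?_⟩
  have key : qw_v l1 l2 l3 E G12 G23 G31 = ((1 : ℕ) : ℝ) / ((4 : ℕ) : ℝ) * (E * (((2 : ℕ) : ℝ) + √((3 : ℕ) : ℝ))) - ((19 : ℕ) : ℝ) / ((20 : ℕ) : ℝ) * (l1 * phi ((G12 + G23 - G31) * (√((3 : ℕ) : ℝ))⁻¹ + (((10 : ℕ) : ℝ) / ((19 : ℕ) : ℝ) * E)) ((G23 + G31 - G12) * (√((3 : ℕ) : ℝ))⁻¹ + (((10 : ℕ) : ℝ) / ((19 : ℕ) : ℝ) * E)) + l2 * phi ((G23 + G31 - G12) * (√((3 : ℕ) : ℝ))⁻¹ + (((10 : ℕ) : ℝ) / ((19 : ℕ) : ℝ) * E)) ((G31 + G12 - G23) * (√((3 : ℕ) : ℝ))⁻¹ + (((10 : ℕ) : ℝ) / ((19 : ℕ) : ℝ) * E)) + l3 * phi ((G31 +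 G12 - G23) * (√((3 : ℕ) : ℝ))⁻¹ + (((10 : ℕ) : ℝ) / ((19 : ℕ) : ℝ) * E)) ((G12 + G23 - G31) * (√((3 : ℕ) : ℝ))⁻¹ + (((10 : ℕ) : ℝ) / ((19 : ℕ) : ℝ) * E))) := rfl
  rw [key]
  push_cast
  rfl

/-- **The slack without wrapping is at least the distance times the quotient.** -/
theorem starn_ge {W ex l1 l2 A1 A2 A3 E G D : ℝ} (hW : 0 ≤ W) (h1 : 0 ≤ l1) (h2 : 0 ≤ l2)
    (_h3 : l1 + l2 ≤ Pool.Agent.StripNear.h0) (he : ex = W * E) (hD : A1 + A2 - A3 = W * D)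
    (hG : l2 * A1 - l1 * A2 = W * G) :
    W * qn_v l1 l2 E G D ≤ starn_v ex l1 l2 A1 A2 A3 := by
  obtain ⟨r, W1, W2, W3, c, er, e1, e2, e3, ec, es⟩ := starn_def ex l1 l2 A1 A2 A3
  obtain ⟨a, P1, P2, P3, d, ea, f1, f2, f3, ed, eq⟩ := qn_def l1 l2 E G D
  have har : a = r := by rw [ea, er]
  have hr0 : 0 ≤ r := by
    rw [er]
    exact le_min (le_max_right _ _) zero_le_one
  have hr1 : r ≤ 1 := by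
    rw [er]
    exact min_le_right _ _
  have w0 : (√3 : ℝ) ≠ 0 := (Real.sqrt_pos.2 (by norm_num)).ne'
  have hc : c = W * d := by
    rw [ec, ed, he]
    ring
  -- the two outer values
  have g1 : W1 + c = W * P1 := by
    have : A1 * (1 / 2 * √3 - l1) + A2 * (1 / 2 * √3 - 2 * l1 - l2) - A3 * (1 / 2 * √3 - l1 - l2) =
        W * (G + (1 / 2 * √3 - (l1 + l2)) * D) := by
      linear_combination hG + (1 / 2 * √3 - (l1 + l2)) * hD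
    rw [e1, f1, hc, this]
    ring
  have g3 : W3 + c = W * P3 := by
    have : -(A1 * (1 / 2 * √3 - l1 - 2 * l2)) - A2 * (1 / 2 * √3 - l2) +
        A3 * (1 / 2 * √3 - l1 - l2) = W * (G - (1 / 2 * √3 - (l1 + l2)) * D) := by
      linear_combination hG - (1 / 2 * √3 - (l1 + l2)) * hD
    rw [e3, f3, hc, this]
    ring
  rw [es, eq, har]
  rcases (add_nonneg h1 h2).eq_or_lt with h | h
  · -- degenerate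
    have z1 : l1 = 0 := by linarith
    have z2 : l2 = 0 := by linarith
    subst z1
    subst z2
    have q1 := phi_nonneg ((0 + 0) * P1) P2
    have q2 := phi_nonneg P2 ((0 + 0) * P3)
    have q3 : 0 ≤ W * (phi ((0 + 0) * P1) P2 + (1 - r) * (phi P2 ((0 + 0) * P3) -
        phi ((0 + 0) * P1) P2)) := by
      refine mul_nonneg hW ?_
      have : phi ((0 + 0) * P1) P2 + (1 - r) * (phi P2 ((0 + 0) * P3) - phi ((0 + 0) * P1) P2) =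
          r * phi ((0 + 0) * P1) P2 + (1 - r) * phi P2 ((0 + 0) * P3) := by ring
      rw [this]
      exact add_nonneg (mul_nonneg hr0 q1) (mul_nonneg (by linarith) q2)
    have q4 : phi (W3 + c) (W1 + c) = W * phi P3 P1 := by
      rw [g3, g1, phi_smul hW]
    rw [q4, he]
    set Φ := phi ((0 + 0) * P1) P2 + (1 - r) * (phi P2 ((0 + 0) * P3) - phi ((0 + 0) * P1) P2)
    nlinarith
  · -- the general case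
    have hrr : (l1 + l2) * r = l1 := by
      have k1 : l1 * (l1 + l2)⁻¹ = l1 / (l1 + l2) := by rw [div_eq_mul_inv]
      have k2 : 0 ≤ l1 / (l1 + l2) := div_nonneg h1 h.le
      have k3 : l1 / (l1 + l2) ≤ 1 := by
        rw [div_le_one h]
        linarith
      rw [er, k1, max_eq_left k2, min_eq_left k3]
      field_simp
    have g2 : (l1 + l2) * (W2 + c) = W * P2 := by
      have k : (l1 + l2) * (A2 * (1 / 2 * √3 - l2) - A1 * (1 / 2 * √3 - l1) +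
          A3 * (2 * r - 1) * (1 / 2 * √3 - l1 - l2)) =
          -(W * ((√3 - (l1 + l2)) * G + ((1 - (1 - r)) - (1 - r)) *
      (1 / 2 * √3 - (l1 + l2)) * (l1 + l2) * D)) := by
        linear_combination (-(√3 - (l1 + l2))) * hG - (2 * r - 1) *
          (1 / 2 * √3 - (l1 + l2)) * (l1 + l2) * hD +
          (2 * (1 / 2 * √3 - (l1 + l2)) * (A1 + A2)) * hrr
      have k2 : (l1 + l2) * W2 = -(W * ((√3 - (l1 + l2)) * G + ((1 - (1 - r)) - (1 - r)) *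
      (1 / 2 * √3 - (l1 + l2)) * (l1 + l2) * D)) * (√3)⁻¹ := by
        rw [e2, ← mul_assoc, k]
      rw [mul_add, k2, f2, hc, har]
      ring
    have q1 : l1 * phi (W1 + c) (W2 + c) = W * (r * phi ((l1 + l2) * P1) P2) := by
      have : (l1 + l2) * phi (W1 + c) (W2 + c) = W * phi ((l1 + l2) * P1) P2 := by
        rw [← phi_smul h.le, ← phi_smul hW, g2, g1]
        congr 1
        ring
      calc l1 * phi (W1 + c) (W2 + c) = r * ((l1 + l2) * phi (W1 + c) (W2 + c)) := by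
            rw [← mul_assoc, mul_comm r, hrr]
        _ = _ := by
            rw [this]
            ring
    have q2 : l2 * phi (W2 + c) (W3 + c) = W * ((1 - r) * phi P2 ((l1 + l2) * P3)) := by
      have : (l1 + l2) * phi (W2 + c) (W3 + c) = W * phi P2 ((l1 + l2) * P3) := by
        rw [← phi_smul h.le, ← phi_smul hW, g2, g3]
        congr 1
        ring
      have hl2 : (l1 + l2) * (1 - r) = l2 := by linarith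
      calc l2 * phi (W2 + c) (W3 + c) = (1 - r) * ((l1 + l2) * phi (W2 + c) (W3 + c)) := by
            rw [← mul_assoc, mul_comm (1 - r), hl2]
        _ = _ := by
            rw [this]
            ring
    have q3 : phi (W3 + c) (W1 + c) = W * phi P3 P1 := by
      rw [g3, g1, phi_smul hW]
    rw [q1, q2, q3, he]
    apply le_of_eq
    ring

/-- **The slack with wrapping is the distance times the quotient.** -/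
theorem starw_eq {W ex l1 l2 l3 A1 A2 A3 E G12 G23 G31 : ℝ} (hW : 0 ≤ W) (he : ex = W * E)
    (h12 : l2 * A1 - l1 * A2 = W * G12) (h23 : l3 * A2 - l2 * A3 = W * G23)
    (h31 : l1 * A3 - l3 * A1 = W * G31) :
    starw_v ex l1 l2 l3 A1 A2 A3 = W * qw_v l1 l2 l3 E G12 G23 G31 := by
  obtain ⟨W1, W2, W3, c, e1, e2, e3, ec, es⟩ := starw_def ex l1 l2 l3 A1 A2 A3
  obtain ⟨Q1, Q2, Q3, d, f1, f2, f3, ed, eq⟩ := qw_def l1 l2 l3 E G12 G23 G31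
  have hc : c = W * d := by
    rw [ec, ed, he]
    ring
  have g1 : W1 + c = W * (Q1 + d) := by
    have : A1 * (l2 + l3) - A3 * (l1 + l2) + A2 * (l3 - l1) = W * (G12 + G23 - G31) := by
      linear_combination h12 + h23 - h31
    rw [e1, f1, hc, this]
    ring
  have g2 : W2 + c = W * (Q2 + d) := by
    have : A2 * (l3 + l1) - A1 * (l2 + l3) + A3 * (l1 - l2) = W * (G23 + G31 - G12) := by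
      linear_combination h23 + h31 - h12
    rw [e2, f2, hc, this]
    ring
  have g3 : W3 + c = W * (Q3 + d) := by
    have : A3 * (l1 + l2) - A2 * (l3 + l1) + A1 * (l2 - l3) = W * (G31 + G12 - G23) := by
      linear_combination h31 + h12 - h23
    rw [e3, f3, hc, this]
    ring
  rw [es, eq, g1, g2, g3, phi_smul hW, phi_smul hW, phi_smul hW, he]
  ring

end Pool.Agent.Strip051.LB
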