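import Pool.Agent.Strip051.LB.ChA00U_pm_112.Sl
import Pool.Agent.Strip051.LB.ChA00U_pm_112.All

/-! # LINE tight chart ChA00U_pm_112 -/

namespace Pool.Agent.Strip051.LB.ChA00U_pm_112

open Pool.Agent.Strip051.LB Pool.Agent.Strip051.LB.Fn Pool.Agent.Strip051.LB.Fc Pool.Agent.StripNear Pool.Agent.Strip051.Box Pool.Agent.Strip051.Box2

set_option maxRecDepth 100000
set_option linter.all false

theorem mem0 {x1 x2 : ℝ} (h1 : 8660254037 / 20000000000 ≤ x1) (h2 : x1 ≤ 4330127019 / 5000000000) (h3 : 8660254037 / 20000000000 ≤ x2) (h4 : x2 ≤ 4330127019 / 5000000000) : Mem S b0 x1 x2 := by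
  unfold Mem b0
  refine ⟨abs_le.mpr ⟨?_, ?_⟩, abs_le.mpr ⟨?_, ?_⟩⟩ <;> norm_num [S] <;> linarith

theorem tight112 {t t2 : ℝ} (h1 : 1 / 2 * Pool.Agent.StripNear.h0 ≤ t) (h1' : t ≤ 1 * Pool.Agent.StripNear.h0) (h2 : 1 / 2 * Pool.Agent.StripNear.h0 ≤ t2) (h2' : t2 ≤ 1 * Pool.Agent.StripNear.h0) (h3 : 1 * Pool.Agent.StripNear.h0 ≤ t + t2) (h3' : t + t2 ≤ 3 / 2 * Pool.Agent.StripNear.h0) (h6 : t + t2 ≤ 2 * Pool.Agent.StripNear.h0) (ho : 0 ≤ exf_v (c1f_v t) (-(c1f_v t2)) t t2 + 1 / 2) (hq1 : 1 ≤ q3f_v (c1f_v t + -(c1f_v t2)) (t + t2)) (hq3 : q3f_v (c1f_v t + -(c1f_v t2)) (t + t2) ≤ 3) (hw1 : 0 ≤ 1 / 16 - (t2 - (Pool.Agent.StripNear.h0 * c1f_v t - t / 2))) (hw2 : 0 ≤ 1 / 16 + (t2 - (Pool.Agent.StripNear.h0 * c1f_v t - t / 2))) :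
    0 ≤ sl112_v (exf_v (c1f_v t) (-(c1f_v t2)) t t2) t t2 (t + t2) (a1q1_v t) (-(a1q1_v t2)) (rq2_v (c1f_v t + -(c1f_v t2)) (t + t2)) := by
  have hq1q := hq1
  have hq3q := hq3
  simp only [q3f_v, q3f_v2, q3f_v3, q3f_v4] at hq1q hq3q
  have hp := h0_pos
  have g1 := h0_lo
  have g2 := h0_hi
  have gg := RegF.h2
  have s1 : c1f_v t ^ 2 + t ^ 2 = 1 := c1f_sq (sq_le_one (by linarith) (by linarith))
  have s2 : c1f_v t2 ^ 2 + t2 ^ 2 = 1 := c1f_sq (sq_le_one (by linarith) (by linarith))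
  have n1 := c1f_nn t
  have n2 := c1f_nn t2
  have hm : Mem S b0 t t2 := mem0 (by linarith) (by linarith) (by linarith) (by linarith)
  have hP : Q t t2 := all t t2 hm
  have fc : v7 t t2 = c1f_v t := by
    rfl
  have fs : v24 t t2 = c1f_v t2 := by
    rfl
  have fW : v21 t t2 = (t2 - (Pool.Agent.StripNear.h0 * c1f_v t - t / 2)) := by
    simp only [v0, v1, v3, v15, v17, v18, v21, fc, fs, v2, s3n]
    (try push_cast)
    first | ring1 | (clear hP hm; grind)
  have fe : v87 t t2 = exf_v (c1f_v t) (-(c1f_v t2)) t t2 := by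
    simp only [v0, v1, v9, v81, v82, v84, v85, v86, v87, fc, fs, fW, v2, s3n, exf_v, exf_v4, exf_v5, exf_v6, exf_v7, exf_v8, exf_v9, exf_v10, exf_v11]
    (try push_cast)
    (try ring)
  have fd : v53 t t2 = q3f_v (c1f_v t + -(c1f_v t2)) (t + t2) - 1 := by
    simp only [v0, v1, v5, v27, v28, v50, v51, v52, v53, fc, fs, fW, fe, v2, s3n, q3f_v, q3f_v2, q3f_v3, q3f_v4]
    (try push_cast)
    (try ring)
  unfold Q P1 at hP
  rcases hP with (h | h | h | h | h | h | h | h | h | h | h) | hP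
  · exfalso
    simp only [v0, v152, v154, fc, fs, fW, fe, fd, v2, s3n] at h
    (try push_cast at h)
    linarith
  · exfalso
    simp only [v0, v3, v97, fc, fs, fW, fe, fd, v2, s3n] at h
    (try push_cast at h)
    linarith
  · exfalso
    simp only [v1, v152, v156, fc, fs, fW, fe, fd, v2, s3n] at h
    (try push_cast at h)
    linarith
  · exfalso
    simp only [v1, v3, v98, fc, fs, fW, fe, fd, v2, s3n] at h
    (try push_cast at h)
    linarith
  · exfalso
    simp only [v0, v1, v3, v28, v157, fc, fs, fW, fe, fd, v2, s3n] at h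
    (try push_cast at h)
    linarith
  · exfalso
    simp only [v0, v1, v28, v158, v160, fc, fs, fW, fe, fd, v2, s3n] at h
    (try push_cast at h)
    linarith
  · exfalso
    have e : v162 t t2 = v21 t t2 - 1 / 16 := by
      simp only [v0, v1, v15, v18, v21, v161, v162]
      (try push_cast)
      (try ring)
    rw [e, fW] at h
    linarith
  · exfalso
    have e : v164 t t2 = -v21 t t2 - 1 / 16 := by
      simp only [v0, v1, v15, v18, v21, v161, v163, v164]
      (try push_cast)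
      (try ring)
    rw [e, fW] at h
    linarith
  · exfalso
    simp only [v0, v1, v28, v165, fc, fs, fW, fe, fd, v2, s3n] at h
    (try push_cast at h)
    linarith
  · exfalso
    have e : v166 t t2 = -v53 t t2 := by
      simp only [v5, v52, v53, v166]
      (try push_cast)
      (try ring)
    rw [e, fd] at h
    linarith
  · exfalso
    have e : v168 t t2 = -(v87 t t2 + 1 / 2) := by
      simp only [v9, v87, v167, v168]
      (try push_cast)
      (try ring)
    rw [e, fe] at h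
    linarith
  unfold P0 at hP
  obtain ⟨hδ, p23, p59, p75, p76, p46, p125, p36, hQ⟩ := hP
  have c : Cx t t2 := ⟨by rw [fc]; linarith [s1], p23, p59, p75, p76, p46, p125, p36⟩
  have hd0 : 0 ≤ v53 t t2 := by rw [fd]; linarith
  have hW : 0 ≤ v21 t t2 := w_nonneg (sD c) hd0 hδ
  have hWQ : 0 ≤ v21 t t2 * v151 t t2 := by
    rcases hQ with h | h
    · exfalso
      simp only [v21, v163] at h hW
      linarith
    · exact mul_nonneg hW h.le
  have r1 : v38 t t2 = (a1q1_v t) := by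
    simp only [v0, v5, v29, v30, v31, v32, v33, v34, v35, v36, v37, v38, fc, fs, fW, fe, fd, v2, s3n, a1q1_v, a1q1_v1, a1q1_v2, a1q1_v3, a1q1_v4, a1q1_v5, a1q1_v6, a1q1_v7, a1q1_v8, a1q1_v9, a1q1_v10, a1q1_v11, a1q1_v12, a1q1_v13]
    (try push_cast)
    (try ring)
  have r2 : v49 t t2 = (-(a1q1_v t2)) := by
    simp only [v1, v5, v39, v40, v41, v42, v43, v44, v45, v46, v47, v48, v49, fc, fs, fW, fe, fd, r1, v2, s3n, a1q1_v, a1q1_v1, a1q1_v2, a1q1_v3, a1q1_v4, a1q1_v5, a1q1_v6, a1q1_v7, a1q1_v8, a1q1_v9, a1q1_v10, a1q1_v11, a1q1_v12, a1q1_v13]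
    (try push_cast)
    (try ring)
  have fx : v27 t t2 = (c1f_v t + -(c1f_v t2)) := by
    simp only [v27, fc, fs, fW, fe, fd, r1, r2, v2, s3n]
    (try push_cast)
    (try ring)
  have ft : v28 t t2 = (t + t2) := by
    simp only [v0, v1, v28, fc, fs, fW, fe, fd, r1, r2, fx, v2, s3n]
    (try push_cast)
    (try ring)
  have u2 : 1 ≤ (c1f_v t + -(c1f_v t2)) ^ 2 + (t + t2) ^ 2 := by
    have h := hq1
    simp only [q3f_v, q3f_v2, q3f_v3, q3f_v4] at h
    linarith
  have u4 : |(c1f_v t + -(c1f_v t2))| ≤ f2p_v (t + t2) := by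
    have h := p75
    have h' := p76
    simp only [v74, v75, v76, fc, fs, fW, fe, fd, r1, r2, fx, ft, v2, s3n] at h h'
    rw [abs_le]
    constructor <;> linarith
  have hr := RegF.rq2_low (T := (t + t2)) (X := (c1f_v t + -(c1f_v t2))) (by linarith) (by linarith) u2 u4
  have r3 : v78 t t2 = rq2_v (c1f_v t + -(c1f_v t2)) (t + t2) := by
    rw [hr]
    simp only [v73, v77, v78, fc, fs, fW, fe, fd, r1, r2, fx, ft, v2, s3n, q3f_v, q3f_v2, q3f_v3, q3f_v4]
    (try push_cast)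
    (try simp only [hs3])
    (try ring)
  have l1 : v99 t t2 = ((t + t2) - Pool.Agent.StripNear.h0) := by
    simp only [v3, v99, fc, fs, fW, fe, fd, r1, r2, fx, ft, r3, v2, s3n]
    (try push_cast)
    (try ring)
  have l2 : (-v98 t t2) = (Pool.Agent.StripNear.h0 - t2) := by
    simp only [v1, v3, v98, fc, fs, fW, fe, fd, r1, r2, fx, ft, r3, v2, s3n]
    (try push_cast)
    (try ring)
  have l3 : (-v97 t t2) = (Pool.Agent.StripNear.h0 - t) := by
    simp only [v0, v3, v97, fc, fs, fW, fe, fd, r1, r2, fx, ft, r3, v2, s3n]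
    (try push_cast)
    (try ring)
  have k := core c hW hWQ
  rw [sl112_eq]
  rw [fe, l1, l2, l3, r1, r2, r3] at k
  exact k

end Pool.Agent.Strip051.LB.ChA00U_pm_112
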