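import Pool.Agent.Strip051.LB.Sp2

/-! # LINE tight charts: the top corner chart (helper lemmas) -/

namespace Pool.Agent.Strip051.LB

open Fn Fc Fd Pool.Agent.StripNear

theorem rq3_zero {T : ℝ} (h1 : 0 ≤ T) (h : T ≤ 2 * h0) : rq3_v 0 T = 0 := by
  have k := f1p_nn h1 h
  have e : rq3_v 0 T = -rrq3_v (-0) T := if_pos le_rfl
  rw [e, neg_zero, RegF.rrq3_eq, if_pos (by linarith), zero_mul, neg_zero]

theorem rq3_z {T X z xi : ℝ} (h1 : 3 / 2 * h0 ≤ T) (h2 : T ≤ 2 * h0) (ez : z = c3f_v T)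
    (sz : z ^ 2 + T ^ 2 = 3) (hz : 0 ≤ z) (eX : X = z * xi) (hf : f1p_v T ≤ X)
    (hX : X ≤ c3f_v T) : rq3_v X T = X * (T * (2 * h0)⁻¹ - X) * (1 + T * (2 * h0)⁻¹ - X)⁻¹ +
      (3 - X ^ 2 - T ^ 2) * kx3z_v X T z xi := by
  have hp := h0_pos
  have hh := RegF.h2
  have h0T : 0 ≤ T := by linarith
  rcases hz.eq_or_lt with h | h
  · have e : X = 0 := by rw [eX, ← h, zero_mul]
    have e2 : 3 - X ^ 2 - T ^ 2 = 0 := by rw [e]; rw [← h] at sz; linarith
    rw [e2, e, rq3_zero h0T h2, zero_mul, zero_mul, zero_mul, zero_add]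
  · have hT : T < 2 * h0 := by nlinarith
    have k := f1p_nn h0T h2
    have a0 : 0 ≤ xi := by
      by_contra hn
      have := mul_neg_of_pos_of_neg h (not_le.1 hn)
      linarith
    have a1 : xi ≤ 1 := by
      by_contra hn
      have := mul_lt_mul_of_pos_left (not_le.1 hn) h
      linarith
    have hr := RegF.rq3_high h1 hT hf hX
    have e := kx3z_eq h1 hT ez a0 a1
    rw [← eX] at e
    rw [hr, e]

end Pool.Agent.Strip051.LB
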