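import Pool.Agent.Strip051.LB.ChA00V1_pm_123z.Sl
import Pool.Agent.Strip051.LB.ChA00V1_pm_123z.All
import Pool.Agent.Strip051.LB.Sp3

/-! # LINE tight chart ChA00V1_pm_123z -/

namespace Pool.Agent.Strip051.LB.ChA00V1_pm_123z

open Pool.Agent.Strip051.LB Pool.Agent.Strip051.LB.Fn Pool.Agent.Strip051.LB.Fc Pool.Agent.Strip051.LB.Fd Pool.Agent.StripNear Pool.Agent.Strip051.Box Pool.Agent.Strip051.Box2

set_option maxRecDepth 100000
set_option linter.all false

theorem mem0 {x1 x2 : ℝ} (h1 : 0 ≤ x1) (h2 : x1 ≤ 1 / 2) (h3 : 0 ≤ x2) (h4 : x2 ≤ 3 / 5) : Mem S b0 x1 x2 := by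
  unfold Mem b0
  refine ⟨abs_le.mpr ⟨?_, ?_⟩, abs_le.mpr ⟨?_, ?_⟩⟩ <;> norm_num [S] <;> linarith

theorem tight123z {t t2 : ℝ} (h1 : 1 / 2 * Pool.Agent.StripNear.h0 ≤ t) (h1' : t ≤ 1 * Pool.Agent.StripNear.h0) (h2 : 1 * Pool.Agent.StripNear.h0 ≤ t2) (h2' : t2 ≤ 3 / 2 * Pool.Agent.StripNear.h0) (h3 : 3 / 2 * Pool.Agent.StripNear.h0 ≤ t + t2) (h3' : t + t2 ≤ 2 * Pool.Agent.StripNear.h0) (h5 : t2 ≤ 1) (h6 : t + t2 ≤ 2 * Pool.Agent.StripNear.h0) (ho : 0 ≤ exf_v (c1f_v t) (-(c1f_v t2)) t t2 + 1 / 2) (hq1 : 1 ≤ q3f_v (c1f_v t + -(c1f_v t2)) (t + t2)) (hq3 : q3f_v (c1f_v t + -(c1f_v t2)) (t + t2) ≤ 3) (hw1 : 0 ≤ 1 / 16 - ((c1f_v t / 2 - Pool.Agent.StripNear.h0 * t) - -(c1f_v t2))) (hw2 : 0 ≤ 1 / 16 + ((c1f_v t / 2 - Pool.Agent.StripNear.h0 * t) - -(c1f_v t2))) (hT1 : 83 / 50 ≤ t + t2) :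
    0 ≤ sl123_v (exf_v (c1f_v t) (-(c1f_v t2)) t t2) t t2 (t + t2) (a1q1_v t) (-(c1f_v t2)) (rq3_v (c1f_v t + -(c1f_v t2)) (t + t2)) := by
  have hq1q := hq1
  have hq3q := hq3
  simp only [q3f_v, q3f_v2, q3f_v3, q3f_v4] at hq1q hq3q
  have hp := h0_pos
  have g1 := h0_lo
  have g2 := h0_hi
  have gg := RegF.h2
  have s1 : c1f_v t ^ 2 + t ^ 2 = 1 := c1f_sq (sq_le_one (by linarith) (by linarith))
  have s2 : c1f_v t2 ^ 2 + t2 ^ 2 = 1 := c1f_sq (sq_le_one (by linarith) (by linarith))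
  have n1 := c1f_nn t
  have n2 := c1f_nn t2
  obtain ⟨z, m, hz0, hz1, hm0, hm1, hzT, ht2⟩ := zed (t := t) (t2 := t2) (by linarith) (by linarith) (by linarith) h5 hT1 h6 hq3q
  have sz : z ^ 2 + (t + t2) ^ 2 = 3 := by rw [hzT]; exact c3f_sq (sq_le_three (by linarith) h6)
  have hm : Mem S b0 z m := mem0 (by linarith) (by linarith) (by linarith) (by linarith)
  have hP : Q z m := all z m hm
  have fT : v7 z m = (t + t2) := by
    rw [v7]; refine sqrt_of_sq (by linarith) ?_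
    simp only [v0, v4, v5, v6]
    push_cast
    linarith [sz]
  have fy : v9 z m = t2 := by
    simp only [v0, v1, v2, v3, v8, v9, v2, s3n]
    (try push_cast)
    linarith [ht2]
  have fx0 : v10 z m = t := by
    simp only [v10, fT, fy, v2, s3n]
    (try push_cast)
    linarith
  have fc : v14 z m = c1f_v t := by
    rw [v14, v13]
    simp only [v12, v11, fT, fy, fx0]
    rfl
  have fs : v30 z m = c1f_v t2 := by
    rw [v30, v29]
    simp only [v12, v28, fT, fy, fx0, fc]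
    rfl
  have fW : v35 z m = ((t / 2 + Pool.Agent.StripNear.h0 * c1f_v t) - t2) := by
    simp only [v3, v20, v21, v22, v35, fT, fy, fx0, fc, fs, v2, s3n]
    (try push_cast)
    first | ring1 | (clear hP hm; grind)
  have fWp : v170 z m = ((c1f_v t / 2 - Pool.Agent.StripNear.h0 * t) - -(c1f_v t2)) := by
    simp only [v3, v17, v168, v169, v170, fT, fy, fx0, fc, fs, fW, v2, s3n]
    (try push_cast)
    first | ring1 | (clear hP hm; grind)
  have fe : v133 z m = exf_v (c1f_v t) (-(c1f_v t2)) t t2 := by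
    simp only [v16, v72, v128, v129, v131, v132, v133, fT, fy, fx0, fc, fs, fW, fWp, v2, s3n, exf_v, exf_v4, exf_v5, exf_v6, exf_v7, exf_v8, exf_v9, exf_v10, exf_v11]
    (try push_cast)
    (try ring)
  have fd : v49 z m = 3 - q3f_v (c1f_v t + -(c1f_v t2)) (t + t2) := by
    simp only [v5, v33, v34, v46, v47, v48, v49, fT, fy, fx0, fc, fs, fW, fWp, fe, v2, s3n, q3f_v, q3f_v2, q3f_v3, q3f_v4]
    (try push_cast)
    (try ring)
  unfold Q P1 at hP
  rcases hP with (h | h | h | h | h | h | h | h | h | h) | hP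
  · exfalso
    simp only [v160, v162, fT, fy, fx0, fc, fs, fW, fWp, fe, fd, v2, s3n] at h
    (try push_cast at h)
    linarith
  · exfalso
    simp only [v3, v143, fT, fy, fx0, fc, fs, fW, fWp, fe, fd, v2, s3n] at h
    (try push_cast at h)
    linarith
  · exfalso
    simp only [v3, v156, fT, fy, fx0, fc, fs, fW, fWp, fe, fd, v2, s3n] at h
    (try push_cast at h)
    linarith
  · exfalso
    simp only [v163, v165, fT, fy, fx0, fc, fs, fW, fWp, fe, fd, v2, s3n] at h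
    (try push_cast at h)
    linarith
  · exfalso
    simp only [v34, v163, v167, fT, fy, fx0, fc, fs, fW, fWp, fe, fd, v2, s3n] at h
    (try push_cast at h)
    linarith
  · exfalso
    have e : v172 z m = v170 z m - 1 / 16 := by
      simp only [v17, v169, v170, v171, v172]
      (try push_cast)
      (try ring)
    rw [e, fWp] at h
    linarith
  · exfalso
    have e : v174 z m = -v170 z m - 1 / 16 := by
      simp only [v17, v169, v170, v171, v173, v174]
      (try push_cast)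
      (try ring)
    rw [e, fWp] at h
    linarith
  · exfalso
    simp only [v34, v145, fT, fy, fx0, fc, fs, fW, fWp, fe, fd, v2, s3n] at h
    (try push_cast at h)
    linarith
  · exfalso
    have e : v175 z m = -v49 z m := by
      simp only [v5, v47, v49, v175]
      (try push_cast)
      (try ring)
    rw [e, fd] at h
    linarith
  · exfalso
    have e : v177 z m = -(v133 z m + 1 / 2) := by
      simp only [v16, v133, v176, v177]
      (try push_cast)
      (try ring)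
    rw [e, fe] at h
    linarith
  unfold P0 at hP
  obtain ⟨hδ, p29, p56, p77, p90, p43, p100, p105, p111, hQ⟩ := hP
  have c : Cx z m := ⟨by rw [fc, fx0]; linarith [s1], p29, p56, p77, p90, p43, p100, p105, p111⟩
  have hd0 : 0 ≤ v49 z m := by rw [fd]; linarith
  have hW : 0 ≤ v35 z m := w_nonneg (sD c) hd0 hδ
  have fWh : v178 z m = -((2 * Pool.Agent.StripNear.h0 + (t + t2))⁻¹ - (m + z * (2 * Pool.Agent.StripNear.h0 + (t + t2))⁻¹) ^ 2 * (Pool.Agent.StripNear.h0 + 3 / 2 * ((Pool.Agent.StripNear.h0 + t) * (c1f_v t + 1 / 2)⁻¹)) * (c1f_v t + 1 / 2)⁻¹) := by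
    simp only [v0, v1, v3, v16, v100, v101, v102, v103, v104, v105, v106, v107, v115, v116, v117, v118, v119, v178, fT, fy, fx0, fc, fs, fW, fWp, fe, fd, v2, s3n]
    (try push_cast)
    (try ring)
  have hWW : v35 z m = z ^ 2 * (-v178 z m) := by
    rw [fW, fWh, neg_neg]; exact zed_w s1 n1 sz (by linarith) ht2
  have hnW : v178 z m = - -v178 z m := (neg_neg _).symm
  have hWQ : 0 ≤ v35 z m * v159 z m := by
    rcases hQ with h | h
    · rw [hnW] at h
      have : v35 z m ≤ 0 := by rw [hWW]; exact mul_nonpos_of_nonneg_of_nonpos (by positivity) (by linarith)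
      have e : v35 z m = 0 := le_antisymm this hW
      rw [e, zero_mul]
    · exact mul_nonneg hW h.le
  have r1 : v45 z m = (a1q1_v t) := by
    simp only [v12, v36, v37, v38, v39, v40, v41, v42, v43, v44, v45, fT, fy, fx0, fc, fs, fW, fWp, fe, fd, fWh, v2, s3n, a1q1_v, a1q1_v1, a1q1_v2, a1q1_v3, a1q1_v4, a1q1_v5, a1q1_v6, a1q1_v7, a1q1_v8, a1q1_v9, a1q1_v10, a1q1_v11, a1q1_v12, a1q1_v13]
    (try push_cast)
    (try ring)
  have r2 : v32 z m = (-(c1f_v t2)) := by
    first | rfl | (simp only [v32, fT, fy, fx0, fc, fs, fW, fWp, fe, fd, fWh, r1, v2, s3n]; done) | (simp only [v32, fT, fy, fx0, fc, fs, fW, fWp, fe, fd, fWh, r1, v2, s3n]; ring)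
  have fx : v33 z m = (c1f_v t + -(c1f_v t2)) := by
    simp only [v33, fT, fy, fx0, fc, fs, fW, fWp, fe, fd, fWh, r1, r2, v2, s3n]
    (try push_cast)
    (try ring)
  have ft : v34 z m = (t + t2) := by
    simp only [v34, fT, fy, fx0, fc, fs, fW, fWp, fe, fd, fWh, r1, r2, fx, v2, s3n]
    (try push_cast)
    (try ring)
  have u2 : (c1f_v t + -(c1f_v t2)) ^ 2 + (t + t2) ^ 2 ≤ 3 := by
    have h := hq3
    simp only [q3f_v, q3f_v2, q3f_v3, q3f_v4] at h
    linarith
  have u3 : (c1f_v t + -(c1f_v t2)) ≤ c3f_v (t + t2) := le_c3f u2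
  have u4 : f1p_v (t + t2) ≤ (c1f_v t + -(c1f_v t2)) := by
    have h := f1p_le (t := t) (t2 := t2) (by linarith) (by linarith) (by linarith) (by linarith) (by linarith) (by linarith)
    linarith
  have fxi : v114 z m = (m + z * (2 * Pool.Agent.StripNear.h0 + (t + t2))⁻¹) * ((Pool.Agent.StripNear.h0 + t) * (c1f_v t + 1 / 2)⁻¹) + m * (t2 + Pool.Agent.StripNear.h0) * (c1f_v t2 + 1 / 2)⁻¹ := by
    simp only [v0, v1, v3, v16, v100, v101, v102, v103, v104, v105, v106, v107, v108, v109, v110, v111, v112, v113, v114, fT, fy, fx0, fc, fs, fW, fWp, fe, fd, fWh, r1, r2, fx, ft, v2, s3n]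
    (try push_cast)
    (try ring)
  have hXz : (c1f_v t + -(c1f_v t2)) = z * v114 z m := by rw [fxi]; exact zed_x s1 n1 s2 n2 sz (by linarith) ht2
  have hr := rq3_z (by linarith) (by linarith) hzT sz hz0 hXz u4 u3
  have hK : v121 z m = kx3z_v (c1f_v t + -(c1f_v t2)) (t + t2) z (v114 z m) := by rw [v121, fx, ft]; rfl
  rw [← hK] at hr
  obtain ⟨kk, hkk⟩ : ∃ kk, v121 z m = kk := ⟨_, rfl⟩
  rw [hkk] at hr
  have r3 : v125 z m = rq3_v (c1f_v t + -(c1f_v t2)) (t + t2) := by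
    rw [hr]
    simp only [v12, v72, v73, v74, v75, v76, v77, v78, v79, v124, v125, fT, fy, fx0, fc, fs, fW, fWp, fe, fd, fWh, r1, r2, fx, ft, fxi, hkk, v2, s3n, q3f_v, q3f_v2, q3f_v3, q3f_v4]
    (try push_cast)
    (try simp only [hs3])
    (try ring)
  have l1 : v144 z m = (t2 - Pool.Agent.StripNear.h0) := by
    simp only [v3, v144, fT, fy, fx0, fc, fs, fW, fWp, fe, fd, fWh, r1, r2, fx, ft, fxi, hkk, r3, v2, s3n]
    (try push_cast)
    (try ring)
  have l2 : (-v145 z m) = (2 * Pool.Agent.StripNear.h0 - (t + t2)) := by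
    simp only [v145, fT, fy, fx0, fc, fs, fW, fWp, fe, fd, fWh, r1, r2, fx, ft, fxi, hkk, r3, v2, s3n]
    (try push_cast)
    (try ring)
  have k := core c hW hWQ (by rw [l1]; linarith) (by rw [l2]; linarith) (by rw [l1, l2]; linarith)
  rw [sl123_eq]
  rw [fe, l1, l2, r1, r2, r3] at k
  exact k

end Pool.Agent.Strip051.LB.ChA00V1_pm_123z
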