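import Pool.Agent.Strip051.LB.ChA00V1_pm_123a
import Pool.Agent.Strip051.LB.ChA00V1_pm_123z

/-! # LINE tight chart ChA00V1_pm_123: the two parts -/

namespace Pool.Agent.Strip051.LB.ChA00V1_pm_123

open Pool.Agent.Strip051.LB Pool.Agent.Strip051.LB.Fn

set_option linter.all false

theorem tight123 {t t2 : ℝ} (h1 : 1 / 2 * Pool.Agent.StripNear.h0 ≤ t) (h1' : t ≤ 1 * Pool.Agent.StripNear.h0) (h2 : 1 * Pool.Agent.StripNear.h0 ≤ t2) (h2' : t2 ≤ 3 / 2 * Pool.Agent.StripNear.h0) (h3 : 3 / 2 * Pool.Agent.StripNear.h0 ≤ t + t2) (h3' : t + t2 ≤ 2 * Pool.Agent.StripNear.h0) (h5 : t2 ≤ 1) (h6 : t + t2 ≤ 2 * Pool.Agent.StripNear.h0) (ho : 0 ≤ exf_v (c1f_v t) (-(c1f_v t2)) t t2 + 1 / 2) (hq1 : 1 ≤ q3f_v (c1f_v t + -(c1f_v t2)) (t + t2)) (hq3 : q3f_v (c1f_v t + -(c1f_v t2)) (t + t2) ≤ 3) (hw1 : 0 ≤ 1 / 16 - ((c1f_v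 t / 2 - Pool.Agent.StripNear.h0 * t) - -(c1f_v t2))) (hw2 : 0 ≤ 1 / 16 + ((c1f_v t / 2 - Pool.Agent.StripNear.h0 * t) - -(c1f_v t2))) :
    0 ≤ sl123_v (exf_v (c1f_v t) (-(c1f_v t2)) t t2) t t2 (t + t2) (a1q1_v t) (-(c1f_v t2)) (rq3_v (c1f_v t + -(c1f_v t2)) (t + t2)) := by
  rcases le_total (t + t2) (83 / 50) with h | h
  · exact ChA00V1_pm_123a.tight123a h1 h1' h2 h2' h3 h3' h5 h6 ho hq1 hq3 hw1 hw2 h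
  · exact ChA00V1_pm_123z.tight123z h1 h1' h2 h2' h3 h3' h5 h6 ho hq1 hq3 hw1 hw2 h

end Pool.Agent.Strip051.LB.ChA00V1_pm_123
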