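import Pool.Agent.Strip051.LB.ChA00V1_pm_123a.Sl
import Pool.Agent.Strip051.LB.ChA00V1_pm_123a.All

/-! # LINE tight chart ChA00V1_pm_123a -/

namespace Pool.Agent.Strip051.LB.ChA00V1_pm_123a

open Pool.Agent.Strip051.LB Pool.Agent.Strip051.LB.Fn Pool.Agent.Strip051.LB.Fc Pool.Agent.StripNear Pool.Agent.Strip051.Box Pool.Agent.Strip051.Box2

set_option maxRecDepth 100000
set_option linter.all false

theorem mem0 {x1 x2 : ℝ} (h1 : 8660254037 / 20000000000 ≤ x1) (h2 : x1 ≤ 4330127019 / 5000000000) (h3 : -(1 / 2) ≤ x2) (h4 : x2 ≤ 0) : Mem S b0 x1 x2 := by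
  unfold Mem b0
  refine ⟨abs_le.mpr ⟨?_, ?_⟩, abs_le.mpr ⟨?_, ?_⟩⟩ <;> norm_num [S] <;> linarith

theorem tight123a {t t2 : ℝ} (h1 : 1 / 2 * Pool.Agent.StripNear.h0 ≤ t) (h1' : t ≤ 1 * Pool.Agent.StripNear.h0) (h2 : 1 * Pool.Agent.StripNear.h0 ≤ t2) (h2' : t2 ≤ 3 / 2 * Pool.Agent.StripNear.h0) (h3 : 3 / 2 * Pool.Agent.StripNear.h0 ≤ t + t2) (h3' : t + t2 ≤ 2 * Pool.Agent.StripNear.h0) (h5 : t2 ≤ 1) (h6 : t + t2 ≤ 2 * Pool.Agent.StripNear.h0) (ho : 0 ≤ exf_v (c1f_v t) (-(c1f_v t2)) t t2 + 1 / 2) (hq1 : 1 ≤ q3f_v (c1f_v t + -(c1f_v t2)) (t + t2)) (hq3 : q3f_v (c1f_v t + -(c1f_v t2)) (t + t2) ≤ 3) (hw1 : 0 ≤ 1 / 16 - ((c1f_v t / 2 - Pool.Agent.StripNear.h0 * t) - -(c1f_v t2))) (hw2 : 0 ≤ 1 / 16 + ((c1f_v t / 2 - Pool.Agent.StripNear.h0 * t) - -(c1f_v t2))) (hT1 : t + t2 ≤ 83 / 50) :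
    0 ≤ sl123_v (exf_v (c1f_v t) (-(c1f_v t2)) t t2) t t2 (t + t2) (a1q1_v t) (-(c1f_v t2)) (rq3_v (c1f_v t + -(c1f_v t2)) (t + t2)) := by
  have hq1q := hq1
  have hq3q := hq3
  simp only [q3f_v, q3f_v2, q3f_v3, q3f_v4] at hq1q hq3q
  have hp := h0_pos
  have g1 := h0_lo
  have g2 := h0_hi
  have gg := RegF.h2
  have s1 : c1f_v t ^ 2 + t ^ 2 = 1 := c1f_sq (sq_le_one (by linarith) (by linarith))
  have s2 : c1f_v t2 ^ 2 + t2 ^ 2 = 1 := c1f_sq (sq_le_one (by linarith) (by linarith))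
  have n1 := c1f_nn t
  have n2 := c1f_nn t2
  have m2 : c1f_v t2 ≤ 1 / 2 := c1f_ub (k := 1) (by linarith) (by norm_num) (by norm_num) (by norm_num)
  have hm : Mem S b0 t (-(c1f_v t2)) := mem0 (by linarith) (by linarith) (by linarith) (by linarith)
  have hP : Q t (-(c1f_v t2)) := all t (-(c1f_v t2)) hm
  have fc : v7 t (-(c1f_v t2)) = c1f_v t := by
    rfl
  have fs : v23 t (-(c1f_v t2)) = t2 := by
    rw [v23]; refine sqrt_of_sq (by linarith) ?_
    simp only [v1, v5, v21, v22]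
    push_cast
    linarith [s2]
  have fW : v26 t (-(c1f_v t2)) = ((c1f_v t / 2 - Pool.Agent.StripNear.h0 * t) - -(c1f_v t2)) := by
    simp only [v0, v1, v3, v10, v11, v12, v26, fc, fs, v2, s3n]
    (try push_cast)
    first | ring1 | (clear hP hm; grind)
  have fe : v101 t (-(c1f_v t2)) = exf_v (c1f_v t) (-(c1f_v t2)) t t2 := by
    simp only [v0, v1, v9, v63, v97, v98, v99, v100, v101, fc, fs, fW, v2, s3n, exf_v, exf_v4, exf_v5, exf_v6, exf_v7, exf_v8, exf_v9, exf_v10, exf_v11]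
    (try push_cast)
    (try ring)
  have fd : v42 t (-(c1f_v t2)) = 3 - q3f_v (c1f_v t + -(c1f_v t2)) (t + t2) := by
    simp only [v0, v1, v24, v25, v38, v39, v40, v41, v42, fc, fs, fW, fe, v2, s3n, q3f_v, q3f_v2, q3f_v3, q3f_v4]
    (try push_cast)
    (try ring)
  unfold Q P1 at hP
  rcases hP with (h | h | h | h | h | h | h | h | h | h | h) | hP
  · exfalso
    simp only [v0, v126, v128, fc, fs, fW, fe, fd, v2, s3n] at h
    (try push_cast at h)
    linarith
  · exfalso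
    simp only [v0, v3, v111, fc, fs, fW, fe, fd, v2, s3n] at h
    (try push_cast at h)
    linarith
  · exfalso
    simp only [v3, v123, fc, fs, fW, fe, fd, v2, s3n] at h
    (try push_cast at h)
    linarith
  · exfalso
    simp only [v129, v131, fc, fs, fW, fe, fd, v2, s3n] at h
    (try push_cast at h)
    linarith
  · exfalso
    simp only [v0, v25, v129, v133, fc, fs, fW, fe, fd, v2, s3n] at h
    (try push_cast at h)
    linarith
  · exfalso
    have e : v135 t (-(c1f_v t2)) = v26 t (-(c1f_v t2)) - 1 / 16 := by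
      simp only [v1, v10, v12, v26, v134, v135]
      (try push_cast)
      (try ring)
    rw [e, fW] at h
    linarith
  · exfalso
    have e : v136 t (-(c1f_v t2)) = -v26 t (-(c1f_v t2)) - 1 / 16 := by
      simp only [v1, v10, v12, v20, v26, v134, v136]
      (try push_cast)
      (try ring)
    rw [e, fW] at h
    linarith
  · exfalso
    simp only [v0, v25, v113, fc, fs, fW, fe, fd, v2, s3n] at h
    (try push_cast at h)
    linarith
  · exfalso
    simp only [v0, v25, v137, v138, fc, fs, fW, fe, fd, v2, s3n] at h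
    (try push_cast at h)
    linarith
  · exfalso
    have e : v139 t (-(c1f_v t2)) = -v42 t (-(c1f_v t2)) := by
      simp only [v39, v40, v42, v139]
      (try push_cast)
      (try ring)
    rw [e, fd] at h
    linarith
  · exfalso
    have e : v141 t (-(c1f_v t2)) = -(v101 t (-(c1f_v t2)) + 1 / 2) := by
      simp only [v9, v101, v140, v141]
      (try push_cast)
      (try ring)
    rw [e, fe] at h
    linarith
  unfold P0 at hP
  obtain ⟨hδ, p22, p54, p68, p80, p92, p34, hQ⟩ := hP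
  have c : Cx t (-(c1f_v t2)) := ⟨by rw [fc]; linarith [s1], p22, p54, p68, p80, p92, p34⟩
  have hd0 : 0 ≤ v42 t (-(c1f_v t2)) := by rw [fd]; linarith
  have hW : 0 ≤ v26 t (-(c1f_v t2)) := w_nonneg (sD c) hd0 hδ
  have hWQ : 0 ≤ v26 t (-(c1f_v t2)) * v125 t (-(c1f_v t2)) := by
    rcases hQ with h | h
    · exfalso
      simp only [v20, v26] at h hW
      linarith
    · exact mul_nonneg hW h.le
  have r1 : v36 t (-(c1f_v t2)) = (a1q1_v t) := by
    simp only [v0, v5, v27, v28, v29, v30, v31, v32, v33, v34, v35, v36, fc, fs, fW, fe, fd, v2, s3n, a1q1_v, a1q1_v1, a1q1_v2, a1q1_v3, a1q1_v4, a1q1_v5, a1q1_v6, a1q1_v7, a1q1_v8, a1q1_v9, a1q1_v10, a1q1_v11, a1q1_v12, a1q1_v13]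
    (try push_cast)
    (try ring)
  have r2 : v1 t (-(c1f_v t2)) = (-(c1f_v t2)) := by
    first | rfl | (simp only [v1, fc, fs, fW, fe, fd, r1, v2, s3n]; done) | (simp only [v1, fc, fs, fW, fe, fd, r1, v2, s3n]; ring)
  have fx : v24 t (-(c1f_v t2)) = (c1f_v t + -(c1f_v t2)) := by
    simp only [v24, fc, fs, fW, fe, fd, r1, r2, v2, s3n]
    (try push_cast)
    (try ring)
  have ft : v25 t (-(c1f_v t2)) = (t + t2) := by
    simp only [v0, v25, fc, fs, fW, fe, fd, r1, r2, fx, v2, s3n]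
    (try push_cast)
    (try ring)
  have u2 : (c1f_v t + -(c1f_v t2)) ^ 2 + (t + t2) ^ 2 ≤ 3 := by
    have h := hq3
    simp only [q3f_v, q3f_v2, q3f_v3, q3f_v4] at h
    linarith
  have u3 : (c1f_v t + -(c1f_v t2)) ≤ c3f_v (t + t2) := le_c3f u2
  have u4 : f1p_v (t + t2) < (c1f_v t + -(c1f_v t2)) := by
    have h := p92
    simp only [v91, v92, fc, fs, fW, fe, fd, r1, r2, fx, ft, v2, s3n] at h
    linarith
  have u5 := f1p_nn (T := (t + t2)) (by linarith) (by linarith)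
  have u6 : (t + t2) < 2 * Pool.Agent.StripNear.h0 := t_lt (X := (c1f_v t + -(c1f_v t2))) (by linarith) u2 (by linarith)
  have hr := RegF.rq3_high (T := (t + t2)) (X := (c1f_v t + -(c1f_v t2))) (by linarith) u6 u4.le u3
  have r3 : v94 t (-(c1f_v t2)) = rq3_v (c1f_v t + -(c1f_v t2)) (t + t2) := by
    rw [hr]
    simp only [v5, v63, v64, v65, v66, v67, v68, v69, v70, v90, v93, v94, fc, fs, fW, fe, fd, r1, r2, fx, ft, v2, s3n, q3f_v, q3f_v2, q3f_v3, q3f_v4]
    (try push_cast)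
    (try simp only [hs3])
    (try ring)
  have l1 : v112 t (-(c1f_v t2)) = (t2 - Pool.Agent.StripNear.h0) := by
    simp only [v3, v112, fc, fs, fW, fe, fd, r1, r2, fx, ft, r3, v2, s3n]
    (try push_cast)
    (try ring)
  have l2 : (-v113 t (-(c1f_v t2))) = (2 * Pool.Agent.StripNear.h0 - (t + t2)) := by
    simp only [v113, fc, fs, fW, fe, fd, r1, r2, fx, ft, r3, v2, s3n]
    (try push_cast)
    (try ring)
  have k := core c hW hWQ (by rw [l1]; linarith) (by rw [l2]; linarith) (by rw [l1, l2]; linarith)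
  rw [sl123_eq]
  rw [fe, l1, l2, r1, r2, r3] at k
  exact k

end Pool.Agent.Strip051.LB.ChA00V1_pm_123a
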