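import Pool.Agent.Strip051.LB.ChA03V2_pm_011.Sl
import Pool.Agent.Strip051.LB.ChA03V2_pm_011.All

/-! # LINE tight chart ChA03V2_pm_011 -/

namespace Pool.Agent.Strip051.LB.ChA03V2_pm_011

open Pool.Agent.Strip051.LB Pool.Agent.Strip051.LB.Fn Pool.Agent.Strip051.LB.Fc Pool.Agent.StripNear Pool.Agent.Strip051.Box Pool.Agent.Strip051.Box2

set_option maxRecDepth 100000
set_option linter.all false

theorem mem0 {x1 x2 : ℝ} (h1 : 0 ≤ x1) (h2 : x1 ≤ 4330127019 / 10000000000) (h3 : 8660254037 / 20000000000 ≤ x2) (h4 : x2 ≤ 4330127019 / 5000000000) : Mem S b0 x1 x2 := by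
  unfold Mem b0
  refine ⟨abs_le.mpr ⟨?_, ?_⟩, abs_le.mpr ⟨?_, ?_⟩⟩ <;> norm_num [S] <;> linarith

theorem tight011 {t t2 : ℝ} (h1 : 0 * Pool.Agent.StripNear.h0 ≤ t) (h1' : t ≤ 1 / 2 * Pool.Agent.StripNear.h0) (h2 : 1 / 2 * Pool.Agent.StripNear.h0 ≤ t2) (h2' : t2 ≤ 1 * Pool.Agent.StripNear.h0) (h3 : 1 / 2 * Pool.Agent.StripNear.h0 ≤ t + t2) (h3' : t + t2 ≤ 1 * Pool.Agent.StripNear.h0) (h6 : t + t2 ≤ 2 * Pool.Agent.StripNear.h0) (ho : 0 ≤ exf_v (c1f_v t) (-(c3f_v t2)) t t2 + 1 / 2) (hq1 : 1 ≤ q3f_v (c1f_v t + -(c3f_v t2)) (t + t2)) (hq3 : q3f_v (c1f_v t + -(c3f_v t2)) (t + t2) ≤ 3) (hw1 : 0 ≤ 1 / 16 - (t2 - (Pool.Agent.StripNear.h0 * c1f_v t - 3 / 2 * t))) (hw2 : 0 ≤ 1 / 16 + (t2 - (Pool.Agent.StripNear.h0 * c1f_v t - 3 / 2 * t))) :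
    0 ≤ sl011_v (exf_v (c1f_v t) (-(c3f_v t2)) t t2) t t2 (t + t2) (a1q0_v t) (-(a3q1_v t2)) (rq1_v (c1f_v t + -(c3f_v t2)) (t + t2)) := by
  have hq1q := hq1
  have hq3q := hq3
  simp only [q3f_v, q3f_v2, q3f_v3, q3f_v4] at hq1q hq3q
  have hp := h0_pos
  have g1 := h0_lo
  have g2 := h0_hi
  have gg := RegF.h2
  have s1 : c1f_v t ^ 2 + t ^ 2 = 1 := c1f_sq (sq_le_one (by linarith) (by linarith))
  have s2 : c3f_v t2 ^ 2 + t2 ^ 2 = 3 := c3f_sq (sq_le_three (by linarith) (by linarith))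
  have n1 := c1f_nn t
  have n2 := c3f_nn t2
  have hm : Mem S b0 t t2 := mem0 (by linarith) (by linarith) (by linarith) (by linarith)
  have hP : Q t t2 := all t t2 hm
  have fc : v7 t t2 = c1f_v t := by
    rfl
  have fs : v29 t t2 = c3f_v t2 := by
    rfl
  have fW : v25 t t2 = (t2 - (Pool.Agent.StripNear.h0 * c1f_v t - 3 / 2 * t)) := by
    simp only [v0, v1, v3, v14, v16, v17, v19, v25, fc, fs, v2, s3n]
    (try push_cast)
    first | ring1 | (clear hP hm; grind)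
  have fe : v136 t t2 = exf_v (c1f_v t) (-(c3f_v t2)) t t2 := by
    simp only [v0, v1, v9, v130, v131, v133, v134, v135, v136, fc, fs, fW, v2, s3n, exf_v, exf_v4, exf_v5, exf_v6, exf_v7, exf_v8, exf_v9, exf_v10, exf_v11]
    (try push_cast)
    (try ring)
  have fd : v51 t t2 = q3f_v (c1f_v t + -(c3f_v t2)) (t + t2) - 1 := by
    simp only [v0, v1, v5, v32, v33, v48, v49, v50, v51, fc, fs, fW, fe, v2, s3n, q3f_v, q3f_v2, q3f_v3, q3f_v4]
    (try push_cast)
    (try ring)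
  unfold Q P1 at hP
  rcases hP with (h | h | h | h | h | h | h | h | h | h) | hP
  · exfalso
    simp only [v0, v177, v179, fc, fs, fW, fe, fd, v2, s3n] at h
    (try push_cast at h)
    linarith
  · exfalso
    simp only [v1, v177, v181, fc, fs, fW, fe, fd, v2, s3n] at h
    (try push_cast at h)
    linarith
  · exfalso
    simp only [v1, v3, v147, fc, fs, fW, fe, fd, v2, s3n] at h
    (try push_cast at h)
    linarith
  · exfalso
    simp only [v0, v1, v33, v177, v183, fc, fs, fW, fe, fd, v2, s3n] at h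
    (try push_cast at h)
    linarith
  · exfalso
    simp only [v0, v1, v3, v33, v148, fc, fs, fW, fe, fd, v2, s3n] at h
    (try push_cast at h)
    linarith
  · exfalso
    have e : v185 t t2 = v25 t t2 - 1 / 16 := by
      simp only [v1, v25, v184, v185]
      (try push_cast)
      (try ring)
    rw [e, fW] at h
    linarith
  · exfalso
    have e : v187 t t2 = -v25 t t2 - 1 / 16 := by
      simp only [v1, v25, v184, v186, v187]
      (try push_cast)
      (try ring)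
    rw [e, fW] at h
    linarith
  · exfalso
    simp only [v0, v1, v33, v188, fc, fs, fW, fe, fd, v2, s3n] at h
    (try push_cast at h)
    linarith
  · exfalso
    have e : v189 t t2 = -v51 t t2 := by
      simp only [v5, v50, v51, v189]
      (try push_cast)
      (try ring)
    rw [e, fd] at h
    linarith
  · exfalso
    have e : v191 t t2 = -(v136 t t2 + 1 / 2) := by
      simp only [v9, v136, v190, v191]
      (try push_cast)
      (try ring)
    rw [e, fe] at h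
    linarith
  unfold P0 at hP
  obtain ⟨hδ, p28, p57, p72, p87, p82, p105, p117, p119, p44, p154, p38, hQ⟩ := hP
  have c : Cx t t2 := ⟨by rw [fc]; linarith [s1], p28, p57, p72, p87, p82, p105, p117, p119, p44, p154, p38⟩
  have hd0 : 0 ≤ v51 t t2 := by rw [fd]; linarith
  have hW : 0 ≤ v25 t t2 := w_nonneg (sD c) hd0 hδ
  have hWQ : 0 ≤ v25 t t2 * v176 t t2 := by
    rcases hQ with h | h
    · exfalso
      simp only [v25, v186] at h hW
      linarith
    · exact mul_nonneg hW h.le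
  have r1 : v40 t t2 = (a1q0_v t) := by
    simp only [v0, v5, v34, v35, v36, v37, v38, v39, v40, fc, fs, fW, fe, fd, v2, s3n, a1q0_v, a1q0_v1, a1q0_v2, a1q0_v3, a1q0_v4, a1q0_v5, a1q0_v6, a1q0_v7, a1q0_v8, a1q0_v9, a1q0_v10]
    (try push_cast)
    (try ring)
  have r2 : v47 t t2 = (-(a3q1_v t2)) := by
    simp only [v1, v3, v41, v42, v43, v44, v45, v46, v47, fc, fs, fW, fe, fd, r1, v2, s3n, a3q1_v, a3q1_v1, a3q1_v2, a3q1_v3, a3q1_v4, a3q1_v5, a3q1_v6, a3q1_v7, a3q1_v8, a3q1_v9]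
    (try push_cast)
    (try ring)
  have fx : v71 t t2 = (-(c1f_v t + -(c3f_v t2))) := by
    simp only [v71, fc, fs, fW, fe, fd, r1, r2, v2, s3n]
    (try push_cast)
    (try ring)
  have ft : v33 t t2 = (t + t2) := by
    simp only [v0, v1, v33, fc, fs, fW, fe, fd, r1, r2, fx, v2, s3n]
    (try push_cast)
    (try ring)
  have fcc : v73 t t2 = c1f_v (t + t2) := by
    rw [v73, v72]
    simp only [v5, v49, ft, fc, fs, fW, fe, fd, r1, r2, fx]
    rfl
  have hs : 0 < (-(c1f_v t + -(c3f_v t2))) + c1f_v (t + t2) := by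
    have h := p117
    simp only [v117, fc, fs, fW, fe, fd, r1, r2, fx, ft, fcc, v2, s3n] at h
    linarith
  have nn := c1f_nn (t + t2)
  have u1 : c1f_v (t + t2) ^ 2 + (t + t2) ^ 2 = 1 := by
    have h := p72
    simp only [v5, v49, v72, fc, fs, fW, fe, fd, r1, r2, fx, ft, fcc, v2, s3n] at h
    push_cast at h
    exact c1f_sq (by linarith)
  have u2 : 1 ≤ (-(c1f_v t + -(c3f_v t2))) ^ 2 + (t + t2) ^ 2 := by
    have h := hq1
    simp only [q3f_v, q3f_v2, q3f_v3, q3f_v4] at h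
    linarith
  have u3 : c1f_v (t + t2) ≤ (-(c1f_v t + -(c3f_v t2))) := c_le u1 u2 hs
  have u4 : (-(c1f_v t + -(c3f_v t2))) ≤ f2m_v (t + t2) := by
    have h := p119
    simp only [v118, v119, fc, fs, fW, fe, fd, r1, r2, fx, ft, fcc, v2, s3n] at h
    linarith
  have hr := RegF.rq1_low (T := (t + t2)) (X := (-(c1f_v t + -(c3f_v t2)))) (by linarith) (by linarith) u3 u4
  have u7 : 0 < (-(c1f_v t + -(c3f_v t2))) := by linarith
  have hn := rq1_neg (T := (t + t2)) u7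
  rw [neg_neg] at hn
  have r3 : v123 t t2 = rq1_v (c1f_v t + -(c3f_v t2)) (t + t2) := by
    rw [hn, hr]
    simp only [v5, v75, v76, v77, v78, v79, v80, v81, v82, v83, v84, v116, v120, v121, v122, v123, fc, fs, fW, fe, fd, r1, r2, fx, ft, fcc, v2, s3n, a1q1_v, a1q1_v1, a1q1_v2, a1q1_v3, a1q1_v4, a1q1_v5, a1q1_v6, a1q1_v7, a1q1_v8, a1q1_v9, a1q1_v10, a1q1_v11, a1q1_v12, a1q1_v13, q3f_v, q3f_v2, q3f_v3, q3f_v4]
    (try push_cast)
    (try simp only [hs3])
    (try ring)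
  have l1 : (-v148 t t2) = (Pool.Agent.StripNear.h0 - (t + t2)) := by
    simp only [v3, v148, fc, fs, fW, fe, fd, r1, r2, fx, ft, fcc, r3, v2, s3n]
    (try push_cast)
    (try ring)
  have l2 : v0 t t2 = t := by
    simp only [v0, fc, fs, fW, fe, fd, r1, r2, fx, ft, fcc, r3, v2, s3n]
    (try push_cast)
    (try ring)
  have k := core c hW hWQ (by rw [l1]; linarith) (by rw [l2]; linarith) (by rw [l1, l2]; linarith)
  rw [sl011_eq]
  rw [fe, l1, l2, r1, r2, r3] at k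
  exact k

end Pool.Agent.Strip051.LB.ChA03V2_pm_011
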