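import Pool.Agent.Strip051.LB.ChB00U_pm_102z

/-! # LINE tight chart ChB00U_pm_102 -/

namespace Pool.Agent.Strip051.LB.ChB00U_pm_102

open Pool.Agent.Strip051.LB Pool.Agent.Strip051.LB.Fn

set_option linter.all false

theorem tight102 {t T : ℝ} (h1 : 1 / 2 * Pool.Agent.StripNear.h0 ≤ t) (h1' : t ≤ 1 * Pool.Agent.StripNear.h0) (h2 : 1 * Pool.Agent.StripNear.h0 ≤ T) (h2' : T ≤ 3 / 2 * Pool.Agent.StripNear.h0) (h3 : 0 * Pool.Agent.StripNear.h0 ≤ T - t) (h3' : T - t ≤ 1 / 2 * Pool.Agent.StripNear.h0) (h5 : T ≤ 1) (h6 : t ≤ T) (ho : 0 ≤ exf_v (c1f_v t) (-(c1f_v T)) t T + 1 / 2) (hq1 : 1 ≤ q3f_v (-(c1f_v T) - c1f_v t) (T - t)) (hq3 : q3f_v (-(c1f_v T) - c1f_v t) (T - t) ≤ 3) (hw1 : 0 ≤ 1 / 16 - ((c1f_v t / 2 - Pool.Agent.StripNear.h0 * t) - -(c1f_v T))) (hw2 : 0 ≤ 1 / 16 + ((c1f_v t / 2 - Pool.Agent.StripNear.h0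 * t) - -(c1f_v T))) :
    0 ≤ sl102_v (exf_v (c1f_v t) (-(c1f_v T)) t T) t (T - t) T (a1q1_v t) (rq0_v (-(c1f_v T) - c1f_v t) (T - t)) (-(c1f_v T)) := ChB00U_pm_102z.tight102 h1 h1' h2 h2' h3 h3' h5 h6 ho hq1 hq3 hw1 hw2

end Pool.Agent.Strip051.LB.ChB00U_pm_102
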