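import Pool.Agent.Strip051.LB.ChB00U_pm_102z.Sl
import Pool.Agent.Strip051.LB.ChB00U_pm_102z.All
import Pool.Agent.Strip051.LB.Sp2

/-! # LINE tight chart ChB00U_pm_102z -/

namespace Pool.Agent.Strip051.LB.ChB00U_pm_102z

open Pool.Agent.Strip051.LB Pool.Agent.Strip051.LB.Fn Pool.Agent.Strip051.LB.Fc Pool.Agent.Strip051.LB.Fd Pool.Agent.StripNear Pool.Agent.Strip051.Box Pool.Agent.Strip051.Box2

set_option maxRecDepth 100000
set_option linter.all false

theorem mem0 {x1 x2 : ℝ} (h1 : 0 ≤ x1) (h2 : x1 ≤ 8660254039 / 20000000000) (h3 : 0 ≤ x2) (h4 : x2 ≤ 1) : Mem S b0 x1 x2 := by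
  unfold Mem b0
  refine ⟨abs_le.mpr ⟨?_, ?_⟩, abs_le.mpr ⟨?_, ?_⟩⟩ <;> norm_num [S] <;> linarith

theorem tight102 {t T : ℝ} (h1 : 1 / 2 * Pool.Agent.StripNear.h0 ≤ t) (h1' : t ≤ 1 * Pool.Agent.StripNear.h0) (h2 : 1 * Pool.Agent.StripNear.h0 ≤ T) (h2' : T ≤ 3 / 2 * Pool.Agent.StripNear.h0) (h3 : 0 * Pool.Agent.StripNear.h0 ≤ T - t) (h3' : T - t ≤ 1 / 2 * Pool.Agent.StripNear.h0) (h5 : T ≤ 1) (h6 : t ≤ T) (ho : 0 ≤ exf_v (c1f_v t) (-(c1f_v T)) t T + 1 / 2) (hq1 : 1 ≤ q3f_v (-(c1f_v T) - c1f_v t) (T - t)) (hq3 : q3f_v (-(c1f_v T) - c1f_v t) (T - t) ≤ 3) (hw1 : 0 ≤ 1 / 16 - ((c1f_v t / 2 - Pool.Agent.StripNear.h0 * t) - -(c1f_v T))) (hw2 : 0 ≤ 1 / 16 + ((c1f_v t / 2 - Pool.Agent.StripNear.h0 * t) - -(c1f_v T))) :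
    0 ≤ sl102_v (exf_v (c1f_v t) (-(c1f_v T)) t T) t (T - t) T (a1q1_v t) (rq0_v (-(c1f_v T) - c1f_v t) (T - t)) (-(c1f_v T)) := by
  have hq1q := hq1
  have hq3q := hq3
  simp only [q3f_v, q3f_v2, q3f_v3, q3f_v4] at hq1q hq3q
  have hp := h0_pos
  have g1 := h0_lo
  have g2 := h0_hi
  have gg := RegF.h2
  have s1 : c1f_v t ^ 2 + t ^ 2 = 1 := c1f_sq (sq_le_one (by linarith) (by linarith))
  have s2 : c1f_v T ^ 2 + T ^ 2 = 1 := c1f_sq (sq_le_one (by linarith) (by linarith))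
  have n1 := c1f_nn t
  have n2 := c1f_nn T
  obtain ⟨u, b, hu0, hb0, hb1, ht, hT, hu⟩ := blow (t := t) (T := T) (by linarith) (by linarith)
  have hm : Mem S b0 u b := mem0 (by linarith) (by linarith) (by linarith) (by linarith)
  have hP : Q u b := all u b hm
  have fx0 : v5 u b = t := by
    simp only [v0, v1, v2, v3, v4, v5, v2, s3n]
    (try push_cast)
    linarith [ht]
  have fy : v9 u b = T := by
    simp only [v0, v1, v2, v3, v6, v7, v8, v9, v2, s3n]
    (try push_cast)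
    linarith [hT]
  have fc : v12 u b = c1f_v t := by
    rw [v12, v11]
    simp only [v6, v10, fx0, fy]
    rfl
  have fs : v29 u b = c1f_v T := by
    rw [v29, v28]
    simp only [v6, v27, fx0, fy, fc]
    rfl
  have fW : v34 u b = ((t / 2 + Pool.Agent.StripNear.h0 * c1f_v t) - T) := by
    simp only [v3, v20, v22, v25, v34, fx0, fy, fc, fs, v2, s3n]
    (try push_cast)
    first | ring1 | (clear hP hm; grind)
  have fWp : v188 u b = ((c1f_v t / 2 - Pool.Agent.StripNear.h0 * t) - -(c1f_v T)) := by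
    simp only [v3, v16, v186, v187, v188, fx0, fy, fc, fs, fW, v2, s3n]
    (try push_cast)
    first | ring1 | (clear hP hm; grind)
  have fe : v152 u b = exf_v (c1f_v t) (-(c1f_v T)) t T := by
    simp only [v14, v146, v147, v149, v150, v151, v152, fx0, fy, fc, fs, fW, fWp, v2, s3n, exf_v, exf_v4, exf_v5, exf_v6, exf_v7, exf_v8, exf_v9, exf_v10, exf_v11]
    (try push_cast)
    (try ring)
  have fd : v48 u b = q3f_v (-(c1f_v T) - c1f_v t) (T - t) - 1 := by
    simp only [v6, v31, v32, v33, v45, v46, v47, v48, fx0, fy, fc, fs, fW, fWp, fe, v2, s3n, q3f_v, q3f_v2, q3f_v3, q3f_v4]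
    (try push_cast)
    (try ring)
  unfold Q P1 at hP
  rcases hP with (h | h | h | h | h | h | h | h | h | h) | hP
  · exfalso
    simp only [v178, v180, fx0, fy, fc, fs, fW, fWp, fe, fd, v2, s3n] at h
    (try push_cast at h)
    linarith
  · exfalso
    simp only [v3, v162, fx0, fy, fc, fs, fW, fWp, fe, fd, v2, s3n] at h
    (try push_cast at h)
    linarith
  · exfalso
    simp only [v33, v178, v182, fx0, fy, fc, fs, fW, fWp, fe, fd, v2, s3n] at h
    (try push_cast at h)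
    linarith
  · exfalso
    simp only [v3, v176, fx0, fy, fc, fs, fW, fWp, fe, fd, v2, s3n] at h
    (try push_cast at h)
    linarith
  · exfalso
    simp only [v183, v185, fx0, fy, fc, fs, fW, fWp, fe, fd, v2, s3n] at h
    (try push_cast at h)
    linarith
  · exfalso
    have e : v190 u b = v188 u b - 1 / 16 := by
      simp only [v16, v187, v188, v189, v190]
      (try push_cast)
      (try ring)
    rw [e, fWp] at h
    linarith
  · exfalso
    have e : v192 u b = -v188 u b - 1 / 16 := by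
      simp only [v16, v187, v188, v189, v191, v192]
      (try push_cast)
      (try ring)
    rw [e, fWp] at h
    linarith
  · exfalso
    simp only [v174, fx0, fy, fc, fs, fW, fWp, fe, fd, v2, s3n] at h
    (try push_cast at h)
    linarith
  · exfalso
    have e : v193 u b = -v48 u b := by
      simp only [v6, v47, v48, v193]
      (try push_cast)
      (try ring)
    rw [e, fd] at h
    linarith
  · exfalso
    have e : v195 u b = -(v152 u b + 1 / 2) := by
      simp only [v14, v152, v194, v195]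
      (try push_cast)
      (try ring)
    rw [e, fe] at h
    linarith
  unfold P0 at hP
  obtain ⟨hδ, p28, p55, p72, p83, p79, p95, p124, p136, p42, p107, p77, p118, hQ⟩ := hP
  have c : Cx u b := ⟨by rw [fc, fx0]; linarith [s1], p28, p55, p72, p83, p79, p95, p124, p136, p42, p107, p77, p118⟩
  have hd0 : 0 ≤ v48 u b := by rw [fd]; linarith
  have hW : 0 ≤ v34 u b := w_nonneg (sD c) hd0 hδ
  have fWh : v122 u b = b / 2 + Pool.Agent.StripNear.h0 * b * (t + Pool.Agent.StripNear.h0) * (c1f_v t + 1 / 2)⁻¹ - 1 := by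
    simp only [v1, v3, v6, v14, v114, v115, v116, v117, v118, v119, v120, v121, v122, fx0, fy, fc, fs, fW, fWp, fe, fd, v2, s3n]
    (try push_cast)
    (try ring)
  have hWW : v34 u b = u * v122 u b := by
    rw [fW, fWh]; exact blow_w s1 n1 ht hT
  have hnW : v196 u b = -v122 u b := by
    simp only [v1, v6, v114, v121, v122, v196]
    (try push_cast)
    (try ring)
  have hWQ : 0 ≤ v34 u b * v177 u b := by
    rcases hQ with h | h
    · rw [hnW] at h
      have : v34 u b ≤ 0 := by rw [hWW]; exact mul_nonpos_of_nonneg_of_nonpos (by positivity) (by linarith)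
      have e : v34 u b = 0 := le_antisymm this hW
      rw [e, zero_mul]
    · exact mul_nonneg hW h.le
  have r1 : v44 u b = (a1q1_v t) := by
    simp only [v6, v35, v36, v37, v38, v39, v40, v41, v42, v43, v44, fx0, fy, fc, fs, fW, fWp, fe, fd, fWh, v2, s3n, a1q1_v, a1q1_v1, a1q1_v2, a1q1_v3, a1q1_v4, a1q1_v5, a1q1_v6, a1q1_v7, a1q1_v8, a1q1_v9, a1q1_v10, a1q1_v11, a1q1_v12, a1q1_v13]
    (try push_cast)
    (try ring)
  have r2 : v31 u b = (-(c1f_v T)) := by
    first | rfl | (simp only [v31, fx0, fy, fc, fs, fW, fWp, fe, fd, fWh, r1, v2, s3n]; done) | (simp only [v31, fx0, fy, fc, fs, fW, fWp, fe, fd, fWh, r1, v2, s3n]; ring)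
  have fx : v71 u b = (-(-(c1f_v T) - c1f_v t)) := by
    simp only [v71, fx0, fy, fc, fs, fW, fWp, fe, fd, fWh, r1, r2, v2, s3n]
    (try push_cast)
    (try ring)
  have ft : v33 u b = (T - t) := by
    simp only [v33, fx0, fy, fc, fs, fW, fWp, fe, fd, fWh, r1, r2, fx, v2, s3n]
    (try push_cast)
    (try ring)
  have fcc : v73 u b = c1f_v (T - t) := by
    rw [v73, v72]
    simp only [v6, v46, ft, fx0, fy, fc, fs, fW, fWp, fe, fd, fWh, r1, r2, fx]
    rfl
  have hs : 0 < (-(-(c1f_v T) - c1f_v t)) + c1f_v (T - t) := by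
    have h := p124
    simp only [v124, fx0, fy, fc, fs, fW, fWp, fe, fd, fWh, r1, r2, fx, ft, fcc, v2, s3n] at h
    linarith
  have nn := c1f_nn (T - t)
  have u1 : c1f_v (T - t) ^ 2 + (T - t) ^ 2 = 1 := by
    have h := p72
    simp only [v6, v46, v72, fx0, fy, fc, fs, fW, fWp, fe, fd, fWh, r1, r2, fx, ft, fcc, v2, s3n] at h
    push_cast at h
    exact c1f_sq (by linarith)
  have u2 : 1 ≤ (-(-(c1f_v T) - c1f_v t)) ^ 2 + (T - t) ^ 2 := by
    have h := hq1
    simp only [q3f_v, q3f_v2, q3f_v3, q3f_v4] at h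
    linarith
  have u3 : c1f_v (T - t) ≤ (-(-(c1f_v T) - c1f_v t)) := c_le u1 u2 hs
  have u4 : (-(-(c1f_v T) - c1f_v t)) ≤ f2m_v (T - t) := by
    have h := p136
    simp only [v135, v136, fx0, fy, fc, fs, fW, fWp, fe, fd, fWh, r1, r2, fx, ft, fcc, v2, s3n] at h
    linarith
  have hr := RegF.rq0_low (T := (T - t)) (X := (-(-(c1f_v T) - c1f_v t))) (by linarith) (by linarith) u3 u4
  have eG : v113 u b = ((2 * Pool.Agent.StripNear.h0 - (T - t)) * (sw_v (T - t) + 1 / 2)⁻¹ + (T - t) * (1 + c1f_v (T - t))⁻¹) / 2 := by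
    simp only [v6, v14, v77, v105, v106, v107, v108, v109, v110, v111, v112, v113, fx0, fy, fc, fs, fW, fWp, fe, fd, fWh, r1, r2, fx, ft, fcc, v2, s3n]
    (try push_cast)
    (try ring)
  have e0 : (-(-(c1f_v T) - c1f_v t)) - c1f_v (T - t) = u * v126 u b := by
    have h := hx c
    rw [fx, fcc, sD c, hWW] at h
    rw [h, v126, v123, v125]
    ring
  have hKK : ((-(-(c1f_v T) - c1f_v t)) - c1f_v (T - t)) * kxq0_v (-(-(c1f_v T) - c1f_v t)) (T - t) = ((-(-(c1f_v T) - c1f_v t)) - c1f_v (T - t)) * v134 u b := by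
    rcases hu0.eq_or_lt with h | h
    · rw [e0, ← h, zero_mul, zero_mul, zero_mul]
    · have e1 : f1m_v (T - t) - c1f_v (T - t) = u * v113 u b := by
        rw [f1c1 (by linarith) (by linarith), eG, ← hu]
      rw [kxq0_eq h e1 e0]
      simp only [v127, v128, v129, v130, v131, v132, v133, v134, ft]
  obtain ⟨kk, hkk⟩ : ∃ kk, v134 u b = kk := ⟨_, rfl⟩
  rw [hkk] at hKK
  have u7 : 0 < (-(-(c1f_v T) - c1f_v t)) := by linarith
  have hn := rq0_neg (T := (T - t)) u7
  rw [neg_neg] at hn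
  have r3 : v140 u b = rq0_v (-(c1f_v T) - c1f_v t) (T - t) := by
    rw [hn, hr, hKK]
    simp only [v6, v75, v76, v77, v78, v79, v80, v81, v137, v138, v139, v140, fx0, fy, fc, fs, fW, fWp, fe, fd, fWh, r1, r2, fx, ft, fcc, hkk, v2, s3n, a1q0_v, a1q0_v1, a1q0_v2, a1q0_v3, a1q0_v4, a1q0_v5, a1q0_v6, a1q0_v7, a1q0_v8, a1q0_v9, a1q0_v10, q3f_v, q3f_v2, q3f_v3, q3f_v4]
    (try push_cast)
    (try simp only [hs3])
    (try ring)
  have l1 : (-v162 u b) = (Pool.Agent.StripNear.h0 - t) := by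
    simp only [v3, v162, fx0, fy, fc, fs, fW, fWp, fe, fd, fWh, r1, r2, fx, ft, fcc, hkk, r3, v2, s3n]
    (try push_cast)
    (try ring)
  have l2 : v163 u b = (T - Pool.Agent.StripNear.h0) := by
    simp only [v3, v163, fx0, fy, fc, fs, fW, fWp, fe, fd, fWh, r1, r2, fx, ft, fcc, hkk, r3, v2, s3n]
    (try push_cast)
    (try ring)
  have k := core c hW hWQ (by rw [l1]; linarith) (by rw [l2]; linarith) (by rw [l1, l2]; linarith)
  rw [sl102_eq]
  rw [fe, l1, l2, r1, r2, r3] at k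
  exact k

end Pool.Agent.Strip051.LB.ChB00U_pm_102z
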