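import Pool.Agent.Strip051.LB.ChB00U_pp_012.Sl
import Pool.Agent.Strip051.LB.ChB00U_pp_012.All

/-! # LINE tight chart ChB00U_pp_012 -/

namespace Pool.Agent.Strip051.LB.ChB00U_pp_012

open Pool.Agent.Strip051.LB Pool.Agent.Strip051.LB.Fn Pool.Agent.Strip051.LB.Fc Pool.Agent.StripNear Pool.Agent.Strip051.Box Pool.Agent.Strip051.Box2

set_option maxRecDepth 100000
set_option linter.all false

theorem mem0 {x1 x2 : ℝ} (h1 : 0 ≤ x1) (h2 : x1 ≤ 4330127019 / 10000000000) (h3 : 0 ≤ x2) (h4 : x2 ≤ 1 / 2) : Mem S b0 x1 x2 := by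
  unfold Mem b0
  refine ⟨abs_le.mpr ⟨?_, ?_⟩, abs_le.mpr ⟨?_, ?_⟩⟩ <;> norm_num [S] <;> linarith

theorem tight012 {t T : ℝ} (h1 : 0 * Pool.Agent.StripNear.h0 ≤ t) (h1' : t ≤ 1 / 2 * Pool.Agent.StripNear.h0) (h2 : 1 * Pool.Agent.StripNear.h0 ≤ T) (h2' : T ≤ 3 / 2 * Pool.Agent.StripNear.h0) (h3 : 1 / 2 * Pool.Agent.StripNear.h0 ≤ T - t) (h3' : T - t ≤ 1 * Pool.Agent.StripNear.h0) (h5 : T ≤ 1) (h6 : t ≤ T) (ho : 0 ≤ exf_v (c1f_v t) (c1f_v T) t T + 1 / 2) (hq1 : 1 ≤ q3f_v (c1f_v T - c1f_v t) (T - t)) (hq3 : q3f_v (c1f_v T - c1f_v t) (T - t) ≤ 3) (hw1 : 0 ≤ 1 / 16 - ((c1f_v t / 2 - Pool.Agent.StripNear.h0 * t) - c1f_v T)) (hw2 : 0 ≤ 1 / 16 + ((c1f_v t / 2 - Pool.Agent.StripNear.h0 * t) - c1f_v T)) :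
    0 ≤ sl012_v (exf_v (c1f_v t) (c1f_v T) t T) t (T - t) T (a1q0_v t) (rq1_v (c1f_v T - c1f_v t) (T - t)) (c1f_v T) := by
  have hq1q := hq1
  have hq3q := hq3
  simp only [q3f_v, q3f_v2, q3f_v3, q3f_v4] at hq1q hq3q
  have hp := h0_pos
  have g1 := h0_lo
  have g2 := h0_hi
  have gg := RegF.h2
  have s1 : c1f_v t ^ 2 + t ^ 2 = 1 := c1f_sq (sq_le_one (by linarith) (by linarith))
  have s2 : c1f_v T ^ 2 + T ^ 2 = 1 := c1f_sq (sq_le_one (by linarith) (by linarith))
  have n1 := c1f_nn t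
  have n2 := c1f_nn T
  have m2 : c1f_v T ≤ 1 / 2 := c1f_ub (k := 1) (by linarith) (by norm_num) (by norm_num) (by norm_num)
  have hm : Mem S b0 t (c1f_v T) := mem0 (by linarith) (by linarith) (by linarith) (by linarith)
  have hP : Q t (c1f_v T) := all t (c1f_v T) hm
  have fc : v7 t (c1f_v T) = c1f_v t := by
    rfl
  have fs : v24 t (c1f_v T) = T := by
    rw [v24]; refine sqrt_of_sq (by linarith) ?_
    simp only [v1, v5, v22, v23]
    push_cast
    linarith [s2]
  have fW : v27 t (c1f_v T) = ((c1f_v t / 2 - Pool.Agent.StripNear.h0 * t) - c1f_v T) := by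
    simp only [v0, v1, v3, v11, v13, v19, v27, fc, fs, v2, s3n]
    (try push_cast)
    first | ring1 | (clear hP hm; grind)
  have fe : v124 t (c1f_v T) = exf_v (c1f_v t) (c1f_v T) t T := by
    simp only [v0, v1, v9, v119, v120, v121, v122, v123, v124, fc, fs, fW, v2, s3n, exf_v, exf_v4, exf_v5, exf_v6, exf_v7, exf_v8, exf_v9, exf_v10, exf_v11]
    (try push_cast)
    (try ring)
  have fd : v38 t (c1f_v T) = q3f_v (c1f_v T - c1f_v t) (T - t) - 1 := by
    simp only [v0, v1, v5, v25, v26, v35, v36, v37, v38, fc, fs, fW, fe, v2, s3n, q3f_v, q3f_v2, q3f_v3, q3f_v4]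
    (try push_cast)
    (try ring)
  unfold Q P1 at hP
  rcases hP with (h | h | h | h | h | h | h | h | h | h) | hP
  · exfalso
    simp only [v0, v147, v149, fc, fs, fW, fe, fd, v2, s3n] at h
    (try push_cast at h)
    linarith
  · exfalso
    simp only [v0, v26, v147, v151, fc, fs, fW, fe, fd, v2, s3n] at h
    (try push_cast at h)
    linarith
  · exfalso
    simp only [v0, v3, v26, v134, fc, fs, fW, fe, fd, v2, s3n] at h
    (try push_cast at h)
    linarith
  · exfalso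
    simp only [v3, v145, fc, fs, fW, fe, fd, v2, s3n] at h
    (try push_cast at h)
    linarith
  · exfalso
    simp only [v152, v154, fc, fs, fW, fe, fd, v2, s3n] at h
    (try push_cast at h)
    linarith
  · exfalso
    have e : v156 t (c1f_v T) = v27 t (c1f_v T) - 1 / 16 := by
      simp only [v1, v11, v19, v27, v155, v156]
      (try push_cast)
      (try ring)
    rw [e, fW] at h
    linarith
  · exfalso
    have e : v157 t (c1f_v T) = -v27 t (c1f_v T) - 1 / 16 := by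
      simp only [v1, v11, v19, v21, v27, v155, v157]
      (try push_cast)
      (try ring)
    rw [e, fW] at h
    linarith
  · exfalso
    simp only [v0, v158, fc, fs, fW, fe, fd, v2, s3n] at h
    (try push_cast at h)
    linarith
  · exfalso
    have e : v159 t (c1f_v T) = -v38 t (c1f_v T) := by
      simp only [v5, v37, v38, v159]
      (try push_cast)
      (try ring)
    rw [e, fd] at h
    linarith
  · exfalso
    have e : v161 t (c1f_v T) = -(v124 t (c1f_v T) + 1 / 2) := by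
      simp only [v9, v124, v160, v161]
      (try push_cast)
      (try ring)
    rw [e, fe] at h
    linarith
  unfold P0 at hP
  obtain ⟨hδ, p23, p49, p60, p75, p70, p94, p106, p108, p32, hQ⟩ := hP
  have c : Cx t (c1f_v T) := ⟨by rw [fc]; linarith [s1], p23, p49, p60, p75, p70, p94, p106, p108, p32⟩
  have hd0 : 0 ≤ v38 t (c1f_v T) := by rw [fd]; linarith
  have hW : 0 ≤ v27 t (c1f_v T) := w_nonneg (sD c) hd0 hδ
  have hWQ : 0 ≤ v27 t (c1f_v T) * v146 t (c1f_v T) := by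
    rcases hQ with h | h
    · exfalso
      simp only [v21, v27] at h hW
      linarith
    · exact mul_nonneg hW h.le
  have r1 : v34 t (c1f_v T) = (a1q0_v t) := by
    simp only [v0, v5, v28, v29, v30, v31, v32, v33, v34, fc, fs, fW, fe, fd, v2, s3n, a1q0_v, a1q0_v1, a1q0_v2, a1q0_v3, a1q0_v4, a1q0_v5, a1q0_v6, a1q0_v7, a1q0_v8, a1q0_v9, a1q0_v10]
    (try push_cast)
    (try ring)
  have r2 : v1 t (c1f_v T) = (c1f_v T) := by
    first | rfl | (simp only [v1, fc, fs, fW, fe, fd, r1, v2, s3n]; done) | (simp only [v1, fc, fs, fW, fe, fd, r1, v2, s3n]; ring)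
  have fx : v59 t (c1f_v T) = (-(c1f_v T - c1f_v t)) := by
    simp only [v59, fc, fs, fW, fe, fd, r1, r2, v2, s3n]
    (try push_cast)
    (try ring)
  have ft : v26 t (c1f_v T) = (T - t) := by
    simp only [v0, v26, fc, fs, fW, fe, fd, r1, r2, fx, v2, s3n]
    (try push_cast)
    (try ring)
  have fcc : v61 t (c1f_v T) = c1f_v (T - t) := by
    rw [v61, v60]
    simp only [v5, v36, ft, fc, fs, fW, fe, fd, r1, r2, fx]
    rfl
  have hs : 0 < (-(c1f_v T - c1f_v t)) + c1f_v (T - t) := by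
    have h := p106
    simp only [v106, fc, fs, fW, fe, fd, r1, r2, fx, ft, fcc, v2, s3n] at h
    linarith
  have nn := c1f_nn (T - t)
  have u1 : c1f_v (T - t) ^ 2 + (T - t) ^ 2 = 1 := by
    have h := p60
    simp only [v5, v36, v60, fc, fs, fW, fe, fd, r1, r2, fx, ft, fcc, v2, s3n] at h
    push_cast at h
    exact c1f_sq (by linarith)
  have u2 : 1 ≤ (-(c1f_v T - c1f_v t)) ^ 2 + (T - t) ^ 2 := by
    have h := hq1
    simp only [q3f_v, q3f_v2, q3f_v3, q3f_v4] at h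
    linarith
  have u3 : c1f_v (T - t) ≤ (-(c1f_v T - c1f_v t)) := c_le u1 u2 hs
  have u4 : (-(c1f_v T - c1f_v t)) ≤ f2m_v (T - t) := by
    have h := p108
    simp only [v107, v108, fc, fs, fW, fe, fd, r1, r2, fx, ft, fcc, v2, s3n] at h
    linarith
  have hr := RegF.rq1_low (T := (T - t)) (X := (-(c1f_v T - c1f_v t))) (by linarith) (by linarith) u3 u4
  have u7 : 0 < (-(c1f_v T - c1f_v t)) := by linarith
  have hn := rq1_neg (T := (T - t)) u7
  rw [neg_neg] at hn
  have r3 : v112 t (c1f_v T) = rq1_v (c1f_v T - c1f_v t) (T - t) := by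
    rw [hn, hr]
    simp only [v5, v63, v64, v65, v66, v67, v68, v69, v70, v71, v72, v105, v109, v110, v111, v112, fc, fs, fW, fe, fd, r1, r2, fx, ft, fcc, v2, s3n, a1q1_v, a1q1_v1, a1q1_v2, a1q1_v3, a1q1_v4, a1q1_v5, a1q1_v6, a1q1_v7, a1q1_v8, a1q1_v9, a1q1_v10, a1q1_v11, a1q1_v12, a1q1_v13, q3f_v, q3f_v2, q3f_v3, q3f_v4]
    (try push_cast)
    (try simp only [hs3])
    (try ring)
  have l1 : v135 t (c1f_v T) = (T - Pool.Agent.StripNear.h0) := by
    simp only [v3, v135, fc, fs, fW, fe, fd, r1, r2, fx, ft, fcc, r3, v2, s3n]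
    (try push_cast)
    (try ring)
  have l2 : (-v134 t (c1f_v T)) = (Pool.Agent.StripNear.h0 - (T - t)) := by
    simp only [v3, v134, fc, fs, fW, fe, fd, r1, r2, fx, ft, fcc, r3, v2, s3n]
    (try push_cast)
    (try ring)
  have k := core c hW hWQ (by rw [l1]; linarith) (by rw [l2]; linarith) (by rw [l1, l2]; linarith)
  rw [sl012_eq]
  rw [fe, l1, l2, r1, r2, r3] at k
  exact k

end Pool.Agent.Strip051.LB.ChB00U_pp_012
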