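import Pool.Agent.Strip051.LB.ChB00V2_pm_011.Sl
import Pool.Agent.Strip051.LB.ChB00V2_pm_011.All

/-! # LINE tight chart ChB00V2_pm_011 -/

namespace Pool.Agent.Strip051.LB.ChB00V2_pm_011

open Pool.Agent.Strip051.LB Pool.Agent.Strip051.LB.Fn Pool.Agent.Strip051.LB.Fc Pool.Agent.StripNear Pool.Agent.Strip051.Box Pool.Agent.Strip051.Box2

set_option maxRecDepth 100000
set_option linter.all false

theorem mem0 {x1 x2 : ℝ} (h1 : 0 ≤ x1) (h2 : x1 ≤ 4330127019 / 10000000000) (h3 : 8660254037 / 20000000000 ≤ x2) (h4 : x2 ≤ 4330127019 / 5000000000) : Mem S b0 x1 x2 := by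
  unfold Mem b0
  refine ⟨abs_le.mpr ⟨?_, ?_⟩, abs_le.mpr ⟨?_, ?_⟩⟩ <;> norm_num [S] <;> linarith

theorem tight011 {t T : ℝ} (h1 : 0 * Pool.Agent.StripNear.h0 ≤ t) (h1' : t ≤ 1 / 2 * Pool.Agent.StripNear.h0) (h2 : 1 / 2 * Pool.Agent.StripNear.h0 ≤ T) (h2' : T ≤ 1 * Pool.Agent.StripNear.h0) (h3 : 1 / 2 * Pool.Agent.StripNear.h0 ≤ T - t) (h3' : T - t ≤ 1 * Pool.Agent.StripNear.h0) (h6 : t ≤ T) (ho : 0 ≤ exf_v (c1f_v t) (-(c1f_v T)) t T + 1 / 2) (hq1 : 1 ≤ q3f_v (-(c1f_v T) - c1f_v t) (T - t)) (hq3 : q3f_v (-(c1f_v T) - c1f_v t) (T - t) ≤ 3) (hw1 : 0 ≤ 1 / 16 - (T - (Pool.Agent.StripNear.h0 * c1f_v t - t / 2))) (hw2 : 0 ≤ 1 / 16 + (T - (Pool.Agent.StripNear.h0 * c1f_v t - t / 2))) :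
    0 ≤ sl011_v (exf_v (c1f_v t) (-(c1f_v T)) t T) t (T - t) T (a1q0_v t) (rq1_v (-(c1f_v T) - c1f_v t) (T - t)) (-(a1q1_v T)) := by
  have hq1q := hq1
  have hq3q := hq3
  simp only [q3f_v, q3f_v2, q3f_v3, q3f_v4] at hq1q hq3q
  have hp := h0_pos
  have g1 := h0_lo
  have g2 := h0_hi
  have gg := RegF.h2
  have s1 : c1f_v t ^ 2 + t ^ 2 = 1 := c1f_sq (sq_le_one (by linarith) (by linarith))
  have s2 : c1f_v T ^ 2 + T ^ 2 = 1 := c1f_sq (sq_le_one (by linarith) (by linarith))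
  have n1 := c1f_nn t
  have n2 := c1f_nn T
  have hm : Mem S b0 t T := mem0 (by linarith) (by linarith) (by linarith) (by linarith)
  have hP : Q t T := all t T hm
  have fc : v7 t T = c1f_v t := by
    rfl
  have fs : v28 t T = c1f_v T := by
    rfl
  have fW : v25 t T = (T - (Pool.Agent.StripNear.h0 * c1f_v t - t / 2)) := by
    simp only [v0, v1, v3, v10, v12, v24, v25, fc, fs, v2, s3n]
    (try push_cast)
    first | ring1 | (clear hP hm; grind)
  have fe : v127 t T = exf_v (c1f_v t) (-(c1f_v T)) t T := by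
    simp only [v0, v1, v9, v121, v122, v124, v125, v126, v127, fc, fs, fW, v2, s3n, exf_v, exf_v4, exf_v5, exf_v6, exf_v7, exf_v8, exf_v9, exf_v10, exf_v11]
    (try push_cast)
    (try ring)
  have fd : v55 t T = 3 - q3f_v (-(c1f_v T) - c1f_v t) (T - t) := by
    simp only [v0, v1, v30, v31, v32, v51, v52, v53, v54, v55, fc, fs, fW, fe, v2, s3n, q3f_v, q3f_v2, q3f_v3, q3f_v4]
    (try push_cast)
    (try ring)
  unfold Q P1 at hP
  rcases hP with (h | h | h | h | h | h | h | h | h | h) | hP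
  · exfalso
    simp only [v0, v178, v180, fc, fs, fW, fe, fd, v2, s3n] at h
    (try push_cast at h)
    linarith
  · exfalso
    simp only [v0, v1, v32, v178, v182, fc, fs, fW, fe, fd, v2, s3n] at h
    (try push_cast at h)
    linarith
  · exfalso
    simp only [v0, v1, v3, v32, v137, fc, fs, fW, fe, fd, v2, s3n] at h
    (try push_cast at h)
    linarith
  · exfalso
    simp only [v1, v178, v184, fc, fs, fW, fe, fd, v2, s3n] at h
    (try push_cast at h)
    linarith
  · exfalso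
    simp only [v1, v3, v138, fc, fs, fW, fe, fd, v2, s3n] at h
    (try push_cast at h)
    linarith
  · exfalso
    have e : v186 t T = v25 t T - 1 / 16 := by
      simp only [v0, v1, v12, v24, v25, v185, v186]
      (try push_cast)
      (try ring)
    rw [e, fW] at h
    linarith
  · exfalso
    have e : v188 t T = -v25 t T - 1 / 16 := by
      simp only [v0, v1, v12, v24, v25, v185, v187, v188]
      (try push_cast)
      (try ring)
    rw [e, fW] at h
    linarith
  · exfalso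
    simp only [v0, v1, v189, fc, fs, fW, fe, fd, v2, s3n] at h
    (try push_cast at h)
    linarith
  · exfalso
    have e : v190 t T = -v55 t T := by
      simp only [v52, v53, v55, v190]
      (try push_cast)
      (try ring)
    rw [e, fd] at h
    linarith
  · exfalso
    have e : v192 t T = -(v127 t T + 1 / 2) := by
      simp only [v9, v127, v191, v192]
      (try push_cast)
      (try ring)
    rw [e, fe] at h
    linarith
  unfold P0 at hP
  obtain ⟨hδ, p27, p61, p78, p89, p84, p98, p108, p110, p47, p153, p37, hQ⟩ := hP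
  have c : Cx t T := ⟨by rw [fc]; linarith [s1], p27, p61, p78, p89, p84, p98, p108, p110, p47, p153, p37⟩
  have hd0 : 0 ≤ v55 t T := by rw [fd]; linarith
  have hW : 0 ≤ v25 t T := w_nonneg (sD c) hd0 hδ
  have hWQ : 0 ≤ v25 t T * v177 t T := by
    rcases hQ with h | h
    · exfalso
      simp only [v25, v187] at h hW
      linarith
    · exact mul_nonneg hW h.le
  have r1 : v39 t T = (a1q0_v t) := by
    simp only [v0, v5, v33, v34, v35, v36, v37, v38, v39, fc, fs, fW, fe, fd, v2, s3n, a1q0_v, a1q0_v1, a1q0_v2, a1q0_v3, a1q0_v4, a1q0_v5, a1q0_v6, a1q0_v7, a1q0_v8, a1q0_v9, a1q0_v10]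
    (try push_cast)
    (try ring)
  have r2 : v50 t T = (-(a1q1_v T)) := by
    simp only [v1, v5, v40, v41, v42, v43, v44, v45, v46, v47, v48, v49, v50, fc, fs, fW, fe, fd, r1, v2, s3n, a1q1_v, a1q1_v1, a1q1_v2, a1q1_v3, a1q1_v4, a1q1_v5, a1q1_v6, a1q1_v7, a1q1_v8, a1q1_v9, a1q1_v10, a1q1_v11, a1q1_v12, a1q1_v13]
    (try push_cast)
    (try ring)
  have fx : v77 t T = (-(-(c1f_v T) - c1f_v t)) := by
    simp only [v77, fc, fs, fW, fe, fd, r1, r2, v2, s3n]
    (try push_cast)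
    (try ring)
  have ft : v32 t T = (T - t) := by
    simp only [v0, v1, v32, fc, fs, fW, fe, fd, r1, r2, fx, v2, s3n]
    (try push_cast)
    (try ring)
  have fcc : v79 t T = c3f_v (T - t) := by
    rw [v79, v78]
    simp only [v52, v54, ft, fc, fs, fW, fe, fd, r1, r2, fx]
    rfl
  have hs : 0 < (-(-(c1f_v T) - c1f_v t)) + c3f_v (T - t) := by
    have h := p108
    simp only [v108, fc, fs, fW, fe, fd, r1, r2, fx, ft, fcc, v2, s3n] at h
    linarith
  have nn := c3f_nn (T - t)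
  have u1 : c3f_v (T - t) ^ 2 + (T - t) ^ 2 = 3 := by
    have h := p78
    simp only [v52, v54, v78, fc, fs, fW, fe, fd, r1, r2, fx, ft, fcc, v2, s3n] at h
    push_cast at h
    exact c3f_sq (by linarith)
  have u2 : (-(-(c1f_v T) - c1f_v t)) ^ 2 + (T - t) ^ 2 ≤ 3 := by
    have h := hq3
    simp only [q3f_v, q3f_v2, q3f_v3, q3f_v4] at h
    linarith
  have u3 : (-(-(c1f_v T) - c1f_v t)) ≤ c3f_v (T - t) := le_c3f u2
  have u4 : f1m_v (T - t) ≤ (-(-(c1f_v T) - c1f_v t)) := by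
    have h := p110
    simp only [v109, v110, fc, fs, fW, fe, fd, r1, r2, fx, ft, fcc, v2, s3n] at h
    linarith
  have hr := RegF.rq1_high (T := (T - t)) (X := (-(-(c1f_v T) - c1f_v t))) (by linarith) (by linarith) u4 u3
  have u8 := RegF.f1m_pos (T := (T - t)) (by linarith) (by linarith)
  have u7 : 0 < (-(-(c1f_v T) - c1f_v t)) := by linarith
  have hn := rq1_neg (T := (T - t)) u7
  rw [neg_neg] at hn
  have r3 : v114 t T = rq1_v (-(c1f_v T) - c1f_v t) (T - t) := by
    rw [hn, hr]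
    simp only [v3, v81, v82, v83, v84, v85, v86, v107, v111, v112, v114, fc, fs, fW, fe, fd, r1, r2, fx, ft, fcc, v2, s3n, a3q1_v, a3q1_v1, a3q1_v2, a3q1_v3, a3q1_v4, a3q1_v5, a3q1_v6, a3q1_v7, a3q1_v8, a3q1_v9, q3f_v, q3f_v2, q3f_v3, q3f_v4]
    (try push_cast)
    (try simp only [hs3])
    (try ring)
  have l1 : (-v138 t T) = (Pool.Agent.StripNear.h0 - T) := by
    simp only [v1, v3, v138, fc, fs, fW, fe, fd, r1, r2, fx, ft, fcc, r3, v2, s3n]
    (try push_cast)
    (try ring)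
  have l2 : v0 t T = t := by
    simp only [v0, fc, fs, fW, fe, fd, r1, r2, fx, ft, fcc, r3, v2, s3n]
    (try push_cast)
    (try ring)
  have k := core c hW hWQ (by rw [l1]; linarith) (by rw [l2]; linarith) (by rw [l1, l2]; linarith)
  rw [sl011_eq]
  rw [fe, l1, l2, r1, r2, r3] at k
  exact k

end Pool.Agent.Strip051.LB.ChB00V2_pm_011
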