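import Pool.Agent.Strip051.LB.ChB03V1_mm_203.Sl
import Pool.Agent.Strip051.LB.ChB03V1_mm_203.All

/-! # LINE tight chart ChB03V1_mm_203 -/

namespace Pool.Agent.Strip051.LB.ChB03V1_mm_203

open Pool.Agent.Strip051.LB Pool.Agent.Strip051.LB.Fn Pool.Agent.Strip051.LB.Fc Pool.Agent.StripNear Pool.Agent.Strip051.Box Pool.Agent.Strip051.Box2

set_option maxRecDepth 100000
set_option linter.all false

theorem mem0 {x1 x2 : ℝ} (h1 : -(1 / 2) ≤ x1) (h2 : x1 ≤ 0) (h3 : -(11457 / 10000) ≤ x2) (h4 : x2 ≤ 0) : Mem S b0 x1 x2 := by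
  unfold Mem b0
  refine ⟨abs_le.mpr ⟨?_, ?_⟩, abs_le.mpr ⟨?_, ?_⟩⟩ <;> norm_num [S] <;> linarith

theorem tight203 {t T : ℝ} (h1 : 1 * Pool.Agent.StripNear.h0 ≤ t) (h1' : t ≤ 3 / 2 * Pool.Agent.StripNear.h0) (h2 : 3 / 2 * Pool.Agent.StripNear.h0 ≤ T) (h2' : T ≤ 2 * Pool.Agent.StripNear.h0) (h3 : 0 * Pool.Agent.StripNear.h0 ≤ T - t) (h3' : T - t ≤ 1 / 2 * Pool.Agent.StripNear.h0) (h4 : t ≤ 1) (h6 : t ≤ T) (ho : 0 ≤ exf_v (-(c1f_v t)) (-(c3f_v T)) t T + 1 / 2) (hq1 : 1 ≤ q3f_v (-(c3f_v T) - -(c1f_v t)) (T - t)) (hq3 : q3f_v (-(c3f_v T) - -(c1f_v t)) (T - t) ≤ 3) (hw1 : 0 ≤ 1 / 16 - ((3 / 2 * -(c1f_v t) - Pool.Agent.StripNear.h0 * t) - -(c3f_v T))) (hw2 : 0 ≤ 1 / 16 + ((3 / 2 * -(c1f_v t) - Pool.Agent.StripNear.h0 * t) - -(c3f_v T))) :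
    0 ≤ sl203_v (exf_v (-(c1f_v t)) (-(c3f_v T)) t T) t (T - t) T (-(c1f_v t)) (rq0_v (-(c3f_v T) - -(c1f_v t)) (T - t)) (-(a3q3_v T)) := by
  have hq1q := hq1
  have hq3q := hq3
  simp only [q3f_v, q3f_v2, q3f_v3, q3f_v4] at hq1q hq3q
  have hp := h0_pos
  have g1 := h0_lo
  have g2 := h0_hi
  have gg := RegF.h2
  have s1 : c1f_v t ^ 2 + t ^ 2 = 1 := c1f_sq (sq_le_one (by linarith) (by linarith))
  have s2 : c3f_v T ^ 2 + T ^ 2 = 3 := c3f_sq (sq_le_three (by linarith) (by linarith))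
  have n1 := c1f_nn t
  have n2 := c3f_nn T
  have m1 : c1f_v t ≤ 1 / 2 := c1f_ub (k := 1) (by linarith) (by norm_num) (by norm_num) (by norm_num)
  have m2 : c3f_v T ≤ 11457 / 10000 := c3f_ub (k := 3 / 2) (by linarith) (by norm_num) (by norm_num) (by norm_num)
  have hm : Mem S b0 (-(c1f_v t)) (-(c3f_v T)) := mem0 (by linarith) (by linarith) (by linarith) (by linarith)
  have hP : Q (-(c1f_v t)) (-(c3f_v T)) := all (-(c1f_v t)) (-(c3f_v T)) hm
  have fc : v7 (-(c1f_v t)) (-(c3f_v T)) = t := by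
    rw [v7]; refine sqrt_of_sq (by linarith) ?_
    simp only [v0, v4, v5, v6]
    push_cast
    linarith [s1]
  have fs : v24 (-(c1f_v t)) (-(c3f_v T)) = T := by
    rw [v24]; refine sqrt_of_sq (by linarith) ?_
    simp only [v1, v21, v22, v23]
    push_cast
    linarith [s2]
  have fW : v27 (-(c1f_v t)) (-(c3f_v T)) = ((3 / 2 * -(c1f_v t) - Pool.Agent.StripNear.h0 * t) - -(c3f_v T)) := by
    simp only [v0, v1, v3, v13, v14, v16, v18, v27, fc, fs, v2, s3n]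
    (try push_cast)
    first | ring1 | (clear hP hm; grind)
  have fe : v122 (-(c1f_v t)) (-(c3f_v T)) = exf_v (-(c1f_v t)) (-(c3f_v T)) t T := by
    simp only [v0, v1, v9, v117, v118, v119, v120, v121, v122, fc, fs, fW, v2, s3n, exf_v, exf_v4, exf_v5, exf_v6, exf_v7, exf_v8, exf_v9, exf_v10, exf_v11]
    (try push_cast)
    (try ring)
  have fd : v45 (-(c1f_v t)) (-(c3f_v T)) = q3f_v (-(c3f_v T) - -(c1f_v t)) (T - t) - 1 := by
    simp only [v0, v1, v5, v25, v26, v42, v43, v44, v45, fc, fs, fW, fe, v2, s3n, q3f_v, q3f_v2, q3f_v3, q3f_v4]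
    (try push_cast)
    (try ring)
  unfold Q P1 at hP
  rcases hP with (h | h | h | h | h | h | h | h | h) | hP
  · exfalso
    simp only [v3, v188, fc, fs, fW, fe, fd, v2, s3n] at h
    (try push_cast at h)
    linarith
  · exfalso
    simp only [v189, v191, fc, fs, fW, fe, fd, v2, s3n] at h
    (try push_cast at h)
    linarith
  · exfalso
    simp only [v26, v192, v194, fc, fs, fW, fe, fd, v2, s3n] at h
    (try push_cast at h)
    linarith
  · exfalso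
    simp only [v189, v196, fc, fs, fW, fe, fd, v2, s3n] at h
    (try push_cast at h)
    linarith
  · exfalso
    have e : v198 (-(c1f_v t)) (-(c3f_v T)) = v27 (-(c1f_v t)) (-(c3f_v T)) - 1 / 16 := by
      simp only [v1, v27, v197, v198]
      (try push_cast)
      (try ring)
    rw [e, fW] at h
    linarith
  · exfalso
    have e : v199 (-(c1f_v t)) (-(c3f_v T)) = -v27 (-(c1f_v t)) (-(c3f_v T)) - 1 / 16 := by
      simp only [v1, v20, v27, v197, v199]
      (try push_cast)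
      (try ring)
    rw [e, fW] at h
    linarith
  · exfalso
    simp only [v200, fc, fs, fW, fe, fd, v2, s3n] at h
    (try push_cast at h)
    linarith
  · exfalso
    have e : v201 (-(c1f_v t)) (-(c3f_v T)) = -v45 (-(c1f_v t)) (-(c3f_v T)) := by
      simp only [v5, v44, v45, v201]
      (try push_cast)
      (try ring)
    rw [e, fd] at h
    linarith
  · exfalso
    have e : v203 (-(c1f_v t)) (-(c3f_v T)) = -(v122 (-(c1f_v t)) (-(c3f_v T)) + 1 / 2) := by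
      simp only [v9, v122, v202, v203]
      (try push_cast)
      (try ring)
    rw [e, fe] at h
    linarith
  unfold P0 at hP
  obtain ⟨hδ, p23, p56, p67, p79, p74, p93, p104, p106, p38, p163, hQ⟩ := hP
  have c : Cx (-(c1f_v t)) (-(c3f_v T)) := ⟨by rw [fc]; linarith [s1], p23, p56, p67, p79, p74, p93, p104, p106, p38, p163⟩
  have hd0 : 0 ≤ v45 (-(c1f_v t)) (-(c3f_v T)) := by rw [fd]; linarith
  have hW : 0 ≤ v27 (-(c1f_v t)) (-(c3f_v T)) := w_nonneg (sD c) hd0 hδ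
  have hWQ : 0 ≤ v27 (-(c1f_v t)) (-(c3f_v T)) * v187 (-(c1f_v t)) (-(c3f_v T)) := by
    rcases hQ with h | h
    · exfalso
      simp only [v20, v27] at h hW
      linarith
    · exact mul_nonneg hW h.le
  have r1 : v0 (-(c1f_v t)) (-(c3f_v T)) = (-(c1f_v t)) := by
    first | rfl | (simp only [v0, fc, fs, fW, fe, fd, v2, s3n]; done) | (simp only [v0, fc, fs, fW, fe, fd, v2, s3n]; ring)
  have r2 : v40 (-(c1f_v t)) (-(c3f_v T)) = (-(a3q3_v T)) := by
    simp only [v1, v3, v22, v30, v31, v32, v33, v34, v35, v36, v37, v38, v39, v40, fc, fs, fW, fe, fd, r1, v2, s3n, a3q3_v, a3q3_v1, a3q3_v2, a3q3_v3, a3q3_v4, a3q3_v5, a3q3_v6, a3q3_v7, a3q3_v8, a3q3_v9, a3q3_v10, a3q3_v11, a3q3_v12, a3q3_v13, a3q3_v14, a3q3_v15]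
    (try push_cast)
    (try ring)
  have fx : v66 (-(c1f_v t)) (-(c3f_v T)) = (-(-(c3f_v T) - -(c1f_v t))) := by
    simp only [v1, v66, fc, fs, fW, fe, fd, r1, r2, v2, s3n]
    (try push_cast)
    (try ring)
  have ft : v26 (-(c1f_v t)) (-(c3f_v T)) = (T - t) := by
    simp only [v26, fc, fs, fW, fe, fd, r1, r2, fx, v2, s3n]
    (try push_cast)
    (try ring)
  have fcc : v68 (-(c1f_v t)) (-(c3f_v T)) = c1f_v (T - t) := by
    rw [v68, v67]
    simp only [v5, v43, ft, fc, fs, fW, fe, fd, r1, r2, fx]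
    rfl
  have hs : 0 < (-(-(c3f_v T) - -(c1f_v t))) + c1f_v (T - t) := by
    have h := p104
    simp only [v104, fc, fs, fW, fe, fd, r1, r2, fx, ft, fcc, v2, s3n] at h
    linarith
  have nn := c1f_nn (T - t)
  have u1 : c1f_v (T - t) ^ 2 + (T - t) ^ 2 = 1 := by
    have h := p67
    simp only [v5, v43, v67, fc, fs, fW, fe, fd, r1, r2, fx, ft, fcc, v2, s3n] at h
    push_cast at h
    exact c1f_sq (by linarith)
  have u2 : 1 ≤ (-(-(c3f_v T) - -(c1f_v t))) ^ 2 + (T - t) ^ 2 := by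
    have h := hq1
    simp only [q3f_v, q3f_v2, q3f_v3, q3f_v4] at h
    linarith
  have u3 : c1f_v (T - t) ≤ (-(-(c3f_v T) - -(c1f_v t))) := c_le u1 u2 hs
  have u4 : (-(-(c3f_v T) - -(c1f_v t))) ≤ f2m_v (T - t) := by
    have h := p106
    simp only [v105, v106, fc, fs, fW, fe, fd, r1, r2, fx, ft, fcc, v2, s3n] at h
    linarith
  have hr := RegF.rq0_low (T := (T - t)) (X := (-(-(c3f_v T) - -(c1f_v t)))) (by linarith) (by linarith) u3 u4
  have u7 : 0 < (-(-(c3f_v T) - -(c1f_v t))) := by linarith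
  have hn := rq0_neg (T := (T - t)) u7
  rw [neg_neg] at hn
  have r3 : v110 (-(c1f_v t)) (-(c3f_v T)) = rq0_v (-(c3f_v T) - -(c1f_v t)) (T - t) := by
    rw [hn, hr]
    simp only [v5, v70, v71, v72, v73, v74, v75, v76, v103, v107, v108, v109, v110, fc, fs, fW, fe, fd, r1, r2, fx, ft, fcc, v2, s3n, a1q0_v, a1q0_v1, a1q0_v2, a1q0_v3, a1q0_v4, a1q0_v5, a1q0_v6, a1q0_v7, a1q0_v8, a1q0_v9, a1q0_v10, q3f_v, q3f_v2, q3f_v3, q3f_v4]
    (try push_cast)
    (try simp only [hs3])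
    (try ring)
  have l1 : v132 (-(c1f_v t)) (-(c3f_v T)) = (t - Pool.Agent.StripNear.h0) := by
    simp only [v3, v132, fc, fs, fW, fe, fd, r1, r2, fx, ft, fcc, r3, v2, s3n]
    (try push_cast)
    (try ring)
  have l2 : v26 (-(c1f_v t)) (-(c3f_v T)) = (T - t) := by
    simp only [fc, fs, fW, fe, fd, r1, r2, fx, ft, fcc, r3, v2, s3n]
    (try push_cast)
    (try ring)
  have l3 : (-v133 (-(c1f_v t)) (-(c3f_v T))) = (2 * Pool.Agent.StripNear.h0 - T) := by
    simp only [v133, fc, fs, fW, fe, fd, r1, r2, fx, ft, fcc, r3, v2, s3n]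
    (try push_cast)
    (try ring)
  have k := core c hW hWQ
  rw [sl203_eq]
  rw [fe, l1, l2, l3, r1, r2, r3] at k
  exact k

end Pool.Agent.Strip051.LB.ChB03V1_mm_203
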