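import Pool.Agent.Strip051.LB.ChB03V1_pp_022.Sl
import Pool.Agent.Strip051.LB.ChB03V1_pp_022.All

/-! # LINE tight chart ChB03V1_pp_022 -/

namespace Pool.Agent.Strip051.LB.ChB03V1_pp_022

open Pool.Agent.Strip051.LB Pool.Agent.Strip051.LB.Fn Pool.Agent.Strip051.LB.Fc Pool.Agent.StripNear Pool.Agent.Strip051.Box Pool.Agent.Strip051.Box2

set_option maxRecDepth 100000
set_option linter.all false

theorem mem0 {x1 x2 : ℝ} (h1 : 0 ≤ x1) (h2 : x1 ≤ 4330127019 / 10000000000) (h3 : 0 ≤ x2) (h4 : x2 ≤ 3 / 2) : Mem S b0 x1 x2 := by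
  unfold Mem b0
  refine ⟨abs_le.mpr ⟨?_, ?_⟩, abs_le.mpr ⟨?_, ?_⟩⟩ <;> norm_num [S] <;> linarith

theorem tight022 {t T : ℝ} (h1 : 0 * Pool.Agent.StripNear.h0 ≤ t) (h1' : t ≤ 1 / 2 * Pool.Agent.StripNear.h0) (h2 : 1 * Pool.Agent.StripNear.h0 ≤ T) (h2' : T ≤ 3 / 2 * Pool.Agent.StripNear.h0) (h3 : 1 * Pool.Agent.StripNear.h0 ≤ T - t) (h3' : T - t ≤ 3 / 2 * Pool.Agent.StripNear.h0) (h6 : t ≤ T) (ho : 0 ≤ exf_v (c1f_v t) (c3f_v T) t T + 1 / 2) (hq1 : 1 ≤ q3f_v (c3f_v T - c1f_v t) (T - t)) (hq3 : q3f_v (c3f_v T - c1f_v t) (T - t) ≤ 3) (hw1 : 0 ≤ 1 / 16 - ((3 / 2 * c1f_v t - Pool.Agent.StripNear.h0 * t) - c3f_v T)) (hw2 : 0 ≤ 1 / 16 + ((3 / 2 * c1f_v t - Pool.Agent.StripNear.h0 * t) - c3f_v T)) :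
    0 ≤ sl022_v (exf_v (c1f_v t) (c3f_v T) t T) t (T - t) T (a1q0_v t) (rq2_v (c3f_v T - c1f_v t) (T - t)) (a3q2_v T) := by
  have hq1q := hq1
  have hq3q := hq3
  simp only [q3f_v, q3f_v2, q3f_v3, q3f_v4] at hq1q hq3q
  have hp := h0_pos
  have g1 := h0_lo
  have g2 := h0_hi
  have gg := RegF.h2
  have s1 : c1f_v t ^ 2 + t ^ 2 = 1 := c1f_sq (sq_le_one (by linarith) (by linarith))
  have s2 : c3f_v T ^ 2 + T ^ 2 = 3 := c3f_sq (sq_le_three (by linarith) (by linarith))
  have n1 := c1f_nn t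
  have n2 := c3f_nn T
  have m2 : c3f_v T ≤ 3 / 2 := c3f_ub (k := 1) (by linarith) (by norm_num) (by norm_num) (by norm_num)
  have hm : Mem S b0 t (c3f_v T) := mem0 (by linarith) (by linarith) (by linarith) (by linarith)
  have hP : Q t (c3f_v T) := all t (c3f_v T) hm
  have fc : v7 t (c3f_v T) = c1f_v t := by
    rfl
  have fs : v24 t (c3f_v T) = T := by
    rw [v24]; refine sqrt_of_sq (by linarith) ?_
    simp only [v1, v21, v22, v23]
    push_cast
    linarith [s2]
  have fW : v27 t (c3f_v T) = ((3 / 2 * c1f_v t - Pool.Agent.StripNear.h0 * t) - c3f_v T) := by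
    simp only [v0, v1, v3, v13, v14, v16, v18, v27, fc, fs, v2, s3n]
    (try push_cast)
    first | ring1 | (clear hP hm; grind)
  have fe : v82 t (c3f_v T) = exf_v (c1f_v t) (c3f_v T) t T := by
    simp only [v0, v1, v9, v77, v78, v79, v80, v81, v82, fc, fs, fW, v2, s3n, exf_v, exf_v4, exf_v5, exf_v6, exf_v7, exf_v8, exf_v9, exf_v10, exf_v11]
    (try push_cast)
    (try ring)
  have fd : v48 t (c3f_v T) = q3f_v (c3f_v T - c1f_v t) (T - t) - 1 := by
    simp only [v0, v1, v5, v25, v26, v45, v46, v47, v48, fc, fs, fW, fe, v2, s3n, q3f_v, q3f_v2, q3f_v3, q3f_v4]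
    (try push_cast)
    (try ring)
  unfold Q P1 at hP
  rcases hP with (h | h | h | h | h | h | h | h | h | h) | hP
  · exfalso
    simp only [v0, v132, v134, fc, fs, fW, fe, fd, v2, s3n] at h
    (try push_cast at h)
    linarith
  · exfalso
    simp only [v0, v3, v26, v129, fc, fs, fW, fe, fd, v2, s3n] at h
    (try push_cast at h)
    linarith
  · exfalso
    simp only [v0, v26, v135, v137, fc, fs, fW, fe, fd, v2, s3n] at h
    (try push_cast at h)
    linarith
  · exfalso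
    simp only [v3, v130, fc, fs, fW, fe, fd, v2, s3n] at h
    (try push_cast at h)
    linarith
  · exfalso
    simp only [v135, v139, fc, fs, fW, fe, fd, v2, s3n] at h
    (try push_cast at h)
    linarith
  · exfalso
    have e : v141 t (c3f_v T) = v27 t (c3f_v T) - 1 / 16 := by
      simp only [v1, v27, v140, v141]
      (try push_cast)
      (try ring)
    rw [e, fW] at h
    linarith
  · exfalso
    have e : v142 t (c3f_v T) = -v27 t (c3f_v T) - 1 / 16 := by
      simp only [v1, v20, v27, v140, v142]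
      (try push_cast)
      (try ring)
    rw [e, fW] at h
    linarith
  · exfalso
    simp only [v0, v143, fc, fs, fW, fe, fd, v2, s3n] at h
    (try push_cast at h)
    linarith
  · exfalso
    have e : v144 t (c3f_v T) = -v48 t (c3f_v T) := by
      simp only [v5, v47, v48, v144]
      (try push_cast)
      (try ring)
    rw [e, fd] at h
    linarith
  · exfalso
    have e : v146 t (c3f_v T) = -(v82 t (c3f_v T) + 1 / 2) := by
      simp only [v9, v82, v145, v146]
      (try push_cast)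
      (try ring)
    rw [e, fe] at h
    linarith
  unfold P0 at hP
  obtain ⟨hδ, p23, p59, p71, p72, p42, p109, p32, hQ⟩ := hP
  have c : Cx t (c3f_v T) := ⟨by rw [fc]; linarith [s1], p23, p59, p71, p72, p42, p109, p32⟩
  have hd0 : 0 ≤ v48 t (c3f_v T) := by rw [fd]; linarith
  have hW : 0 ≤ v27 t (c3f_v T) := w_nonneg (sD c) hd0 hδ
  have hWQ : 0 ≤ v27 t (c3f_v T) * v131 t (c3f_v T) := by
    rcases hQ with h | h
    · exfalso
      simp only [v20, v27] at h hW
      linarith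
    · exact mul_nonneg hW h.le
  have r1 : v34 t (c3f_v T) = (a1q0_v t) := by
    simp only [v0, v5, v28, v29, v30, v31, v32, v33, v34, fc, fs, fW, fe, fd, v2, s3n, a1q0_v, a1q0_v1, a1q0_v2, a1q0_v3, a1q0_v4, a1q0_v5, a1q0_v6, a1q0_v7, a1q0_v8, a1q0_v9, a1q0_v10]
    (try push_cast)
    (try ring)
  have r2 : v44 t (c3f_v T) = (a3q2_v T) := by
    simp only [v1, v22, v35, v36, v37, v38, v39, v40, v41, v42, v43, v44, fc, fs, fW, fe, fd, r1, v2, s3n, a3q2_v, a3q2_v1, a3q2_v2, a3q2_v4, a3q2_v5, a3q2_v6, a3q2_v7, a3q2_v8, a3q2_v9, a3q2_v10, a3q2_v11, a3q2_v12, a3q2_v13, a3q2_v14]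
    (try push_cast)
    (try ring)
  have fx : v25 t (c3f_v T) = (c3f_v T - c1f_v t) := by
    simp only [v1, v25, fc, fs, fW, fe, fd, r1, r2, v2, s3n]
    (try push_cast)
    (try ring)
  have ft : v26 t (c3f_v T) = (T - t) := by
    simp only [v0, v26, fc, fs, fW, fe, fd, r1, r2, fx, v2, s3n]
    (try push_cast)
    (try ring)
  have u2 : 1 ≤ (c3f_v T - c1f_v t) ^ 2 + (T - t) ^ 2 := by
    have h := hq1
    simp only [q3f_v, q3f_v2, q3f_v3, q3f_v4] at h
    linarith
  have u4 : |(c3f_v T - c1f_v t)| ≤ f2p_v (T - t) := by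
    have h := p71
    have h' := p72
    simp only [v70, v71, v72, fc, fs, fW, fe, fd, r1, r2, fx, ft, v2, s3n] at h h'
    rw [abs_le]
    constructor <;> linarith
  have hr := RegF.rq2_low (T := (T - t)) (X := (c3f_v T - c1f_v t)) (by linarith) (by linarith) u2 u4
  have r3 : v74 t (c3f_v T) = rq2_v (c3f_v T - c1f_v t) (T - t) := by
    rw [hr]
    simp only [v69, v73, v74, fc, fs, fW, fe, fd, r1, r2, fx, ft, v2, s3n, q3f_v, q3f_v2, q3f_v3, q3f_v4]
    (try push_cast)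
    (try simp only [hs3])
    (try ring)
  have l1 : v0 t (c3f_v T) = t := by
    simp only [v0, fc, fs, fW, fe, fd, r1, r2, fx, ft, r3, v2, s3n]
    (try push_cast)
    (try ring)
  have l2 : v92 t (c3f_v T) = ((T - t) - Pool.Agent.StripNear.h0) := by
    simp only [v3, v92, fc, fs, fW, fe, fd, r1, r2, fx, ft, r3, v2, s3n]
    (try push_cast)
    (try ring)
  have k := core c hW hWQ (by rw [l1]; linarith) (by rw [l2]; linarith) (by rw [l1, l2]; linarith)
  rw [sl022_eq]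
  rw [fe, l1, l2, r1, r2, r3] at k
  exact k

end Pool.Agent.Strip051.LB.ChB03V1_pp_022
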