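import Pool.Agent.Strip051.LB.Star

/-! # Mirror images -/

namespace Pool.Agent.Strip051.LB

open Pool.Agent.StripNear Pool.Agent.Strip051.LB.Fn Pool.Agent.Strip051.LB.Fc
  Pool.Agent.Strip051.LC.Line

/-- The slack without wrapping, reversed. -/
theorem starn_rev {ex l1 l2 A1 A2 A3 : ℝ} (h1 : 0 ≤ l1) (h2 : 0 ≤ l2) :
    starn_v ex l1 l2 A1 A2 A3 = starn_v ex l2 l1 (-A2) (-A1) (-A3) := by
  obtain ⟨r, W1, W2, W3, c, er, e1, e2, e3, ec, es⟩ := starn_def ex l1 l2 A1 A2 A3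
  obtain ⟨s, V1, V2, V3, d, fr, f1, f2, f3, fc, fs⟩ := starn_def ex l2 l1 (-A2) (-A1) (-A3)
  have hd : d = c := by rw [fc, ec]
  have g1 : V1 = W3 := by rw [f1, e3]; ring
  have g3 : V3 = W1 := by rw [f3, e1]; ring
  rw [es, fs, g1, g3, hd]
  rcases (add_nonneg h1 h2).eq_or_lt with h | h
  · have z1 : l1 = 0 := by linarith
    have z2 : l2 = 0 := by linarith
    subst z1
    subst z2
    rw [phi_comm (W3 + c) (W1 + c)]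
    ring
  · have hs : s = 1 - r := by
      have k1 : l1 * (l1 + l2)⁻¹ = l1 / (l1 + l2) := by rw [div_eq_mul_inv]
      have k2 : 0 ≤ l1 / (l1 + l2) := div_nonneg h1 h.le
      have k3 : l1 / (l1 + l2) ≤ 1 := by
        rw [div_le_one h]
        linarith
      have k4 : l2 * (l2 + l1)⁻¹ = l2 / (l1 + l2) := by rw [div_eq_mul_inv, add_comm l2 l1]
      have k5 : 0 ≤ l2 / (l1 + l2) := div_nonneg h2 h.le
      have k6 : l2 / (l1 + l2) ≤ 1 := by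
        rw [div_le_one h]
        linarith
      rw [fr, er, k1, k4, max_eq_left k2, min_eq_left k3, max_eq_left k5, min_eq_left k6]
      field_simp
      ring
    have g2 : V2 = W2 := by rw [f2, e2, hs]; ring
    rw [g2, phi_comm (W3 + c) (W2 + c), phi_comm (W2 + c) (W1 + c), phi_comm (W1 + c) (W3 + c)]
    ring

/-- The slack with wrapping, reversed. -/
theorem starw_rev {ex l1 l2 l3 A1 A2 A3 : ℝ} :
    starw_v ex l1 l2 l3 A1 A2 A3 = starw_v ex l2 l1 l3 (-A2) (-A1) (-A3) := by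
  obtain ⟨W1, W2, W3, c, e1, e2, e3, ec, es⟩ := starw_def ex l1 l2 l3 A1 A2 A3
  obtain ⟨V1, V2, V3, d, f1, f2, f3, fc, fs⟩ := starw_def ex l2 l1 l3 (-A2) (-A1) (-A3)
  have hd : d = c := by rw [fc, ec]
  have g1 : V1 = W3 := by rw [f1, e3]; ring
  have g3 : V3 = W1 := by rw [f3, e1]; ring
  have g2 : V2 = W2 := by rw [f2, e2]; ring
  rw [es, fs, g1, g2, g3, hd, phi_comm (W3 + c) (W2 + c), phi_comm (W2 + c) (W1 + c),
    phi_comm (W1 + c) (W3 + c)]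
  ring

theorem half_sq3 : (1 : ℝ) / 2 * √3 = h0 := by
  rw [hs3]
  ring

theorem sl012_def (ex t t2 T R1 R2 R3 : ℝ) :
    sl012_v ex t t2 T R1 R2 R3 = starn_v ex (T - h0) (h0 - t2) R3 (-R2) R1 := by
  simp only [sl012_v, sl012_v14, sl012_v13, sl012_v12, sl012_v11, sl012_v8, sl012_v7]
  push_cast
  rw [half_sq3]

theorem sl102_def (ex t t2 T R1 R2 R3 : ℝ) :
    sl102_v ex t t2 T R1 R2 R3 = starn_v ex (h0 - t) (T - h0) (-R1) R3 R2 := by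
  simp only [sl102_v, sl102_v14, sl102_v13, sl102_v12, sl102_v11, sl102_v8, sl102_v7]
  push_cast
  rw [half_sq3]

theorem sl022_def (ex t t2 T R1 R2 R3 : ℝ) :
    sl022_v ex t t2 T R1 R2 R3 = starn_v ex t (t2 - h0) (-R1) (-R2) (-R3) := by
  simp only [sl022_v, sl022_v15, sl022_v14, sl022_v13, sl022_v12, sl022_v10, sl022_v8, sl022_v7]
  push_cast
  rw [half_sq3]

theorem sl202_def (ex t t2 T R1 R2 R3 : ℝ) :
    sl202_v ex t t2 T R1 R2 R3 = starn_v ex (t - h0) t2 (-R1) (-R2) (-R3) := by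
  simp only [sl202_v, sl202_v15, sl202_v14, sl202_v13, sl202_v12, sl202_v9, sl202_v8, sl202_v7]
  push_cast
  rw [half_sq3]

theorem sl023_def (ex t t2 T R1 R2 R3 : ℝ) :
    sl023_v ex t t2 T R1 R2 R3 = starw_v ex t (t2 - h0) (√3 - T) (-R1) (-R2) R3 := by
  simp only [sl023_v, sl023_v15, sl023_v14, sl023_v13, sl023_v12, sl023_v10, sl023_v8, sl023_v7]
  push_cast
  rw [half_sq3]

theorem sl203_def (ex t t2 T R1 R2 R3 : ℝ) :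
    sl203_v ex t t2 T R1 R2 R3 = starw_v ex (t - h0) t2 (√3 - T) (-R1) (-R2) R3 := by
  simp only [sl203_v, sl203_v15, sl203_v14, sl203_v13, sl203_v12, sl203_v9, sl203_v8, sl203_v7]
  push_cast
  rw [half_sq3]

theorem sl123_def (ex t t2 T R1 R2 R3 : ℝ) :
    sl123_v ex t t2 T R1 R2 R3 = starn_v ex (t2 - h0) (√3 - T) (-R2) R3 R1 := by
  simp only [sl123_v, sl123_v14, sl123_v13, sl123_v12, sl123_v10, sl123_v8, sl123_v7]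
  push_cast
  rw [half_sq3]

theorem sl213_def (ex t t2 T R1 R2 R3 : ℝ) :
    sl213_v ex t t2 T R1 R2 R3 = starn_v ex (√3 - T) (t - h0) R3 (-R1) R2 := by
  simp only [sl213_v, sl213_v14, sl213_v13, sl213_v12, sl213_v9, sl213_v8, sl213_v7]
  push_cast
  rw [half_sq3]

theorem mir102 {ex t t2 T R1 R2 R3 : ℝ} (h1 : t ≤ h0) (h2 : h0 ≤ T) :
    sl102_v ex t t2 T R1 R2 R3 = sl012_v ex t2 t T (-R2) (-R1) (-R3) := by
  rw [sl102_def, sl012_def, starn_rev (by linarith) (by linarith)]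

theorem mir202 {ex t t2 T R1 R2 R3 : ℝ} (h1 : h0 ≤ t) (h2 : 0 ≤ t2) :
    sl202_v ex t t2 T R1 R2 R3 = sl022_v ex t2 t T (-R2) (-R1) (-R3) := by
  rw [sl202_def, sl022_def, starn_rev (by linarith) (by linarith)]

theorem mir203 {ex t t2 T R1 R2 R3 : ℝ} :
    sl203_v ex t t2 T R1 R2 R3 = sl023_v ex t2 t T (-R2) (-R1) (-R3) := by
  rw [sl203_def, sl023_def, starw_rev]

theorem mir213 {ex t t2 T R1 R2 R3 : ℝ} (h1 : h0 ≤ t) (h2 : T ≤ 2 * h0) :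
    sl213_v ex t t2 T R1 R2 R3 = sl123_v ex t2 t T (-R2) (-R1) (-R3) := by
  have h3 := hs3
  rw [sl213_def, sl123_def, starn_rev (by linarith) (by linarith)]

theorem exf_mir (X Y t u : ℝ) : exf_v (-Y) (-X) u t = exf_v X Y t u := by
  simp only [exf_v, exf_v11, exf_v9, exf_v6, exf_v4, exf_v5, exf_v8, exf_v7, exf_v10]
  ring

theorem q3f_mir (X T : ℝ) : q3f_v (-X) T = q3f_v X T := by
  simp only [q3f_v, q3f_v4, q3f_v3, q3f_v2]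
  ring

theorem q3f_def (X T : ℝ) : q3f_v X T = X ^ 2 + T ^ 2 := rfl

theorem f1p_nonneg {T : ℝ} (h : h0 ≤ T) (h' : T ≤ 2 * h0) : 0 ≤ f1p_v T := by
  simp only [f1p_v, f1p_v6, f1p_v5, f1p_v4, f1p_v3, f1p_v2, f1p_v1]
  push_cast
  have h1 : 0 ≤ c1f_v T := by
    simp only [c1f_v, c1f_v4]
    exact Real.sqrt_nonneg _
  have h2 : 1 / 2 ≤ sw_v T := by
    simp only [sw_v, sw_v7, sw_v6, sw_v5, sw_v4, sw_v3, sw_v2, sw_v1]
    push_cast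
    rw [half_sq3]
    apply Real.le_sqrt_of_sq_le
    have h3 : h0 ^ 2 = 3 / 4 := by
      unfold h0
      rw [div_pow, Real.sq_sqrt (by norm_num)]
      norm_num
    nlinarith
  linarith

theorem rrq2_zero {T : ℝ} (h : h0 ≤ T) (h' : T ≤ 2 * h0) (h1 : 1 ≤ T) : rrq2_v 0 T = 0 := by
  have k := f1p_nonneg h h'
  have k1 : rrq2_v15 0 T ≤ 0 := by
    simp only [rrq2_v15, rrq2_v3]
    linarith
  have k2 : rrq2_v28 0 T ≤ 0 := by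
    simp only [rrq2_v28, rrq2_v27]
    push_cast
    linarith
  simp only [rrq2_v, rrq2_v33, rrq2_v31]
  rw [if_pos k1, if_pos k2]
  simp only [rrq2_v30]
  ring

theorem rrq3_zero {T : ℝ} (h : h0 ≤ T) (h' : T ≤ 2 * h0) : rrq3_v 0 T = 0 := by
  have k := f1p_nonneg h h'
  have k1 : rrq3_v15 0 T ≤ 0 := by
    simp only [rrq3_v15, rrq3_v3]
    linarith
  simp only [rrq3_v, rrq3_v24]
  rw [if_pos k1]
  simp only [rrq3_v22]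
  ring

theorem mir_rq2_neg {X T : ℝ} (h : h0 ≤ T) (h' : T ≤ 2 * h0) (h1 : 1 ≤ X ^ 2 + T ^ 2) :
    rq2_v (-X) T = -rq2_v X T := by
  simp only [rq2_v, rq2_v6, rq2_v5, rq2_v4, rq2_v3, rq2_v2, neg_neg]
  rcases lt_trichotomy X 0 with hX | hX | hX
  · rw [if_neg (by linarith), if_pos hX.le, neg_neg]
  · subst hX
    have hp := h0_pos
    have hT : 1 ≤ T := by nlinarith
    rw [neg_zero, if_pos le_rfl, rrq2_zero h h' hT]
    ring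
  · rw [if_pos (by linarith), if_neg (by linarith)]

theorem mir_rq3_neg {X T : ℝ} (h : h0 ≤ T) (h' : T ≤ 2 * h0) :
    rq3_v (-X) T = -rq3_v X T := by
  simp only [rq3_v, rq3_v6, rq3_v5, rq3_v4, rq3_v3, rq3_v2, neg_neg]
  rcases lt_trichotomy X 0 with hX | hX | hX
  · rw [if_neg (by linarith), if_pos hX.le, neg_neg]
  · subst hX
    rw [neg_zero, if_pos le_rfl, rrq3_zero h h']
    ring
  · rw [if_pos (by linarith), if_neg (by linarith)]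

theorem c1f_def (t : ℝ) : c1f_v t = √(1 - t ^ 2) := by
  simp only [c1f_v, c1f_v4, c1f_v3, c1f_v2, c1f_v1]
  push_cast
  rfl

theorem mir_c1f_nn (t : ℝ) : 0 ≤ c1f_v t := by
  rw [c1f_def]
  exact Real.sqrt_nonneg _

/-- The strip of the mirror image is wider. -/
theorem strip_mir {t t2 : ℝ} (h1 : 0 ≤ t2) (h2 : t2 ≤ t) (h3 : t ≤ h0) (_h4 : 0 ≤ t)
    (hs : 0 ≤ 1 / 16 - (t2 - (h0 * c1f_v t - t / 2)))
    (hs' : 0 ≤ 1 / 16 + (t2 - (h0 * c1f_v t - t / 2))) :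
    0 ≤ 1 / 16 - (t - (h0 * c1f_v t2 - t2 / 2)) ∧
      0 ≤ 1 / 16 + (t - (h0 * c1f_v t2 - t2 / 2)) := by
  have hp := h0_pos
  have h00 : h0 ^ 2 = 3 / 4 := by
    unfold h0
    rw [div_pow, Real.sq_sqrt (by norm_num)]
    norm_num
  have hc : c1f_v t ^ 2 = 1 - t ^ 2 := by
    rw [c1f_def, Real.sq_sqrt (by nlinarith)]
  have hC : c1f_v t2 ^ 2 = 1 - t2 ^ 2 := by
    rw [c1f_def, Real.sq_sqrt (by nlinarith)]
  have hc0 := mir_c1f_nn t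
  have hC0 := mir_c1f_nn t2
  have hcp : 0 < c1f_v t := by
    rcases hc0.eq_or_lt with h | h
    · exfalso
      rw [← h] at hc
      nlinarith
    · exact h
  set c := c1f_v t
  set C := c1f_v t2
  have key : ((t2 - (h0 * c - t / 2)) ^ 2 - (t - (h0 * C - t2 / 2)) ^ 2) * (c + C) =
      2 * h0 * (t - t2) * (h0 * (t + t2) - (c + C) / 2) ^ 2 := by
    have hd : (C - c) * (c + C) = (t - t2) * (t + t2) := by
      linear_combination hC - hc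
    have f1 : ((t2 - (h0 * c - t / 2)) ^ 2 - (t - (h0 * C - t2 / 2)) ^ 2) * (c + C) =
        (-(t - t2) / 2 * (c + C) + h0 * ((C - c) * (c + C))) *
          (3 / 2 * (t + t2) - h0 * (c + C)) := by ring
    have f2 : 3 / 2 * (t + t2) = 2 * h0 ^ 2 * (t + t2) := by
      rw [h00]
      ring
    rw [f1, hd, f2]
    ring
  have h5 : 0 ≤ ((t2 - (h0 * c - t / 2)) ^ 2 - (t - (h0 * C - t2 / 2)) ^ 2) := by
    have h6 : 0 ≤ ((t2 - (h0 * c - t / 2)) ^ 2 - (t - (h0 * C - t2 / 2)) ^ 2) * (c + C) := by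
      rw [key]
      have : 0 ≤ t - t2 := by linarith
      positivity
    exact nonneg_of_mul_nonneg_left h6 (by linarith)
  have h7 : (t - (h0 * C - t2 / 2)) ^ 2 ≤ (1 / 16) ^ 2 := by
    have : (t2 - (h0 * c - t / 2)) ^ 2 ≤ (1 / 16) ^ 2 := by nlinarith
    linarith
  have h8 := abs_le_of_sq_le_sq' h7 (by norm_num)
  exact ⟨by linarith [h8.2], by linarith [h8.1]⟩

/-- The strip is empty when the first height is at most a quarter of the distance and the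
other edge points the other way. -/
theorem strip_empty {t X : ℝ} (h1 : 0 ≤ t) (h2 : t ≤ 1 / 2 * h0) (hX : X ≤ 0) :
    ¬ 0 ≤ 1 / 16 - ((c1f_v t / 2 - h0 * t) - X) := by
  intro h
  have hp := h0_pos
  have h00 : h0 ^ 2 = 3 / 4 := by
    unfold h0
    rw [div_pow, Real.sq_sqrt (by norm_num)]
    norm_num
  have hc : c1f_v t ^ 2 = 1 - t ^ 2 := by
    rw [c1f_def, Real.sq_sqrt (by nlinarith)]
  have hc0 := mir_c1f_nn t
  have h3 : h0 * t ≤ 3 / 8 := by nlinarith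
  have h4 : 9 / 10 ≤ c1f_v t := by
    have : t ^ 2 ≤ 3 / 16 := by nlinarith
    nlinarith
  linarith

/-- Mirror image of the strip of 123 (signs + and -). -/
theorem mir213_pm
    (H : ∀ t t2 : ℝ, 1 / 2 * h0 ≤ t → t ≤ 1 * h0 → 1 * h0 ≤ t2 → t2 ≤ 3 / 2 * h0 → 3 / 2 * h0 ≤ t + t2 → t + t2 ≤ 2 * h0 → t2 ≤ 1 → t + t2 ≤ 2 * h0 → 0 ≤ exf_v (c1f_v t) (-(c1f_v t2)) t t2 + 1 / 2 → 1 ≤ q3f_v (c1f_v t + -(c1f_v t2)) (t + t2) → q3f_v (c1f_v t + -(c1f_v t2)) (t + t2) ≤ 3 → 0 ≤ 1 / 16 - ((c1f_v t / 2 - h0 * t) - -(c1f_v t2)) → 0 ≤ 1 / 16 + ((c1f_v t / 2 - h0 * t) - -(c1f_v t2)) → 0 ≤ sl123_v (exf_v (c1f_v t) (-(c1f_v t2)) t t2) t t2 (t + t2) (a1q1_v t) (-(c1f_v t2)) (rq3_v (c1f_v t + -(c1f_v t2)) (t + t2))) :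
    ∀ t t2 : ℝ, 1 * h0 ≤ t → t ≤ 3 / 2 * h0 → 1 / 2 * h0 ≤ t2 → t2 ≤ 1 * h0 → 3 / 2 * h0 ≤ t + t2 → t + t2 ≤ 2 * h0 → t ≤ 1 → t + t2 ≤ 2 * h0 → 0 ≤ exf_v (c1f_v t) (-(c1f_v t2)) t t2 + 1 / 2 → 1 ≤ q3f_v (c1f_v t + -(c1f_v t2)) (t + t2) → q3f_v (c1f_v t + -(c1f_v t2)) (t + t2) ≤ 3 → 0 ≤ 1 / 16 - ((-(-(c1f_v t2)) / 2 - h0 * t2) + c1f_v t) → 0 ≤ 1 / 16 + ((-(-(c1f_v t2)) / 2 - h0 * t2) + c1f_v t) → 0 ≤ sl213_v (exf_v (c1f_v t) (-(c1f_v t2)) t t2) t t2 (t + t2) (c1f_v t) (-(a1q1_v t2)) (rq3_v (c1f_v t + -(c1f_v t2)) (t + t2)) := by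
  intro t t2 h1 h1' h2 h2' h3 h3' h4 h6 ho hq1 hq3 hs hs'
  have hp := h0_pos
  have e1 : exf_v (c1f_v t2) (-(c1f_v t)) t2 t = exf_v (c1f_v t) (-(c1f_v t2)) t t2 := by
    rw [← exf_mir, neg_neg]
  have e2 : c1f_v t2 + -(c1f_v t) = -(c1f_v t + -(c1f_v t2)) := by ring
  have e3 : t2 + t = t + t2 := add_comm _ _
  have k := H t2 t (by linarith) (by linarith) (by linarith) (by linarith) (by linarith)
    (by linarith) h4 (by linarith) (by rw [e1]; exact ho)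
    (by rw [e2, e3, q3f_mir]; exact hq1) (by rw [e2, e3, q3f_mir]; exact hq3) (by linarith) (by linarith)
  rw [mir213 (by linarith) (by linarith)]
  rw [e1, e2, e3, mir_rq3_neg (by linarith) (by linarith)] at k
  simpa only [neg_neg] using k

/-- Mirror image of the strip of 123 (signs + and +). -/
theorem mir213_mm
    (H : ∀ t t2 : ℝ, 1 / 2 * h0 ≤ t → t ≤ 1 * h0 → 1 * h0 ≤ t2 → t2 ≤ 3 / 2 * h0 → 3 / 2 * h0 ≤ t + t2 → t + t2 ≤ 2 * h0 → t2 ≤ 1 → t + t2 ≤ 2 * h0 → 0 ≤ exf_v (c1f_v t) (c1f_v t2) t t2 + 1 / 2 → 1 ≤ q3f_v (c1f_v t + c1f_v t2) (t + t2) → q3f_v (c1f_v t + c1f_v t2) (t + t2) ≤ 3 → 0 ≤ 1 / 16 - ((c1f_v t / 2 - h0 * t) - c1f_v t2) → 0 ≤ 1 / 16 + ((c1f_v t / 2 - h0 * t) - c1f_v t2) → 0 ≤ sl123_v (exf_v (c1f_v t) (c1f_v t2) t t2) t t2 (t + t2) (a1q1_v t) (c1f_v t2) (rq3_v (c1f_v t + c1f_v t2) (t + t2))) :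
    ∀ t t2 : ℝ, 1 * h0 ≤ t → t ≤ 3 / 2 * h0 → 1 / 2 * h0 ≤ t2 → t2 ≤ 1 * h0 → 3 / 2 * h0 ≤ t + t2 → t + t2 ≤ 2 * h0 → t ≤ 1 → t + t2 ≤ 2 * h0 → 0 ≤ exf_v (-(c1f_v t)) (-(c1f_v t2)) t t2 + 1 / 2 → 1 ≤ q3f_v (-(c1f_v t) + -(c1f_v t2)) (t + t2) → q3f_v (-(c1f_v t) + -(c1f_v t2)) (t + t2) ≤ 3 → 0 ≤ 1 / 16 - ((-(-(c1f_v t2)) / 2 - h0 * t2) + -(c1f_v t)) → 0 ≤ 1 / 16 + ((-(-(c1f_v t2)) / 2 - h0 * t2) + -(c1f_v t)) → 0 ≤ sl213_v (exf_v (-(c1f_v t)) (-(c1f_v t2)) t t2) t t2 (t + t2) (-(c1f_v t)) (-(a1q1_v t2)) (rq3_v (-(c1f_v t) + -(c1f_v t2)) (t + t2)) := by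
  intro t t2 h1 h1' h2 h2' h3 h3' h4 h6 ho hq1 hq3 hs hs'
  have hp := h0_pos
  have e1 := exf_mir (-(c1f_v t)) (-(c1f_v t2)) t t2
  rw [neg_neg, neg_neg] at e1
  have e2 : c1f_v t2 + c1f_v t = -(-(c1f_v t) + -(c1f_v t2)) := by ring
  have e3 : t2 + t = t + t2 := add_comm _ _
  have k := H t2 t (by linarith) (by linarith) (by linarith) (by linarith) (by linarith)
    (by linarith) h4 (by linarith) (by rw [e1]; exact ho)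
    (by rw [e2, e3, q3f_mir]; exact hq1) (by rw [e2, e3, q3f_mir]; exact hq3) (by linarith) (by linarith)
  rw [mir213 (by linarith) (by linarith)]
  rw [e1, e2, e3, mir_rq3_neg (by linarith) (by linarith)] at k
  simpa only [neg_neg] using k

/-- Mirror image of the strip of 023 (signs + and +). -/
theorem mir203_mm
    (H : ∀ t t2 : ℝ, 0 * h0 ≤ t → t ≤ 1 / 2 * h0 → 1 * h0 ≤ t2 → t2 ≤ 3 / 2 * h0 → 3 / 2 * h0 ≤ t + t2 → t + t2 ≤ 2 * h0 → t2 ≤ 1 → t + t2 ≤ 2 * h0 → 0 ≤ exf_v (c1f_v t) (c1f_v t2) t t2 + 1 / 2 → 1 ≤ q3f_v (c1f_v t + c1f_v t2) (t + t2) → q3f_v (c1f_v t + c1f_v t2) (t + t2) ≤ 3 → 0 ≤ 1 / 16 - ((c1f_v t / 2 - h0 * t) - c1f_v t2) → 0 ≤ 1 / 16 + ((c1f_v t / 2 - h0 * t) - c1f_v t2) → 0 ≤ sl023_v (exf_v (c1f_v t) (c1f_v t2) t t2) t t2 (t + t2) (a1q0_v t) (c1f_v t2) (rq3_v (c1f_v t + c1f_v t2) (t + t2))) :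
    ∀ t t2 : ℝ, 1 * h0 ≤ t → t ≤ 3 / 2 * h0 → 0 * h0 ≤ t2 → t2 ≤ 1 / 2 * h0 → 3 / 2 * h0 ≤ t + t2 → t + t2 ≤ 2 * h0 → t ≤ 1 → t + t2 ≤ 2 * h0 → 0 ≤ exf_v (-(c1f_v t)) (-(c1f_v t2)) t t2 + 1 / 2 → 1 ≤ q3f_v (-(c1f_v t) + -(c1f_v t2)) (t + t2) → q3f_v (-(c1f_v t) + -(c1f_v t2)) (t + t2) ≤ 3 → 0 ≤ 1 / 16 - ((-(-(c1f_v t2)) / 2 - h0 * t2) + -(c1f_v t)) → 0 ≤ 1 / 16 + ((-(-(c1f_v t2)) / 2 - h0 * t2) + -(c1f_v t)) → 0 ≤ sl203_v (exf_v (-(c1f_v t)) (-(c1f_v t2)) t t2) t t2 (t + t2) (-(c1f_v t)) (-(a1q0_v t2)) (rq3_v (-(c1f_v t) + -(c1f_v t2)) (t + t2)) := by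
  intro t t2 h1 h1' h2 h2' h3 h3' h4 h6 ho hq1 hq3 hs hs'
  have hp := h0_pos
  have e1 := exf_mir (-(c1f_v t)) (-(c1f_v t2)) t t2
  rw [neg_neg, neg_neg] at e1
  have e2 : c1f_v t2 + c1f_v t = -(-(c1f_v t) + -(c1f_v t2)) := by ring
  have e3 : t2 + t = t + t2 := add_comm _ _
  have k := H t2 t (by linarith) (by linarith) (by linarith) (by linarith) (by linarith)
    (by linarith) h4 (by linarith) (by rw [e1]; exact ho)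
    (by rw [e2, e3, q3f_mir]; exact hq1) (by rw [e2, e3, q3f_mir]; exact hq3) (by linarith) (by linarith)
  rw [mir203]
  rw [e1, e2, e3, mir_rq3_neg (by linarith) (by linarith)] at k
  simpa only [neg_neg] using k

/-- Mirror image of the strip of 022 (signs + and +). -/
theorem mir202_mm
    (H : ∀ t t2 : ℝ, 0 * h0 ≤ t → t ≤ 1 / 2 * h0 → 1 * h0 ≤ t2 → t2 ≤ 3 / 2 * h0 → 1 * h0 ≤ t + t2 → t + t2 ≤ 3 / 2 * h0 → t2 ≤ 1 → t + t2 ≤ 2 * h0 → 0 ≤ exf_v (c1f_v t) (c1f_v t2) t t2 + 1 / 2 → 1 ≤ q3f_v (c1f_v t + c1f_v t2) (t + t2) → q3f_v (c1f_v t + c1f_v t2) (t + t2) ≤ 3 → 0 ≤ 1 / 16 - ((c1f_v t / 2 - h0 * t) - c1f_v t2) → 0 ≤ 1 / 16 + ((c1f_v t / 2 - h0 * t) - c1f_v t2) → 0 ≤ sl022_v (exf_v (c1f_v t) (c1f_v t2) t t2) t t2 (t + t2) (a1q0_v t) (c1f_v t2) (rq2_v (c1f_v t + c1f_v t2) (t + t2))) :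
    ∀ t t2 : ℝ, 1 * h0 ≤ t → t ≤ 3 / 2 * h0 → 0 * h0 ≤ t2 → t2 ≤ 1 / 2 * h0 → 1 * h0 ≤ t + t2 → t + t2 ≤ 3 / 2 * h0 → t ≤ 1 → t + t2 ≤ 2 * h0 → 0 ≤ exf_v (-(c1f_v t)) (-(c1f_v t2)) t t2 + 1 / 2 → 1 ≤ q3f_v (-(c1f_v t) + -(c1f_v t2)) (t + t2) → q3f_v (-(c1f_v t) + -(c1f_v t2)) (t + t2) ≤ 3 → 0 ≤ 1 / 16 - ((-(-(c1f_v t2)) / 2 - h0 * t2) + -(c1f_v t)) → 0 ≤ 1 / 16 + ((-(-(c1f_v t2)) / 2 - h0 * t2) + -(c1f_v t)) → 0 ≤ sl202_v (exf_v (-(c1f_v t)) (-(c1f_v t2)) t t2) t t2 (t + t2) (-(c1f_v t)) (-(a1q0_v t2)) (rq2_v (-(c1f_v t) + -(c1f_v t2)) (t + t2)) := by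
  intro t t2 h1 h1' h2 h2' h3 h3' h4 h6 ho hq1 hq3 hs hs'
  have hp := h0_pos
  have e1 := exf_mir (-(c1f_v t)) (-(c1f_v t2)) t t2
  rw [neg_neg, neg_neg] at e1
  have e2 : c1f_v t2 + c1f_v t = -(-(c1f_v t) + -(c1f_v t2)) := by ring
  have e3 : t2 + t = t + t2 := add_comm _ _
  have k := H t2 t (by linarith) (by linarith) (by linarith) (by linarith) (by linarith)
    (by linarith) h4 (by linarith) (by rw [e1]; exact ho)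
    (by rw [e2, e3, q3f_mir]; exact hq1) (by rw [e2, e3, q3f_mir]; exact hq3) (by linarith) (by linarith)
  rw [mir202 (by linarith) (by linarith)]
  rw [q3f_def] at hq1
  rw [e1, e2, e3, mir_rq2_neg (by linarith) (by linarith) hq1] at k
  simpa only [neg_neg] using k

/-- Mirror image of the strip of 012 (signs + and -). -/
theorem mir102_pm
    (H : ∀ t t2 : ℝ, 0 * h0 ≤ t → t ≤ 1 / 2 * h0 → 1 / 2 * h0 ≤ t2 → t2 ≤ 1 * h0 → 1 * h0 ≤ t + t2 → t + t2 ≤ 3 / 2 * h0 → t + t2 ≤ 2 * h0 → 0 ≤ exf_v (c1f_v t) (-(c1f_v t2)) t t2 + 1 / 2 → 1 ≤ q3f_v (c1f_v t + -(c1f_v t2)) (t + t2) → q3f_v (c1f_v t + -(c1f_v t2)) (t + t2) ≤ 3 → 0 ≤ 1 / 16 - (t2 - (h0 * c1f_v t - t / 2)) → 0 ≤ 1 / 16 + (t2 - (h0 * c1f_v t - t / 2)) → 0 ≤ sl012_v (exf_v (c1f_v t) (-(c1f_v t2)) t t2) t t2 (t + t2) (a1q0_v t) (-(a1q1_v t2)) (rq2_v (c1f_v t + -(c1f_v t2)) (t + t2)))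 :
    ∀ t t2 : ℝ, 1 / 2 * h0 ≤ t → t ≤ 1 * h0 → 0 * h0 ≤ t2 → t2 ≤ 1 / 2 * h0 → 1 * h0 ≤ t + t2 → t + t2 ≤ 3 / 2 * h0 → t + t2 ≤ 2 * h0 → 0 ≤ exf_v (c1f_v t) (-(c1f_v t2)) t t2 + 1 / 2 → 1 ≤ q3f_v (c1f_v t + -(c1f_v t2)) (t + t2) → q3f_v (c1f_v t + -(c1f_v t2)) (t + t2) ≤ 3 → 0 ≤ 1 / 16 - (t2 - (h0 * c1f_v t - t / 2)) → 0 ≤ 1 / 16 + (t2 - (h0 * c1f_v t - t / 2)) → 0 ≤ sl102_v (exf_v (c1f_v t) (-(c1f_v t2)) t t2) t t2 (t + t2) (a1q1_v t) (-(a1q0_v t2)) (rq2_v (c1f_v t + -(c1f_v t2)) (t + t2)) := by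
  intro t t2 h1 h1' h2 h2' h3 h3' h6 ho hq1 hq3 hs hs'
  have hp := h0_pos
  have e1 : exf_v (c1f_v t2) (-(c1f_v t)) t2 t = exf_v (c1f_v t) (-(c1f_v t2)) t t2 := by
    rw [← exf_mir, neg_neg]
  have e2 : c1f_v t2 + -(c1f_v t) = -(c1f_v t + -(c1f_v t2)) := by ring
  have e3 : t2 + t = t + t2 := add_comm _ _
  have hw := strip_mir (t := t) (t2 := t2) (by linarith) (by linarith) (by linarith) (by linarith) hs hs'
  have k := H t2 t (by linarith) (by linarith) (by linarith) (by linarith) (by linarith)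
    (by linarith) (by linarith) (by rw [e1]; exact ho)
    (by rw [e2, e3, q3f_mir]; exact hq1) (by rw [e2, e3, q3f_mir]; exact hq3) hw.1 hw.2
  rw [mir102 (by linarith) (by linarith)]
  rw [q3f_def] at hq1
  rw [e1, e2, e3, mir_rq2_neg (by linarith) (by linarith) hq1] at k
  simpa only [neg_neg] using k

end Pool.Agent.Strip051.LB
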