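import Pool.Agent.Strip051.LB.Fc.R
import Pool.Agent.Strip051.LB.Base

/-! # Regularised value functions of the free edge: identities for table F -/

namespace Pool.Agent.Strip051.LB.RegF

open Pool.Agent.StripNear Pool.Agent.Strip051.LB.Fn Pool.Agent.Strip051.LB.Fc

/-! ### Closed forms -/

theorem s3c : Real.sqrt ((3 : ℕ) : ℝ) = 2 * h0 := by
  rw [Nat.cast_ofNat]
  exact hs3

theorem h2 : h0 ^ 2 = 3 / 4 := by
  have h := Real.sq_sqrt (show (0 : ℝ) ≤ 3 by norm_num)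
  rw [hs3] at h
  linarith

theorem hpos : 0 < h0 := by
  have := h0_lo
  linarith

theorem c1f_eq (T : ℝ) : c1f_v T = Real.sqrt (1 - T ^ 2) := by
  show Real.sqrt (((1 : ℕ) : ℝ) - T ^ 2) = _
  rw [Nat.cast_one]

theorem c3f_eq (T : ℝ) : c3f_v T = Real.sqrt (3 - T ^ 2) := by
  show Real.sqrt (((3 : ℕ) : ℝ) - T ^ 2) = _
  rw [Nat.cast_ofNat]

theorem sw_eq (T : ℝ) : sw_v T = Real.sqrt (1 - (T - h0) ^ 2) := by
  show Real.sqrt (((1 : ℕ) : ℝ) - (T - ((1 : ℕ) : ℝ) / ((2 : ℕ) : ℝ) *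
    Real.sqrt ((3 : ℕ) : ℝ)) ^ 2) = _
  rw [s3c]
  push_cast
  congr 2
  ring

theorem f1m_eq (T : ℝ) : f1m_v T = (c1f_v T + sw_v T + 1 / 2) / 2 := by
  show ((1 : ℕ) : ℝ) / ((2 : ℕ) : ℝ) * (c1f_v T + sw_v T + ((1 : ℕ) : ℝ) / ((2 : ℕ) : ℝ)) = _
  push_cast
  ring

theorem f1p_eq (T : ℝ) : f1p_v T = (c1f_v T + sw_v T - 1 / 2) / 2 := by
  show ((1 : ℕ) : ℝ) / ((2 : ℕ) : ℝ) * (c1f_v T + sw_v T - ((1 : ℕ) : ℝ) / ((2 : ℕ) : ℝ)) = _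
  push_cast
  ring

theorem f2m_eq (T : ℝ) : f2m_v T = (sw_v T + 1 / 2 + c3f_v T) / 2 := by
  show ((1 : ℕ) : ℝ) / ((2 : ℕ) : ℝ) * (sw_v T + ((1 : ℕ) : ℝ) / ((2 : ℕ) : ℝ) + c3f_v T) = _
  push_cast
  ring

theorem f2p_eq (T : ℝ) : f2p_v T = (sw_v T - 1 / 2 + c3f_v T) / 2 := by
  show ((1 : ℕ) : ℝ) / ((2 : ℕ) : ℝ) * (sw_v T - ((1 : ℕ) : ℝ) / ((2 : ℕ) : ℝ) + c3f_v T) = _
  push_cast
  ring

theorem a1q0_eq (T : ℝ) : a1q0_v T =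
    (c1f_v T - 2 * h0 * T) * (1 + c1f_v T) * (1 + c1f_v T - 2 * h0 * T)⁻¹ := by
  show (c1f_v T - Real.sqrt ((3 : ℕ) : ℝ) * T) * (((1 : ℕ) : ℝ) + c1f_v T) *
    (((1 : ℕ) : ℝ) + c1f_v T - Real.sqrt ((3 : ℕ) : ℝ) * T)⁻¹ = _
  rw [s3c]
  push_cast
  rfl

theorem a3q0_eq (T : ℝ) : a3q0_v T = -(T ^ 2 * (c3f_v T + 3 / 2) * ((h0 - T) * (h0 + T))⁻¹) := by
  show -(T ^ 2 * (c3f_v T + ((3 : ℕ) : ℝ) / ((2 : ℕ) : ℝ)) *
    ((((1 : ℕ) : ℝ) / ((2 : ℕ) : ℝ) * Real.sqrt ((3 : ℕ) : ℝ) - T) *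
      (((1 : ℕ) : ℝ) / ((2 : ℕ) : ℝ) * Real.sqrt ((3 : ℕ) : ℝ) + T))⁻¹) = _
  rw [s3c]
  push_cast
  rw [show (1 : ℝ) / 2 * (2 * h0) = h0 by ring]

theorem a3q1_eq (T : ℝ) : a3q1_v T = T * (c3f_v T + 3 / 2) * (h0 + T)⁻¹ := by
  show T * (c3f_v T + ((3 : ℕ) : ℝ) / ((2 : ℕ) : ℝ)) *
    (((1 : ℕ) : ℝ) / ((2 : ℕ) : ℝ) * Real.sqrt ((3 : ℕ) : ℝ) + T)⁻¹ = _
  rw [s3c]
  push_cast
  rw [show (1 : ℝ) / 2 * (2 * h0) = h0 by ring]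

theorem a3q3_eq (T : ℝ) : a3q3_v T =
    -((2 * h0 * c3f_v T - T) * (c3f_v T + 3 - 2 * h0 * T) * (4 * (T - h0))⁻¹) := by
  show -((Real.sqrt ((3 : ℕ) : ℝ) * c3f_v T - T) *
    (c3f_v T + ((3 : ℕ) : ℝ) - Real.sqrt ((3 : ℕ) : ℝ) * T) *
      (((4 : ℕ) : ℝ) * (T - ((1 : ℕ) : ℝ) / ((2 : ℕ) : ℝ) * Real.sqrt ((3 : ℕ) : ℝ)))⁻¹) = _
  rw [s3c]
  push_cast
  rw [show (1 : ℝ) / 2 * (2 * h0) = h0 by ring]

theorem b1q0_eq (T : ℝ) : b1q0_v T =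
    if 4 * T - h0 ≤ 0 then 1 - 596 / 375 * h0 * T else 157 / 200 - 166 / 375 * h0 * T := by
  show (if ((4 : ℕ) : ℝ) * T - ((1 : ℕ) : ℝ) / ((2 : ℕ) : ℝ) * Real.sqrt ((3 : ℕ) : ℝ) ≤ 0 then
    ((1 : ℕ) : ℝ) - ((298 : ℕ) : ℝ) / ((375 : ℕ) : ℝ) * (T * Real.sqrt ((3 : ℕ) : ℝ)) else
    ((157 : ℕ) : ℝ) / ((200 : ℕ) : ℝ) - ((83 : ℕ) : ℝ) / ((375 : ℕ) : ℝ) *
      (T * Real.sqrt ((3 : ℕ) : ℝ))) = _
  rw [s3c]
  push_cast
  rw [show (1 : ℝ) / 2 * (2 * h0) = h0 by ring]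
  congr 1 <;> ring

theorem b2q1_eq (T : ℝ) : b2q1_v T = 334 / 375 * h0 * T + 83 / 250 := by
  show ((167 : ℕ) : ℝ) / ((375 : ℕ) : ℝ) * (T * Real.sqrt ((3 : ℕ) : ℝ)) +
    ((83 : ℕ) : ℝ) / ((250 : ℕ) : ℝ) = _
  rw [s3c]
  push_cast
  ring

theorem b2q3_eq (T : ℝ) : b2q3_v T = 326 / 125 * h0 * T - 853 / 250 := by
  show ((163 : ℕ) : ℝ) / ((125 : ℕ) : ℝ) * (T * Real.sqrt ((3 : ℕ) : ℝ)) -
    ((853 : ℕ) : ℝ) / ((250 : ℕ) : ℝ) = _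
  rw [s3c]
  push_cast
  ring

theorem b1q2_eq (T : ℝ) : b1q2_v T =
    if T - 1 ≤ 0 then (if T - 9 / 8 * h0 ≤ 0 then 174 / 125 - 196 / 375 * h0 * T
      else 1 + 49 / 1000 * (T - 1) * (1 - 9 / 8 * h0)⁻¹)
    else 1 - 1033 / 1000 * (T - 1) * (3 / 2 * h0 - 1)⁻¹ := by
  show (if T - ((1 : ℕ) : ℝ) ≤ 0 then (if T - ((9 : ℕ) : ℝ) / ((16 : ℕ) : ℝ) *
      Real.sqrt ((3 : ℕ) : ℝ) ≤ 0 then ((174 : ℕ) : ℝ) / ((125 : ℕ) : ℝ) -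
        ((98 : ℕ) : ℝ) / ((375 : ℕ) : ℝ) * (T * Real.sqrt ((3 : ℕ) : ℝ))
      else ((1 : ℕ) : ℝ) + ((49 : ℕ) : ℝ) / ((1000 : ℕ) : ℝ) * (T - ((1 : ℕ) : ℝ)) *
        (((1 : ℕ) : ℝ) - ((9 : ℕ) : ℝ) / ((16 : ℕ) : ℝ) * Real.sqrt ((3 : ℕ) : ℝ))⁻¹)
    else ((1 : ℕ) : ℝ) - ((1033 : ℕ) : ℝ) / ((1000 : ℕ) : ℝ) * (T - ((1 : ℕ) : ℝ)) *
      (((3 : ℕ) : ℝ) / ((4 : ℕ) : ℝ) * Real.sqrt ((3 : ℕ) : ℝ) - ((1 : ℕ) : ℝ))⁻¹) = _
  rw [s3c]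
  push_cast
  rw [show (9 : ℝ) / 16 * (2 * h0) = 9 / 8 * h0 by ring,
    show (3 : ℝ) / 4 * (2 * h0) = 3 / 2 * h0 by ring,
    show (98 : ℝ) / 375 * (T * (2 * h0)) = 196 / 375 * h0 * T by ring]

/-! ### Clamped quotients -/

theorem lam_eq {N D : ℝ} (h : 0 ≤ N) (hN : N ≤ D) : D * min (max (N * D⁻¹) 0) 1 = N := by
  rcases (h.trans hN).eq_or_lt with h1 | h1
  · rw [← h1, zero_mul]
    linarith
  · rw [max_eq_left (mul_nonneg h (inv_nonneg.2 h1.le)), min_eq_left, mul_comm N, ← mul_assoc,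
      mul_inv_cancel₀ h1.ne', one_mul]
    rw [← div_eq_mul_inv, div_le_one h1]
    exact hN

theorem lam_zero (D : ℝ) : min (max ((0 : ℝ) * D⁻¹) 0) 1 = 0 := by
  rw [zero_mul, max_self, min_eq_left (zero_le_one' ℝ)]

theorem lam_self {D : ℝ} (h : 0 < D) : min (max (D * D⁻¹) 0) 1 = 1 := by
  rw [mul_inv_cancel₀ h.ne', max_eq_left (zero_le_one' ℝ), min_self]

/-! ### Slopes -/

/-- Near the small circle. -/
theorem low {c f1 f2 a v1 v2 ρ X Z : ℝ} (h1 : c ≤ f1) (h2 : f1 < f2) (h3 : c ≤ X) (h4 : X ≤ f2)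
    (e : v1 - a = ρ * (f1 - c)) :
    (if X - f1 ≤ 0 then a + min (max ((X - c) * (f1 - c)⁻¹) 0) 1 * (v1 - a) else
      if X - f2 ≤ 0 then v1 + min (max ((X - f1) * (f2 - f1)⁻¹) 0) 1 * (v2 - v1) else Z) =
    a + (X - c) * (if X - f1 ≤ 0 then ρ else (v2 - v1) * (f2 - f1)⁻¹ +
      min (max ((f1 - c) * (X - c)⁻¹) 0) 1 * (ρ - (v2 - v1) * (f2 - f1)⁻¹)) := by
  by_cases hX : X - f1 ≤ 0
  · rw [if_pos hX, if_pos hX, e]
    have := lam_eq (N := X - c) (D := f1 - c) (by linarith) (by linarith)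
    linear_combination ρ * this
  · rw [if_neg hX, if_neg hX, if_pos (by linarith)]
    push Not at hX
    have k1 := lam_eq (N := f1 - c) (D := X - c) (by linarith) (by linarith)
    have k2 := lam_eq (N := X - f1) (D := f2 - f1) (by linarith) (by linarith)
    have k4 : f2 - f1 ≠ 0 := by
      have : 0 < f2 - f1 := by linarith
      exact this.ne'
    have k3 : (v2 - v1) * (f2 - f1)⁻¹ * (f2 - f1) = v2 - v1 := by
      rw [mul_assoc, inv_mul_cancel₀ k4, mul_one]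
    set σ := (v2 - v1) * (f2 - f1)⁻¹
    set Λ := min (max ((X - f1) * (f2 - f1)⁻¹) 0) 1
    set M := min (max ((f1 - c) * (X - c)⁻¹) 0) 1
    linear_combination e - Λ * k3 + σ * k2 - (ρ - σ) * k1

/-- Near the large circle. -/
theorem high {f1 f2 c3 a v1 v2 ρ X L : ℝ} (h1 : f1 < f2) (h2 : f2 ≤ c3) (h3 : f1 ≤ X)
    (h4 : X ≤ c3) (hL : X = f1 → L = v1) (e : a - v2 = ρ * (c3 - f2)) :
    (if X - f1 ≤ 0 then L else
      if X - f2 ≤ 0 then v1 + min (max ((X - f1) * (f2 - f1)⁻¹) 0) 1 * (v2 - v1) else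
        v2 + min (max ((X - f2) * (c3 - f2)⁻¹) 0) 1 * (a - v2)) =
    a - (c3 - X) * (if f2 - X ≤ 0 then ρ else (v2 - v1) * (f2 - f1)⁻¹ +
      min (max ((c3 - f2) * (c3 - X)⁻¹) 0) 1 * (ρ - (v2 - v1) * (f2 - f1)⁻¹)) := by
  have k4 : f2 - f1 ≠ 0 := by
    have : 0 < f2 - f1 := by linarith
    exact this.ne'
  have k3 : (v2 - v1) * (f2 - f1)⁻¹ * (f2 - f1) = v2 - v1 := by
    rw [mul_assoc, inv_mul_cancel₀ k4, mul_one]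
  -- the value as a linear interpolation
  have k5 : (if X - f1 ≤ 0 then L else
      if X - f2 ≤ 0 then v1 + min (max ((X - f1) * (f2 - f1)⁻¹) 0) 1 * (v2 - v1) else
        v2 + min (max ((X - f2) * (c3 - f2)⁻¹) 0) 1 * (a - v2)) =
      if X - f2 ≤ 0 then v1 + min (max ((X - f1) * (f2 - f1)⁻¹) 0) 1 * (v2 - v1) else
        v2 + min (max ((X - f2) * (c3 - f2)⁻¹) 0) 1 * (a - v2) := by
    by_cases hX : X - f1 ≤ 0
    · have hXf : X = f1 := le_antisymm (by linarith) h3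
      rw [if_pos hX, if_pos (by linarith), hL hXf, hXf, sub_self, lam_zero]
      ring
    · rw [if_neg hX]
  rw [k5]
  rcases lt_trichotomy X f2 with hX | hX | hX
  · rw [if_pos (by linarith), if_neg (by linarith)]
    have k1 := lam_eq (N := c3 - f2) (D := c3 - X) (by linarith) (by linarith)
    have k2 := lam_eq (N := X - f1) (D := f2 - f1) (by linarith) (by linarith)
    set σ := (v2 - v1) * (f2 - f1)⁻¹
    set Λ := min (max ((X - f1) * (f2 - f1)⁻¹) 0) 1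
    set M := min (max ((c3 - f2) * (c3 - X)⁻¹) 0) 1
    linear_combination -e - (Λ - 1) * k3 + σ * k2 + (ρ - σ) * k1
  · rw [if_pos (by linarith), if_pos (by linarith), hX, lam_self (by linarith)]
    linear_combination -e
  · rw [if_neg (by linarith), if_pos (by linarith)]
    have k2 := lam_eq (N := X - f2) (D := c3 - f2) (by linarith) (by linarith)
    set Λ := min (max ((X - f2) * (c3 - f2)⁻¹) 0) 1
    linear_combination -e + Λ * e + ρ * k2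

/-- The lower branch at the first curve. -/
theorem low_end {c f1 a v1 ρ X : ℝ} (h1 : c ≤ f1) (e : v1 - a = ρ * (f1 - c)) (hX : X = f1) :
    a + min (max ((X - c) * (f1 - c)⁻¹) 0) 1 * (v1 - a) = v1 := by
  have := lam_eq (N := X - c) (D := f1 - c) (by linarith) (by linarith)
  rw [e]
  linear_combination ρ * this - e + ρ * hX

/-! ### The curves -/

section

variable {T : ℝ}

theorem c1_sq' (h : T ^ 2 ≤ 1) : c1f_v T ^ 2 = 1 - T ^ 2 := by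
  rw [c1f_eq]
  exact Real.sq_sqrt (by linarith)

theorem c1_nn (T : ℝ) : 0 ≤ c1f_v T := by
  rw [c1f_eq]
  exact Real.sqrt_nonneg _

theorem c3_sq' (h : T ^ 2 ≤ 3) : c3f_v T ^ 2 = 3 - T ^ 2 := by
  rw [c3f_eq]
  exact Real.sq_sqrt (by linarith)

theorem c3_nn (T : ℝ) : 0 ≤ c3f_v T := by
  rw [c3f_eq]
  exact Real.sqrt_nonneg _

theorem sw_sq (h1 : 0 ≤ T) (hT : T ≤ 2 * h0) : sw_v T ^ 2 = 1 - (T - h0) ^ 2 := by
  rw [sw_eq]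
  refine Real.sq_sqrt ?_
  nlinarith [h2, hpos]

theorem sw_half (h1 : 0 ≤ T) (hT : T ≤ 2 * h0) : 1 / 2 ≤ sw_v T := by
  rw [sw_eq]
  apply Real.le_sqrt_of_sq_le
  nlinarith [h2, hpos]

theorem sw_le (T : ℝ) : sw_v T ≤ 1 := by
  rw [sw_eq]
  exact Real.sqrt_le_one.2 (by nlinarith [sq_nonneg (T - h0)])

theorem c1_lt_c3 (h : T ^ 2 < 3) : c1f_v T < c3f_v T := by
  rw [c1f_eq, c3f_eq]
  exact (Real.sqrt_lt_sqrt_iff_of_pos (by linarith)).2 (by linarith)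

theorem c1_zero' (h : 1 ≤ T) : c1f_v T = 0 := by
  rw [c1f_eq]
  exact Real.sqrt_eq_zero_of_nonpos (by nlinarith)

/-- The distance of the first curve from the small circle. -/
theorem f1m_sub (h1 : 0 ≤ T) (hT : T ≤ h0 / 2) : f1m_v T - c1f_v T =
    T * (1 / 2 * ((2 * h0 - T) * (sw_v T + 1 / 2)⁻¹ + T * (1 + c1f_v T)⁻¹)) := by
  have hp := hpos
  have hh := h0_hi
  have k1 := c1_sq' (T := T) (by nlinarith)
  have k2 := sw_sq h1 (by linarith)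
  have k3 := sw_half h1 (by linarith)
  have k4 := c1_nn T
  rw [f1m_eq]
  set c := c1f_v T
  set w := sw_v T
  have e1 : w + 1 / 2 ≠ 0 := by linarith
  have e2 : 1 + c ≠ 0 := by linarith
  field_simp
  nlinarith [h2]

theorem rho0_eq (T : ℝ) : rho0_v T = b1q0_v T +
    (c1f_v T * (if 4 * T - h0 ≤ 0 then -(596 / 375 * h0) else (b1q0_v T - 1) * T⁻¹) +
      2 * h0 * (1 + c1f_v T - 2 * h0 * T)⁻¹) *
    (1 / 2 * ((2 * h0 - T) * (sw_v T + 1 / 2)⁻¹ + T * (1 + c1f_v T)⁻¹))⁻¹ := by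
  show b1q0_v T + (c1f_v T * (if ((4 : ℕ) : ℝ) * T - ((1 : ℕ) : ℝ) / ((2 : ℕ) : ℝ) *
      Real.sqrt ((3 : ℕ) : ℝ) ≤ 0 then -(((298 : ℕ) : ℝ) / ((375 : ℕ) : ℝ) *
        Real.sqrt ((3 : ℕ) : ℝ)) else (b1q0_v T - ((1 : ℕ) : ℝ)) * T⁻¹) +
      Real.sqrt ((3 : ℕ) : ℝ) * (((1 : ℕ) : ℝ) + c1f_v T - Real.sqrt ((3 : ℕ) : ℝ) * T)⁻¹) *
    (((1 : ℕ) : ℝ) / ((2 : ℕ) : ℝ) * ((Real.sqrt ((3 : ℕ) : ℝ) - T) *
      (sw_v T + ((1 : ℕ) : ℝ) / ((2 : ℕ) : ℝ))⁻¹ + T * (((1 : ℕ) : ℝ) + c1f_v T)⁻¹))⁻¹ = _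
  rw [s3c]
  push_cast
  rw [show (1 : ℝ) / 2 * (2 * h0) = h0 by ring, show (298 : ℝ) / 375 * (2 * h0) = 596 / 375 * h0 by ring]

/-- The slope in quarter 0. -/
theorem slope0 (h1 : 0 ≤ T) (hT : T ≤ h0 / 2) :
    v1q0_v T - a1q0_v T = rho0_v T * (f1m_v T - c1f_v T) := by
  have hp := hpos
  have hh := h0_hi
  have k1 := c1_sq' (T := T) (by nlinarith)
  have k3 := sw_half h1 (by linarith)
  have k4 := c1_nn T
  have hf := f1m_sub h1 hT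
  have e0 : v1q0_v T = f1m_v T * b1q0_v T := rfl
  rw [e0, a1q0_eq, rho0_eq]
  set B := b1q0_v T with hB
  set β := (if 4 * T - h0 ≤ 0 then -(596 / 375 * h0) else (B - 1) * T⁻¹) with hβ
  have hβT : β * T = B - 1 := by
    rw [hβ]
    by_cases h : 4 * T - h0 ≤ 0
    · rw [if_pos h, hB, b1q0_eq, if_pos h]
      ring
    · rw [if_neg h]
      push Not at h
      have : T ≠ 0 := by
        intro h0'
        rw [h0'] at h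
        linarith
      rw [mul_assoc, inv_mul_cancel₀ this, mul_one]
  set g0 := 1 / 2 * ((2 * h0 - T) * (sw_v T + 1 / 2)⁻¹ + T * (1 + c1f_v T)⁻¹) with hg0
  have g0p : 0 < g0 := by
    rw [hg0]
    have p1 : 0 < (2 * h0 - T) * (sw_v T + 1 / 2)⁻¹ :=
      mul_pos (by linarith) (inv_pos.2 (by linarith))
    have p2 : 0 ≤ T * (1 + c1f_v T)⁻¹ := mul_nonneg h1 (inv_nonneg.2 (by linarith))
    linarith
  have q1 : g0 * g0⁻¹ = 1 := mul_inv_cancel₀ g0p.ne'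
  have q2 : (1 + c1f_v T - 2 * h0 * T) * (1 + c1f_v T - 2 * h0 * T)⁻¹ = 1 := by
    apply mul_inv_cancel₀
    have : 2 * h0 * T ≤ 3 / 4 := by nlinarith [h2]
    linarith
  set c := c1f_v T
  set f := f1m_v T
  set iD := (1 + c - 2 * h0 * T)⁻¹
  set ig := g0⁻¹
  clear_value g0 ig iD f c B β
  linear_combination (B - (B + (c * β + 2 * h0 * iD) * ig)) * hf -
    (c * β + 2 * h0 * iD) * T * q1 - c * hβT - c * q2

/-- The first curve is on the right of the small circle. -/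
theorem c1_lt_f1m (h1 : 0 < T) (hT : T ≤ h0) : c1f_v T < f1m_v T := by
  have hp := hpos
  have hh := h0_hi
  have hq := h2
  have k1 := c1_sq' (T := T) (by nlinarith)
  have k2 := sw_sq h1.le (by linarith)
  have k3 := sw_half h1.le (by linarith)
  have k4 := c1_nn T
  rw [f1m_eq]
  have : c1f_v T < sw_v T + 1 / 2 := by
    have : c1f_v T ^ 2 < (sw_v T + 1 / 2) ^ 2 := by nlinarith
    exact lt_of_pow_lt_pow_left₀ 2 (by linarith) this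
  linarith

theorem c1_le_f1m (h1 : 0 ≤ T) (hT : T ≤ h0) : c1f_v T ≤ f1m_v T := by
  rcases h1.eq_or_lt with h | h
  · have hp := hpos
    rw [← h, f1m_eq, c1f_eq, sw_eq]
    have e1 : Real.sqrt (1 - (0 : ℝ) ^ 2) = 1 := by simp
    have e2 : Real.sqrt (1 - ((0 : ℝ) - h0) ^ 2) = 1 / 2 := by
      rw [show 1 - ((0 : ℝ) - h0) ^ 2 = (1 / 2) ^ 2 by nlinarith [h2]]
      exact Real.sqrt_sq (by norm_num)
    rw [e1, e2]
    norm_num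
  · exact (c1_lt_f1m h hT).le

theorem f1m_lt_f2m (h1 : 0 ≤ T) (hT : T ≤ h0) : f1m_v T < f2m_v T := by
  have hp := hpos
  have hh := h0_hi
  have := c1_lt_c3 (T := T) (by nlinarith)
  rw [f1m_eq, f2m_eq]
  linarith

theorem f1p_lt_f2p (h1 : 0 ≤ T) (hT : T < 2 * h0) : f1p_v T < f2p_v T := by
  have hp := hpos
  have := c1_lt_c3 (T := T) (by nlinarith [h2])
  rw [f1p_eq, f2p_eq]
  linarith

theorem c1_lt_f1p (h1 : h0 < T) (hT : T < 2 * h0) : c1f_v T < f1p_v T := by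
  have hp := hpos
  have hq := h2
  have k2 := sw_sq (T := T) (by linarith) (by linarith)
  have k3 := sw_half (T := T) (by linarith) (by linarith)
  have k4 := c1_nn T
  rw [f1p_eq]
  have k5 : 1 / 2 < sw_v T := by
    by_contra h
    have : sw_v T = 1 / 2 := le_antisymm (not_lt.1 h) k3
    rw [this] at k2
    nlinarith
  have : c1f_v T < sw_v T - 1 / 2 := by
    rcases le_or_gt T 1 with h | h
    · have k1 := c1_sq' (T := T) (by nlinarith)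
      have : c1f_v T ^ 2 < (sw_v T - 1 / 2) ^ 2 := by
        have : sw_v T < 2 * h0 * T - 1 / 2 := by
          have := sw_le T
          nlinarith
        nlinarith
      exact lt_of_pow_lt_pow_left₀ 2 (by linarith) this
    · rw [c1_zero' h.le]
      linarith
  linarith

theorem f1m_pos (h1 : 0 ≤ T) (hT : T ≤ h0) : 0 < f1m_v T := by
  have hp := hpos
  have k3 := sw_half (T := T) (by linarith) (by linarith)
  have k4 := c1_nn T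
  rw [f1m_eq]
  linarith

/-! ### Quarters 0 and 1, near the small circle -/

theorem rq0_pos {X : ℝ} (hX : 0 < X) : rq0_v X T =
    if X - f1m_v T ≤ 0 then a1q0_v T + min (max ((X - c1f_v T) * (f1m_v T - c1f_v T)⁻¹) 0) 1 *
      (v1q0_v T - a1q0_v T) else
    if X - f2m_v T ≤ 0 then v1q0_v T + min (max ((X - f1m_v T) * (f2m_v T - f1m_v T)⁻¹) 0) 1 *
      (v2q0_v T - v1q0_v T) else
    v2q0_v T + min (max ((X - f2m_v T) * (c3f_v T - f2m_v T)⁻¹) 0) 1 *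
      (a3q0_v T - v2q0_v T) := by
  show (if X ≤ 0 then -(rrq0_v (-X) T) else rrq0_v X T) = _
  rw [if_neg (by linarith)]
  rfl

theorem rq1_pos {X : ℝ} (hX : 0 < X) : rq1_v X T =
    if X - f1m_v T ≤ 0 then a1q1_v T + min (max ((X - c1f_v T) * (f1m_v T - c1f_v T)⁻¹) 0) 1 *
      (v1q1_v T - a1q1_v T) else
    if X - f2m_v T ≤ 0 then v1q1_v T + min (max ((X - f1m_v T) * (f2m_v T - f1m_v T)⁻¹) 0) 1 *
      (v2q1_v T - v1q1_v T) else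
    v2q1_v T + min (max ((X - f2m_v T) * (c3f_v T - f2m_v T)⁻¹) 0) 1 *
      (a3q1_v T - v2q1_v T) := by
  show (if X ≤ 0 then -(rrq1_v (-X) T) else rrq1_v X T) = _
  rw [if_neg (by linarith)]
  rfl

theorem c1_pos' (h1 : 0 ≤ T) (hT : T ≤ h0) : 0 < c1f_v T := by
  have hp := hpos
  have hh := h0_hi
  rw [c1f_eq]
  exact Real.sqrt_pos.2 (by nlinarith)

/-- **Quarter 0 near the small circle.** -/
theorem rq0_low {X : ℝ} (h1 : 0 ≤ T) (hT : T ≤ h0 / 2) (hX : c1f_v T ≤ X) (hX' : X ≤ f2m_v T) :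
    rq0_v X T = a1q0_v T + (X - c1f_v T) * kxq0_v X T := by
  have hp := hpos
  have := c1_pos' h1 (by linarith)
  rw [rq0_pos (by linarith)]
  exact low (c1_le_f1m h1 (by linarith)) (f1m_lt_f2m h1 (by linarith)) hX hX' (slope0 h1 hT)

theorem slope1 (h1 : 0 < T) (hT : T ≤ h0) :
    v1q1_v T - a1q1_v T = rho1_v T * (f1m_v T - c1f_v T) := by
  have h := c1_lt_f1m h1 hT
  have e : rho1_v T = (v1q1_v T - a1q1_v T) * (f1m_v T - c1f_v T)⁻¹ := rfl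
  have h' : f1m_v T - c1f_v T ≠ 0 := by
    have : 0 < f1m_v T - c1f_v T := by linarith
    exact this.ne'
  rw [e, mul_assoc, inv_mul_cancel₀ h', mul_one]

/-- **Quarter 1 near the small circle.** -/
theorem rq1_low {X : ℝ} (h1 : h0 / 2 ≤ T) (hT : T ≤ h0) (hX : c1f_v T ≤ X) (hX' : X ≤ f2m_v T) :
    rq1_v X T = a1q1_v T + (X - c1f_v T) * kxq1_v X T := by
  have hp := hpos
  have := c1_pos' (T := T) (by linarith) (by linarith)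
  rw [rq1_pos (by linarith)]
  exact low (c1_le_f1m (by linarith) hT) (f1m_lt_f2m (by linarith) hT) hX hX'
    (slope1 (by linarith) hT)

/-! ### Quarters 0 and 1, near the large circle -/

theorem f2m_le_c3 (h1 : 0 ≤ T) (hT : T ≤ h0) : f2m_v T ≤ c3f_v T := by
  have hp := hpos
  have hh := h0_hi
  have hq := h2
  have k1 := c3_sq' (T := T) (by nlinarith)
  have k2 := sw_sq h1 (by linarith)
  have k3 := sw_half h1 (by linarith)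
  have k4 := c3_nn T
  have k5 := sw_le T
  rw [f2m_eq]
  have : sw_v T + 1 / 2 ≤ c3f_v T := by
    have : (sw_v T + 1 / 2) ^ 2 ≤ c3f_v T ^ 2 := by nlinarith
    exact le_of_sq_le_sq this k4
  linarith

theorem f2m_lt_c3 (h1 : 0 ≤ T) (hT : T ≤ h0 / 2) : f2m_v T < c3f_v T := by
  have hp := hpos
  have hh := h0_hi
  have hq := h2
  have k1 := c3_sq' (T := T) (by nlinarith)
  have k2 := sw_sq h1 (by linarith)
  have k3 := sw_half h1 (by linarith)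
  have k4 := c3_nn T
  have k5 := sw_le T
  rw [f2m_eq]
  have : sw_v T + 1 / 2 < c3f_v T := by
    have : (sw_v T + 1 / 2) ^ 2 < c3f_v T ^ 2 := by nlinarith
    exact lt_of_pow_lt_pow_left₀ 2 k4 this
  linarith

/-- **Quarter 0 near the large circle.** -/
theorem rq0_high {X : ℝ} (h1 : 0 ≤ T) (hT : T ≤ h0 / 2) (hX : f1m_v T ≤ X) (hX' : X ≤ c3f_v T) :
    rq0_v X T = a3q0_v T - (c3f_v T - X) * kyq0_v X T := by
  have hp := hpos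
  have := f1m_pos h1 (by linarith)
  rw [rq0_pos (by linarith)]
  refine high (f1m_lt_f2m h1 (by linarith)) (f2m_lt_c3 h1 hT).le hX hX'
    (fun h => low_end (c1_le_f1m h1 (by linarith)) (slope0 h1 hT) h) ?_
  have h' : c3f_v T - f2m_v T ≠ 0 := by
    have : 0 < c3f_v T - f2m_v T := by linarith [f2m_lt_c3 h1 hT]
    exact this.ne'
  have e : s3q0_v T = (a3q0_v T - v2q0_v T) * (c3f_v T - f2m_v T)⁻¹ := rfl
  show a3q0_v T - v2q0_v T = s3q0_v T * (c3f_v T - f2m_v T)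
  rw [e, mul_assoc, inv_mul_cancel₀ h', mul_one]

/-- The distance of the second curve from the large circle. -/
theorem f2m_sub (h1 : 0 ≤ T) (hT : T ≤ h0) : c3f_v T - f2m_v T =
    (h0 - T) * (1 / 2 * ((h0 + T) * (c3f_v T + 3 / 2)⁻¹ + (h0 - T) * (1 + sw_v T)⁻¹)) := by
  have hp := hpos
  have hh := h0_hi
  have k1 := c3_sq' (T := T) (by nlinarith)
  have k2 := sw_sq h1 (by linarith)
  have k3 := sw_half h1 (by linarith)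
  have k4 := c3_nn T
  rw [f2m_eq]
  set c := c3f_v T
  set w := sw_v T
  have e1 : c + 3 / 2 ≠ 0 := by linarith
  have e2 : 1 + w ≠ 0 := by linarith
  have q1 : (c + 3 / 2) * (c + 3 / 2)⁻¹ = 1 := mul_inv_cancel₀ e1
  have q2 : (1 + w) * (1 + w)⁻¹ = 1 := mul_inv_cancel₀ e2
  have m1 : (h0 - T) * (h0 + T) * (c + 3 / 2)⁻¹ = c - 3 / 2 := by
    have : (h0 - T) * (h0 + T) = (c - 3 / 2) * (c + 3 / 2) := by nlinarith [h2]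
    rw [this, mul_assoc, q1, mul_one]
  have m2 : (h0 - T) * (h0 - T) * (1 + w)⁻¹ = 1 - w := by
    have : (h0 - T) * (h0 - T) = (1 - w) * (1 + w) := by nlinarith [h2]
    rw [this, mul_assoc, q2, mul_one]
  linear_combination -(1 / 2) * m1 - (1 / 2) * m2

theorem s3q1_eq (T : ℝ) : s3q1_v T = b2q1_v T +
    (167 / 250 * c3f_v T * h0⁻¹ - (3 / 2 + h0 * (h0 + T) * (c3f_v T + 3 / 2)⁻¹) * (T + h0)⁻¹) *
    (1 / 2 * ((h0 + T) * (c3f_v T + 3 / 2)⁻¹ + (h0 - T) * (1 + sw_v T)⁻¹))⁻¹ := by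
  show ((b2q1_v ( T )) + ((((( ( 167 : ℕ ) : ℝ ) / ( ( 250 : ℕ ) : ℝ ) * (c3f_v ( T ))) * (( (( ( 1 : ℕ ) : ℝ ) / ( ( 2 : ℕ ) : ℝ ) * (Real.sqrt ( ( 3 : ℕ ) : ℝ ))) ) ⁻¹)) - (((( ( 3 : ℕ ) : ℝ ) / ( ( 2 : ℕ ) : ℝ )) + (((( ( 1 : ℕ ) : ℝ ) / ( ( 2 : ℕ ) : ℝ ) * (Real.sqrt ( ( 3 : ℕ ) : ℝ ))) * ((( ( 1 : ℕ ) : ℝ ) / ( ( 2 : ℕ ) : ℝ ) * (Real.sqrt ( ( 3 : ℕ ) : ℝ ))) + T)) * (( ((c3f_v ( T )) + (( ( 3 : ℕ ) : ℝ ) / ( ( 2 : ℕ ) : ℝ ))) ) ⁻¹))) * (( (T + (( ( 1 : ℕ ) : ℝ ) / ( ( 2 : ℕ ) : ℝ ) * (Real.sqrt ( ( 3 : ℕ ) : ℝ )))) ) ⁻¹))) * (( (( ( 1 : ℕ ) : ℝ ) / ( ( 2 : ℕ ) : ℝ ) * ((((( ( 1 : ℕ ) : ℝ ) / ( ( 2 : ℕ ) : ℝ ) * (Real.sqrt ( ( 3 : ℕ ) : ℝ ))) + T) * (( ((c3f_v ( T )) + (( ( 3 : ℕ ) : ℝ ) / ( ( 2 : ℕ ) : ℝ ))) ) ⁻¹)) + (((( ( 1 : ℕ ) : ℝ ) / ( ( 2 : ℕ ) : ℝ ) * (Real.sqrt ( ( 3 : ℕ ) : ℝ ))) - T) * (( ((( ( 1 : ℕ ) : ℝ )) +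 (sw_v ( T ))) ) ⁻¹)))) ) ⁻¹))) = _
  rw [s3c]
  push_cast
  rw [show (1 : ℝ) / 2 * (2 * h0) = h0 by ring]

theorem slope3 (h1 : h0 / 2 ≤ T) (hT : T ≤ h0) :
    a3q1_v T - v2q1_v T = s3q1_v T * (c3f_v T - f2m_v T) := by
  have hp := hpos
  have hh := h0_hi
  have hq := h2
  have k1 := c3_sq' (T := T) (by nlinarith)
  have k3 := sw_half (T := T) (by linarith) (by linarith)
  have k4 := c3_nn T
  have hf := f2m_sub (T := T) (by linarith) hT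
  have e0 : v2q1_v T = f2m_v T * b2q1_v T := rfl
  rw [e0, a3q1_eq, s3q1_eq]
  have hB := b2q1_eq T
  set B := b2q1_v T
  set gg := 1 / 2 * ((h0 + T) * (c3f_v T + 3 / 2)⁻¹ + (h0 - T) * (1 + sw_v T)⁻¹) with hgg
  have g0p : 0 < gg := by
    rw [hgg]
    have p1 : 0 < (h0 + T) * (c3f_v T + 3 / 2)⁻¹ :=
      mul_pos (by linarith) (inv_pos.2 (by linarith))
    have p2 : 0 ≤ (h0 - T) * (1 + sw_v T)⁻¹ :=
      mul_nonneg (by linarith) (inv_nonneg.2 (by linarith))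
    linarith
  have q1 : gg * gg⁻¹ = 1 := mul_inv_cancel₀ g0p.ne'
  have q2 : (h0 + T) * (h0 + T)⁻¹ = 1 := mul_inv_cancel₀ (by linarith)
  have q3 : (c3f_v T + 3 / 2) * (c3f_v T + 3 / 2)⁻¹ = 1 := mul_inv_cancel₀ (by linarith)
  have q4 : h0 * h0⁻¹ = 1 := mul_inv_cancel₀ hp.ne'
  rw [show T + h0 = h0 + T by ring]
  set c := c3f_v T
  set f := f2m_v T
  set ih := h0⁻¹
  set iT := (h0 + T)⁻¹
  set ic := (c + 3 / 2)⁻¹
  set ig := gg⁻¹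
  -- pieces
  have m1 : T * (c + 3 / 2) * iT - c =
      -((h0 - T) * ((3 / 2 + h0 * (h0 + T) * ic) * iT)) := by
    have m0 : (h0 - T) * (h0 + T) * ic = c - 3 / 2 := by
      have : (h0 - T) * (h0 + T) = (c - 3 / 2) * (c + 3 / 2) := by nlinarith [h2]
      rw [this, mul_assoc, q3, mul_one]
    linear_combination c * q2 + h0 * iT * m0
  have m2 : c * (1 - B) = (h0 - T) * (167 / 250 * c * ih) := by
    rw [hB]
    have : ih = 4 / 3 * h0 := by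
      have : ih = (4 / 3 * h0 ^ 2) * ih := by rw [hq]; ring
      rw [this]
      linear_combination 4 / 3 * h0 * q4
    rw [this]
    linear_combination (-(334 : ℝ) / 375 * c * 1) * hq * (4 / 3) * (3 / 4)
  clear_value gg ih iT ic ig c f B
  linear_combination m1 + m2 - (167 / 250 * c * ih - (3 / 2 + h0 * (h0 + T) * ic) * iT) * (h0 - T) * q1 + (B - (B + (167 / 250 * c * ih - (3 / 2 + h0 * (h0 + T) * ic) * iT) * ig)) * hf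

/-- **Quarter 1 near the large circle.** -/
theorem rq1_high {X : ℝ} (h1 : h0 / 2 ≤ T) (hT : T ≤ h0) (hX : f1m_v T ≤ X)
    (hX' : X ≤ c3f_v T) : rq1_v X T = a3q1_v T - (c3f_v T - X) * kyq1_v X T := by
  have hp := hpos
  have := f1m_pos (T := T) (by linarith) (by linarith)
  rw [rq1_pos (by linarith)]
  exact high (f1m_lt_f2m (by linarith) hT) (f2m_le_c3 (by linarith) hT) hX hX'
    (fun h => low_end (c1_le_f1m (by linarith) hT) (slope1 (by linarith) hT) h) (slope3 h1 hT)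

/-! ### Quarter 2 -/

theorem f1p_pos (h1 : 0 < T) (hT : T < 2 * h0) : 0 < f1p_v T := by
  have hp := hpos
  have hq := h2
  have k2 := sw_sq (T := T) (by linarith) (by linarith)
  have k3 := sw_half (T := T) (by linarith) (by linarith)
  have k4 := c1_nn T
  rw [f1p_eq]
  have k5 : 1 / 2 < sw_v T := by
    by_contra h
    have : sw_v T = 1 / 2 := le_antisymm (not_lt.1 h) k3
    rw [this] at k2
    nlinarith
  linarith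

theorem c1_at_h0 : c1f_v h0 = 1 / 2 := by
  rw [c1f_eq, show 1 - h0 ^ 2 = (1 / 2) ^ 2 by rw [h2]; norm_num]
  exact Real.sqrt_sq (by norm_num)

theorem sw_at_h0 : sw_v h0 = 1 := by
  rw [sw_eq]
  simp

theorem c1_le_f1p (h1 : h0 ≤ T) (hT : T < 2 * h0) : c1f_v T ≤ f1p_v T := by
  rcases h1.eq_or_lt with h | h
  · rw [← h, f1p_eq, c1_at_h0, sw_at_h0]
    norm_num
  · exact (c1_lt_f1p h hT).le

theorem f2p_lt_c3 (h1 : h0 ≤ T) (hT : T ≤ 3 / 2 * h0) : f2p_v T < c3f_v T := by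
  have hp := hpos
  have hh := h0_hi
  have hq := h2
  have k1 := c3_sq' (T := T) (by nlinarith)
  have k2 := sw_sq (T := T) (by linarith) (by linarith)
  have k3 := sw_half (T := T) (by linarith) (by linarith)
  have k4 := c3_nn T
  have k5 := sw_le T
  rw [f2p_eq]
  have : sw_v T - 1 / 2 < c3f_v T := by
    have : (sw_v T - 1 / 2) ^ 2 < c3f_v T ^ 2 := by nlinarith
    exact lt_of_pow_lt_pow_left₀ 2 k4 this
  linarith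

theorem rrq2_eq (X T : ℝ) : rrq2_v X T =
    if X - f1p_v T ≤ 0 then (if 1 - T ≤ 0 then X * b1q2_v T else
      c1f_v T + min (max ((X - c1f_v T) * (f1p_v T - c1f_v T)⁻¹) 0) 1 * (v1q2_v T - c1f_v T)) else
    if X - f2p_v T ≤ 0 then v1q2_v T + min (max ((X - f1p_v T) * (f2p_v T - f1p_v T)⁻¹) 0) 1 *
      (v2q2_v T - v1q2_v T) else
    v2q2_v T + min (max ((X - f2p_v T) * (c3f_v T - f2p_v T)⁻¹) 0) 1 *
      (a3q2_v T - v2q2_v T) := by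
  show (if (X - (f1p_v ( T ))) ≤ 0 then (if ((( ( 1 : ℕ ) : ℝ )) - T) ≤ 0 then (X * (b1q2_v ( T ))) else ((c1f_v ( T )) + ((min ( max ( (X - (c1f_v ( T ))) * ( ((f1p_v ( T )) - (c1f_v ( T ))) ) ⁻¹ ) 0 ) 1) * ((v1q2_v ( T )) - (c1f_v ( T )))))) else (if (X - (f2p_v ( T ))) ≤ 0 then ((v1q2_v ( T )) + ((min ( max ( (X - (f1p_v ( T ))) * ( ((f2p_v ( T )) - (f1p_v ( T ))) ) ⁻¹ ) 0 ) 1) * ((v2q2_v ( T )) - (v1q2_v ( T ))))) else ((v2q2_v ( T )) + ((min ( max ( (X - (f2p_v ( T ))) * ( ((c3f_v ( T )) - (f2p_v ( T ))) ) ⁻¹ ) 0 ) 1) * ((a3q2_v ( T )) - (v2q2_v ( T ))))))) = _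
  rw [Nat.cast_one]

theorem b1_at_h0 : b1q2_v h0 = 1 := by
  have hh := h0_hi
  have hp := hpos
  have hq := h2
  rw [b1q2_eq, if_pos (by linarith), if_pos (by linarith)]
  nlinarith

/-- The slope in quarter 2, `T < 1`. -/
theorem slope2 (h1 : h0 ≤ T) (hT : T ≤ 9 / 8 * h0) :
    v1q2_v T - c1f_v T = (1 + -(196 / 375 * h0 * f1p_v T *
      (1 / 2 * ((T + h0) * (1 / 2 + c1f_v T)⁻¹ - (T - h0) * (1 + sw_v T)⁻¹))⁻¹)) *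
      (f1p_v T - c1f_v T) := by
  have hp := hpos
  have hh := h0_hi
  have hq := h2
  have k1 := c1_sq' (T := T) (by nlinarith)
  have k2 := sw_sq (T := T) (by linarith) (by linarith)
  have k3 := sw_half (T := T) (by linarith) (by linarith)
  have k4 := c1_nn T
  have e0 : v1q2_v T = f1p_v T * b1q2_v T := rfl
  have eB : b1q2_v T = 1 - 196 / 375 * h0 * (T - h0) := by
    rw [b1q2_eq, if_pos (by linarith), if_pos (by linarith)]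
    nlinarith
  have ef := f1p_eq T
  rw [e0, eB]
  set c := c1f_v T
  set w := sw_v T
  set f := f1p_v T
  have q1 : (1 / 2 + c) * (1 / 2 + c)⁻¹ = 1 := mul_inv_cancel₀ (by linarith)
  have q2 : (1 + w) * (1 + w)⁻¹ = 1 := mul_inv_cancel₀ (by linarith)
  have m1 : (T - h0) * (T + h0) * (1 / 2 + c)⁻¹ = 1 / 2 - c := by
    have : (T - h0) * (T + h0) = (1 / 2 - c) * (1 / 2 + c) := by nlinarith [h2]
    rw [this, mul_assoc, q1, mul_one]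
  have m2 : (T - h0) * (T - h0) * (1 + w)⁻¹ = 1 - w := by
    have : (T - h0) * (T - h0) = (1 - w) * (1 + w) := by nlinarith [h2]
    rw [this, mul_assoc, q2, mul_one]
  set g := 1 / 2 * ((T + h0) * (1 / 2 + c)⁻¹ - (T - h0) * (1 + w)⁻¹) with hg
  have hfc : f - c = (T - h0) * g := by
    rw [hg, ef]
    linear_combination -(1 / 2) * m1 + (1 / 2) * m2
  have gp : 0 < g := by
    rw [hg]
    have hc : c ≤ 1 / 2 := by nlinarith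
    have p1 : T + h0 ≤ (T + h0) * (1 / 2 + c)⁻¹ :=
      le_mul_of_one_le_right (by linarith) ((one_le_inv₀ (by linarith)).2 (by linarith))
    have p2 : (T - h0) * (1 + w)⁻¹ ≤ T - h0 :=
      mul_le_of_le_one_right (by linarith) (inv_le_one_of_one_le₀ (by linarith))
    linarith
  have q3 : g * g⁻¹ = 1 := mul_inv_cancel₀ gp.ne'
  set ig := g⁻¹
  clear_value g ig f c w
  linear_combination (196 / 375 * h0 * f * ig) * hfc + 196 / 375 * h0 * f * (T - h0) * q3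

/-- **Quarter 2 near the large circle.** -/
theorem rq2_high {X : ℝ} (h1 : h0 ≤ T) (hT : T ≤ 3 / 2 * h0) (hX : f1p_v T ≤ X)
    (hX' : X ≤ c3f_v T) : rq2_v X T = a3q2_v T - (c3f_v T - X) * kyq2_v X T := by
  have hp := hpos
  have hh := h0_hi
  have hf := f1p_pos (T := T) (by linarith) (by linarith)
  have hX0 : 0 < X := by linarith
  show (if X ≤ 0 then -(rrq2_v (-X) T) else rrq2_v X T) = _
  rw [if_neg (by linarith), rrq2_eq]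
  have h' : c3f_v T - f2p_v T ≠ 0 := by
    have : 0 < c3f_v T - f2p_v T := by linarith [f2p_lt_c3 h1 hT]
    exact this.ne'
  refine high (f1p_lt_f2p (by linarith) (by linarith)) (f2p_lt_c3 h1 hT).le hX hX' ?_ ?_
  · intro h
    by_cases hT1 : 1 - T ≤ 0
    · rw [if_pos hT1, h]
      rfl
    · rw [if_neg hT1]
      rcases h1.eq_or_lt with hTh | hTh
      · have e1 : f1p_v T = 1 / 2 := by
          rw [← hTh, f1p_eq, c1_at_h0, sw_at_h0]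
          norm_num
        have e2 : c1f_v T = 1 / 2 := by rw [← hTh, c1_at_h0]
        have e3 : v1q2_v T = 1 / 2 := by
          show f1p_v T * b1q2_v T = 1 / 2
          rw [e1, ← hTh, b1_at_h0]
          norm_num
        rw [e2, e3]
        ring
      · have := c1_lt_f1p hTh (by linarith)
        rw [h, lam_self (by linarith)]
        ring
  · have e : s3q2_v T = (a3q2_v T - v2q2_v T) * (c3f_v T - f2p_v T)⁻¹ := rfl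
    show a3q2_v T - v2q2_v T = s3q2_v T * (c3f_v T - f2p_v T)
    rw [e, mul_assoc, inv_mul_cancel₀ h', mul_one]

theorem sgq2_eq (T : ℝ) : sgq2_v T = (v2q2_v T - v1q2_v T) * (f2p_v T - f1p_v T)⁻¹ := rfl

/-- The three cases of the regularised function. -/
theorem kx2p_a {X T : ℝ} (h1 : T ≤ 1) (h : T ≤ 9 / 8 * h0) : kx2p_v X T =
    (if X - f1p_v T ≤ 0 then -(196 / 375 * h0 * f1p_v T *
      (1 / 2 * ((T + h0) * (1 / 2 + c1f_v T)⁻¹ - (T - h0) * (1 + sw_v T)⁻¹))⁻¹) else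
      (sgq2_v T - 1) + min (max ((f1p_v T - c1f_v T) * (X - c1f_v T)⁻¹) 0) 1 *
        (-(196 / 375 * h0 * f1p_v T *
      (1 / 2 * ((T + h0) * (1 / 2 + c1f_v T)⁻¹ - (T - h0) * (1 + sw_v T)⁻¹))⁻¹) -
        (sgq2_v T - 1))) * (X + c1f_v T)⁻¹ := by
  show (if (T - (( ( 1 : ℕ ) : ℝ ))) ≤ 0 then (if (T - (( ( 9 : ℕ ) : ℝ ) / ( ( 16 : ℕ ) : ℝ ) * (Real.sqrt ( ( 3 : ℕ ) : ℝ )))) ≤ 0 then ((if (X - (f1p_v ( T ))) ≤ 0 then (- ( (((( ( 98 : ℕ ) : ℝ ) / ( ( 375 : ℕ ) : ℝ ) * (Real.sqrt ( ( 3 : ℕ ) : ℝ ))) * (f1p_v ( T ))) * (( (( ( 1 : ℕ ) : ℝ ) / ( ( 2 : ℕ ) : ℝ ) * (((T + (( ( 1 : ℕ ) : ℝ ) / ( ( 2 : ℕ ) : ℝ ) * (Real.sqrt ( ( 3 : ℕ ) : ℝ )))) * (( ((( ( 1 : ℕ ) : ℝ ) / ( ( 2 : ℕ ) : ℝ )) + (c1f_v ( T ))) ) ⁻¹)) - ((T - (( ( 1 : ℕ ) : ℝ ) / ( ( 2 : ℕ ) : ℝ ) * (Real.sqrt ( ( 3 : ℕ ) : ℝ )))) * (( ((( ( 1 : ℕ ) : ℝ )) + (sw_v ( T ))) )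 ⁻¹)))) ) ⁻¹)) )) else (((sgq2_v ( T )) - (( ( 1 : ℕ ) : ℝ ))) + ((min ( max ( ((f1p_v ( T )) - (c1f_v ( T ))) * ( (X - (c1f_v ( T ))) ) ⁻¹ ) 0 ) 1) * ((- ( (((( ( 98 : ℕ ) : ℝ ) / ( ( 375 : ℕ ) : ℝ ) * (Real.sqrt ( ( 3 : ℕ ) : ℝ ))) * (f1p_v ( T ))) * (( (( ( 1 : ℕ ) : ℝ ) / ( ( 2 : ℕ ) : ℝ ) * (((T + (( ( 1 : ℕ ) : ℝ ) / ( ( 2 : ℕ ) : ℝ ) * (Real.sqrt ( ( 3 : ℕ ) : ℝ )))) * (( ((( ( 1 : ℕ ) : ℝ ) / ( ( 2 : ℕ ) : ℝ )) + (c1f_v ( T ))) ) ⁻¹)) - ((T - (( ( 1 : ℕ ) : ℝ ) / ( ( 2 : ℕ ) : ℝ ) * (Real.sqrt ( ( 3 : ℕ ) : ℝ )))) * (( ((( ( 1 : ℕ ) : ℝ )) + (sw_v ( T ))) ) ⁻¹)))) ) ⁻¹)) )) - ((sgq2_v ( T )) - (( ( 1 : ℕ ) : ℝ ))))))) * (( (X + (c1f_v ( T ))) ) ⁻¹)) else (if (X - (f1p_v ( T ))) ≤ 0 then (- ( (((((( ( 49 : ℕ ) : ℝ ) / ( ( 1000 : ℕ ) : ℝ ) * (( ((( ( 1 : ℕ ) : ℝ )) - (( ( 9 : ℕ ) : ℝ ) / ( ( 16 : ℕ ) : ℝ ) * (Real.sqrt ( (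 3 : ℕ ) : ℝ )))) ) ⁻¹)) * (c1f_v ( T ))) * (min ( max ( (c1f_v ( T )) * ( (X + (c1f_v ( T ))) ) ⁻¹ ) 0 ) 1)) * (f1p_v ( T ))) * (( (((( ( 1 : ℕ ) : ℝ )) + T) * ((f1p_v ( T )) - (c1f_v ( T )))) ) ⁻¹)) )) else ((((sgq2_v ( T )) - (( ( 1 : ℕ ) : ℝ ))) + ((min ( max ( ((f1p_v ( T )) - (c1f_v ( T ))) * ( (X - (c1f_v ( T ))) ) ⁻¹ ) 0 ) 1) * ((((f1p_v ( T )) * ((b1q2_v ( T )) - (( ( 1 : ℕ ) : ℝ )))) * (( ((f1p_v ( T )) - (c1f_v ( T ))) ) ⁻¹)) - ((sgq2_v ( T )) - (( ( 1 : ℕ ) : ℝ )))))) * (( (X + (c1f_v ( T ))) ) ⁻¹)))) else (if (X - (f1p_v ( T ))) ≤ 0 then (- ( ((((( ( 1033 : ℕ ) : ℝ ) / ( ( 1000 : ℕ ) : ℝ ) * (( ((( ( 3 : ℕ ) : ℝ ) / ( ( 4 : ℕ ) : ℝ ) * (Real.sqrt ( ( 3 : ℕ ) : ℝ ))) - (( ( 1 : ℕ ) : ℝ ))) ) ⁻¹)) * X) * (min ( max ( ((( T ) ^ 2) - (( ( 1 : ℕ ) : ℝ ))) * ( (((( X ) ^ 2) + (( T ) ^ 2)) - (( ( 1 : ℕ ) : ℝ ))) ) ⁻¹ ) 0 )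 1)) * (( ((( ( 1 : ℕ ) : ℝ )) + T) ) ⁻¹)) )) else (((((f1p_v ( T )) * (b1q2_v ( T ))) + ((X - (f1p_v ( T ))) * (((sgq2_v ( T )) - (( ( 1 : ℕ ) : ℝ ))) + (( ( 1 : ℕ ) : ℝ ))))) - X) * (( (((( X ) ^ 2) + (( T ) ^ 2)) - (( ( 1 : ℕ ) : ℝ ))) ) ⁻¹)))) = _
  rw [if_pos (by rw [Nat.cast_one]; linarith), if_pos (by rw [s3c]; push_cast; linarith), s3c]
  push_cast
  rw [show (1 : ℝ) / 2 * (2 * h0) = h0 by ring,
    show (98 : ℝ) / 375 * (2 * h0) = 196 / 375 * h0 by ring]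

theorem kx2p_b {X T : ℝ} (h1 : T ≤ 1) (h : 9 / 8 * h0 < T) : kx2p_v X T =
    if X - f1p_v T ≤ 0 then -(49 / 1000 * (1 - 9 / 8 * h0)⁻¹ * c1f_v T *
      min (max (c1f_v T * (X + c1f_v T)⁻¹) 0) 1 * f1p_v T *
        ((1 + T) * (f1p_v T - c1f_v T))⁻¹) else
      ((sgq2_v T - 1) + min (max ((f1p_v T - c1f_v T) * (X - c1f_v T)⁻¹) 0) 1 *
        (f1p_v T * (b1q2_v T - 1) * (f1p_v T - c1f_v T)⁻¹ - (sgq2_v T - 1))) *
          (X + c1f_v T)⁻¹ := by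
  show (if (T - (( ( 1 : ℕ ) : ℝ ))) ≤ 0 then (if (T - (( ( 9 : ℕ ) : ℝ ) / ( ( 16 : ℕ ) : ℝ ) * (Real.sqrt ( ( 3 : ℕ ) : ℝ )))) ≤ 0 then ((if (X - (f1p_v ( T ))) ≤ 0 then (- ( (((( ( 98 : ℕ ) : ℝ ) / ( ( 375 : ℕ ) : ℝ ) * (Real.sqrt ( ( 3 : ℕ ) : ℝ ))) * (f1p_v ( T ))) * (( (( ( 1 : ℕ ) : ℝ ) / ( ( 2 : ℕ ) : ℝ ) * (((T + (( ( 1 : ℕ ) : ℝ ) / ( ( 2 : ℕ ) : ℝ ) * (Real.sqrt ( ( 3 : ℕ ) : ℝ )))) * (( ((( ( 1 : ℕ ) : ℝ ) / ( ( 2 : ℕ ) : ℝ )) + (c1f_v ( T ))) ) ⁻¹)) - ((T - (( ( 1 : ℕ ) : ℝ ) / ( ( 2 : ℕ ) : ℝ ) * (Real.sqrt ( ( 3 : ℕ ) : ℝ )))) * (( ((( ( 1 : ℕ ) : ℝ )) + (sw_v ( T ))) ) ⁻¹)))) ) ⁻¹)) )) else (((sgq2_v ( T )) - (( ( 1 : ℕ ) : ℝ ))) + ((min ( max ( ((f1p_v ( T )) - (c1f_v ( T ))) * ( (X - (c1f_v ( T ))) ) ⁻¹ ) 0 ) 1) * ((- ( (((( ( 98 : ℕ ) : ℝ ) / ( ( 375 : ℕ ) : ℝ ) * (Real.sqrt ( ( 3 : ℕ ) : ℝ ))) * (f1p_v ( T )))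 * (( (( ( 1 : ℕ ) : ℝ ) / ( ( 2 : ℕ ) : ℝ ) * (((T + (( ( 1 : ℕ ) : ℝ ) / ( ( 2 : ℕ ) : ℝ ) * (Real.sqrt ( ( 3 : ℕ ) : ℝ )))) * (( ((( ( 1 : ℕ ) : ℝ ) / ( ( 2 : ℕ ) : ℝ )) + (c1f_v ( T ))) ) ⁻¹)) - ((T - (( ( 1 : ℕ ) : ℝ ) / ( ( 2 : ℕ ) : ℝ ) * (Real.sqrt ( ( 3 : ℕ ) : ℝ )))) * (( ((( ( 1 : ℕ ) : ℝ )) + (sw_v ( T ))) ) ⁻¹)))) ) ⁻¹)) )) - ((sgq2_v ( T )) - (( ( 1 : ℕ ) : ℝ ))))))) * (( (X + (c1f_v ( T ))) ) ⁻¹)) else (if (X - (f1p_v ( T ))) ≤ 0 then (- ( (((((( ( 49 : ℕ ) : ℝ ) / ( ( 1000 : ℕ ) : ℝ ) * (( ((( ( 1 : ℕ ) : ℝ )) - (( ( 9 : ℕ ) : ℝ ) / ( ( 16 : ℕ ) : ℝ ) * (Real.sqrt ( ( 3 : ℕ ) : ℝ )))) ) ⁻¹)) * (c1f_v ( T ))) * (min ( max ( (c1f_v ( T )) * ( (X + (c1f_v ( T ))) ) ⁻¹ ) 0 ) 1)) * (f1p_v ( T ))) * (( (((( ( 1 : ℕ ) : ℝ )) + T) * ((f1p_v ( T )) - (c1f_v ( T )))) ) ⁻¹)) )) else ((((sgq2_v ( T )) - (( ( 1 : ℕ ) : ℝ )))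 + ((min ( max ( ((f1p_v ( T )) - (c1f_v ( T ))) * ( (X - (c1f_v ( T ))) ) ⁻¹ ) 0 ) 1) * ((((f1p_v ( T )) * ((b1q2_v ( T )) - (( ( 1 : ℕ ) : ℝ )))) * (( ((f1p_v ( T )) - (c1f_v ( T ))) ) ⁻¹)) - ((sgq2_v ( T )) - (( ( 1 : ℕ ) : ℝ )))))) * (( (X + (c1f_v ( T ))) ) ⁻¹)))) else (if (X - (f1p_v ( T ))) ≤ 0 then (- ( ((((( ( 1033 : ℕ ) : ℝ ) / ( ( 1000 : ℕ ) : ℝ ) * (( ((( ( 3 : ℕ ) : ℝ ) / ( ( 4 : ℕ ) : ℝ ) * (Real.sqrt ( ( 3 : ℕ ) : ℝ ))) - (( ( 1 : ℕ ) : ℝ ))) ) ⁻¹)) * X) * (min ( max ( ((( T ) ^ 2) - (( ( 1 : ℕ ) : ℝ ))) * ( (((( X ) ^ 2) + (( T ) ^ 2)) - (( ( 1 : ℕ ) : ℝ ))) ) ⁻¹ ) 0 ) 1)) * (( ((( ( 1 : ℕ ) : ℝ )) + T) ) ⁻¹)) )) else (((((f1p_v ( T )) * (b1q2_v ( T ))) + ((X - (f1p_v ( T ))) * (((sgq2_v ( T )) - (( ( 1 : ℕ ) : ℝ ))) + (( ( 1 : ℕ ) : ℝ ))))) - X) * (( (((( X ) ^ 2) + (( T ) ^ 2)) - (( ( 1 : ℕ ) : ℝ ))) ) ⁻¹)))) =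 _
  rw [if_pos (by rw [Nat.cast_one]; linarith), if_neg (by rw [s3c]; push_cast; linarith), s3c]
  push_cast
  rw [show (9 : ℝ) / 16 * (2 * h0) = 9 / 8 * h0 by ring]

theorem kx2p_c {X T : ℝ} (h1 : 1 < T) : kx2p_v X T =
    if X - f1p_v T ≤ 0 then -(1033 / 1000 * (3 / 2 * h0 - 1)⁻¹ * X *
      min (max ((T ^ 2 - 1) * (X ^ 2 + T ^ 2 - 1)⁻¹) 0) 1 * (1 + T)⁻¹) else
      (f1p_v T * b1q2_v T + (X - f1p_v T) * ((sgq2_v T - 1) + 1) - X) *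
        (X ^ 2 + T ^ 2 - 1)⁻¹ := by
  show (if (T - (( ( 1 : ℕ ) : ℝ ))) ≤ 0 then (if (T - (( ( 9 : ℕ ) : ℝ ) / ( ( 16 : ℕ ) : ℝ ) * (Real.sqrt ( ( 3 : ℕ ) : ℝ )))) ≤ 0 then ((if (X - (f1p_v ( T ))) ≤ 0 then (- ( (((( ( 98 : ℕ ) : ℝ ) / ( ( 375 : ℕ ) : ℝ ) * (Real.sqrt ( ( 3 : ℕ ) : ℝ ))) * (f1p_v ( T ))) * (( (( ( 1 : ℕ ) : ℝ ) / ( ( 2 : ℕ ) : ℝ ) * (((T + (( ( 1 : ℕ ) : ℝ ) / ( ( 2 : ℕ ) : ℝ ) * (Real.sqrt ( ( 3 : ℕ ) : ℝ )))) * (( ((( ( 1 : ℕ ) : ℝ ) / ( ( 2 : ℕ ) : ℝ )) + (c1f_v ( T ))) ) ⁻¹)) - ((T - (( ( 1 : ℕ ) : ℝ ) / ( ( 2 : ℕ ) : ℝ ) * (Real.sqrt ( ( 3 : ℕ ) : ℝ )))) * (( ((( ( 1 : ℕ ) : ℝ )) + (sw_v ( T ))) ) ⁻¹)))) ) ⁻¹)) )) else (((sgq2_v ( T )) - (( ( 1 : ℕ ) : ℝ ))) + ((min ( max ( ((f1p_v ( T )) - (c1f_v ( T ))) * ( (X - (c1f_v ( T ))) ) ⁻¹ ) 0 ) 1) * ((- ( (((( ( 98 : ℕ ) : ℝ ) / ( ( 375 : ℕ ) : ℝ ) * (Real.sqrt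 ( ( 3 : ℕ ) : ℝ ))) * (f1p_v ( T ))) * (( (( ( 1 : ℕ ) : ℝ ) / ( ( 2 : ℕ ) : ℝ ) * (((T + (( ( 1 : ℕ ) : ℝ ) / ( ( 2 : ℕ ) : ℝ ) * (Real.sqrt ( ( 3 : ℕ ) : ℝ )))) * (( ((( ( 1 : ℕ ) : ℝ ) / ( ( 2 : ℕ ) : ℝ )) + (c1f_v ( T ))) ) ⁻¹)) - ((T - (( ( 1 : ℕ ) : ℝ ) / ( ( 2 : ℕ ) : ℝ ) * (Real.sqrt ( ( 3 : ℕ ) : ℝ )))) * (( ((( ( 1 : ℕ ) : ℝ )) + (sw_v ( T ))) ) ⁻¹)))) ) ⁻¹)) )) - ((sgq2_v ( T )) - (( ( 1 : ℕ ) : ℝ ))))))) * (( (X + (c1f_v ( T ))) ) ⁻¹)) else (if (X - (f1p_v ( T ))) ≤ 0 then (- ( (((((( ( 49 : ℕ ) : ℝ ) / ( ( 1000 : ℕ ) : ℝ ) * (( ((( ( 1 : ℕ ) : ℝ )) - (( ( 9 : ℕ ) : ℝ ) / ( ( 16 : ℕ ) : ℝ ) * (Real.sqrt ( ( 3 : ℕ ) : ℝ )))) ) ⁻¹)) * (c1f_v ( T ))) * (min ( max ( (c1f_v ( T )) * ( (X + (c1f_v ( T ))) ) ⁻¹ ) 0 ) 1)) * (f1p_v ( T ))) * (( (((( ( 1 : ℕ ) : ℝ )) + T) * ((f1p_v ( T )) - (c1f_v ( T )))) ) ⁻¹)) )) else ((((sgq2_v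 ( T )) - (( ( 1 : ℕ ) : ℝ ))) + ((min ( max ( ((f1p_v ( T )) - (c1f_v ( T ))) * ( (X - (c1f_v ( T ))) ) ⁻¹ ) 0 ) 1) * ((((f1p_v ( T )) * ((b1q2_v ( T )) - (( ( 1 : ℕ ) : ℝ )))) * (( ((f1p_v ( T )) - (c1f_v ( T ))) ) ⁻¹)) - ((sgq2_v ( T )) - (( ( 1 : ℕ ) : ℝ )))))) * (( (X + (c1f_v ( T ))) ) ⁻¹)))) else (if (X - (f1p_v ( T ))) ≤ 0 then (- ( ((((( ( 1033 : ℕ ) : ℝ ) / ( ( 1000 : ℕ ) : ℝ ) * (( ((( ( 3 : ℕ ) : ℝ ) / ( ( 4 : ℕ ) : ℝ ) * (Real.sqrt ( ( 3 : ℕ ) : ℝ ))) - (( ( 1 : ℕ ) : ℝ ))) ) ⁻¹)) * X) * (min ( max ( ((( T ) ^ 2) - (( ( 1 : ℕ ) : ℝ ))) * ( (((( X ) ^ 2) + (( T ) ^ 2)) - (( ( 1 : ℕ ) : ℝ ))) ) ⁻¹ ) 0 ) 1)) * (( ((( ( 1 : ℕ ) : ℝ )) + T) ) ⁻¹)) )) else (((((f1p_v ( T )) * (b1q2_v ( T ))) + ((X - (f1p_v ( T ))) * (((sgq2_v ( T )) - (( ( 1 : ℕ ) : ℝ ))) + (( ( 1 : ℕ ) : ℝ ))))) - X) * (( (((( X ) ^ 2) + (( T ) ^ 2)) - ((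 ( 1 : ℕ ) : ℝ ))) ) ⁻¹)))) = _
  rw [if_neg (by rw [Nat.cast_one]; linarith), s3c]
  push_cast
  rw [show (3 : ℝ) / 4 * (2 * h0) = 3 / 2 * h0 by ring]

/-- The middle branch. -/
theorem mid {f1 f2 v1 v2 X : ℝ} (h : f1 < f2) (h1 : f1 ≤ X) (h2 : X ≤ f2) :
    v1 + min (max ((X - f1) * (f2 - f1)⁻¹) 0) 1 * (v2 - v1) =
      v1 + (X - f1) * ((v2 - v1) * (f2 - f1)⁻¹) := by
  have k1 := lam_eq (N := X - f1) (D := f2 - f1) (by linarith) (by linarith)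
  have k2 : (f2 - f1) * (f2 - f1)⁻¹ = 1 := by
    apply mul_inv_cancel₀
    have : 0 < f2 - f1 := by linarith
    exact this.ne'
  set L := min (max ((X - f1) * (f2 - f1)⁻¹) 0) 1
  set i := (f2 - f1)⁻¹
  clear_value L i
  linear_combination (v2 - v1) * i * k1 - (v2 - v1) * L * k2

theorem rrq2_low {X : ℝ} (h1 : h0 ≤ T) (hT : T ≤ 3 / 2 * h0) (hX0 : 0 ≤ X)
    (hv : 1 ≤ X ^ 2 + T ^ 2) (hX : X ≤ f2p_v T) :
    rrq2_v X T = X + (X ^ 2 + T ^ 2 - 1) * kx2p_v X T := by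
  have hp := hpos
  have hh := h0_hi
  have hh' := h0_lo
  have hq := h2
  have hf12 := f1p_lt_f2p (T := T) (by linarith) (by linarith)
  have hfp := f1p_pos (T := T) (by linarith) (by linarith)
  rcases le_or_gt T 1 with hT1 | hT1
  · have k1 := c1_sq' (T := T) (by nlinarith)
    have k4 := c1_nn T
    have hcX : c1f_v T ≤ X := by
      have : c1f_v T ^ 2 ≤ X ^ 2 := by nlinarith
      exact le_of_sq_le_sq this hX0
    have hN : X ^ 2 + T ^ 2 - 1 = (X - c1f_v T) * (X + c1f_v T) := by nlinarith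
    have hcf := c1_le_f1p (T := T) h1 (by linarith)
    rcases le_or_gt T (9 / 8 * h0) with hT9 | hT9
    · -- near the corner
      have hc0 : 0 < c1f_v T := by
        rw [c1f_eq]
        exact Real.sqrt_pos.2 (by nlinarith)
      have hXc : (X + c1f_v T) * (X + c1f_v T)⁻¹ = 1 := mul_inv_cancel₀ (by linarith)
      rw [kx2p_a hT1 hT9, rrq2_eq]
      have hl := low (a := c1f_v T) (v1 := v1q2_v T) (v2 := v2q2_v T)
        (Z := v2q2_v T + min (max ((X - f2p_v T) * (c3f_v T - f2p_v T)⁻¹) 0) 1 *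
      (a3q2_v T - v2q2_v T)) hcf hf12 hcX hX (slope2 h1 hT9)
      have hne : ¬ (1 - T ≤ 0) := by
        push Not
        nlinarith
      rw [if_neg hne, hl, ← sgq2_eq]
      set ra := -(196 / 375 * h0 * f1p_v T *
        (1 / 2 * ((T + h0) * (1 / 2 + c1f_v T)⁻¹ - (T - h0) * (1 + sw_v T)⁻¹))⁻¹)
      rw [hN]
      set iX := (X + c1f_v T)⁻¹
      set M := min (max ((f1p_v T - c1f_v T) * (X - c1f_v T)⁻¹) 0) 1
      by_cases hc : X - f1p_v T ≤ 0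
      · rw [if_pos hc, if_pos hc]
        linear_combination -(X - c1f_v T) * ra * hXc
      · rw [if_neg hc, if_neg hc]
        linear_combination -(X - c1f_v T) * (sgq2_v T - 1 + M * (ra - (sgq2_v T - 1))) * hXc
    · have hcf' : c1f_v T < f1p_v T := c1_lt_f1p (by linarith) (by linarith)
      have hd : (f1p_v T - c1f_v T) * (f1p_v T - c1f_v T)⁻¹ = 1 :=
        mul_inv_cancel₀ (by linarith)
      have eB : b1q2_v T - 1 = 49 / 1000 * (T - 1) * (1 - 9 / 8 * h0)⁻¹ := by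
        rw [b1q2_eq, if_pos (by linarith), if_neg (by linarith)]
        ring
      have ev : v1q2_v T = f1p_v T * b1q2_v T := rfl
      rw [kx2p_b hT1 hT9, rrq2_eq]
      by_cases hc : X - f1p_v T ≤ 0
      · rw [if_pos hc, if_pos hc]
        by_cases hT1' : 1 - T ≤ 0
        · have hT' : T = 1 := le_antisymm hT1 (by linarith)
          have hc0 : c1f_v T = 0 := c1_zero' (by linarith)
          have : b1q2_v T = 1 := by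
            rw [hT', sub_self, mul_zero, zero_mul] at eB
            rw [hT']
            linarith
          rw [if_pos hT1', this, hc0]
          ring
        · rw [if_neg hT1']
          push Not at hT1'
          have hc0 : 0 < c1f_v T := by
            rw [c1f_eq]
            exact Real.sqrt_pos.2 (by nlinarith)
          have hL := lam_eq (N := c1f_v T) (D := X + c1f_v T) (by linarith) (by linarith)
          have hK := lam_eq (N := X - c1f_v T) (D := f1p_v T - c1f_v T) (by linarith) (by linarith)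
          have h1T : (1 + T) * (1 + T)⁻¹ = 1 := mul_inv_cancel₀ (by linarith)
          rw [hN, mul_inv]
          set L := min (max (c1f_v T * (X + c1f_v T)⁻¹) 0) 1
          set K := min (max ((X - c1f_v T) * (f1p_v T - c1f_v T)⁻¹) 0) 1
          rw [ev]
          set c := c1f_v T
          set f := f1p_v T
          set B := b1q2_v T
          set i9 := (1 - 9 / 8 * h0)⁻¹
          set i1 := (1 + T)⁻¹
          set d := (f - c)⁻¹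
          clear_value L K i9 i1 d f c B
          have e1 : K = (X - c) * d := by linear_combination d * hK - K * hd
          rw [e1]
          linear_combination (X - c) * d * f * eB + (X - c) * hd +
            (49 / 1000 * (X - c) * i9 * c * f * i1 * d) * hL +
            (49 / 1000 * (X - c) * i9 * f * i1 * d) * k1 +
            (49 / 1000 * (X - c) * i9 * f * d * (1 - T)) * h1T
      · rw [if_neg hc, if_neg hc, if_pos (by linarith), mid hf12 (by linarith) hX, ← sgq2_eq]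
        have hXc0 : 0 < X + c1f_v T := by linarith
        have hXc : (X + c1f_v T) * (X + c1f_v T)⁻¹ = 1 := mul_inv_cancel₀ hXc0.ne'
        have hM := lam_eq (N := f1p_v T - c1f_v T) (D := X - c1f_v T) (by linarith) (by linarith)
        rw [hN]
        set iX := (X + c1f_v T)⁻¹
        set M := min (max ((f1p_v T - c1f_v T) * (X - c1f_v T)⁻¹) 0) 1
        rw [ev]
        set c := c1f_v T
        set f := f1p_v T
        set B := b1q2_v T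
        set σ := sgq2_v T
        set d := (f - c)⁻¹
        clear_value M iX d f c B σ
        linear_combination -(X - c) * (σ - 1 + M * (f * (B - 1) * d - (σ - 1))) * hXc -
          (f * (B - 1) * d - (σ - 1)) * hM - f * (B - 1) * hd
  · -- beyond the small circle
    rw [kx2p_c hT1, rrq2_eq]
    have hN : 0 < X ^ 2 + T ^ 2 - 1 := by nlinarith [sq_nonneg X]
    have hN' : (X ^ 2 + T ^ 2 - 1) * (X ^ 2 + T ^ 2 - 1)⁻¹ = 1 := mul_inv_cancel₀ hN.ne'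
    have h1T : (1 + T) * (1 + T)⁻¹ = 1 := mul_inv_cancel₀ (by linarith)
    by_cases hc : X - f1p_v T ≤ 0
    · rw [if_pos hc, if_pos hc, if_pos (by linarith)]
      have hL := lam_eq (N := T ^ 2 - 1) (D := X ^ 2 + T ^ 2 - 1) (by nlinarith)
        (by nlinarith [sq_nonneg X])
      have eB : b1q2_v T = 1 - 1033 / 1000 * (T - 1) * (3 / 2 * h0 - 1)⁻¹ := by
        rw [b1q2_eq, if_neg (by linarith)]
      rw [eB]
      set L := min (max ((T ^ 2 - 1) * (X ^ 2 + T ^ 2 - 1)⁻¹) 0) 1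
      set i1 := (1 + T)⁻¹
      set i3 := (3 / 2 * h0 - 1)⁻¹
      clear_value L i1 i3
      linear_combination (1033 / 1000 * X * i3 * i1) * hL + (1033 / 1000 * X * i3 * (T - 1)) * h1T
    · rw [if_neg hc, if_neg hc, if_pos (by linarith), mid hf12 (by linarith) hX, ← sgq2_eq]
      have ev : v1q2_v T = f1p_v T * b1q2_v T := rfl
      rw [ev]
      linear_combination -(f1p_v T * b1q2_v T + (X - f1p_v T) * (sgq2_v T - 1 + 1) - X) * hN'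

/-- **Quarter 2 near the small circle.** -/
theorem rq2_low {X : ℝ} (h1 : h0 ≤ T) (hT : T ≤ 3 / 2 * h0) (hv : 1 ≤ X ^ 2 + T ^ 2)
    (hX : |X| ≤ f2p_v T) : rq2_v X T = X + (X ^ 2 + T ^ 2 - 1) * kx2_v X T := by
  show (if X ≤ 0 then -(rrq2_v (-X) T) else rrq2_v X T) =
    X + (X ^ 2 + T ^ 2 - 1) * (if X ≤ 0 then -(kx2p_v (-X) T) else kx2p_v X T)
  rcases le_or_gt X 0 with h | h
  · rw [if_pos h, if_pos h]
    rw [abs_of_nonpos h] at hX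
    rw [rrq2_low h1 hT (by linarith) (by nlinarith) hX]
    ring
  · rw [if_neg (by linarith), if_neg (by linarith)]
    rw [abs_of_pos h] at hX
    exact rrq2_low h1 hT h.le hv hX

/-! ### Quarter 3 -/

theorem rrq3_eq (X T : ℝ) : rrq3_v X T =
    if X - f1p_v T ≤ 0 then X * b1q3_v T else
    if X - f2p_v T ≤ 0 then v1q3_v T + min (max ((X - f1p_v T) * (f2p_v T - f1p_v T)⁻¹) 0) 1 *
      (v2q3_v T - v1q3_v T) else
    v2q3_v T + min (max ((X - f2p_v T) * (c3f_v T - f2p_v T)⁻¹) 0) 1 *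
      (a3q3_v T - v2q3_v T) := rfl

/-- The two parts of the regularised function. -/
theorem kx3_eq (X T : ℝ) : kx3_v X T =
    if f2p_v T - X ≤ 0 then
      ((1 - min (max (X * (c3f_v T + X)⁻¹) 0) 1) *
        ((1 + c3f_v T * (2 * h0 * (2 * h0 + T))⁻¹) * (2 * (1 + T * (2 * h0)⁻¹ - c3f_v T))⁻¹ -
          489 / 250 * c3f_v T * (h0 * (2 * h0 + T))⁻¹) *
        (1 + c3f_v T * (T * ((2 * h0 + T) * (sw_v T + 1 / 2))⁻¹)) *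
        (1 - c3f_v T * (T * ((2 * h0 + T) * (sw_v T + 1 / 2))⁻¹))⁻¹ -
        min (max (X * (c3f_v T + X)⁻¹) 0) 1 *
          ((1 + T * (2 * h0)⁻¹ - c3f_v T) * (1 + T * (2 * h0)⁻¹ - X))⁻¹) else
      (1 - min (max ((c3f_v T - f2p_v T) * (c3f_v T - X)⁻¹) 0) 1) *
        (489 / 250 * c3f_v T * (1 - min (max (X * (c3f_v T + X)⁻¹) 0) 1) *
            (h0 * (2 * h0 + T))⁻¹ -
          ((1 + T * (2 * h0)⁻¹) * c3f_v T * (1 - min (max (X * (c3f_v T + X)⁻¹) 0) 1) *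
            (2 * h0 * (2 * h0 + T))⁻¹ + (1 + T * (2 * h0)⁻¹) -
            c3f_v T * min (max (X * (c3f_v T + X)⁻¹) 0) 1) *
            (2 * (1 + T * (2 * h0)⁻¹ - c3f_v T) * (1 + T * (2 * h0)⁻¹ - X))⁻¹ -
          (1 - min (max (X * (c3f_v T + X)⁻¹) 0) 1) *
            (T * ((2 * h0 + T) * (sw_v T + 1 / 2))⁻¹) * (b2q3_v T - b1q3_v T)) +
      min (max ((c3f_v T - f2p_v T) * (c3f_v T - X)⁻¹) 0) 1 *
      ((1 - min (max (X * (c3f_v T + X)⁻¹) 0) 1) *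
        ((1 + c3f_v T * (2 * h0 * (2 * h0 + T))⁻¹) * (2 * (1 + T * (2 * h0)⁻¹ - c3f_v T))⁻¹ -
          489 / 250 * c3f_v T * (h0 * (2 * h0 + T))⁻¹) *
        (1 + c3f_v T * (T * ((2 * h0 + T) * (sw_v T + 1 / 2))⁻¹)) *
        (1 - c3f_v T * (T * ((2 * h0 + T) * (sw_v T + 1 / 2))⁻¹))⁻¹ -
        min (max (X * (c3f_v T + X)⁻¹) 0) 1 *
          ((1 + T * (2 * h0)⁻¹ - c3f_v T) * (1 + T * (2 * h0)⁻¹ - X))⁻¹) := by
  show (if ((f2p_v ( T )) - X) ≤ 0 then ((((((( ( 1 : ℕ ) : ℝ )) - (min ( max ( X * ( ((c3f_v ( T )) + X) ) ⁻¹ ) 0 ) 1)) * ((((( ( 1 : ℕ ) : ℝ )) + ((c3f_v ( T )) * (( ((Real.sqrt ( ( 3 : ℕ ) : ℝ )) * ((Real.sqrt ( ( 3 : ℕ ) : ℝ )) + T)) ) ⁻¹))) * (( (( ( 2 : ℕ ) : ℝ ) * (((( ( 1 : ℕ ) : ℝ )) + (T * (( (Real.sqrt ( ( 3 : ℕ ) : ℝ )) ) ⁻¹))) - (c3f_v ( T )))) ) ⁻¹)) - ((( ( 489 : ℕ ) : ℝ ) / ( ( 250 : ℕ ) : ℝ ) * (c3f_v ( T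 ))) * (( ((( ( 1 : ℕ ) : ℝ ) / ( ( 2 : ℕ ) : ℝ ) * (Real.sqrt ( ( 3 : ℕ ) : ℝ ))) * ((Real.sqrt ( ( 3 : ℕ ) : ℝ )) + T)) ) ⁻¹)))) * ((( ( 1 : ℕ ) : ℝ )) + ((c3f_v ( T )) * (T * (( (((Real.sqrt ( ( 3 : ℕ ) : ℝ )) + T) * ((sw_v ( T )) + (( ( 1 : ℕ ) : ℝ ) / ( ( 2 : ℕ ) : ℝ )))) ) ⁻¹))))) * (( ((( ( 1 : ℕ ) : ℝ )) - ((c3f_v ( T )) * (T * (( (((Real.sqrt ( ( 3 : ℕ ) : ℝ )) + T) * ((sw_v ( T )) + (( ( 1 : ℕ ) : ℝ ) / ( ( 2 : ℕ ) : ℝ )))) ) ⁻¹)))) ) ⁻¹)) - ((min ( max ( X * ( ((c3f_v ( T )) + X) ) ⁻¹ ) 0 ) 1) * (( ((((( ( 1 : ℕ ) : ℝ )) + (T * (( (Real.sqrt ( ( 3 : ℕ ) : ℝ )) ) ⁻¹))) - (c3f_v ( T ))) * (((( ( 1 : ℕ ) : ℝ )) + (T * (( (Real.sqrt ( ( 3 : ℕ ) : ℝ )) ) ⁻¹))) - X)) ) ⁻¹))) else ((((( ( 1 : ℕ ) : ℝ )) - (min ( max ( ((c3f_v ( T )) - (f2p_v ( T ))) * ( ((c3f_v ( T )) - X) ) ⁻¹ ) 0 ) 1)) * (((((( ( 489 : ℕ ) : ℝ ) / ( ( 250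 : ℕ ) : ℝ ) * (c3f_v ( T ))) * ((( ( 1 : ℕ ) : ℝ )) - (min ( max ( X * ( ((c3f_v ( T )) + X) ) ⁻¹ ) 0 ) 1))) * (( ((( ( 1 : ℕ ) : ℝ ) / ( ( 2 : ℕ ) : ℝ ) * (Real.sqrt ( ( 3 : ℕ ) : ℝ ))) * ((Real.sqrt ( ( 3 : ℕ ) : ℝ )) + T)) ) ⁻¹)) - ((((((((( ( 1 : ℕ ) : ℝ )) + (T * (( (Real.sqrt ( ( 3 : ℕ ) : ℝ )) ) ⁻¹))) * (c3f_v ( T ))) * ((( ( 1 : ℕ ) : ℝ )) - (min ( max ( X * ( ((c3f_v ( T )) + X) ) ⁻¹ ) 0 ) 1))) * (( ((Real.sqrt ( ( 3 : ℕ ) : ℝ )) * ((Real.sqrt ( ( 3 : ℕ ) : ℝ )) + T)) ) ⁻¹)) + ((( ( 1 : ℕ ) : ℝ )) + (T * (( (Real.sqrt ( ( 3 : ℕ ) : ℝ )) ) ⁻¹)))) - ((c3f_v ( T )) * (min ( max ( X * ( ((c3f_v ( T )) + X) ) ⁻¹ ) 0 ) 1))) * (( ((( ( 2 : ℕ ) : ℝ ) * (((( ( 1 : ℕ ) : ℝ )) + (T * (( (Real.sqrt ( ( 3 : ℕ ) : ℝ )) ) ⁻¹))) - (c3f_v ( T )))) * (((( ( 1 : ℕ ) : ℝ )) + (T * (( (Real.sqrt ( ( 3 : ℕ ) : ℝ )) ) ⁻¹))) - X)) ) ⁻¹))) - (((((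 ( 1 : ℕ ) : ℝ )) - (min ( max ( X * ( ((c3f_v ( T )) + X) ) ⁻¹ ) 0 ) 1)) * (T * (( (((Real.sqrt ( ( 3 : ℕ ) : ℝ )) + T) * ((sw_v ( T )) + (( ( 1 : ℕ ) : ℝ ) / ( ( 2 : ℕ ) : ℝ )))) ) ⁻¹))) * ((b2q3_v ( T )) - (b1q3_v ( T )))))) + ((min ( max ( ((c3f_v ( T )) - (f2p_v ( T ))) * ( ((c3f_v ( T )) - X) ) ⁻¹ ) 0 ) 1) * ((((((( ( 1 : ℕ ) : ℝ )) - (min ( max ( X * ( ((c3f_v ( T )) + X) ) ⁻¹ ) 0 ) 1)) * ((((( ( 1 : ℕ ) : ℝ )) + ((c3f_v ( T )) * (( ((Real.sqrt ( ( 3 : ℕ ) : ℝ )) * ((Real.sqrt ( ( 3 : ℕ ) : ℝ )) + T)) ) ⁻¹))) * (( (( ( 2 : ℕ ) : ℝ ) * (((( ( 1 : ℕ ) : ℝ )) + (T * (( (Real.sqrt ( ( 3 : ℕ ) : ℝ )) ) ⁻¹))) - (c3f_v ( T )))) ) ⁻¹)) - ((( ( 489 : ℕ ) : ℝ ) / ( ( 250 : ℕ ) : ℝ ) * (c3f_v ( T ))) * (( ((( ( 1 : ℕ ) : ℝ ) / ( ( 2 : ℕ ) : ℝ ) * (Real.sqrt ( ( 3 : ℕ ) : ℝ ))) * ((Real.sqrt ( ( 3 : ℕ ) : ℝ )) + T)) ) ⁻¹)))) * ((( (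 1 : ℕ ) : ℝ )) + ((c3f_v ( T )) * (T * (( (((Real.sqrt ( ( 3 : ℕ ) : ℝ )) + T) * ((sw_v ( T )) + (( ( 1 : ℕ ) : ℝ ) / ( ( 2 : ℕ ) : ℝ )))) ) ⁻¹))))) * (( ((( ( 1 : ℕ ) : ℝ )) - ((c3f_v ( T )) * (T * (( (((Real.sqrt ( ( 3 : ℕ ) : ℝ )) + T) * ((sw_v ( T )) + (( ( 1 : ℕ ) : ℝ ) / ( ( 2 : ℕ ) : ℝ )))) ) ⁻¹)))) ) ⁻¹)) - ((min ( max ( X * ( ((c3f_v ( T )) + X) ) ⁻¹ ) 0 ) 1) * (( ((((( ( 1 : ℕ ) : ℝ )) + (T * (( (Real.sqrt ( ( 3 : ℕ ) : ℝ )) ) ⁻¹))) - (c3f_v ( T ))) * (((( ( 1 : ℕ ) : ℝ )) + (T * (( (Real.sqrt ( ( 3 : ℕ ) : ℝ )) ) ⁻¹))) - X)) ) ⁻¹)))))) = _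
  rw [s3c]
  push_cast
  rw [show (1 : ℝ) / 2 * (2 * h0) = h0 by ring]

/-- The curves near the top of the large circle. -/
theorem curves3 (h1 : 3 / 2 * h0 ≤ T) (hT : T < 2 * h0) :
    f1p_v T = c3f_v T ^ 2 * (T * ((2 * h0 + T) * (sw_v T + 1 / 2))⁻¹) / 2 ∧
    f2p_v T = c3f_v T * (1 + c3f_v T * (T * ((2 * h0 + T) * (sw_v T + 1 / 2))⁻¹)) / 2 := by
  have hp := hpos
  have hh := h0_hi
  have hh' := h0_lo
  have hq := h2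
  have k1 := c3_sq' (T := T) (by nlinarith)
  have k2 := sw_sq (T := T) (by linarith) (by linarith)
  have k3 := sw_half (T := T) (by linarith) (by linarith)
  have e1 := f1p_eq T
  have e2 := f2p_eq T
  have e3 : c1f_v T = 0 := c1_zero' (by linarith)
  rw [e1, e2, e3]
  set c := c3f_v T
  set w := sw_v T
  have q : (2 * h0 + T) * (w + 1 / 2) * ((2 * h0 + T) * (w + 1 / 2))⁻¹ = 1 := by
    apply mul_inv_cancel₀
    have : 0 < (2 * h0 + T) * (w + 1 / 2) := mul_pos (by linarith) (by linarith)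
    exact this.ne'
  set i := ((2 * h0 + T) * (w + 1 / 2))⁻¹
  clear_value i
  have e4 : c ^ 2 = (2 * h0 - T) * (2 * h0 + T) := by nlinarith
  have e5 : (w - 1 / 2) * (w + 1 / 2) = T * (2 * h0 - T) := by nlinarith
  have e6 : c ^ 2 * (T * i) = w - 1 / 2 := by
    rw [e4]
    linear_combination -(2 * h0 + T) * i * e5 + (w - 1 / 2) * q
  constructor
  · linear_combination -(1 / 2) * e6
  · linear_combination -(1 / 2) * e6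

theorem eta_lt (h1 : 3 / 2 * h0 ≤ T) (hT : T < 2 * h0) :
    0 < 1 - c3f_v T * (T * ((2 * h0 + T) * (sw_v T + 1 / 2))⁻¹) := by
  have hp := hpos
  have hh := h0_hi
  have hh' := h0_lo
  have hq := h2
  have k1 := c3_sq' (T := T) (by nlinarith)
  have k3 := sw_half (T := T) (by linarith) (by linarith)
  have k4 := c3_nn T
  have hc : c3f_v T ≤ 3 / 2 := by nlinarith
  set c := c3f_v T
  set w := sw_v T
  have hD : 0 < (2 * h0 + T) * (w + 1 / 2) := mul_pos (by linarith) (by linarith)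
  have : c * (T * ((2 * h0 + T) * (w + 1 / 2))⁻¹) = c * T / ((2 * h0 + T) * (w + 1 / 2)) := by
    ring
  rw [this, sub_pos, div_lt_one hD]
  nlinarith

theorem a3q3_E (h1 : 3 / 2 * h0 ≤ T) (hT : T < 2 * h0) :
    a3q3_v T = c3f_v T - c3f_v T * (1 + T * (2 * h0)⁻¹ - c3f_v T)⁻¹ := by
  have hp := hpos
  have hh := h0_hi
  have hh' := h0_lo
  have hq := h2
  have k1 := c3_sq' (T := T) (by nlinarith)
  have k4 := c3_nn T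
  have hc : c3f_v T < 3 / 2 := by nlinarith
  rw [a3q3_eq]
  set c := c3f_v T
  have i0 : (2 * h0)⁻¹ = 2 / 3 * h0 := by
    have : 2 * h0 ≠ 0 := by positivity
    field_simp
    nlinarith
  rw [i0]
  have hA : 0 < 1 + T * (2 / 3 * h0) - c := by nlinarith
  have hB : 0 < 4 * (T - h0) := by linarith
  have qA := mul_inv_cancel₀ hA.ne'
  have qB := mul_inv_cancel₀ hB.ne'
  set iA := (1 + T * (2 / 3 * h0) - c)⁻¹
  set iB := (4 * (T - h0))⁻¹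
  have key : -((2 * h0 * c - T) * (c + 3 - 2 * h0 * T)) * (1 + T * (2 / 3 * h0) - c) =
      c * (T * (2 / 3 * h0) - c) * (4 * (T - h0)) := by
    have e1 : 2 * h0 * (c + 3 - 2 * h0 * T) * (1 + T * (2 / 3 * h0) - c) =
        c * (4 * T - 4 * h0) := by
      linear_combination (16 / 3 * c * T - 8 / 3 * h0 * T ^ 2) * hq - 2 * h0 * k1
    linear_combination (T * (2 / 3 * h0) - c) * e1 -
      4 / 3 * T * (c + 3 - 2 * h0 * T) * (1 + T * (2 / 3 * h0) - c) * hq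
  clear_value iA iB
  have hx : -((2 * h0 * c - T) * (c + 3 - 2 * h0 * T) * iB) =
      c * (T * (2 / 3 * h0) - c) * iA := by
    linear_combination iA * iB * key + (2 * h0 * c - T) * (c + 3 - 2 * h0 * T) * iB * qA +
      c * (T * (2 / 3 * h0) - c) * iA * qB
  rw [hx]
  linear_combination c * qA

/-- Algebra of the two parts. -/
theorem parts3 {c X A L j k η B1 B2 ρ σ iA iX ie : ℝ} (hL : (c + X) * L = X)
    (qA : (A - c) * iA = 1) (qX : (A - X) * iX = 1) (qe : (1 - c * η) * ie = 1)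
    (hj : 2 - A = c ^ 2 * j) (hk : 1 / 2 - B2 = 489 / 250 * k * c ^ 2)
    (hρ : ρ * (1 - c * η) / 2 = 1 - iA - (1 + c * η) * B2 / 2)
    (hσ : σ = (1 + c * η) * B2 - c * η * B1) :
    (c + X) * ((1 - L) * ((1 + c * j) * (2⁻¹ * iA) - 489 / 250 * c * k) * (1 + c * η) * ie -
      L * (iA * iX)) = 1 - ρ - A * iA * iX ∧
    (c + X) * (489 / 250 * c * (1 - L) * k - (A * c * (1 - L) * j + A - c * L) *
      (2⁻¹ * iA * iX) - (1 - L) * η * (B2 - B1)) = 1 - σ - A * iA * iX := by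
  have hL' : (c + X) * (1 - L) = c := by linear_combination -hL
  have hP : c * ((1 + c * j) * (2⁻¹ * iA) - 489 / 250 * c * k) = iA - 1 + B2 := by
    linear_combination -(1 / 2) * iA * hj + hk - 1 / 2 * qA
  have e1 : (c + X) * ((1 - L) * ((1 + c * j) * (2⁻¹ * iA) - 489 / 250 * c * k) *
      (1 + c * η) * ie - L * (iA * iX)) = (iA - 1 + B2) * (1 + c * η) * ie - X * (iA * iX) := by
    linear_combination ((1 + c * j) * (2⁻¹ * iA) - 489 / 250 * c * k) * (1 + c * η) * ie * hL' -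
      iA * iX * hL + (1 + c * η) * ie * hP
  have e2 : ρ = 2 * (1 - iA - (1 + c * η) * B2 / 2) * ie := by
    linear_combination 2 * ie * hρ - ρ * qe
  constructor
  · rw [e1, e2]
    linear_combination (1 - iA) * qe + iA * qX
  · have e3 : (c + X) * (489 / 250 * c * (1 - L) * k - (A * c * (1 - L) * j + A - c * L) *
        (2⁻¹ * iA * iX) - (1 - L) * η * (B2 - B1)) =
        489 / 250 * c ^ 2 * k - (A * c ^ 2 * j + A * (c + X) - c * X) * (2⁻¹ * iA * iX) -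
          c * η * (B2 - B1) := by
      linear_combination (489 / 250 * c * k - A * c * j * (2⁻¹ * iA * iX) - η * (B2 - B1)) * hL' +
        c * (2⁻¹ * iA * iX) * hL
    rw [e3, hσ]
    linear_combination -hk + A * (2⁻¹ * iA * iX) * hj + 1 / 2 * (A - X) * iX * qA + 1 / 2 * qX

theorem parts3' {c X A L j k η B1 B2 ρ σ : ℝ} (hL : (c + X) * L = X)
    (qA : 0 < A - c) (qX : 0 < A - X) (qe : 0 < 1 - c * η)
    (hj : 2 - A = c ^ 2 * j) (hk : 1 / 2 - B2 = 489 / 250 * k * c ^ 2)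
    (hρ : ρ * (1 - c * η) / 2 = 1 - (A - c)⁻¹ - (1 + c * η) * B2 / 2)
    (hσ : σ = (1 + c * η) * B2 - c * η * B1) :
    (c + X) * ((1 - L) * ((1 + c * j) * (2 * (A - c))⁻¹ - 489 / 250 * c * k) * (1 + c * η) *
      (1 - c * η)⁻¹ - L * ((A - c) * (A - X))⁻¹) = 1 - ρ - A * (A - c)⁻¹ * (A - X)⁻¹ ∧
    (c + X) * (489 / 250 * c * (1 - L) * k - (A * c * (1 - L) * j + A - c * L) *
      (2 * (A - c) * (A - X))⁻¹ - (1 - L) * η * (B2 - B1)) =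
      1 - σ - A * (A - c)⁻¹ * (A - X)⁻¹ := by
  have h := parts3 hL (mul_inv_cancel₀ qA.ne') (mul_inv_cancel₀ qX.ne')
    (mul_inv_cancel₀ qe.ne') hj hk hρ hσ
  rw [mul_inv 2 (A - c), mul_inv (A - c) (A - X), mul_inv (2 * (A - c)) (A - X),
    mul_inv 2 (A - c)]
  exact h

/-- **Quarter 3 near the large circle.** -/
theorem rq3_high {X : ℝ} (h1 : 3 / 2 * h0 ≤ T) (hT : T < 2 * h0) (hX : f1p_v T ≤ X)
    (hX' : X ≤ c3f_v T) : rq3_v X T = X * (T * (2 * h0)⁻¹ - X) * (1 + T * (2 * h0)⁻¹ - X)⁻¹ +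
      (3 - X ^ 2 - T ^ 2) * kx3_v X T := by
  have hp := hpos
  have hh := h0_hi
  have hh' := h0_lo
  have hq := h2
  have k1 := c3_sq' (T := T) (by nlinarith)
  have k4 := c3_nn T
  have hf := f1p_pos (T := T) (by linarith) (by linarith)
  have hX0 : 0 < X := by linarith
  have hc0 : 0 < c3f_v T := by linarith
  have hc : c3f_v T < 3 / 2 := by nlinarith
  have hf12 := f1p_lt_f2p (T := T) (by linarith) (by linarith)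
  obtain ⟨hf1, hf2⟩ := curves3 h1 hT
  have he := eta_lt h1 hT
  have ha := a3q3_E h1 hT
  have i0 : (2 * h0)⁻¹ = 2 / 3 * h0 := by
    have : 2 * h0 ≠ 0 := by positivity
    field_simp
    nlinarith
  have hA : 0 < 1 + T * (2 * h0)⁻¹ - c3f_v T := by
    rw [i0]
    nlinarith
  have hAX : 0 < 1 + T * (2 * h0)⁻¹ - X := by linarith
  have hfc : f2p_v T ≤ c3f_v T := by
    rw [hf2]
    nlinarith
  show (if X ≤ 0 then -(rrq3_v (-X) T) else rrq3_v X T) = _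
  rw [if_neg (by linarith), rrq3_eq]
  have hcf : 0 < c3f_v T - f2p_v T := by
    rw [hf2]
    nlinarith
  have hρ0 : a3q3_v T - v2q3_v T = (a3q3_v T - v2q3_v T) * (c3f_v T - f2p_v T)⁻¹ *
      (c3f_v T - f2p_v T) := by
    rw [mul_assoc, inv_mul_cancel₀ hcf.ne', mul_one]
  rw [high (a := a3q3_v T) hf12 hfc hX hX' (fun h => by rw [h]; rfl) hρ0, kx3_eq]
  have hL := lam_eq (N := X) (D := c3f_v T + X) hX0.le (by linarith)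
  have hs : 0 < 2 * h0 + T := by linarith
  have hj : 2 - (1 + T * (2 * h0)⁻¹) = c3f_v T ^ 2 * (2 * h0 * (2 * h0 + T))⁻¹ := by
    rw [k1, i0]
    have q : 2 * h0 * (2 * h0 + T) * (2 * h0 * (2 * h0 + T))⁻¹ = 1 := by
      apply mul_inv_cancel₀
      positivity
    set j := (2 * h0 * (2 * h0 + T))⁻¹
    clear_value j
    linear_combination -(2 * h0 - T) * (2 / 3) * h0 * q +
      (-(4 / 3) + 4 / 3 * (2 * h0 - T) * (2 * h0 + T) * j + 4 * j) * hq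
  have hk : 1 / 2 - b2q3_v T = 489 / 250 * (h0 * (2 * h0 + T))⁻¹ * c3f_v T ^ 2 := by
    rw [k1, b2q3_eq]
    have q : h0 * (2 * h0 + T) * (h0 * (2 * h0 + T))⁻¹ = 1 := by
      apply mul_inv_cancel₀
      positivity
    set k := (h0 * (2 * h0 + T))⁻¹
    clear_value k
    linear_combination -(489 / 250) * (4 / 3) * h0 * (2 * h0 - T) * q +
      (489 / 250 * (4 / 3) * k * (2 * h0 - T) * (2 * h0 + T) + 489 / 250 * 4 * k -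
        489 / 250 * (8 / 3)) * hq
  have ev1 : v1q3_v T = f1p_v T * b1q3_v T := rfl
  have ev2 : v2q3_v T = f2p_v T * b2q3_v T := rfl
  have hρ1 : (a3q3_v T - v2q3_v T) * (c3f_v T - f2p_v T)⁻¹ *
      (1 - c3f_v T * (T * ((2 * h0 + T) * (sw_v T + 1 / 2))⁻¹)) / 2 =
      1 - (1 + T * (2 * h0)⁻¹ - c3f_v T)⁻¹ -
        (1 + c3f_v T * (T * ((2 * h0 + T) * (sw_v T + 1 / 2))⁻¹)) * b2q3_v T / 2 := by
    have e := hρ0
    rw [ev2, ha] at e ⊢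
    apply mul_left_cancel₀ hc0.ne'
    set ρ := (c3f_v T - c3f_v T * (1 + T * (2 * h0)⁻¹ - c3f_v T)⁻¹ - f2p_v T * b2q3_v T) *
      (c3f_v T - f2p_v T)⁻¹
    linear_combination -e + (ρ - b2q3_v T) * hf2
  have hσ1 : (v2q3_v T - v1q3_v T) * (f2p_v T - f1p_v T)⁻¹ =
      (1 + c3f_v T * (T * ((2 * h0 + T) * (sw_v T + 1 / 2))⁻¹)) * b2q3_v T -
        c3f_v T * (T * ((2 * h0 + T) * (sw_v T + 1 / 2))⁻¹) * b1q3_v T := by
    have e : f2p_v T - f1p_v T = c3f_v T / 2 := by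
      rw [hf1, hf2]
      ring
    rw [e, ev1, ev2]
    apply mul_right_cancel₀ (show c3f_v T / 2 ≠ 0 by positivity)
    rw [mul_assoc, inv_mul_cancel₀ (show c3f_v T / 2 ≠ 0 by positivity), mul_one]
    linear_combination b2q3_v T * hf2 - b1q3_v T * hf1
  obtain ⟨p1, p2⟩ := parts3' (c := c3f_v T) (X := X) (A := 1 + T * (2 * h0)⁻¹) hL
    hA hAX he hj hk hρ1 hσ1
  have qA := mul_inv_cancel₀ hA.ne'
  have qX := mul_inv_cancel₀ hAX.ne'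
  have e0 : a3q3_v T - X * (T * (2 * h0)⁻¹ - X) * (1 + T * (2 * h0)⁻¹ - X)⁻¹ =
      (c3f_v T - X) * (1 - (1 + T * (2 * h0)⁻¹) * (1 + T * (2 * h0)⁻¹ - c3f_v T)⁻¹ *
        (1 + T * (2 * h0)⁻¹ - X)⁻¹) := by
    rw [ha]
    set iA := (1 + T * (2 * h0)⁻¹ - c3f_v T)⁻¹
    set iX := (1 + T * (2 * h0)⁻¹ - X)⁻¹
    set u := T * (2 * h0)⁻¹
    clear_value iA iX u
    linear_combination (c3f_v T * iA - X) * qX - X * iX * qA
  have e1 : 3 - X ^ 2 - T ^ 2 = (c3f_v T - X) * (c3f_v T + X) := by nlinarith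
  rw [e1]
  by_cases hc2 : f2p_v T - X ≤ 0
  · rw [if_pos hc2, if_pos hc2]
    linear_combination e0 - (c3f_v T - X) * p1
  · rw [if_neg hc2, if_neg hc2]
    set M := min (max ((c3f_v T - f2p_v T) * (c3f_v T - X)⁻¹) 0) 1
    linear_combination e0 - (c3f_v T - X) * ((1 - M) * p2 + M * p1)

/-- The same with `√3`. -/
theorem rq3_high' {X : ℝ} (h1 : 3 / 2 * h0 ≤ T) (hT : T < 2 * h0) (hX : f1p_v T ≤ X)
    (hX' : X ≤ c3f_v T) : rq3_v X T = X * (T / Real.sqrt 3 - X) * (1 + T / Real.sqrt 3 - X)⁻¹ +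
      (3 - X ^ 2 - T ^ 2) * kx3_v X T := by
  rw [hs3, div_eq_mul_inv]
  exact rq3_high h1 hT hX hX'

end

end Pool.Agent.Strip051.LB.RegF
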